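import Pool.Agent.Helper14.Loc.Main
import Pool.Agent.Helper42.LT.Fin1

set_option autoImplicit false

/-!
# `δ(B_2)` kills `H^{n-2}(Γ(F, n) ⊗ ℚ)`, `F` algebraically closed: the homotopy argument

`Z = (t - 1) ∧ t ∧ z` has no residues, so it is `z₀ + ∑ (t - a) ∧ z_a` modulo coboundaries (`Surj`), the `z_a` are residues, so
coboundaries; specialisation at `t = 0` gives `z₀ = 0`, and at `t = c` the claim.
-/

noncomputable section

open Polynomial TensorProduct
open scoped Classical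

namespace Pool.Agent.NFF

open Helper14.Gon Helper14.W4 Helper14.Loc

universe u

variable {K : Type u} [Field K]

private lemma fk_sC_wC (c : K) (k j : ℕ) (v : Additive (RatFunc K)ˣ)
    (z : Cx (k + 2) j (RatFunc K)) :
    sC c k (j + 1) (wC (k + 2) j v z) = wC (k + 2) j (lcU c v) (sC c k j z) := by
  have : (sC c k (j + 1)) ∘ₗ (wC (k + 2) j v) = (wC (k + 2) j (lcU c v)) ∘ₗ (sC c k j) := by
    refine Cx_ext fun x ω => ?_
    rw [LinearMap.comp_apply, LinearMap.comp_apply, ← PB_gen, wC_PB, sC_PB, sC_PB, wC_PB, sT_wT]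
  exact LinearMap.congr_fun this z

private lemma fk_wC_zero {F : Type u} [Field F] (k j : ℕ) (z : Cx k j F) :
    wC k j (0 : Additive Fˣ) z = 0 := by
  rw [wC, wT_zero, mapT_zero]

private lemma fk_wC_neg_one {F : Type u} [Field F] (k j : ℕ) (z : Cx k j F) :
    wC k j (lg (-1 : F)) z = 0 := by
  rw [wC, wT_neg_one, mapT_zero]

private lemma fk_lc (c a : K) (h : c ≠ a) : lcU c (ee a) = lg (c - a) := by
  rw [ee, lcU_lg]
  congr 1
  have h1 := spec_poly c (Polynomial.X - C a : K[X])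
  rw [map_sub, RatFunc.algebraMap_X, RatFunc.algebraMap_C, eval_sub, eval_X, eval_C] at h1
  exact lc_of_spec h1 (sub_ne_zero.2 h)

private lemma fk_lc_zero : lcU (0 : K) (ee 0) = 0 := by
  rw [ee, lcU_lg]
  have h1 := lc_div (0 : K) (Polynomial.X : K[X]) 1
  rw [RatFunc.algebraMap_X, map_one, div_one] at h1
  have h2 : tcP (0 : K) (Polynomial.X : K[X]) = 1 := by
    change ((Polynomial.X : K[X]).comp (Polynomial.X + C 0)).trailingCoeff = 1
    rw [X_comp, C_0, add_zero]
    rw [trailingCoeff, natTrailingDegree_X, coeff_X_one]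
  have h3 : tcP (0 : K) (1 : K[X]) = 1 := map_one _
  rw [h2, h3, div_one] at h1
  rw [map_zero, sub_zero, h1]
  exact lg_one

/-- the residues of `(t - a) ∧ z` -/
private lemma fk_ct (k i : ℕ) (a b : K) (z : Cx (k + 2) i K) :
    ct (k + 2) i (va b) (wC (k + 2) i (ee a) (rC k i z)) =
      (if a = b then (1 : ℚ) else 0) • rC k i z := by
  cases i with
  | zero => rw [ct_wC_zero, va_ee]
  | succ i => rw [ct_wC, va_ee, ct_va_rC, map_zero, sub_zero]

private lemma fk_res (k j : ℕ) (b : K) (w : Cx (k + 3) (j + 1) (RatFunc K)) :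
    sC b k (j + 1) (ct (k + 2) (j + 1) (va b) (dC k (j + 1) w)) ∈ bdry K k (j + 1) := by
  rw [ld_cyc, map_sub, sC_ld, zero_sub, sC_dC]
  exact neg_mem ⟨_, rfl⟩

private lemma fk_Z (k i : ℕ) (b : K) (z : Cx (k + 2) i K) :
    sC b k (i + 1) (ct (k + 2) (i + 1) (va b)
      (wC (k + 2) (i + 1) (ee 1) (wC (k + 2) i (ee 0) (rC k i z)))) = 0 := by
  rw [ct_wC, fk_ct, va_ee, map_sub, map_smul, map_smul, map_smul, fk_sC_wC, fk_sC_wC, sC_rC]
  by_cases h1 : (1 : K) = b
  · rw [← h1, if_pos rfl, if_neg (zero_ne_one), fk_lc _ _ one_ne_zero, sub_zero, lg_one,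
      fk_wC_zero, smul_zero, zero_smul, sub_zero]
  · rw [if_neg h1, zero_smul, zero_sub]
    by_cases h0 : (0 : K) = b
    · rw [← h0, if_pos rfl, fk_lc _ _ zero_ne_one, zero_sub, fk_wC_neg_one, smul_zero, neg_zero]
    · rw [if_neg h0, zero_smul, neg_zero]

/-- the homotopy argument -/
theorem kill_Cx (k i : ℕ) (hS : Surj K k (i + 1)) (z : Cx (k + 2) i K) (hz : z ∈ cyc K k i)
    (c : K) (h0 : c ≠ 0) (h1 : c ≠ 1) :
    wC (k + 2) (i + 1) (lg (c - 1)) (wC (k + 2) i (lg c) z) ∈ bdry K k (i + 2) := by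
  have hzr : rC k i z ∈ cyc (RatFunc K) k i := by
    cases k with
    | zero =>
      change dT i _ = 0
      have h : dT i z = 0 := hz
      rw [rT_dT, h, map_zero]
    | succ k =>
      change dC k i _ = 0
      have h : dC k i z = 0 := hz
      have e := rC_dC k i z
      rw [h, map_zero] at e
      exact e
  obtain ⟨z0, s, za, w, hz0, hza, hZ⟩ := hS _
    (wC_cyc k (i + 1) (ee 1) (wC_cyc k i (ee 0) hzr))
  have hb : ∀ b ∈ s, za b ∈ bdry K k (i + 1) := by
    intro b hb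
    have h2 := fk_Z k i b z
    rw [hZ, map_add, map_add, map_add, ct_va_rC, zero_add] at h2
    have h3 : ct (k + 2) (i + 1) (va b)
        (∑ a ∈ s, wC (k + 2) (i + 1) (ee a) (rC k (i + 1) (za a))) = rC k (i + 1) (za b) := by
      rw [map_sum, Finset.sum_congr rfl fun a _ => fk_ct k (i + 1) a b (za a),
        Finset.sum_eq_single b]
      · rw [if_pos rfl, one_smul]
      · intro a _ hab
        rw [if_neg hab, zero_smul]
      · intro hbs
        exact absurd hb hbs
    rw [h3, sC_rC] at h2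
    rw [eq_neg_of_add_eq_zero_left h2]
    exact neg_mem (fk_res k i b w)
  have hs : ∀ e : K, wC (k + 2) (i + 1) (lcU e (ee 1)) (wC (k + 2) i (lcU e (ee 0)) z) - z0 ∈
      bdry K k (i + 2) := by
    intro e
    have h2 := congrArg (sC e k (i + 2)) hZ
    rw [fk_sC_wC, fk_sC_wC, sC_rC, map_add, map_add, sC_rC, sC_dC, map_sum] at h2
    have h6 : ∀ x y t : Cx (k + 2) (i + 2) K, x + y + t - x = y + t := fun x y t => by abel
    refine (congrArg (· ∈ bdry K k (i + 2)) ((congrArg (· - z0) h2).trans (h6 _ _ _))).mpr ?_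
    refine add_mem (sum_mem fun a ha => ?_) ⟨_, rfl⟩
    rw [fk_sC_wC, sC_rC]
    exact wC_bdry k (i + 1) _ (hb a ha)
  have h2 : z0 ∈ bdry K k (i + 2) := by
    have h3 := hs 0
    rw [fk_lc_zero, fk_wC_zero, map_zero, zero_sub] at h3
    exact neg_mem_iff.1 h3
  have h3 := hs c
  rw [fk_lc _ _ h1, fk_lc _ _ h0, sub_zero] at h3
  have h4 := add_mem h3 h2
  rwa [sub_add_cancel] at h4

theorem kill_one [IsAlgClosed K] (i : ℕ) (z : Cx (1 + 2) i K) (hz : z ∈ cyc K 1 i)
    (c : K) (h0 : c ≠ 0) (h1 : c ≠ 1) :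
    wC (1 + 2) (i + 1) (lg (c - 1)) (wC (1 + 2) i (lg c) z) ∈ bdry K 1 (i + 2) :=
  kill_Cx 1 i (Helper42.LT.surj_one (i + 1)) z hz c h0 h1

end Pool.Agent.NFF
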