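import Mathlib

set_option autoImplicit false

/-!
# Project NFF: definitions (see /team-store/nff_paper.md)

`K` is a number field, `𝓞 K` its ring of integers, `VV K = ℚ ⊗ K^*`.
-/

namespace NFF

open NumberField TensorProduct
open IsDedekindDomain (HeightOneSpectrum)

section field

variable (K : Type) [Field K]

/-- `K^* ⊗ ℚ` -/
abbrev VV : Type := ℚ ⊗[ℤ] Additive Kˣ

variable {K}

open Classical in
/-- the class of `x` in `K^* ⊗ ℚ` (`0` for `x = 0`) -/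
noncomputable def lg (x : K) : VV K :=
  if h : x = 0 then 0 else (1 : ℚ) ⊗ₜ[ℤ] Additive.ofMul (Units.mk0 x h)

/-- alternating bilinear forms -/
def Alt (A : VV K →ₗ[ℚ] VV K →ₗ[ℚ] ℚ) : Prop := ∀ v, A v v = 0

/-- alternating trilinear forms -/
def Alt3 (T : VV K →ₗ[ℚ] VV K →ₗ[ℚ] VV K →ₗ[ℚ] ℚ) : Prop :=
  (∀ a b, T a a b = 0) ∧ (∀ a b, T a b b = 0)

/-- `x ↦ A (1 - x) x` -/
noncomputable def dA (A : VV K →ₗ[ℚ] VV K →ₗ[ℚ] ℚ) (x : K) : ℚ := A (lg (1 - x)) (lg x)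

/-- five-term functions -/
structure Five (l : K → ℚ) : Prop where
  one : l 1 = 0
  sub : ∀ x : K, x ≠ 0 → x ≠ 1 → l (1 - x) = - l x
  inv : ∀ x : K, x ≠ 0 → x ≠ 1 → l x⁻¹ = - l x
  five : ∀ x y : K, x ≠ 0 → x ≠ 1 → y ≠ 0 → y ≠ 1 → x ≠ y →
    l x - l y + l (y / x) - l ((1 - x⁻¹) / (1 - y⁻¹)) + l ((1 - x) / (1 - y)) = 0

/-- admissible spaces of five-term functions -/
structure Fam (F : Submodule ℚ (K → ℚ)) : Prop where
  five : ∀ f ∈ F, Five f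
  del : ∀ A : VV K →ₗ[ℚ] VV K →ₗ[ℚ] ℚ, Alt A → dA A ∈ F
  fin : ∀ U : Submodule ℚ (VV K), FiniteDimensional ℚ U →
    ∃ X : Finset K, (∀ x ∈ X, x ≠ 0 ∧ x ≠ 1) ∧ ∀ f ∈ F, (∀ x ∈ X, f x = 0) →
      ∃ A : VV K →ₗ[ℚ] VV K →ₗ[ℚ] ℚ, Alt A ∧ (∀ x : K, x ≠ 0 → x ≠ 1 → f x = dA A x) ∧
        ∀ u ∈ U, ∀ v ∈ U, A u v = 0

end field

section numberfield

variable (K : Type) [Field K] [NumberField K]

/-- the nonzero prime ideals of `𝓞 K` -/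
abbrev Pr : Type := HeightOneSpectrum (𝓞 K)

/-- the degree -/
noncomputable def dg : ℕ := Module.finrank ℚ K

variable {K}

/-- the absolute norm of `P` -/
noncomputable def qn (P : Pr K) : ℕ := Ideal.absNorm P.asIdeal

open Classical in
/-- the order of `x` at `P` (`0` for `x = 0`) -/
noncomputable def od (P : Pr K) (x : K) : ℤ :=
  if h : x = 0 then 0 else - Multiplicative.toAdd (P.valuationOfNeZero (Units.mk0 x h))

/-- `S`-units -/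
def SU (S : Set (Pr K)) (x : K) : Prop := x ≠ 0 ∧ ∀ Q : Pr K, Q ∉ S → od Q x = 0

/-- the span of the `S`-units in `K^* ⊗ ℚ` -/
noncomputable def VS (S : Set (Pr K)) : Submodule ℚ (VV K) :=
  Submodule.span ℚ (lg '' {x | SU S x})

/-- `x` and `1 - x` are `S`-units -/
def TS (S : Set (Pr K)) (x : K) : Prop := SU S x ∧ SU S (1 - x)

/-- `z` is an `S ∪ {P}`-unit of order one at `P` -/
def PU (S : Set (Pr K)) (P : Pr K) (z : K) : Prop := SU (insert P S) z ∧ od P z = 1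

/-- `P` is the next prime after the primes of `S` -/
structure Adm (S : Set (Pr K)) (P : Pr K) : Prop where
  notMem : P ∉ S
  lower : ∀ Q : Pr K, qn Q < qn P → Q ∈ S
  le : ∀ Q ∈ S, qn Q ≤ qn P

/-- all primes of norm `< n` -/
def Low (K : Type) [Field K] [NumberField K] (n : ℕ) : Set (Pr K) := {Q | qn Q < n}

/-- the size of an integer: maximum of the absolute values of its coordinates -/
noncomputable def sz (x : 𝓞 K) : ℕ :=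
  Finset.univ.sup fun i => ((RingOfIntegers.basis K).repr x i).natAbs

variable (K)

/-- very small: size `≤ q^(1/3d)` -/
def Sml (q : ℕ) : Set (𝓞 K) := {x | x ≠ 0 ∧ sz x ^ (3 * dg K) ≤ q}

/-- tiny: size `≤ q^(1/2d)` -/
def Tin (q : ℕ) : Set (𝓞 K) := {x | x ≠ 0 ∧ sz x ^ (2 * dg K) ≤ q}

/-- medium: size `≤ q^(2/3d)` -/
def Me0 (q : ℕ) : Set (𝓞 K) := {x | x ≠ 0 ∧ sz x ^ (3 * dg K) ≤ q ^ 2}

/-- medium: size `≤ 2 q^(2/3d)` -/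
def Med (q : ℕ) : Set (𝓞 K) := {x | x ≠ 0 ∧ sz x ^ (3 * dg K) ≤ 2 ^ (3 * dg K) * q ^ 2}

variable {K}

/-- large `S`-units: size `≤ (C q)^(1/d)` -/
def Lrg (C : ℕ) (S : Set (Pr K)) (q : ℕ) : Set (𝓞 K) :=
  {x | x ≠ 0 ∧ sz x ^ dg K ≤ C * q ∧ SU S (x : K)}

/-- the products which are used -/
def Big (C : ℕ) (S : Set (Pr K)) (q : ℕ) : Set (𝓞 K) :=
  {M | (∃ x ∈ Med K q, ∃ y ∈ Med K q, ∃ e ∈ Tin K q, M = x * y * e) ∨
    (∃ x ∈ Lrg C S q, ∃ e ∈ Tin K q, ∃ z ∈ Sml K q, M = x * e * z)}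

/-- quotients `M / N` with `M ≡ N` modulo `P` -/
def Ub (C : ℕ) (S : Set (Pr K)) (P : Pr K) : Set K :=
  {u | ∃ M ∈ Big C S (qn P), ∃ N ∈ Big C S (qn P), M ≠ N ∧ M - N ∈ P.asIdeal ∧
    u = (M : K) / (N : K)}

/-- the two basic types of quotients of products -/
def Ty (C : ℕ) (S : Set (Pr K)) (q : ℕ) (M N : 𝓞 K) : Prop :=
  (∃ x ∈ Med K q, ∃ y ∈ Med K q, ∃ z ∈ Med K q, ∃ w ∈ Med K q, M = x * y ∧ N = z * w) ∨
    (∃ x ∈ Lrg C S q, ∃ e ∈ Tin K q, M = x * e ∧ N ∈ Tin K q)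

/-- basic quotients `M / N` with `M ≡ N` modulo `P` -/
def Ba (C : ℕ) (S : Set (Pr K)) (P : Pr K) : Set K :=
  {u | ∃ M N : 𝓞 K, Ty C S (qn P) M N ∧ M ≠ N ∧ M - N ∈ P.asIdeal ∧ u = (M : K) / (N : K)}

/-- levels: `S` contains all primes of norm `< n0` and consists of all primes of norm `< n` and
some primes of norm `n` -/
def IsLv (n0 : ℕ) (S : Set (Pr K)) : Prop :=
  Low K n0 ⊆ S ∧ ∃ n : ℕ, Low K n ⊆ S ∧ ∀ Q ∈ S, qn Q ≤ n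

/-- functions which vanish on the `x` with `x` or `1 - x` of nonzero order at `P` -/
structure Psi (S : Set (Pr K)) (P : Pr K) (ψ : K → ℚ) : Prop where
  five : Five ψ
  van : ∀ x : K, TS (insert P S) x → od P x ≠ 0 ∨ od P (1 - x) ≠ 0 → ψ x = 0

/-- the geometric input at one prime -/
structure Lev (C : ℕ) (S : Set (Pr K)) (P : Pr K) : Prop where
  unif : ∃ p : 𝓞 K, PU S P (p : K)
  one_sml : (1 : 𝓞 K) ∈ Sml K (qn P)
  sml_tin : Sml K (qn P) ⊆ Tin K (qn P)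
  tin_me0 : Tin K (qn P) ⊆ Me0 K (qn P)
  me0_med : Me0 K (qn P) ⊆ Med K (qn P)
  med_lrg : Med K (qn P) ⊆ Lrg C S (qn P)
  lrg_not : ∀ x ∈ Lrg C S (qn P), x ∉ P.asIdeal
  g1 : ∀ a : 𝓞 K, a ∉ P.asIdeal → ∃ e ∈ Tin K (qn P), ∃ e' ∈ Tin K (qn P),
    a * e - e' ∈ P.asIdeal
  g2 : ∀ a : 𝓞 K, a ∉ P.asIdeal → ∃ x ∈ Sml K (qn P), ∃ y ∈ Me0 K (qn P),
    a * x - y ∈ P.asIdeal
  g3 : ∀ a b : 𝓞 K, a ∉ P.asIdeal → b ∉ P.asIdeal → ∃ x ∈ Me0 K (qn P), ∃ y ∈ Me0 K (qn P),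
    ∃ z ∈ Me0 K (qn P), a * x - y ∈ P.asIdeal ∧ b * x - z ∈ P.asIdeal
  sub_me0 : ∀ x ∈ Me0 K (qn P), ∀ y ∈ Me0 K (qn P), x ≠ y → x - y ∈ Med K (qn P)
  sub_med : ∀ x ∈ Med K (qn P), ∀ y ∈ Med K (qn P), x ≠ y →
    x - y ∉ P.asIdeal ∧ SU S ((x - y : 𝓞 K) : K)
  close : ∀ M ∈ Big C S (qn P), ∀ N ∈ Big C S (qn P), M ≠ N → M - N ∈ P.asIdeal →
    PU S P ((M - N : 𝓞 K) : K)
  span_lrg : VS S = Submodule.span ℚ ((fun x : 𝓞 K => lg (x : K)) '' Lrg C S (qn P))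

end numberfield

end NFF
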