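import Pool.Agent.NFF.Glu
import Pool.Agent.NFF.Defs

set_option autoImplicit false

/-!
# The two admissible families of five-term functions

`FN N` is the space of the functions `x ↦ ψ({x})`, `ψ` a functional on `B_2(K) ⊗ ℚ` which kills
the subspace `N` of `ker δ_2`. It is admissible if `ker δ_2 / N` is finite-dimensional.
-/

namespace Pool.Agent.NFF

open scoped TensorProduct
open TensorProduct Pool.Agent.Helper91.Gon
open Helper14.Gon (P1 ZP br MU LM lgm elx ely BB CC TT clb gn tp dd dl RR CC_ext dd_gn dl_gn)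
open _root_.QGC (lq lq_mul vq_ext aq_eq bq_eq sq_zero' sq_inf')
open _root_.NFF (VV lg Alt dA Five Fam)

section lin

variable {A B C : Type*} [AddCommGroup A] [Module ℚ A] [AddCommGroup B] [Module ℚ B]
  [AddCommGroup C] [Module ℚ C]

/-- the preimage of a finitely generated subspace is finitely generated modulo the kernel -/
theorem comap_le (f : A →ₗ[ℚ] B) {L : Submodule ℚ B} (hL : L.FG) :
    ∃ E : Submodule ℚ A, E.FG ∧ L.comap f ≤ LinearMap.ker f ⊔ E := by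
  classical
  have h1 : (L ⊓ LinearMap.range f).FG := hL.of_le inf_le_left
  obtain ⟨t, ht⟩ := h1
  have h2 : ∀ b ∈ t, ∃ a, f a = b := by
    intro b hb
    have : b ∈ L ⊓ LinearMap.range f := by
      rw [← ht]
      exact Submodule.subset_span hb
    exact this.2
  choose! s hs using h2
  refine ⟨Submodule.span ℚ (t.image s : Finset A), ⟨t.image s, rfl⟩, fun a ha => ?_⟩
  have h3 : f a ∈ Submodule.map f (Submodule.span ℚ ((t.image s : Finset A) : Set A)) := by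
    rw [Submodule.map_span]
    have h4 : f a ∈ Submodule.span ℚ (t : Set B) := by
      rw [ht]
      exact ⟨ha, ⟨a, rfl⟩⟩
    refine Submodule.span_mono ?_ h4
    intro b hb
    refine ⟨s b, ?_, hs b hb⟩
    rw [Finset.coe_image]
    exact ⟨b, hb, rfl⟩
  obtain ⟨e, he, hfe⟩ := h3
  have h5 : a = (a - e) + e := by abel
  rw [h5]
  refine Submodule.add_mem_sup ?_ he
  rw [LinearMap.mem_ker, map_sub, hfe, sub_self]

/-- a finitely generated subspace is contained in the span of finitely many generators -/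
theorem fg_le_span {ι : Type*} {v : ι → A} (hv : Submodule.span ℚ (Set.range v) = ⊤)
    {E : Submodule ℚ A} (hE : E.FG) : ∃ S : Finset ι, E ≤ Submodule.span ℚ (v '' (S : Set ι)) := by
  classical
  obtain ⟨t, rfl⟩ := hE
  have h1 : ∀ a : A, ∃ c : ι →₀ ℚ, (c.sum fun i r => r • v i) = a := by
    intro a
    have : a ∈ Submodule.span ℚ (Set.range v) := by
      rw [hv]
      exact Submodule.mem_top
    exact Finsupp.mem_span_range_iff_exists_finsupp.1 this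
  choose c hc using h1
  refine ⟨t.biUnion fun a => (c a).support, Submodule.span_le.2 fun a ha => ?_⟩
  rw [SetLike.mem_coe, ← hc a, Finsupp.sum]
  refine Submodule.sum_mem _ fun i hi => Submodule.smul_mem _ _ (Submodule.subset_span ⟨i, ?_, rfl⟩)
  exact Finset.mem_coe.2 (Finset.mem_biUnion.2 ⟨a, ha, hi⟩)

/-- a functional which kills the kernel factors -/
theorem exists_factor (g : A →ₗ[ℚ] B) (ψ : A →ₗ[ℚ] ℚ) (h : LinearMap.ker g ≤ LinearMap.ker ψ) :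
    ∃ α : B →ₗ[ℚ] ℚ, ∀ a, α (g a) = ψ a := by
  let ψ1 : LinearMap.range g →ₗ[ℚ] ℚ :=
    (LinearMap.ker g).liftQ ψ h ∘ₗ g.quotKerEquivRange.symm.toLinearMap
  obtain ⟨α, hα⟩ := LinearMap.exists_extend ψ1
  refine ⟨α, fun a => ?_⟩
  have h1 : α (g a) = ψ1 ⟨g a, ⟨a, rfl⟩⟩ := LinearMap.congr_fun hα ⟨g a, ⟨a, rfl⟩⟩
  have h2 : g.quotKerEquivRange.symm ⟨g a, ⟨a, rfl⟩⟩ = Submodule.Quotient.mk a := by
    rw [LinearEquiv.symm_apply_eq]
    rfl
  rw [h1]
  change (LinearMap.ker g).liftQ ψ h (g.quotKerEquivRange.symm ⟨g a, ⟨a, rfl⟩⟩) = ψ a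
  rw [h2]
  rfl

end lin

variable {K : Type} [Field K]

theorem aq_lg (x : K) : Glue.aq (some x) = lg x := by
  rw [Glue.aq, lg]
  split_ifs with h
  · have : (elx (some x) : MU K) = 0 := by simp [elx, Option.elim, lgm, h]
    rw [this, TensorProduct.tmul_zero]
  · have : (elx (some x) : MU K) = Additive.ofMul (Units.mk0 x h) := by
      simp [elx, Option.elim, lgm, h]
    rw [this]

theorem bq_lg (x : K) : Glue.bq (some x) = lg (1 - x) := by
  rw [← aq_lg]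
  rfl

/-- the functions `x ↦ ψ({x})` with `ψ = 0` on `N` -/
def FN (N : Submodule ℚ (Glue.Bq 0 K)) : Submodule ℚ (K → ℚ) where
  carrier := {f | ∃ ψ : Glue.Bq 0 K →ₗ[ℚ] ℚ, (∀ c ∈ N, ψ c = 0) ∧
    ∀ x, f x = ψ (Glue.sq 0 (some x))}
  add_mem' := by
    rintro f g ⟨ψ, h1, h2⟩ ⟨ψ', h1', h2'⟩
    refine ⟨ψ + ψ', fun c hc => ?_, fun x => ?_⟩
    · rw [LinearMap.add_apply, h1 c hc, h1' c hc, add_zero]
    · rw [Pi.add_apply, LinearMap.add_apply, h2, h2']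
  zero_mem' := ⟨0, fun _ _ => rfl, fun _ => rfl⟩
  smul_mem' := by
    rintro a f ⟨ψ, h1, h2⟩
    refine ⟨a • ψ, fun c hc => ?_, fun x => ?_⟩
    · rw [LinearMap.smul_apply, h1 c hc, smul_zero]
    · rw [Pi.smul_apply, LinearMap.smul_apply, h2]

theorem FN_five {N : Submodule ℚ (Glue.Bq 0 K)} {f : K → ℚ} (hf : f ∈ FN N) : Five f := by
  obtain ⟨ψ, -, hψ⟩ := hf
  obtain rfl : f = fun x => ψ (Glue.sq 0 (some x)) := funext hψ
  obtain ⟨_, _, h1, h2, h3, h4⟩ := Pool.Agent.QGC.flib_field ψ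
  exact ⟨h1, fun x hx _ => h2 x hx, fun x hx _ => h3 x hx,
    fun x y hx hx1 hy hy1 _ => h4 x y hx hx1 hy hy1⟩

theorem FN_del {N : Submodule ℚ (Glue.Bq 0 K)} (hN : N ≤ LinearMap.ker Glue.d2q)
    {A : VV K →ₗ[ℚ] VV K →ₗ[ℚ] ℚ} (hA : Alt A) : dA A ∈ FN N := by
  let α : Lam (Glue.Vq K) 2 →ₗ[ℚ] ℚ := lift2 (V := Glue.Vq K) A hA
  refine ⟨α ∘ₗ Glue.d2q, fun c hc => ?_, fun x => ?_⟩
  · rw [LinearMap.comp_apply, LinearMap.mem_ker.1 (hN hc), map_zero]
  · rw [LinearMap.comp_apply, Glue.d2q_sq, aq_lg, bq_lg]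
    exact (lift2_w2 (V := Glue.Vq K) A hA (lg (1 - x)) (lg x)).symm

theorem FN_fin {N : Submodule ℚ (Glue.Bq 0 K)} {E0 : Submodule ℚ (Glue.Bq 0 K)} (hE0 : E0.FG)
    (hN : LinearMap.ker Glue.d2q ≤ N ⊔ E0) (U : Submodule ℚ (VV K))
    (hU : FiniteDimensional ℚ U) :
    ∃ X : Finset K, (∀ x ∈ X, x ≠ 0 ∧ x ≠ 1) ∧ ∀ f ∈ FN N, (∀ x ∈ X, f x = 0) →
      ∃ A : VV K →ₗ[ℚ] VV K →ₗ[ℚ] ℚ, Alt A ∧ (∀ x : K, x ≠ 0 → x ≠ 1 → f x = dA A x) ∧
        ∀ u ∈ U, ∀ v ∈ U, A u v = 0 := by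
  classical
  have hUfg : U.FG := Module.Finite.iff_fg.1 hU
  let L : Submodule ℚ (Lam (Glue.Vq K) 2) := Submodule.map₂ (ww (Glue.Vq K)) U U
  have hL : L.FG := hUfg.map₂ (ww (Glue.Vq K)) hUfg
  obtain ⟨E1, hE1, hE1'⟩ := comap_le (Glue.d2q : Glue.Bq 0 K →ₗ[ℚ] _) hL
  have hE : (E0 ⊔ E1).FG := hE0.sup hE1
  obtain ⟨S, hS⟩ := fg_le_span (Glue.sq_span 0) hE
  let X : Finset K := (S.image (fun x : P1 K => Option.getD x 0)).filter (fun t => t ≠ 0 ∧ t ≠ 1)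
  refine ⟨X, fun x hx => (Finset.mem_filter.1 hx).2, ?_⟩
  rintro f ⟨ψ, hψN, hψ⟩ hfX
  have hS0 : ∀ x ∈ S, ψ (Glue.sq 0 x) = 0 := by
    intro x hx
    rcases x with _ | t
    · have h1 : (Glue.sq 0 (Option.none : P1 K) : Glue.Bq 0 K) = 0 := sq_inf'
      rw [h1, map_zero]
    · by_cases h0 : t = 0
      · subst h0
        have h1 : (Glue.sq 0 (Option.some (0 : K)) : Glue.Bq 0 K) = 0 := sq_zero'
        rw [h1, map_zero]
      · by_cases h1 : t = 1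
        · subst h1
          have h1 : (Glue.sq 0 (Option.some (1 : K)) : Glue.Bq 0 K) = 0 := sq_one
          rw [h1, map_zero]
        · have h2 := hfX t (Finset.mem_filter.2 ⟨Finset.mem_image.2 ⟨_, hx, rfl⟩, h0, h1⟩)
          rw [hψ] at h2
          exact h2
  have hE2 : E0 ⊔ E1 ≤ LinearMap.ker ψ := by
    refine hS.trans (Submodule.span_le.2 ?_)
    rintro _ ⟨x, hx, rfl⟩
    exact hS0 x hx
  have hker : LinearMap.ker (L.mkQ ∘ₗ (Glue.d2q : Glue.Bq 0 K →ₗ[ℚ] _)) ≤ LinearMap.ker ψ := by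
    rw [LinearMap.ker_comp, Submodule.ker_mkQ]
    refine hE1'.trans (sup_le (hN.trans (sup_le ?_ (le_sup_left.trans hE2)))
      (le_sup_right.trans hE2))
    intro c hc
    exact hψN c hc
  obtain ⟨α, hα⟩ := exists_factor _ ψ hker
  let A : VV K →ₗ[ℚ] VV K →ₗ[ℚ] ℚ := (ww (Glue.Vq K)).compr₂ (α ∘ₗ L.mkQ)
  have hA : ∀ u v, A u v = α (L.mkQ (ww (Glue.Vq K) u v)) := fun u v => rfl
  refine ⟨A, fun v => ?_, fun x _ _ => ?_, fun u hu v hv => ?_⟩
  · rw [hA, ww_self, map_zero, map_zero]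
  · rw [hψ, ← hα, LinearMap.comp_apply, Glue.d2q_sq, aq_lg, bq_lg, dA, hA]
  · have h1 : ww (Glue.Vq K) u v ∈ L := Submodule.apply_mem_map₂ _ hu hv
    have h2 : L.mkQ (ww (Glue.Vq K) u v) = 0 := by
      rw [Submodule.mkQ_apply, Submodule.Quotient.mk_eq_zero]
      exact h1
    rw [hA, h2, map_zero]

/-- the families are admissible -/
theorem FN_fam {N : Submodule ℚ (Glue.Bq 0 K)} (hN : N ≤ LinearMap.ker Glue.d2q)
    {E0 : Submodule ℚ (Glue.Bq 0 K)} (hE0 : E0.FG) (hN2 : LinearMap.ker Glue.d2q ≤ N ⊔ E0) :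
    Fam (FN N) :=
  ⟨fun _ hf => FN_five hf, fun _ hA => FN_del hN hA, fun U hU => FN_fin hE0 hN2 U hU⟩

end Pool.Agent.NFF
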