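import Pool.Agent.NFF.GMul

set_option autoImplicit false

/-!
# Vanishing of `H^{n-1}(Γ(F, n) ⊗ ℚ)` for large `n`
-/

namespace Pool.Agent.NFF

open scoped TensorProduct
open TensorProduct Pool.Agent.Helper91.Gon
open Helper14.Gon (P1 ZP br MU LM lgm elx ely BB CC TT clb gn tp dd dl RR CC_ext dd_gn dl_gn)
open Helper14.Loc (HC HT ZC BC BT hc ht)
open _root_.QGC (lq lq_mul vq_ext aq_eq bq_eq sq_zero' sq_inf')

universe u

variable {F : Type u} [Field F]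

/-- `w' ⊗ δ w ∧ ω ≡ w ⊗ δ w' ∧ ω` modulo coboundaries -/
theorem kap_om (w w' : Glue.Bq 0 F) (j : ℕ) (ω : Lam (Glue.Vq F) j) :
    w' ⊗ₜ[ℚ] wdg2 (Glue.Vq F) j (Glue.d2q w) ω - w ⊗ₜ[ℚ] wdg2 (Glue.Vq F) j (Glue.d2q w') ω ∈
      PRu F (j + 1) := by
  let f : Lam (Glue.Vq F) j →ₗ[ℚ] Glue.Bq 0 F ⊗[ℚ] Lam (Glue.Vq F) (j + 2) :=
    TensorProduct.mk ℚ _ _ w' ∘ₗ wdg2 (Glue.Vq F) j (Glue.d2q w) -
      TensorProduct.mk ℚ _ _ w ∘ₗ wdg2 (Glue.Vq F) j (Glue.d2q w')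
  have hf : ∀ ω, f ω = w' ⊗ₜ[ℚ] wdg2 (Glue.Vq F) j (Glue.d2q w) ω -
      w ⊗ₜ[ℚ] wdg2 (Glue.Vq F) j (Glue.d2q w') ω := fun _ => rfl
  rw [← hf]
  refine Abs.Lam_span j ((PRu F (j + 1)).comap f) (fun v => ?_) ω
  rw [Submodule.mem_comap, hf]
  clear hf f ω
  induction j with
  | zero =>
    have h : ∀ η : Lam (Glue.Vq F) 2, wdg2 (Glue.Vq F) 0 η (Abs.iota 0 v) = η := by
      intro η
      have h1 : (wdg2 (Glue.Vq F) 0).flip (Abs.iota 0 v) = LinearMap.id := by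
        apply liftL_ext
        intro a b
        change wdg2 (Glue.Vq F) 0 (ww _ a b) (Abs.iota 0 v) = ww _ a b
        rw [wdg2_ww, Abs.wdg_iota, Abs.wdg_iota, ← Abs.iota_two]
        congr 1
        funext i
        fin_cases i <;> rfl
      exact LinearMap.congr_fun h1 η
    rw [h, h]
    exact kap w' w
  | succ j ih =>
    rw [iota_succ, wdg2_wdg, wdg2_wdg, ← yw_tmul, ← yw_tmul, ← map_sub]
    exact yw_PRu (j + 1) (v 0) _ (ih _)

/-- the action of `δ w` -/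
theorem kap_act (w : Glue.Bq 0 F) (j : ℕ) (z : Glue.Bq 0 F ⊗[ℚ] Lam (Glue.Vq F) j) :
    (wdg2 (Glue.Vq F) j (Glue.d2q w)).lTensor (Glue.Bq 0 F) z - w ⊗ₜ[ℚ] del Glue.d2q j z ∈
      PRu F (j + 1) := by
  induction z using TensorProduct.induction_on with
  | zero =>
    rw [map_zero, map_zero, TensorProduct.tmul_zero, sub_zero]
    exact Submodule.zero_mem _
  | tmul w' ω =>
    rw [LinearMap.lTensor_tmul, del_tmul]
    exact kap_om w w' j ω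
  | add a b ha hb =>
    rw [map_add, map_add, TensorProduct.tmul_add, add_sub_add_comm]
    exact Submodule.add_mem _ ha hb

/-- the ideal generated by `δ(B_2)` kills the cohomology -/
theorem am_PR (k i : ℕ) (θ : Glue.Bq 0 F ⊗[ℚ] Lam (Glue.Vq F) k)
    (z : Glue.Bq 0 F ⊗[ℚ] Lam (Glue.Vq F) i) (hz : del Glue.d2q i z = 0) :
    am (Glue.Vq F) (Glue.Bq 0 F) (k + 2) i (del Glue.d2q k θ) z ∈ PRu F (i + k + 1) := by
  induction θ using TensorProduct.induction_on with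
  | zero =>
    rw [map_zero, map_zero, LinearMap.zero_apply]
    exact Submodule.zero_mem _
  | tmul w a =>
    rw [del_tmul]
    have h1 := am_wdg2 (W := Glue.Bq 0 F) k i (Glue.d2q w) a z
    have h2 := kap_act w (i + k) (am (Glue.Vq F) (Glue.Bq 0 F) k i a z)
    rw [am_ker Glue.d2q k i a z hz, TensorProduct.tmul_zero, sub_zero, ← h1] at h2
    exact h2
  | add a b ha hb =>
    rw [map_add, map_add, LinearMap.add_apply]
    exact Submodule.add_mem _ ha hb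

/-- `δ` surjective in degree `k + 2` implies exactness in high degrees -/
theorem van {k : ℕ} (hd : Function.Surjective (del (Glue.d2q : Glue.Bq 0 F →ₗ[ℚ] _) k)) (t : ℕ)
    (z : Glue.Bq 0 F ⊗[ℚ] Lam (Glue.Vq F) (k + 1 + (k + t + 2)))
    (hz : del Glue.d2q (k + 1 + (k + t + 2)) z = 0) : z ∈ PRu F (k + 1 + (k + t) + 1) := by
  have h1 := gen_iter Glue.d2q hd (k + t + 2) z hz
  refine (Submodule.span_le.2 ?_) h1
  rintro _ ⟨a, ζ, hζ, rfl⟩
  obtain ⟨θ, rfl⟩ := surj_up Glue.d2q hd t a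
  exact am_PR (k + t) (k + 1) θ ζ hζ

theorem dl_surj {k : ℕ} (h : Subsingleton (HT F (k + 2))) :
    Function.Surjective (del (Glue.d2q : Glue.Bq 0 F →ₗ[ℚ] _) k) := by
  have h1 : LinearMap.range (dl k F) = ⊤ := by
    rw [eq_top_iff]
    intro t _
    have h2 : (Submodule.Quotient.mk t : TT (k + 2) F ⧸ BT F (k + 2)) = 0 :=
      @Subsingleton.elim _ h (Submodule.Quotient.mk t : TT (k + 2) F ⧸ BT F (k + 2)) 0
    exact (Submodule.Quotient.mk_eq_zero _).1 h2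
  intro η
  obtain ⟨z, hz⟩ : (Glue.Psi (k + 2) F).symm η ∈ LinearMap.range (dl k F) := by
    rw [h1]
    exact Submodule.mem_top
  refine ⟨Glue.Phi 0 k F z, ?_⟩
  have h2 : Glue.Psi (k + 2) F (dl k F z) = del Glue.d2q k (Glue.Phi 0 k F z) := Glue.Psi_dl k z
  rw [← h2, hz, LinearEquiv.apply_symm_apply]

/-- vanishing, from the surjectivity of `B_2 ⊗ Λ^k → Λ^{k+2}` -/
theorem vanish' {k : ℕ} (hd : Function.Surjective (del (Glue.d2q : Glue.Bq 0 F →ₗ[ℚ] _) k))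
    {i : ℕ} (hi : 2 * k + 3 ≤ i) : Subsingleton (HC F 0 i) := by
  obtain ⟨t, ht⟩ : ∃ t, i = k + 1 + (k + t) + 1 + 1 := ⟨i - (2 * k + 3), by omega⟩
  subst ht
  have h1 : ZC F 0 (k + 1 + (k + t) + 1 + 1) ≤ BC F 0 (k + 1 + (k + t) + 1 + 1) := by
    intro z hz
    have h2 : Glue.Psi (k + 1 + (k + t) + 1 + 1 + 2) F (dl (k + 1 + (k + t) + 1 + 1) F z) =
      del Glue.d2q (k + 1 + (k + t) + 1 + 1) (Glue.Phi 0 (k + 1 + (k + t) + 1 + 1) F z) :=
        Glue.Psi_dl _ z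
    have h3 : dl (k + 1 + (k + t) + 1 + 1) F z = 0 := hz
    rw [h3, map_zero] at h2
    obtain ⟨y, hy⟩ := van hd t (Glue.Phi 0 (k + 1 + (k + t) + 1 + 1) F z) h2.symm
    refine ⟨(Glue.Phi 1 (k + 1 + (k + t) + 1) F).symm y, ?_⟩
    apply (Glue.Phi 0 (k + 1 + (k + t) + 1 + 1) F).injective
    rw [Glue.Phi_dd, LinearEquiv.apply_symm_apply]
    exact hy
  refine ⟨fun a b => ?_⟩
  have h4 : ∀ a : HC F 0 (k + 1 + (k + t) + 1 + 1), a = 0 := by
    intro a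
    obtain ⟨z, rfl⟩ : ∃ z : ↥(ZC F 0 (k + 1 + (k + t) + 1 + 1)), hc z = a :=
      Submodule.Quotient.mk_surjective _ a
    exact (Submodule.Quotient.mk_eq_zero _).2 (h1 z.2)
  rw [h4 a, h4 b]

/-- **vanishing**: if `K^M_m(F) ⊗ ℚ = 0` then `H^{n-1}(Γ(F, n) ⊗ ℚ) = 0` for `n ≥ 2m + 1` -/
theorem vanish {m : ℕ} (hm : 2 ≤ m) (h : Subsingleton (HT F m)) {i : ℕ} (hi : 2 * m ≤ i + 1) :
    Subsingleton (HC F 0 i) := by
  obtain ⟨k, rfl⟩ : ∃ k, m = k + 2 := ⟨m - 2, by omega⟩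
  exact vanish' (dl_surj h) (by omega)

end Pool.Agent.NFF
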