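import Pool.Agent.NFF.GSur
import Pool.Agent.NFF.GVan
import Pool.Agent.NFF.GFam

set_option autoImplicit false

/-!
# `K^M_m(F) ⊗ ℚ` finite-dimensional
-/

namespace Pool.Agent.NFF

open scoped TensorProduct
open TensorProduct Pool.Agent.Helper91.Gon
open Helper14.Gon (P1 ZP br MU LM lgm elx ely BB CC TT clb gn tp dd dl RR CC_ext dd_gn dl_gn)
open Helper14.Loc (HC HT ZC BC BT hc ht)

universe u v

section sur

variable {V : Type u} [AddCommGroup V] [Module ℚ V] {W : Type v} [AddCommGroup W] [Module ℚ W]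
  {d2 : W →ₗ[ℚ] Lam V 2}

theorem le_sup_LU' {U : Submodule ℚ V} {m : ℕ}
    (h : ∀ ω : Lam V (m + 2), ω ∈ LinearMap.range (del d2 m) ⊔ LU U (m + 2)) (t : ℕ)
    (ω : Lam V (m + t + 2)) : ω ∈ LinearMap.range (del d2 (m + t)) ⊔ LU U (m + t + 2) := by
  induction t with
  | zero => exact h ω
  | succ t ih =>
    have hwd : ∀ (u : V), u ∈ U → ∀ l : Lam V (m + t + 2), l ∈ LU U (m + t + 2) →
        wdg V (m + t + 2) u l ∈ LU U (m + t + 3) := by
      intro u hu l hl
      have h3 : LU U (m + t + 2) ≤ (LU U (m + t + 3)).comap (wdg V (m + t + 2) u) := by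
        refine Submodule.span_le.2 ?_
        rintro _ ⟨w, hw, rfl⟩
        rw [SetLike.mem_coe, Submodule.mem_comap, Abs.wdg_iota]
        refine Submodule.subset_span ⟨_, fun i => ?_, rfl⟩
        refine Fin.cases ?_ (fun i => ?_) i
        · exact hu
        · exact hw i
      exact h3 hl
    refine Abs.Lam_span (m + t + 3) (LinearMap.range (del d2 (m + t + 1)) ⊔ LU U (m + t + 3))
      (fun w => ?_) ω
    rw [iota_succ]
    obtain ⟨_, ⟨θ, rfl⟩, l, hl, hθ⟩ := Submodule.mem_sup.1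
      (ih (Abs.iota (m + t + 2) fun i => w i.succ))
    rw [← hθ, map_add]
    refine Submodule.add_mem _
      (Submodule.mem_sup_left ⟨yw W (m + t) (w 0) θ, del_yw d2 (m + t) (w 0) θ⟩) ?_
    clear hθ
    induction hl using Submodule.span_induction with
    | mem l hl =>
      obtain ⟨u, hu, rfl⟩ := hl
      rw [iota_succ (m + t + 1) u, wdg_anti]
      obtain ⟨_, ⟨θ', rfl⟩, l', hl', hθ'⟩ := Submodule.mem_sup.1
        (ih (wdg V (m + t + 1) (w 0) (Abs.iota (m + t + 1) fun i => u i.succ)))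
      rw [← hθ', map_add]
      exact Submodule.neg_mem _ (Submodule.add_mem _
        (Submodule.mem_sup_left ⟨yw W (m + t) (u 0) θ', del_yw d2 (m + t) (u 0) θ'⟩)
        (Submodule.mem_sup_right (hwd _ (hu 0) _ hl')))
    | zero =>
      rw [map_zero]
      exact Submodule.zero_mem _
    | add a b _ _ ha hb =>
      rw [map_add]
      exact Submodule.add_mem _ ha hb
    | smul c a _ ha =>
      rw [map_smul]
      exact Submodule.smul_mem _ c ha

theorem exists_surj' {U : Submodule ℚ V} (hU : FiniteDimensional ℚ U) {m : ℕ}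
    (h : ∀ ω : Lam V (m + 2), ω ∈ LinearMap.range (del d2 m) ⊔ LU U (m + 2)) :
    Function.Surjective (del d2 (m + Module.finrank ℚ U)) := by
  rw [← LinearMap.range_eq_top, eq_top_iff]
  intro ω _
  have h := le_sup_LU' h (Module.finrank ℚ U) ω
  rw [LU_bot hU (by omega), sup_bot_eq] at h
  exact h

end sur

variable {F : Type u} [Field F]

theorem mem_dl (m : ℕ) (z : TT (m + 2) F) : z ∈ LinearMap.range (dl m F) ↔
    Glue.Psi (m + 2) F z ∈ LinearMap.range (del (Glue.d2q : Glue.Bq 0 F →ₗ[ℚ] _) m) := by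
  constructor
  · rintro ⟨y, rfl⟩
    exact ⟨Glue.Phi 0 m F y, (Glue.Psi_dl m y).symm⟩
  · rintro ⟨y, hy⟩
    refine ⟨(Glue.Phi 0 m F).symm y, ?_⟩
    apply (Glue.Psi (m + 2) F).injective
    refine (Glue.Psi_dl m _).trans ?_
    rw [LinearEquiv.apply_symm_apply]
    exact hy

theorem exists_U {m : ℕ} (h : Module.Finite ℚ (HT F (m + 2))) :
    ∃ U : Submodule ℚ (Glue.Vq F), FiniteDimensional ℚ U ∧
      ∀ ω : Lam (Glue.Vq F) (m + 2),
        ω ∈ LinearMap.range (del (Glue.d2q : Glue.Bq 0 F →ₗ[ℚ] _) m) ⊔ LU U (m + 2) := by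
  classical
  let q : Lam (Glue.Vq F) (m + 2) →ₗ[ℚ] HT F (m + 2) :=
    (show TT (m + 2) F →ₗ[ℚ] HT F (m + 2) from (BT F (m + 2)).mkQ) ∘ₗ
      (Glue.Psi (m + 2) F).symm.toLinearMap
  have hq : Function.Surjective q :=
    (Submodule.mkQ_surjective (BT F (m + 2))).comp (Glue.Psi (m + 2) F).symm.surjective
  have hk : ∀ ω, q ω = 0 → ω ∈ LinearMap.range (del (Glue.d2q : Glue.Bq 0 F →ₗ[ℚ] _) m) := by
    intro ω hω
    have h1 : (Glue.Psi (m + 2) F).symm ω ∈ LinearMap.range (dl m F) :=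
      (Submodule.Quotient.mk_eq_zero _).1 hω
    rw [mem_dl, LinearEquiv.apply_symm_apply] at h1
    exact h1
  have hsp : Submodule.span ℚ
      (Set.range fun w : Fin (m + 2) → Glue.Vq F => q (Abs.iota (m + 2) w)) = ⊤ := by
    rw [eq_top_iff]
    intro a _
    obtain ⟨ω, rfl⟩ := hq a
    refine Abs.Lam_span (m + 2) ((Submodule.span ℚ
      (Set.range fun w : Fin (m + 2) → Glue.Vq F => q (Abs.iota (m + 2) w))).comap q)
      (fun w => Submodule.subset_span ⟨w, rfl⟩) ω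
  obtain ⟨S, hS⟩ := fg_le_span hsp (Module.Finite.fg_top (R := ℚ) (M := HT F (m + 2)))
  let X : Finset (Glue.Vq F) := S.biUnion fun w => Finset.univ.image w
  refine ⟨Submodule.span ℚ (X : Set (Glue.Vq F)), FiniteDimensional.span_finset ℚ X, fun ω => ?_⟩
  have h2 : q ω ∈ Submodule.map q (LU (Submodule.span ℚ (X : Set (Glue.Vq F))) (m + 2)) := by
    refine (?_ : Submodule.span ℚ ((fun w : Fin (m + 2) → Glue.Vq F => q (Abs.iota (m + 2) w)) ''
      (S : Set _)) ≤ _) (hS (Submodule.mem_top (x := q ω)))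
    refine Submodule.span_le.2 ?_
    rintro _ ⟨w, hw, rfl⟩
    refine ⟨Abs.iota (m + 2) w, Submodule.subset_span ⟨w, fun i => ?_, rfl⟩, rfl⟩
    refine Submodule.subset_span (Finset.mem_coe.2 (Finset.mem_biUnion.2 ⟨w, hw, ?_⟩))
    exact Finset.mem_image.2 ⟨i, Finset.mem_univ _, rfl⟩
  obtain ⟨l, hl, hlω⟩ := h2
  have h3 : ω = (ω - l) + l := by abel
  rw [h3]
  refine Submodule.add_mem_sup (hk _ ?_) hl
  rw [map_sub, hlω, sub_self]

/-- `K^M_m(F) ⊗ ℚ` finite-dimensional: vanishing for large `n` -/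
theorem vanish_fd {m : ℕ} (hm : 2 ≤ m) (h : Module.Finite ℚ (HT F m)) :
    ∃ N : ℕ, ∀ i : ℕ, N ≤ i → Subsingleton (HC F 0 i) ∧ Subsingleton (HT F i) := by
  obtain ⟨k, rfl⟩ : ∃ k, m = k + 2 := ⟨m - 2, by omega⟩
  obtain ⟨U, hU, h2⟩ := exists_U h
  have hd := exists_surj' hU h2
  refine ⟨2 * (k + Module.finrank ℚ U) + 3, fun i hi => ⟨vanish' hd hi, ?_⟩⟩
  obtain ⟨t, rfl⟩ : ∃ t, i = k + Module.finrank ℚ U + t + 2 :=
    ⟨i - (k + Module.finrank ℚ U) - 2, by omega⟩
  have hd2 := surj_up Glue.d2q hd t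
  refine ⟨fun a b => ?_⟩
  have h4 : ∀ a : HT F (k + Module.finrank ℚ U + t + 2), a = 0 := by
    intro a
    obtain ⟨z, rfl⟩ : ∃ z : TT (k + Module.finrank ℚ U + t + 2) F, ht z = a :=
      Submodule.Quotient.mk_surjective _ a
    exact (Submodule.Quotient.mk_eq_zero _).2 ((mem_dl _ z).2 (hd2 _))
  rw [h4 a, h4 b]

end Pool.Agent.NFF
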