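import Pool.Agent.NFF.HCl
import Pool.Agent.NFF.GFd

set_option autoImplicit false

/-!
# Vanishing of `H^{n-c}(Γ(F, n) ⊗ ℚ)` for large `n` from the action of the Steinberg symbols
-/

namespace Pool.Agent.NFF

open scoped TensorProduct
open TensorProduct Pool.Agent.Helper91.Gon
open Helper14.Gon (P1 ZP br MU LM lgm elx ely BB CC TT clb gn tp dd dl RR CC_ext dd_gn dl_gn)
open Helper14.Loc (HC HT ZC BC BT hc ht us us_gn)

universe u

section mods

variable (F : Type u) [Field F]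

/-- the Steinberg symbols `{1 - x, x}` kill the cohomology groups `H^{j+1}(Γ(F, k+j+2) ⊗ ℚ)` -/
def Mod (k : ℕ) : Prop := ∀ x : F, x ≠ 0 → x ≠ 1 → ∀ (j : ℕ) (z : CC k j F), z ∈ ZC F k j →
  us k (j + 1) (RingHom.id F) (ely (some x)) (us k j (RingHom.id F) (elx (some x)) z) ∈
    BC F k (j + 2)

/-- cocycles -/
noncomputable def Zt : ∀ (p j : ℕ), Submodule ℚ (Glue.Bq p F ⊗[ℚ] Lam (Glue.Vq F) j)
  | 0, j => LinearMap.ker (del (Glue.d2q : Glue.Bq 0 F →ₗ[ℚ] _) j)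
  | p + 1, j => LinearMap.ker
      (Abs.diffS (V := Glue.Vq F) (B := fun n => Glue.Bq n F) Glue.dSq p j)

/-- coboundaries -/
noncomputable def Rt : ∀ (p j : ℕ), Submodule ℚ (Glue.Bq p F ⊗[ℚ] Lam (Glue.Vq F) j)
  | _, 0 => ⊥
  | p, j + 1 => LinearMap.range
      (Abs.diffS (V := Glue.Vq F) (B := fun n => Glue.Bq n F) Glue.dSq p j)

end mods

variable {F : Type u} [Field F]

theorem diffS_yw (p j : ℕ) (y : Glue.Vq F) (t : Glue.Bq (p + 1) F ⊗[ℚ] Lam (Glue.Vq F) j) :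
    Abs.diffS (V := Glue.Vq F) (B := fun n => Glue.Bq n F) Glue.dSq p (j + 1)
      (yw (Glue.Bq (p + 1) F) j y t) = - yw (Glue.Bq p F) (j + 1) y
        (Abs.diffS (V := Glue.Vq F) (B := fun n => Glue.Bq n F) Glue.dSq p j t) := by
  have h := Abs.BL_ext (s := fun n => (Glue.sq n : P1 F → Glue.Bq n F)) (fun n => Glue.sq_span n)
    (p + 1) (L := Lam (Glue.Vq F) j)
    (f := Abs.diffS (V := Glue.Vq F) (B := fun n => Glue.Bq n F) Glue.dSq p (j + 1) ∘ₗ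
      yw (Glue.Bq (p + 1) F) j y)
    (g := - (yw (Glue.Bq p F) (j + 1) y ∘ₗ
      Abs.diffS (V := Glue.Vq F) (B := fun n => Glue.Bq n F) Glue.dSq p j)) (fun x ω => by
      rw [LinearMap.comp_apply, yw_tmul, LinearMap.neg_apply, LinearMap.comp_apply]
      rw [Abs.diffS_s (V := Glue.Vq F) (B := fun n => Glue.Bq n F) (s := fun n => Glue.sq n)
        (a := Glue.aq) (dS := Glue.dSq) Glue.dSq_sq p (j + 1) x,
        Abs.diffS_s (V := Glue.Vq F) (B := fun n => Glue.Bq n F) (s := fun n => Glue.sq n)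
        (a := Glue.aq) (dS := Glue.dSq) Glue.dSq_sq p j x]
      rw [yw_tmul, wdg_anti, TensorProduct.tmul_neg]) t
  exact h

theorem diffS_diffS (p j : ℕ) (t : Glue.Bq (p + 2) F ⊗[ℚ] Lam (Glue.Vq F) j) :
    Abs.diffS (V := Glue.Vq F) (B := fun n => Glue.Bq n F) Glue.dSq p (j + 1)
      (Abs.diffS (V := Glue.Vq F) (B := fun n => Glue.Bq n F) Glue.dSq (p + 1) j t) = 0 := by
  have h := Abs.BL_ext (s := fun n => (Glue.sq n : P1 F → Glue.Bq n F)) (fun n => Glue.sq_span n)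
    (p + 2) (L := Lam (Glue.Vq F) j)
    (f := Abs.diffS (V := Glue.Vq F) (B := fun n => Glue.Bq n F) Glue.dSq p (j + 1) ∘ₗ
      Abs.diffS (V := Glue.Vq F) (B := fun n => Glue.Bq n F) Glue.dSq (p + 1) j)
    (g := 0) (fun x ω => by
      rw [LinearMap.comp_apply, LinearMap.zero_apply]
      rw [Abs.diffS_s (V := Glue.Vq F) (B := fun n => Glue.Bq n F) (s := fun n => Glue.sq n)
        (a := Glue.aq) (dS := Glue.dSq) Glue.dSq_sq (p + 1) j x,
        Abs.diffS_s (V := Glue.Vq F) (B := fun n => Glue.Bq n F) (s := fun n => Glue.sq n)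
        (a := Glue.aq) (dS := Glue.dSq) Glue.dSq_sq p (j + 1) x]
      rw [wdg_wdg_same, TensorProduct.tmul_zero]) t
  exact h

theorem del_diffS (j : ℕ) (t : Glue.Bq 1 F ⊗[ℚ] Lam (Glue.Vq F) j) :
    del Glue.d2q (j + 1)
      (Abs.diffS (V := Glue.Vq F) (B := fun n => Glue.Bq n F) Glue.dSq 0 j t) = 0 := by
  have h := Abs.BL_ext (s := fun n => (Glue.sq n : P1 F → Glue.Bq n F)) (fun n => Glue.sq_span n) 1
    (L := Lam (Glue.Vq F) j)
    (f := del Glue.d2q (j + 1) ∘ₗ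
      Abs.diffS (V := Glue.Vq F) (B := fun n => Glue.Bq n F) Glue.dSq 0 j)
    (g := 0) (fun x ω => by
      rw [LinearMap.comp_apply, LinearMap.zero_apply,
        Abs.diffS_s (V := Glue.Vq F) (B := fun n => Glue.Bq n F) (s := fun n => Glue.sq n)
        (a := Glue.aq) (dS := Glue.dSq) Glue.dSq_sq 0 j x, del_tmul, Glue.d2q_sq, wdg2_ww,
        wdg_wdg_same, map_zero]) t
  exact h

theorem diffS_mem_Zt (p j : ℕ) (t : Glue.Bq (p + 1) F ⊗[ℚ] Lam (Glue.Vq F) j) :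
    Abs.diffS (V := Glue.Vq F) (B := fun n => Glue.Bq n F) Glue.dSq p j t ∈ Zt F p (j + 1) := by
  cases p with
  | zero => exact del_diffS j t
  | succ p => exact diffS_diffS p j t

theorem yw_mem_Zt (p j : ℕ) (y : Glue.Vq F) (z : Glue.Bq p F ⊗[ℚ] Lam (Glue.Vq F) j)
    (hz : z ∈ Zt F p j) : yw (Glue.Bq p F) j y z ∈ Zt F p (j + 1) := by
  cases p with
  | zero =>
    have h : del Glue.d2q j z = 0 := hz
    have h2 := del_yw Glue.d2q j y z
    rw [h, map_zero] at h2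
    exact h2
  | succ p =>
    have h : Abs.diffS (V := Glue.Vq F) (B := fun n => Glue.Bq n F) Glue.dSq p j z = 0 := hz
    have h2 := diffS_yw p j y z
    rw [h, map_zero, neg_zero] at h2
    exact h2

theorem Phi_us (k j : ℕ) (u : MU F) (z : CC k j F) :
    Glue.Phi k (j + 1) F (us k j (RingHom.id F) u z) =
      yw (Glue.Bq k F) j ((1 : ℚ) ⊗ₜ[ℤ] u) (Glue.Phi k j F z) := by
  have h : (Glue.Phi k (j + 1) F).toLinearMap ∘ₗ us k j (RingHom.id F) u =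
      yw (Glue.Bq k F) j ((1 : ℚ) ⊗ₜ[ℤ] u) ∘ₗ (Glue.Phi k j F).toLinearMap := by
    refine CC_ext fun x v => ?_
    rw [LinearMap.comp_apply, LinearMap.comp_apply, LinearEquiv.coe_coe, LinearEquiv.coe_coe,
      us_gn, Glue.Phi_gn, Glue.Phi_gn, yw_tmul, Abs.wdg_iota]
    have e1 : Option.map (RingHom.id F) x = x := by
      cases x <;> rfl
    rw [e1]
    congr 2
    funext i
    refine Fin.cases ?_ (fun i => ?_) i
    · rfl
    · change (1 : ℚ) ⊗ₜ[ℤ] (Helper14.Gon.mu (RingHom.id F) (v i)) = (1 : ℚ) ⊗ₜ[ℤ] (v i)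
      congr 1
  exact LinearMap.congr_fun h z

theorem mem_Zt (k j : ℕ) (z : CC k j F) : Glue.Phi k j F z ∈ Zt F k j ↔ z ∈ ZC F k j := by
  cases k with
  | zero =>
    have h : Glue.Psi (j + 2) F (dl j F z) = del Glue.d2q j (Glue.Phi 0 j F z) := Glue.Psi_dl j z
    change del Glue.d2q j (Glue.Phi 0 j F z) = 0 ↔ dl j F z = 0
    rw [← h]
    exact (Glue.Psi (j + 2) F).map_eq_zero_iff
  | succ k =>
    change Abs.diffS (V := Glue.Vq F) (B := fun n => Glue.Bq n F) Glue.dSq k j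
      (Glue.Phi (k + 1) j F z) = 0 ↔ dd k j F z = 0
    rw [← Glue.Phi_dd]
    exact (Glue.Phi k (j + 1) F).map_eq_zero_iff

theorem mem_Rt (k j : ℕ) (z : CC k j F) : Glue.Phi k j F z ∈ Rt F k j ↔ z ∈ BC F k j := by
  cases j with
  | zero =>
    change Glue.Phi k 0 F z ∈ (⊥ : Submodule ℚ _) ↔ z ∈ (⊥ : Submodule ℚ _)
    rw [Submodule.mem_bot, Submodule.mem_bot]
    exact (Glue.Phi k 0 F).map_eq_zero_iff
  | succ j =>
    constructor
    · rintro ⟨t, ht⟩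
      refine ⟨(Glue.Phi (k + 1) j F).symm t, ?_⟩
      apply (Glue.Phi k (j + 1) F).injective
      rw [Glue.Phi_dd, LinearEquiv.apply_symm_apply]
      exact ht
    · rintro ⟨t, rfl⟩
      exact ⟨Glue.Phi (k + 1) j F t, (Glue.Phi_dd k j t).symm⟩

/-- `Mod` in terms of tensor products -/
theorem Mod.act {k : ℕ} (h : Mod F k) (w : Glue.Bq 0 F) (j : ℕ)
    (z : Glue.Bq k F ⊗[ℚ] Lam (Glue.Vq F) j) (hz : z ∈ Zt F k j) :
    (wdg2 (Glue.Vq F) j (Glue.d2q w)).lTensor (Glue.Bq k F) z ∈ Rt F k (j + 2) := by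
  let f : Glue.Bq 0 F →ₗ[ℚ] Glue.Bq k F ⊗[ℚ] Lam (Glue.Vq F) (j + 2) :=
    (LinearMap.applyₗ z) ∘ₗ (LinearMap.lTensorHom (Glue.Bq k F)) ∘ₗ
      wdg2 (Glue.Vq F) j ∘ₗ Glue.d2q
  refine Abs.B_mem (s := fun n => (Glue.sq n : P1 F → Glue.Bq n F)) (fun n => Glue.sq_span n) 0
    f (Rt F k (j + 2)) (fun x => ?_) w
  change (wdg2 (Glue.Vq F) j (Glue.d2q (Glue.sq 0 x))).lTensor (Glue.Bq k F) z ∈ Rt F k (j + 2)
  have h0 : (Glue.sq 0 x : Glue.Bq 0 F) = 0 ∨ ∃ t : F, x = some t ∧ t ≠ 0 ∧ t ≠ 1 := by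
    rcases x with _ | t
    · exact Or.inl _root_.QGC.sq_inf'
    · by_cases ht : t = 0
      · subst ht
        exact Or.inl _root_.QGC.sq_zero'
      · by_cases ht1 : t = 1
        · subst ht1
          exact Or.inl sq_one
        · exact Or.inr ⟨t, rfl, ht, ht1⟩
  rcases h0 with hx | ⟨t, rfl, ht, ht1⟩
  · rw [hx, map_zero, map_zero, LinearMap.lTensor_zero, LinearMap.zero_apply]
    exact Submodule.zero_mem _
  · obtain ⟨z, rfl⟩ := (Glue.Phi k j F).surjective z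
    have h1 := h t ht ht1 j z ((mem_Zt k j z).1 hz)
    rw [← mem_Rt, Phi_us, Phi_us] at h1
    have h2 : (wdg2 (Glue.Vq F) j (Glue.d2q (Glue.sq 0 (some t)))).lTensor (Glue.Bq k F)
        (Glue.Phi k j F z) = yw (Glue.Bq k F) (j + 1) ((1 : ℚ) ⊗ₜ[ℤ] ely (some t))
          (yw (Glue.Bq k F) j ((1 : ℚ) ⊗ₜ[ℤ] elx (some t)) (Glue.Phi k j F z)) := by
      rw [Glue.d2q_sq]
      generalize Glue.Phi k j F z = y
      induction y using TensorProduct.induction_on with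
      | zero => rw [map_zero, map_zero, map_zero]
      | tmul a b =>
        rw [LinearMap.lTensor_tmul, wdg2_ww, yw_tmul, yw_tmul]
        rfl
      | add a b ha hb => rw [map_add, ha, hb, map_add, map_add]
    rw [h2]
    exact h1

/-- the first module property, for all fields -/
theorem mod_zero (F : Type u) [Field F] : Mod F 0 := by
  intro t _ _ j z hz
  rw [← mem_Rt, Phi_us, Phi_us]
  have h1 := kap_act (Glue.sq 0 (some t)) j (Glue.Phi 0 j F z)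
  have h3 : del Glue.d2q j (Glue.Phi 0 j F z) = 0 := (mem_Zt 0 j z).2 hz
  rw [h3, TensorProduct.tmul_zero, sub_zero] at h1
  have h2 : (wdg2 (Glue.Vq F) j (Glue.d2q (Glue.sq 0 (some t)))).lTensor (Glue.Bq 0 F)
      (Glue.Phi 0 j F z) = yw (Glue.Bq 0 F) (j + 1) ((1 : ℚ) ⊗ₜ[ℤ] ely (some t))
        (yw (Glue.Bq 0 F) j ((1 : ℚ) ⊗ₜ[ℤ] elx (some t)) (Glue.Phi 0 j F z)) := by
    rw [Glue.d2q_sq]
    generalize Glue.Phi 0 j F z = y
    induction y using TensorProduct.induction_on with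
    | zero => rw [map_zero, map_zero, map_zero]
    | tmul a b =>
      rw [LinearMap.lTensor_tmul, wdg2_ww, yw_tmul, yw_tmul]
      rfl
    | add a b ha hb => rw [map_add, ha, hb, map_add, map_add]
  rw [h2] at h1
  exact h1

/-- the main induction over the codegree -/
theorem van_all {k : ℕ} (hd : Function.Surjective (del (Glue.d2q : Glue.Bq 0 F →ₗ[ℚ] _) k))
    (p : ℕ) (hmod : ∀ q ≤ p, Mod F q) :
    (∀ i : ℕ, (p + 1) * (k + 2) ≤ i + 1 → Cl (Zt F p) i) ∧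
    (∀ i : ℕ, (p + 2) * (k + 2) ≤ i + 1 → Zt F p i ≤ Rt F p i) := by
  induction p with
  | zero =>
    have h1 : ∀ i : ℕ, (0 + 1) * (k + 2) ≤ i + 1 → Cl (Zt F 0) i := by
      intro i hi
      obtain ⟨t, rfl⟩ : ∃ t, i = k + t + 1 := ⟨i - (k + 1), by omega⟩
      exact cl_one Glue.d2q (surj_up Glue.d2q hd t)
    refine ⟨h1, fun i hi => ?_⟩
    obtain ⟨t, rfl⟩ : ∃ t, i = k + 1 + (k + t + 2) := ⟨i - (2 * k + 3), by omega⟩
    exact van_gen Glue.d2q (Z := Zt F 0) (R := Rt F 0) (fun j y z hz => yw_mem_Zt 0 j y z hz)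
      (fun w j z hz => (hmod 0 le_rfl).act w j z hz) hd (i := k + 1)
      (fun t => h1 _ (by omega)) t
  | succ p ih =>
    obtain ⟨ih1, ih2⟩ := ih fun q hq => hmod q (hq.trans (Nat.le_succ p))
    have hmul : (p + 1 + 1) * (k + 2) = (p + 1) * (k + 2) + (k + 2) := Nat.succ_mul (p + 1) (k + 2)
    have hmul2 : (p + 2) * (k + 2) = (p + 1) * (k + 2) + (k + 2) := Nat.succ_mul (p + 1) (k + 2)
    have hmul3 : (p + 1 + 2) * (k + 2) = (p + 1) * (k + 2) + (k + 2) + (k + 2) := by ring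
    have h1 : ∀ i : ℕ, (p + 1 + 1) * (k + 2) ≤ i + 1 → Cl (Zt F (p + 1)) i := by
      intro i hi
      obtain ⟨i, rfl⟩ : ∃ i', i = i' + 1 := ⟨i - 1, by omega⟩
      refine cl_succ (Z := Zt F p)
        (fun j => Abs.diffS (V := Glue.Vq F) (B := fun n => Glue.Bq n F) Glue.dSq p j)
        (fun j y z => diffS_yw p j y z) (fun j z => diffS_mem_Zt p j z)
        (i := i) ?_ (ih1 (i + 1) (by omega))
      exact ih2 (i + 1) (by omega)
    refine ⟨h1, fun i hi => ?_⟩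
    obtain ⟨i0, hi0⟩ : ∃ i0, i0 + 1 = (p + 1 + 1) * (k + 2) :=
      ⟨(p + 1 + 1) * (k + 2) - 1, by omega⟩
    obtain ⟨t, rfl⟩ : ∃ t, i = i0 + (k + t + 2) := ⟨i - i0 - k - 2, by omega⟩
    exact van_gen Glue.d2q (Z := Zt F (p + 1)) (R := Rt F (p + 1))
      (fun j y z hz => yw_mem_Zt (p + 1) j y z hz)
      (fun w j z hz => (hmod (p + 1) le_rfl).act w j z hz) hd (i := i0)
      (fun t => h1 _ (by omega)) t

/-- vanishing, from surjectivity -/
theorem vanP' {k : ℕ} (hd : Function.Surjective (del (Glue.d2q : Glue.Bq 0 F →ₗ[ℚ] _) k))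
    {p : ℕ} (hmod : ∀ q ≤ p, Mod F q) {j : ℕ} (hj : (p + 2) * (k + 2) ≤ j + 1) :
    Subsingleton (HC F p j) := by
  have h1 : ZC F p j ≤ BC F p j := fun z hz =>
    (mem_Rt p j z).1 ((van_all hd p hmod).2 j hj ((mem_Zt p j z).2 hz))
  refine ⟨fun a b => ?_⟩
  have h4 : ∀ a : HC F p j, a = 0 := by
    intro a
    obtain ⟨z, rfl⟩ : ∃ z : ↥(ZC F p j), hc z = a := Submodule.Quotient.mk_surjective _ a
    exact (Submodule.Quotient.mk_eq_zero _).2 (h1 z.2)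
  rw [h4 a, h4 b]

/-- **vanishing in all codegrees where the Steinberg symbols act by zero** -/
theorem vanP {m : ℕ} (hm : 2 ≤ m) (h : Subsingleton (HT F m)) {p : ℕ}
    (hmod : ∀ q ≤ p, Mod F q) {j : ℕ} (hj : (p + 2) * m ≤ j + 1) : Subsingleton (HC F p j) := by
  obtain ⟨k, rfl⟩ : ∃ k, m = k + 2 := ⟨m - 2, by omega⟩
  exact vanP' (dl_surj h) hmod hj

/-- `K^M_m(F) ⊗ ℚ` finite-dimensional -/
theorem vanP_fd {m : ℕ} (hm : 2 ≤ m) (h : Module.Finite ℚ (HT F m)) {p : ℕ}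
    (hmod : ∀ q ≤ p, Mod F q) : ∃ N : ℕ, ∀ j : ℕ, N ≤ j → Subsingleton (HC F p j) := by
  obtain ⟨k, rfl⟩ : ∃ k, m = k + 2 := ⟨m - 2, by omega⟩
  obtain ⟨U, hU, h2⟩ := exists_U h
  exact ⟨(p + 2) * (k + Module.finrank ℚ U + 2), fun j hj =>
    vanP' (exists_surj' hU h2) hmod (by omega)⟩

end Pool.Agent.NFF
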