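import Pool.Agent.NFF.Defs

set_option autoImplicit false

/-!
# Project NFF, block G: properties of `od` (helper13)

The order `od P x` of a nonzero element is minus the exponent of its multiplicative valuation
at `P`; all properties are read off from the valuation.
-/

namespace NFF

open NumberField TensorProduct
open IsDedekindDomain (HeightOneSpectrum)

section numberfield

variable {K : Type} [Field K] [NumberField K]

private lemma oOd_val (P : Pr K) {x : K} (hx : x ≠ 0) :
    P.valuation K x = WithZero.exp (-(od P x)) := by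
  rw [od, dif_neg hx, neg_neg]
  exact (P.valuationOfNeZero_eq (Units.mk0 x hx)).symm

private lemma oOd_of_val (P : Pr K) {x : K} (hx : x ≠ 0) {n : ℤ}
    (h : P.valuation K x = WithZero.exp (-n)) : od P x = n := by
  rw [oOd_val P hx, WithZero.exp_inj] at h
  exact neg_injective h

private lemma oOd_le_iff (P : Pr K) {x y : K} (hx : x ≠ 0) (hy : y ≠ 0) :
    P.valuation K x ≤ P.valuation K y ↔ od P y ≤ od P x := by
  rw [oOd_val P hx, oOd_val P hy, WithZero.exp_le_exp, neg_le_neg_iff]

private lemma oOd_lt_iff (P : Pr K) {x y : K} (hx : x ≠ 0) (hy : y ≠ 0) :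
    P.valuation K x < P.valuation K y ↔ od P y < od P x := by
  rw [oOd_val P hx, oOd_val P hy, WithZero.exp_lt_exp, neg_lt_neg_iff]

lemma od_zero (P : Pr K) : od P (0 : K) = 0 := dif_pos rfl

lemma od_one (P : Pr K) : od P (1 : K) = 0 := by
  apply oOd_of_val P one_ne_zero
  rw [map_one, neg_zero, WithZero.exp_zero]

lemma od_mul (P : Pr K) {x y : K} (hx : x ≠ 0) (hy : y ≠ 0) :
    od P (x * y) = od P x + od P y := by
  apply oOd_of_val P (mul_ne_zero hx hy)
  rw [map_mul, oOd_val P hx, oOd_val P hy, ← WithZero.exp_add]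
  congr 1
  ring

lemma od_inv (P : Pr K) (x : K) : od P x⁻¹ = - od P x := by
  by_cases hx : x = 0
  · rw [hx, inv_zero, od_zero, neg_zero]
  · have h := od_mul P hx (inv_ne_zero hx)
    rw [mul_inv_cancel₀ hx, od_one] at h
    omega

lemma od_div (P : Pr K) {x y : K} (hx : x ≠ 0) (hy : y ≠ 0) :
    od P (x / y) = od P x - od P y := by
  rw [div_eq_mul_inv, od_mul P hx (inv_ne_zero hy), od_inv]
  ring

lemma od_neg (P : Pr K) (x : K) : od P (-x) = od P x := by
  by_cases hx : x = 0
  · rw [hx, neg_zero]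
  · apply oOd_of_val P (neg_ne_zero.2 hx)
    rw [Valuation.map_neg, oOd_val P hx]

lemma od_pow (P : Pr K) (x : K) (n : ℕ) : od P (x ^ n) = n * od P x := by
  by_cases hx : x = 0
  · rw [hx, od_zero, mul_zero]
    rcases Nat.eq_zero_or_pos n with hn | hn
    · rw [hn, pow_zero, od_one]
    · rw [zero_pow (by omega), od_zero]
  · induction n with
    | zero => rw [pow_zero, od_one]; simp
    | succ n ih =>
      rw [pow_succ, od_mul P (pow_ne_zero n hx) hx, ih]
      push_cast
      ring

lemma od_zpow (P : Pr K) (x : K) (n : ℤ) : od P (x ^ n) = n * od P x := by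
  obtain ⟨m, hm | hm⟩ := Int.eq_nat_or_neg n
  · rw [hm, zpow_natCast, od_pow]
  · rw [hm, zpow_neg, zpow_natCast, od_inv, od_pow]
    ring

lemma od_prod (P : Pr K) {ι : Type*} (s : Finset ι) (f : ι → K) (h : ∀ i ∈ s, f i ≠ 0) :
    od P (∏ i ∈ s, f i) = ∑ i ∈ s, od P (f i) := by
  classical
  induction s using Finset.induction_on with
  | empty => rw [Finset.prod_empty, Finset.sum_empty, od_one]
  | insert a s ha ih =>
    rw [Finset.prod_insert ha, Finset.sum_insert ha,
      od_mul P (h a (Finset.mem_insert_self a s))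
        (Finset.prod_ne_zero_iff.2 fun i hi => h i (Finset.mem_insert_of_mem hi)),
      ih fun i hi => h i (Finset.mem_insert_of_mem hi)]

lemma od_add_ge (P : Pr K) {x y : K} (hx : x ≠ 0) (hy : y ≠ 0) (h : x + y ≠ 0) :
    min (od P x) (od P y) ≤ od P (x + y) := by
  have h1 := (P.valuation K).map_add x y
  rcases le_max_iff.1 h1 with h2 | h2
  · exact (min_le_left _ _).trans ((oOd_le_iff P h hx).1 h2)
  · exact (min_le_right _ _).trans ((oOd_le_iff P h hy).1 h2)

lemma od_sub_ge (P : Pr K) {x y : K} (hx : x ≠ 0) (hy : y ≠ 0) (h : x - y ≠ 0) :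
    min (od P x) (od P y) ≤ od P (x - y) := by
  rw [sub_eq_add_neg] at h ⊢
  have := od_add_ge P hx (neg_ne_zero.2 hy) h
  rwa [od_neg] at this

/-- for `0 < od P y` the sum `x + y` has the order of `x` if `od P x ≤ 0` etc. -/
lemma od_add_eq (P : Pr K) {x y : K} (hx : x ≠ 0) (hy : y ≠ 0) (h : od P x < od P y) :
    od P (x + y) = od P x := by
  have h1 : P.valuation K y < P.valuation K x := (oOd_lt_iff P hy hx).2 h
  have h2 : P.valuation K (x + y) = P.valuation K x :=
    Valuation.map_add_eq_of_lt_left (P.valuation K) h1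
  have h3 : x + y ≠ 0 := by
    intro h0
    rw [h0, map_zero] at h2
    exact (Valuation.ne_zero_iff _).2 hx h2.symm
  apply oOd_of_val P h3
  rw [h2, oOd_val P hx]

/-- `x` of order `> 0` gives `od P (1 - x) = 0` -/
lemma od_one_sub_of_pos (P : Pr K) {x : K} (h : 0 < od P x) : od P (1 - x) = 0 := by
  have hx : x ≠ 0 := by
    rintro rfl
    rw [od_zero] at h
    exact lt_irrefl _ h
  rw [sub_eq_add_neg, od_add_eq P one_ne_zero (neg_ne_zero.2 hx) (by rw [od_one, od_neg]; exact h),
    od_one]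

/-- `x` of order `< 0` gives `od P (1 - x) = od P x` -/
lemma od_one_sub_of_neg (P : Pr K) {x : K} (h : od P x < 0) : od P (1 - x) = od P x := by
  have hx : x ≠ 0 := by
    rintro rfl
    rw [od_zero] at h
    exact lt_irrefl _ h
  rw [sub_eq_add_neg, add_comm,
    od_add_eq P (neg_ne_zero.2 hx) one_ne_zero (by rw [od_one, od_neg]; exact h), od_neg]

lemma od_int_nonneg (P : Pr K) (x : 𝓞 K) : 0 ≤ od P (x : K) := by
  by_cases hx : x = 0
  · rw [hx]
    simp [od_zero]
  · have hx' : (x : K) ≠ 0 := RingOfIntegers.coe_ne_zero_iff.2 hx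
    have h1 : P.valuation K (x : K) ≤ 1 := P.valuation_le_one x
    rw [← map_one (P.valuation K), oOd_le_iff P hx' one_ne_zero, od_one] at h1
    exact h1

/-- `P^n` consists of `0` and the integers of order `≥ n` -/
lemma le_od_iff (P : Pr K) {x : 𝓞 K} (hx : x ≠ 0) (n : ℕ) :
    (n : ℤ) ≤ od P (x : K) ↔ x ∈ P.asIdeal ^ n := by
  have hx' : (x : K) ≠ 0 := RingOfIntegers.coe_ne_zero_iff.2 hx
  have h1 : P.valuation K (x : K) = P.intValuation x := P.valuation_of_algebraMap x
  rw [← P.intValuation_le_pow_iff_mem, ← h1, oOd_val P hx', WithZero.exp_le_exp,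
    neg_le_neg_iff]

lemma od_pos_iff (P : Pr K) {x : 𝓞 K} (hx : x ≠ 0) : 0 < od P (x : K) ↔ x ∈ P.asIdeal := by
  have := le_od_iff P hx 1
  rw [pow_one] at this
  rw [← this]
  constructor <;> intro h <;> push_cast at * <;> omega

lemma od_eq_zero_iff (P : Pr K) {x : 𝓞 K} (hx : x ≠ 0) : od P (x : K) = 0 ↔ x ∉ P.asIdeal := by
  rw [← od_pos_iff P hx]
  have := od_int_nonneg P x
  omega

private lemma oOd_int {x : K} (hx : x ≠ 0) (h : ∀ P : Pr K, od P x = 0) :
    ∃ r : 𝓞 K, (r : K) = x := by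
  refine HeightOneSpectrum.mem_integers_of_valuation_le_one K x fun P => ?_
  rw [oOd_val P hx, h P, neg_zero, WithZero.exp_zero]

/-- units of `𝓞 K` -/
lemma exists_unit {x : K} (hx : x ≠ 0) (h : ∀ P : Pr K, od P x = 0) :
    ∃ u : (𝓞 K)ˣ, ((u : 𝓞 K) : K) = x := by
  obtain ⟨r, hr⟩ := oOd_int hx h
  obtain ⟨s, hs⟩ := oOd_int (inv_ne_zero hx) fun P => by rw [od_inv, h P, neg_zero]
  have h1 : r * s = 1 := by
    apply RingOfIntegers.coe_injective
    rw [map_mul, map_one]
    calc (r : K) * (s : K) = x * x⁻¹ := by rw [hr, hs]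
      _ = 1 := mul_inv_cancel₀ hx
  exact ⟨Units.mkOfMulEqOne r s h1, hr⟩

lemma od_unit (P : Pr K) (u : (𝓞 K)ˣ) : od P ((u : 𝓞 K) : K) = 0 := by
  have hu : ((u : 𝓞 K) : K) ≠ 0 := RingOfIntegers.coe_ne_zero_iff.2 u.ne_zero
  have hu' : (((u⁻¹ : (𝓞 K)ˣ) : 𝓞 K) : K) ≠ 0 := RingOfIntegers.coe_ne_zero_iff.2 u⁻¹.ne_zero
  have h1 := od_int_nonneg P (u : 𝓞 K)
  have h2 := od_int_nonneg P ((u⁻¹ : (𝓞 K)ˣ) : 𝓞 K)
  have h3 := od_mul P hu hu'
  rw [← map_mul, Units.mul_inv, map_one, od_one] at h3
  omega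

/-- only finitely many primes divide `x` -/
lemma od_finite (x : K) : {P : Pr K | od P x ≠ 0}.Finite := by
  by_cases hx : x = 0
  · rw [hx]
    simp [od_zero]
  · refine ((IsDedekindDomain.HeightOneSpectrum.Support.finite (𝓞 K) x).union
      (IsDedekindDomain.HeightOneSpectrum.Support.finite (𝓞 K) x⁻¹)).subset fun P hP => ?_
    rcases lt_or_gt_of_ne (show od P x ≠ 0 from hP) with h | h
    · left
      change 1 < P.valuation K x
      rw [← map_one (P.valuation K), oOd_lt_iff P one_ne_zero hx, od_one]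
      exact h
    · right
      change 1 < P.valuation K x⁻¹
      rw [← map_one (P.valuation K), oOd_lt_iff P one_ne_zero (inv_ne_zero hx), od_one, od_inv]
      omega

end numberfield

end NFF
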