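import Pool.Agent.NFF.OLg
import Pool.Agent.NFF.OOd

set_option autoImplicit false

/-!
# Project NFF, block G: properties of `vl`, `SU`, `VS` (helper13)
-/

namespace NFF

open NumberField TensorProduct
open IsDedekindDomain (HeightOneSpectrum)

section numberfield

variable {K : Type} [Field K] [NumberField K]

/-! ## The order as a linear form -/

/-- the order at `P` on `V` -/
noncomputable def vl (P : Pr K) : VV K →ₗ[ℚ] ℚ :=
  TensorProduct.AlgebraTensorModule.lift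
    (LinearMap.toSpanSingleton ℚ (Additive Kˣ →ₗ[ℤ] ℚ)
      ((AddMonoidHom.toIntLinearMap
        ((Int.castAddHom ℚ).comp (-(MonoidHom.toAdditiveLeft (P.valuationOfNeZero)))))))

lemma vl_lg (P : Pr K) (x : K) : vl P (lg x) = (od P x : ℚ) := by
  by_cases h : x = 0
  · subst h
    rw [lg_zero, map_zero, od_zero, Int.cast_zero]
  · rw [lg_of_ne h, vl, TensorProduct.AlgebraTensorModule.lift_tmul, LinearMap.toSpanSingleton_apply,
      one_smul, od, dif_neg h]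
    simp

/-! ## `S`-units -/

lemma SU.ne {S : Set (Pr K)} {x : K} (h : SU S x) : x ≠ 0 := h.1

lemma SU.mono {S T : Set (Pr K)} (hST : S ⊆ T) {x : K} (h : SU S x) : SU T x :=
  ⟨h.1, fun Q hQ => h.2 Q fun hQ' => hQ (hST hQ')⟩

lemma SU_one (S : Set (Pr K)) : SU S (1 : K) := ⟨one_ne_zero, fun Q _ => od_one Q⟩

lemma SU.mul {S : Set (Pr K)} {x y : K} (hx : SU S x) (hy : SU S y) : SU S (x * y) :=
  ⟨mul_ne_zero hx.1 hy.1, fun Q hQ => by rw [od_mul Q hx.1 hy.1, hx.2 Q hQ, hy.2 Q hQ, add_zero]⟩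

lemma SU.inv {S : Set (Pr K)} {x : K} (hx : SU S x) : SU S x⁻¹ :=
  ⟨inv_ne_zero hx.1, fun Q hQ => by rw [od_inv Q, hx.2 Q hQ, neg_zero]⟩

lemma SU.div {S : Set (Pr K)} {x y : K} (hx : SU S x) (hy : SU S y) : SU S (x / y) := by
  rw [div_eq_mul_inv]
  exact hx.mul hy.inv

lemma SU.neg {S : Set (Pr K)} {x : K} (hx : SU S x) : SU S (-x) :=
  ⟨neg_ne_zero.2 hx.1, fun Q hQ => by rw [od_neg, hx.2 Q hQ]⟩

lemma SU.pow {S : Set (Pr K)} {x : K} (hx : SU S x) (n : ℕ) : SU S (x ^ n) :=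
  ⟨pow_ne_zero n hx.1, fun Q hQ => by rw [od_pow, hx.2 Q hQ, mul_zero]⟩

lemma SU.zpow {S : Set (Pr K)} {x : K} (hx : SU S x) (n : ℤ) : SU S (x ^ n) :=
  ⟨zpow_ne_zero n hx.1, fun Q hQ => by rw [od_zpow, hx.2 Q hQ, mul_zero]⟩

/-- factors of integral `S`-units are `S`-units -/
lemma SU.of_mul_left {S : Set (Pr K)} {x y : 𝓞 K} (h : SU S ((x * y : 𝓞 K) : K)) :
    SU S (x : K) := by
  have he : ((x * y : 𝓞 K) : K) = (x : K) * (y : K) := rfl
  rw [he] at h
  have hx : (x : K) ≠ 0 := left_ne_zero_of_mul h.1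
  have hy : (y : K) ≠ 0 := right_ne_zero_of_mul h.1
  refine ⟨hx, fun Q hQ => ?_⟩
  have h1 := h.2 Q hQ
  rw [od_mul Q hx hy] at h1
  have h2 := od_int_nonneg Q x
  have h3 := od_int_nonneg Q y
  omega

lemma SU.of_mul_right {S : Set (Pr K)} {x y : 𝓞 K} (h : SU S ((x * y : 𝓞 K) : K)) :
    SU S (y : K) := by
  rw [mul_comm] at h
  exact SU.of_mul_left h

lemma SU_unit (S : Set (Pr K)) (u : (𝓞 K)ˣ) : SU S ((u : 𝓞 K) : K) := by
  refine ⟨?_, fun Q _ => od_unit Q u⟩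
  intro h
  exact u.ne_zero (RingOfIntegers.coe_eq_zero_iff.1 h)

lemma TS.mono {S T : Set (Pr K)} (hST : S ⊆ T) {x : K} (h : TS S x) : TS T x :=
  ⟨h.1.mono hST, h.2.mono hST⟩

lemma TS.one_sub {S : Set (Pr K)} {x : K} (h : TS S x) : TS S (1 - x) :=
  ⟨h.2, by rw [sub_sub_cancel]; exact h.1⟩

lemma TS.ne_one {S : Set (Pr K)} {x : K} (h : TS S x) : x ≠ 1 := by
  rintro rfl
  exact h.2.1 (sub_self 1)

lemma TS.inv {S : Set (Pr K)} {x : K} (h : TS S x) : TS S x⁻¹ := by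
  refine ⟨h.1.inv, ?_⟩
  have h0 := h.1.1
  have : 1 - x⁻¹ = -((1 - x) / x) := by field_simp; ring
  rw [this]
  exact (h.2.div h.1).neg

/-! ## `V_S` -/

lemma lg_mem_VS {S : Set (Pr K)} {x : K} (h : SU S x) : lg x ∈ VS S :=
  Submodule.subset_span ⟨x, h, rfl⟩

lemma VS_mono {S T : Set (Pr K)} (hST : S ⊆ T) : VS S ≤ VS T :=
  Submodule.span_mono (Set.image_mono fun _ h => SU.mono hST h)

/-- the elements of `V_S` are the `r • lg x` with an `S`-unit `x` -/
lemma mem_VS_iff {S : Set (Pr K)} {v : VV K} : v ∈ VS S ↔ ∃ x : K, SU S x ∧ ∃ r : ℚ, v = r • lg x := by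
  constructor
  · intro hv
    refine Submodule.span_induction (p := fun v _ => ∃ x : K, SU S x ∧ ∃ r : ℚ, v = r • lg x)
      ?_ ?_ ?_ ?_ hv
    · rintro _ ⟨x, hx, rfl⟩
      exact ⟨x, hx, 1, (one_smul _ _).symm⟩
    · exact ⟨1, SU_one S, 0, (zero_smul _ _).symm⟩
    · rintro _ _ _ _ ⟨x, hx, r, rfl⟩ ⟨y, hy, t, rfl⟩
      refine ⟨x ^ (r.num * t.den) * y ^ (t.num * r.den), (hx.zpow _).mul (hy.zpow _),
        1 / ((r.den : ℚ) * t.den), ?_⟩
      rw [lg_mul (zpow_ne_zero _ hx.1) (zpow_ne_zero _ hy.1), lg_zpow, lg_zpow, smul_add, smul_smul,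
        smul_smul]
      have hr : (r.den : ℚ) ≠ 0 := Nat.cast_ne_zero.2 r.den_nz
      have ht : (t.den : ℚ) ≠ 0 := Nat.cast_ne_zero.2 t.den_nz
      have e1 : 1 / ((r.den : ℚ) * t.den) * ((r.num * t.den : ℤ) : ℚ) = r := by
        have := Rat.num_div_den r
        push_cast
        field_simp
        rw [div_eq_iff hr] at this
        linarith
      have e2 : 1 / ((r.den : ℚ) * t.den) * ((t.num * r.den : ℤ) : ℚ) = t := by
        have := Rat.num_div_den t
        push_cast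
        field_simp
        rw [div_eq_iff ht] at this
        linarith
      rw [e1, e2]
    · rintro a _ _ ⟨x, hx, r, rfl⟩
      exact ⟨x, hx, a * r, smul_smul _ _ _⟩
  · rintro ⟨x, hx, r, rfl⟩
    exact Submodule.smul_mem _ _ (lg_mem_VS hx)

lemma vl_eq_zero {S : Set (Pr K)} {P : Pr K} (hP : P ∉ S) {v : VV K} (hv : v ∈ VS S) :
    vl P v = 0 := by
  have : VS S ≤ LinearMap.ker (vl P) := by
    rw [VS, Submodule.span_le]
    rintro _ ⟨x, hx, rfl⟩
    rw [SetLike.mem_coe, LinearMap.mem_ker, vl_lg, hx.2 P hP, Int.cast_zero]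
  exact LinearMap.mem_ker.1 (this hv)

/-- an element of `V_(S ∪ {P})` of order zero at `P` is in `V_S` -/
lemma mem_VS_of_vl {S : Set (Pr K)} {P : Pr K} {v : VV K} (hv : v ∈ VS (insert P S))
    (h : vl P v = 0) : v ∈ VS S := by
  obtain ⟨x, hx, r, rfl⟩ := mem_VS_iff.1 hv
  by_cases hr : r = 0
  · rw [hr, zero_smul]
    exact Submodule.zero_mem _
  · rw [map_smul, vl_lg, smul_eq_mul, mul_eq_zero, Int.cast_eq_zero] at h
    have h0 := h.resolve_left hr
    refine Submodule.smul_mem _ _ (lg_mem_VS ⟨hx.1, fun Q hQ => ?_⟩)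
    by_cases hQP : Q = P
    · rw [hQP]
      exact h0
    · exact hx.2 Q fun hQ' => (Set.mem_insert_iff.1 hQ').elim hQP hQ

lemma VS_insert {S : Set (Pr K)} {P : Pr K} {p : K} (hp : SU (insert P S) p) (h : od P p ≠ 0) :
    VS (insert P S) = VS S ⊔ Submodule.span ℚ {lg p} := by
  apply le_antisymm
  · intro v hv
    have hQ : (od P p : ℚ) ≠ 0 := Int.cast_ne_zero.2 h
    have hp' : lg p ∈ VS (insert P S) := lg_mem_VS hp
    have h1 : v - (vl P v / (od P p : ℚ)) • lg p ∈ VS S := by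
      apply mem_VS_of_vl (P := P) (Submodule.sub_mem _ hv (Submodule.smul_mem _ _ hp'))
      rw [map_sub, map_smul, vl_lg, smul_eq_mul, div_mul_cancel₀ _ hQ, sub_self]
    have h2 : v = (v - (vl P v / (od P p : ℚ)) • lg p) + (vl P v / (od P p : ℚ)) • lg p :=
      (sub_add_cancel _ _).symm
    rw [h2]
    exact Submodule.add_mem_sup h1
      (Submodule.smul_mem _ _ (Submodule.mem_span_singleton_self _))
  · refine sup_le (VS_mono (Set.subset_insert _ _)) ?_
    rw [Submodule.span_le, Set.singleton_subset_iff]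
    exact lg_mem_VS hp

/-- every `x` of `K` is a quotient of two integers -/
lemma exists_int_div (x : K) (hx : x ≠ 0) :
    ∃ a b : 𝓞 K, a ≠ 0 ∧ b ≠ 0 ∧ x = (a : K) / (b : K) := by
  obtain ⟨a, b, hb, rfl⟩ := IsFractionRing.div_surjective (A := 𝓞 K) x
  refine ⟨a, b, ?_, nonZeroDivisors.ne_zero hb, rfl⟩
  rintro rfl
  exact hx (by rw [map_zero, zero_div])

end numberfield

end NFF
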