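import Pool.Agent.NFF.OLg
import Pool.Agent.NFF.OOd
import Pool.Agent.NFF.OVS

/-!
# Project NFF: properties of `lg` (`OLg`), `od` (`OOd`), `vl`, `SU`, `VS` (`OVS`)
-/
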