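import Pool.Agent.NFF.Defs
import Pool.Agent.NFF.Ord

set_option autoImplicit false

/-!
# NFF-LvI: induction over levels
-/

namespace NFF

open NumberField TensorProduct
open IsDedekindDomain (HeightOneSpectrum)

variable {K : Type} [Field K] [NumberField K]

private theorem lv_fin (hfin : ∀ n : ℕ, (Low K n).Finite) {n0 : ℕ} {T : Set (Pr K)}
    (hT : IsLv n0 T) : T.Finite := by
  obtain ⟨-, n, -, h2⟩ := hT
  exact (hfin (n + 1)).subset fun Q hQ => Nat.lt_succ_of_le (h2 Q hQ)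

private theorem lv_aux (hfin : ∀ n : ℕ, (Low K n).Finite) {n0 : ℕ} (Pd : Set (Pr K) → Prop)
    (h0 : Pd (Low K n0))
    (hs : ∀ (S : Set (Pr K)) (P : Pr K), Adm S P → n0 ≤ qn P → IsLv n0 S → Pd S →
      Pd (insert P S)) (k : ℕ) : ∀ T : Set (Pr K), IsLv n0 T → T.ncard = k → Pd T := by
  induction k using Nat.strong_induction_on with
  | _ k ih =>
    intro T hT hk
    have hf := lv_fin hfin hT
    obtain ⟨hT1, n, hT2, hT3⟩ := hT
    by_cases hTe : T \ Low K n0 = ∅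
    · have h1 : T = Low K n0 := Set.Subset.antisymm (Set.sdiff_eq_empty.1 hTe) hT1
      rw [h1]
      exact h0
    · obtain ⟨P, hP, hmax⟩ := Set.exists_max_image (T \ Low K n0) qn (hf.subset Set.sdiff_subset)
        (Set.nonempty_iff_ne_empty.2 hTe)
      have hPn : n0 ≤ qn P := not_lt.1 hP.2
      have hA : Adm (T \ {P}) P := by
        refine ⟨fun h => h.2 rfl, fun Q hQ => ⟨hT2 (lt_of_lt_of_le hQ (hT3 P hP.1)), ?_⟩,
          fun Q hQ => ?_⟩
        · intro h
          rw [Set.mem_singleton_iff] at h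
          rw [h] at hQ
          exact lt_irrefl _ hQ
        · by_cases hQ0 : qn Q < n0
          · exact hQ0.le.trans hPn
          · exact hmax Q ⟨hQ.1, hQ0⟩
      have hS : IsLv n0 (T \ {P}) :=
        ⟨fun Q hQ => hA.lower Q (lt_of_lt_of_le hQ hPn), qn P, fun Q hQ => hA.lower Q hQ, hA.le⟩
      have hc : (T \ {P}).ncard < k := by
        rw [← hk]
        exact Set.ncard_sdiff_singleton_lt_of_mem hP.1 hf
      have h1 := hs _ P hA hPn hS (ih _ hc _ hS rfl)
      rwa [Set.insert_sdiff_singleton, Set.insert_eq_of_mem hP.1] at h1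

/-- induction over levels, one prime at a time -/
theorem lv_induct (hfin : ∀ n : ℕ, (Low K n).Finite) {n0 : ℕ} (Pd : Set (Pr K) → Prop)
    (h0 : Pd (Low K n0))
    (hs : ∀ (S : Set (Pr K)) (P : Pr K), Adm S P → n0 ≤ qn P → IsLv n0 S → Pd S →
      Pd (insert P S)) {T : Set (Pr K)} (hT : IsLv n0 T) : Pd T :=
  lv_aux hfin Pd h0 hs _ T hT rfl

theorem isLv_low (n0 n : ℕ) (h : n0 ≤ n) : IsLv n0 (Low K n) :=
  ⟨fun _ hQ => lt_of_lt_of_le hQ h, n, le_refl _, fun _ hQ => le_of_lt hQ⟩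

theorem isLv_insert {n0 : ℕ} {S : Set (Pr K)} {P : Pr K} (hA : Adm S P) (h : n0 ≤ qn P) :
    IsLv n0 S ∧ IsLv n0 (insert P S) := by
  refine ⟨⟨fun Q hQ => hA.lower Q (lt_of_lt_of_le hQ h), qn P, fun Q hQ => hA.lower Q hQ, hA.le⟩,
    ⟨fun Q hQ => Or.inr (hA.lower Q (lt_of_lt_of_le hQ h)), qn P,
      fun Q hQ => Or.inr (hA.lower Q hQ), ?_⟩⟩
  rintro Q (rfl | hQ)
  · exact le_refl _
  · exact hA.le Q hQ

end NFF
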