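import Pool.Agent.NFF.Defs

set_option autoImplicit false

/-!
# Project NFF: the basic quotients span the `S`-units

Paper, section 3.1.
-/

namespace NFF

open NumberField TensorProduct
open IsDedekindDomain (HeightOneSpectrum)

section field

variable {K : Type} [Field K]

private theorem Span_lg_ne {x : K} (h : x ≠ 0) :
    lg x = (1 : ℚ) ⊗ₜ[ℤ] Additive.ofMul (Units.mk0 x h) := dif_neg h

private theorem Span_lg_mul {x y : K} (hx : x ≠ 0) (hy : y ≠ 0) : lg (x * y) = lg x + lg y := by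
  rw [Span_lg_ne hx, Span_lg_ne hy, Span_lg_ne (mul_ne_zero hx hy), Units.mk0_mul, ofMul_mul,
    tmul_add]

private theorem Span_lg_one : lg (1 : K) = 0 := by
  have h := Span_lg_mul (one_ne_zero (α := K)) one_ne_zero
  rw [mul_one] at h
  exact left_eq_add.mp h

private theorem Span_lg_div {x y : K} (hx : x ≠ 0) (hy : y ≠ 0) : lg (x / y) = lg x - lg y := by
  have h := Span_lg_mul (div_ne_zero hx hy) hy
  rw [div_mul_cancel₀ _ hy] at h
  rw [h, add_sub_cancel_right]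

private theorem Span_ne {x : 𝓞 K} (hx : x ≠ 0) : (x : K) ≠ 0 := by
  intro h
  exact hx (RingOfIntegers.coe_eq_zero_iff.1 h)

/-- `lg` of a product of integers -/
theorem lgo_mul {x y : 𝓞 K} (hx : x ≠ 0) (hy : y ≠ 0) :
    lg ((x * y : 𝓞 K) : K) = lg (x : K) + lg (y : K) := by
  have h : ((x * y : 𝓞 K) : K) = (x : K) * (y : K) := map_mul (algebraMap (𝓞 K) K) x y
  rw [h]
  exact Span_lg_mul (Span_ne hx) (Span_ne hy)

theorem lgo_one : lg ((1 : 𝓞 K) : K) = 0 := by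
  have h : ((1 : 𝓞 K) : K) = 1 := map_one (algebraMap (𝓞 K) K)
  rw [h]
  exact Span_lg_one

theorem lgo_div {x y : 𝓞 K} (hx : x ≠ 0) (hy : y ≠ 0) :
    lg ((x : K) / (y : K)) = lg (x : K) - lg (y : K) := Span_lg_div (Span_ne hx) (Span_ne hy)

end field

variable {K : Type} [Field K] [NumberField K] {C : ℕ} {S : Set (Pr K)} {P : Pr K}

/-- differences of products of two medium elements in the same class modulo `P` -/
def DD (P : Pr K) : Set (VV K) :=
  {D | ∃ x ∈ Med K (qn P), ∃ y ∈ Med K (qn P), ∃ z ∈ Med K (qn P), ∃ w ∈ Med K (qn P),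
    x * y - z * w ∈ P.asIdeal ∧ D = lg (x : K) + lg (y : K) - lg (z : K) - lg (w : K)}

namespace Lev

theorem one_med (hL : Lev C S P) : (1 : 𝓞 K) ∈ Med K (qn P) :=
  hL.me0_med (hL.tin_me0 (hL.sml_tin hL.one_sml))

theorem tin_med (hL : Lev C S P) {x : 𝓞 K} (hx : x ∈ Tin K (qn P)) : x ∈ Med K (qn P) :=
  hL.me0_med (hL.tin_me0 hx)

end Lev

private theorem Span_indep (a : 𝓞 K) {x y x' y' : 𝓞 K}
    (hx : x ∈ Med K (qn P)) (hy : y ∈ Med K (qn P)) (hx' : x' ∈ Med K (qn P))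
    (hy' : y' ∈ Med K (qn P)) (h : a * x - y ∈ P.asIdeal) (h' : a * x' - y' ∈ P.asIdeal) :
    (lg (y : K) - lg (x : K)) - (lg (y' : K) - lg (x' : K)) ∈ Submodule.span ℚ (DD P) := by
  refine Submodule.subset_span ⟨y, hy, x', hx', y', hy', x, hx, ?_, by abel⟩
  have h1 : y * x' - y' * x = (a * x' - y') * x - (a * x - y) * x' := by ring
  rw [h1]
  exact Ideal.sub_mem _ (Ideal.mul_mem_right _ _ h') (Ideal.mul_mem_right _ _ h)

private theorem Span_pow (hL : Lev C S P) {a : 𝓞 K} (ha : a ∉ P.asIdeal) {x' y' : 𝓞 K}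
    (hx' : x' ∈ Med K (qn P)) (hy' : y' ∈ Med K (qn P)) (h' : a * x' - y' ∈ P.asIdeal) (n : ℕ) :
    ∀ x ∈ Med K (qn P), ∀ y ∈ Med K (qn P), a ^ n * x - y ∈ P.asIdeal →
      (lg (y : K) - lg (x : K)) - n • (lg (y' : K) - lg (x' : K)) ∈ Submodule.span ℚ (DD P) := by
  induction n with
  | zero =>
    intro x hx y hy h
    have h1 := Span_indep (P := P) (a ^ 0) hx hy hL.one_med hL.one_med h (by
      rw [pow_zero, one_mul, sub_self]
      exact Ideal.zero_mem _)
    rw [sub_self, sub_zero] at h1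
    rw [zero_smul, sub_zero]
    exact h1
  | succ n ih =>
    intro x hx y hy h
    have hp : P.asIdeal.IsPrime := P.isPrime
    obtain ⟨X, hX, Y, hY, Z, hZ, h1, h2⟩ := hL.g3 (a ^ n) (a ^ (n + 1))
      (fun h => ha (hp.mem_of_pow_mem _ h)) (fun h => ha (hp.mem_of_pow_mem _ h))
    have hX' := hL.me0_med hX
    have hY' := hL.me0_med hY
    have hZ' := hL.me0_med hZ
    have h3 := ih X hX' Y hY' h1
    have h4 : a * Y - Z ∈ P.asIdeal := by
      have h5 : a * Y - Z = (a ^ (n + 1) * X - Z) - a * (a ^ n * X - Y) := by ring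
      rw [h5]
      exact Ideal.sub_mem _ h2 (Ideal.mul_mem_left _ _ h1)
    have h6 := Span_indep (P := P) a hY' hZ' hx' hy' h4 h'
    have h7 := Span_indep (P := P) (a ^ (n + 1)) hx hy hX' hZ' h h2
    have h8 := Submodule.add_mem _ (Submodule.add_mem _ h3 h6) h7
    have h9 : (lg (y : K) - lg (x : K)) - (n + 1) • (lg (y' : K) - lg (x' : K)) =
        lg (Y : K) - lg (X : K) - n • (lg (y' : K) - lg (x' : K)) +
          (lg (Z : K) - lg (Y : K) - (lg (y' : K) - lg (x' : K))) +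
          (lg (y : K) - lg (x : K) - (lg (Z : K) - lg (X : K))) := by
      rw [add_smul, one_smul]
      abel
    rw [h9]
    exact h8

private theorem Span_ord {a : 𝓞 K} (ha : a ∉ P.asIdeal) : ∃ n : ℕ, n ≠ 0 ∧ a ^ n - 1 ∈ P.asIdeal := by
  have hf : Finite (𝓞 K ⧸ P.asIdeal) := Ideal.finiteQuotientOfFreeOfNeBot _ P.ne_bot
  have hp : P.asIdeal.IsPrime := P.isPrime
  have key : ∀ i j : ℕ, i < j → Ideal.Quotient.mk P.asIdeal (a ^ i) =
      Ideal.Quotient.mk P.asIdeal (a ^ j) → ∃ n : ℕ, n ≠ 0 ∧ a ^ n - 1 ∈ P.asIdeal := by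
    intro i j hij h
    refine ⟨j - i, by omega, ?_⟩
    rw [Ideal.Quotient.eq] at h
    have h1 : a ^ i - a ^ j = - (a ^ i * (a ^ (j - i) - 1)) := by
      rw [mul_sub, ← pow_add, Nat.add_sub_cancel' hij.le]
      ring
    rw [h1, Submodule.neg_mem_iff] at h
    exact (hp.mem_or_mem h).resolve_left (fun h2 => ha (hp.mem_of_pow_mem _ h2))
  obtain ⟨i, j, hij, h⟩ := Finite.exists_ne_map_eq_of_infinite
    (fun n : ℕ => Ideal.Quotient.mk P.asIdeal (a ^ n))
  rcases lt_or_gt_of_ne hij with h1 | h1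
  · exact key i j h1 h
  · exact key j i h1 h.symm

/-- `lg` of a medium element is in the span of the differences. -/
theorem med_mem (hL : Lev C S P) {x : 𝓞 K} (hx : x ∈ Med K (qn P)) :
    lg (x : K) ∈ Submodule.span ℚ (DD P) := by
  have ha : x ∉ P.asIdeal := hL.lrg_not x (hL.med_lrg hx)
  obtain ⟨n, hn, h⟩ := Span_ord ha
  have h1 := Span_pow hL ha hL.one_med hx (by rw [mul_one, sub_self]; exact Ideal.zero_mem _) n
    1 hL.one_med 1 hL.one_med (by rw [mul_one]; exact h)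
  rw [sub_self, zero_sub, lgo_one, sub_zero, Submodule.neg_mem_iff] at h1
  have h2 : (n : ℚ) • lg (x : K) ∈ Submodule.span ℚ (DD P) := by
    rw [Nat.cast_smul_eq_nsmul]
    exact h1
  exact (Submodule.smul_mem_iff _ (by exact_mod_cast hn)).1 h2

/-- A difference is `0` or `lg` of a basic quotient. -/
theorem dd_ba {D : VV K} (hD : D ∈ DD P) : D = 0 ∨ ∃ u ∈ Ba C S P, lg u = D := by
  obtain ⟨x, hx, y, hy, z, hz, w, hw, h, rfl⟩ := hD
  by_cases he : x * y = z * w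
  · left
    have h1 := lgo_mul hx.1 hy.1
    rw [he, lgo_mul hz.1 hw.1] at h1
    rw [← h1]
    abel
  · right
    refine ⟨_, ⟨x * y, z * w, Or.inl ⟨x, hx, y, hy, z, hz, w, hw, rfl, rfl⟩, he, h, rfl⟩, ?_⟩
    rw [lgo_div (mul_ne_zero hx.1 hy.1) (mul_ne_zero hz.1 hw.1), lgo_mul hx.1 hy.1,
      lgo_mul hz.1 hw.1]
    abel

theorem dd_le : Submodule.span ℚ (DD P) ≤ Submodule.span ℚ (lg '' Ba C S P) := by
  rw [Submodule.span_le]
  intro D hD
  rcases dd_ba (C := C) (S := S) hD with rfl | ⟨u, hu, rfl⟩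
  · exact Submodule.zero_mem _
  · exact Submodule.subset_span ⟨u, hu, rfl⟩

/-- `lg` of a large element is in `VS S` -/
theorem lrg_vs {q : ℕ} {x : 𝓞 K} (hx : x ∈ Lrg C S q) : lg (x : K) ∈ VS S :=
  Submodule.subset_span ⟨_, hx.2.2, rfl⟩

theorem Lev.med_vs (hL : Lev C S P) {x : 𝓞 K} (hx : x ∈ Med K (qn P)) : lg (x : K) ∈ VS S :=
  lrg_vs (hL.med_lrg hx)

/-- **3.1.** The basic quotients span `VS S`. -/
theorem span_ba (hL : Lev C S P) : VS S = Submodule.span ℚ (lg '' Ba C S P) := by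
  apply le_antisymm
  · rw [hL.span_lrg, Submodule.span_le]
    rintro _ ⟨x, hx, rfl⟩
    change lg (x : K) ∈ Submodule.span ℚ (lg '' Ba C S P)
    obtain ⟨e, he, e', he', h⟩ := hL.g1 x (hL.lrg_not x hx)
    have h1 : lg (e : K) ∈ Submodule.span ℚ (lg '' Ba C S P) := dd_le (med_mem hL (hL.tin_med he))
    have h2 : lg (e' : K) ∈ Submodule.span ℚ (lg '' Ba C S P) :=
      dd_le (med_mem hL (hL.tin_med he'))
    by_cases hxe : x * e = e'
    · have h3 := lgo_mul hx.1 he.1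
      rw [hxe] at h3
      rw [show lg (x : K) = lg (e' : K) - lg (e : K) by rw [h3]; abel]
      exact Submodule.sub_mem _ h2 h1
    · have h3 : lg (((x * e : 𝓞 K) : K) / (e' : K)) ∈ Submodule.span ℚ (lg '' Ba C S P) :=
        Submodule.subset_span ⟨_, ⟨x * e, e', Or.inr ⟨x, hx, e, he, rfl, he'⟩, hxe, h, rfl⟩, rfl⟩
      rw [lgo_div (mul_ne_zero hx.1 he.1) he'.1, lgo_mul hx.1 he.1] at h3
      have h4 := Submodule.sub_mem _ (Submodule.add_mem _ h3 h2) h1
      rw [show lg (x : K) + lg (e : K) - lg (e' : K) + lg (e' : K) - lg (e : K) = lg (x : K) by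
        abel] at h4
      exact h4
  · rw [Submodule.span_le]
    rintro _ ⟨u, ⟨M, N, hT, hne, hP, rfl⟩, rfl⟩
    change lg ((M : K) / (N : K)) ∈ VS S
    rcases hT with ⟨x, hx, y, hy, z, hz, w, hw, rfl, rfl⟩ | ⟨x, hx, e, he, rfl, hN⟩
    · rw [lgo_div (mul_ne_zero hx.1 hy.1) (mul_ne_zero hz.1 hw.1), lgo_mul hx.1 hy.1,
        lgo_mul hz.1 hw.1]
      exact Submodule.sub_mem _ (Submodule.add_mem _ (hL.med_vs hx) (hL.med_vs hy))
        (Submodule.add_mem _ (hL.med_vs hz) (hL.med_vs hw))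
    · rw [lgo_div (mul_ne_zero hx.1 he.1) hN.1, lgo_mul hx.1 he.1]
      exact Submodule.sub_mem _ (Submodule.add_mem _ (lrg_vs hx) (hL.med_vs (hL.tin_med he)))
        (hL.med_vs (hL.tin_med hN))

end NFF
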