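import Pool.Agent.NFF.Span
import Pool.Agent.NFF.OVS

set_option autoImplicit false

/-!
# Project NFF: units and orders of the quotients
-/

namespace NFF

open NumberField TensorProduct
open IsDedekindDomain (HeightOneSpectrum)

variable {K : Type} [Field K] [NumberField K] {C : ℕ} {S : Set (Pr K)} {P : Pr K}

theorem su_mul {x y : 𝓞 K} (hx : SU S (x : K)) (hy : SU S (y : K)) :
    SU S ((x * y : 𝓞 K) : K) := by
  have h : ((x * y : 𝓞 K) : K) = (x : K) * (y : K) := map_mul (algebraMap (𝓞 K) K) x y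
  rw [h]
  exact hx.mul hy

theorem Lev.med_su (hL : Lev C S P) {x : 𝓞 K} (hx : x ∈ Med K (qn P)) : SU S (x : K) :=
  (hL.med_lrg hx).2.2

theorem Lev.tin_su (hL : Lev C S P) {x : 𝓞 K} (hx : x ∈ Tin K (qn P)) : SU S (x : K) :=
  hL.med_su (hL.tin_med hx)

theorem Lev.sml_su (hL : Lev C S P) {x : 𝓞 K} (hx : x ∈ Sml K (qn P)) : SU S (x : K) :=
  hL.tin_su (hL.sml_tin hx)

theorem Lev.med_not (hL : Lev C S P) {x : 𝓞 K} (hx : x ∈ Med K (qn P)) : x ∉ P.asIdeal :=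
  hL.lrg_not x (hL.med_lrg hx)

theorem Lev.tin_not (hL : Lev C S P) {x : 𝓞 K} (hx : x ∈ Tin K (qn P)) : x ∉ P.asIdeal :=
  hL.med_not (hL.tin_med hx)

theorem Lev.sml_not (hL : Lev C S P) {x : 𝓞 K} (hx : x ∈ Sml K (qn P)) : x ∉ P.asIdeal :=
  hL.tin_not (hL.sml_tin hx)

/-- elements of `Big` are `S`-units -/
theorem Lev.big_su (hL : Lev C S P) {M : 𝓞 K} (hM : M ∈ Big C S (qn P)) : SU S (M : K) := by
  rcases hM with ⟨x, hx, y, hy, e, he, rfl⟩ | ⟨x, hx, e, he, z, hz, rfl⟩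
  · exact su_mul (su_mul (hL.med_su hx) (hL.med_su hy)) (hL.tin_su he)
  · exact su_mul (su_mul hx.2.2 (hL.tin_su he)) (hL.sml_su hz)

theorem big_ne {q : ℕ} {M : 𝓞 K} (hM : M ∈ Big C S q) : M ≠ 0 := by
  rcases hM with ⟨x, hx, y, hy, e, he, rfl⟩ | ⟨x, hx, e, he, z, hz, rfl⟩
  · exact mul_ne_zero (mul_ne_zero hx.1 hy.1) he.1
  · exact mul_ne_zero (mul_ne_zero hx.1 he.1) hz.1

/-- elements of `Big` are not in `P` -/
theorem Lev.big_not (hL : Lev C S P) {M : 𝓞 K} (hM : M ∈ Big C S (qn P)) : M ∉ P.asIdeal := by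
  have hp : P.asIdeal.IsPrime := P.isPrime
  have key : ∀ a b c : 𝓞 K, a ∉ P.asIdeal → b ∉ P.asIdeal → c ∉ P.asIdeal →
      a * b * c ∉ P.asIdeal := fun a b c ha hb hc h =>
    (hp.mem_or_mem h).elim (fun h' => (hp.mem_or_mem h').elim ha hb) hc
  rcases hM with ⟨x, hx, y, hy, e, he, rfl⟩ | ⟨x, hx, e, he, z, hz, rfl⟩
  · exact key _ _ _ (hL.med_not hx) (hL.med_not hy) (hL.tin_not he)
  · exact key _ _ _ (hL.lrg_not x hx) (hL.tin_not he) (hL.sml_not hz)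

/-- a product of two medium elements is in `Big` -/
theorem Lev.med_med_big (hL : Lev C S P) {x y : 𝓞 K} (hx : x ∈ Med K (qn P))
    (hy : y ∈ Med K (qn P)) : x * y ∈ Big C S (qn P) :=
  Or.inl ⟨x, hx, y, hy, 1, hL.sml_tin hL.one_sml, (mul_one _).symm⟩

theorem Lev.med_big (hL : Lev C S P) {x : 𝓞 K} (hx : x ∈ Med K (qn P)) : x ∈ Big C S (qn P) := by
  have h := hL.med_med_big hx hL.one_med
  rwa [mul_one] at h

theorem Lev.lrg_tin_big (hL : Lev C S P) {x e : 𝓞 K} (hx : x ∈ Lrg C S (qn P))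
    (he : e ∈ Tin K (qn P)) : x * e ∈ Big C S (qn P) :=
  Or.inr ⟨x, hx, e, he, 1, hL.one_sml, (mul_one _).symm⟩

theorem Lev.ub_su (hL : Lev C S P) {u : K} (hu : u ∈ Ub C S P) : SU S u := by
  obtain ⟨M, hM, N, hN, hne, h, rfl⟩ := hu
  exact (hL.big_su hM).div (hL.big_su hN)

theorem Lev.ub_pu (hL : Lev C S P) {u : K} (hu : u ∈ Ub C S P) : PU S P (1 - u) := by
  obtain ⟨M, hM, N, hN, hne, h, rfl⟩ := hu
  have hc := hL.close M hM N hN hne h
  have hN0 : (N : K) ≠ 0 := (hL.big_su hN).1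
  have h1 : (((M - N : 𝓞 K) : K)) = (M : K) - (N : K) := map_sub (algebraMap (𝓞 K) K) M N
  have h2 : 1 - (M : K) / (N : K) = - ((M - N : 𝓞 K) : K) / (N : K) := by
    rw [h1]
    field_simp
    ring
  rw [h2]
  refine ⟨hc.1.neg.div ((hL.big_su hN).mono (Set.subset_insert _ _)), ?_⟩
  rw [od_div P (neg_ne_zero.2 hc.1.1) hN0, od_neg, hc.2,
    (od_eq_zero_iff P (big_ne hN)).2 (hL.big_not hN), sub_zero]

theorem Lev.ub_ts (hL : Lev C S P) {u : K} (hu : u ∈ Ub C S P) : TS (insert P S) u :=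
  ⟨(hL.ub_su hu).mono (Set.subset_insert _ _), (hL.ub_pu hu).1⟩

theorem Lev.ba_ub (hL : Lev C S P) : Ba C S P ⊆ Ub C S P := by
  rintro u ⟨M, N, hT, hne, h, rfl⟩
  rcases hT with ⟨x, hx, y, hy, z, hz, w, hw, rfl, rfl⟩ | ⟨x, hx, e, he, rfl, hN⟩
  · exact ⟨_, hL.med_med_big hx hy, _, hL.med_med_big hz hw, hne, h, rfl⟩
  · exact ⟨_, hL.lrg_tin_big hx he, _, hL.med_big (hL.tin_med hN), hne, h, rfl⟩

/-- there is an element of order one -/
theorem Lev.exists_pu (hL : Lev C S P) (h : VS S ≠ ⊥) : ∃ p : K, PU S P p := by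
  have h1 : (Ba C S P).Nonempty := by
    rw [Set.nonempty_iff_ne_empty]
    intro he
    apply h
    rw [span_ba hL, he, Set.image_empty, Submodule.span_empty]
  obtain ⟨u, hu⟩ := h1
  exact ⟨1 - u, hL.ub_pu (hL.ba_ub hu)⟩

private theorem UbTS_two_not_unit : ¬ IsUnit (2 : 𝓞 K) := by
  intro h
  obtain ⟨u, hu⟩ := h.exists_right_inv
  have h1 : ((2 : 𝓞 K) : K) * (u : K) = 1 := by
    have h2 := congrArg (algebraMap (𝓞 K) K) hu
    rw [map_mul, map_one] at h2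
    exact h2
  have h3 : ((2 : 𝓞 K) : K) = 2 := map_ofNat (algebraMap (𝓞 K) K) 2
  have h4 : (u : K) = algebraMap ℚ K (1 / 2) := by
    rw [h3] at h1
    rw [map_div₀, map_one, map_ofNat]
    field_simp
    linear_combination h1
  have h5 : IsIntegral ℤ (algebraMap ℚ K (1 / 2)) := by
    rw [← h4]
    exact RingOfIntegers.isIntegral_coe u
  have h6 : IsIntegral ℤ (1 / 2 : ℚ) :=
    (isIntegral_algebraMap_iff (algebraMap ℚ K).injective).1 h5
  obtain ⟨n, hn⟩ := IsIntegrallyClosed.isIntegral_iff.1 h6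
  have h7 : (2 : ℚ) * (n : ℚ) = 1 := by
    have h8 : (n : ℚ) = 1 / 2 := by simpa using hn
    rw [h8]
    norm_num
  have h9 : (2 : ℤ) * n = 1 := by exact_mod_cast h7
  omega

/-- `V_S` is not zero when `S` contains all primes of norm at most `2^d` -/
theorem VS_ne_bot (h : ∀ Q : Pr K, qn Q ≤ 2 ^ dg K → Q ∈ S) : VS S ≠ ⊥ := by
  have h2 : (2 : 𝓞 K) ≠ 0 := two_ne_zero
  have hle : ∀ Q : Pr K, (2 : 𝓞 K) ∈ Q.asIdeal → qn Q ≤ 2 ^ dg K := by
    intro Q hQ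
    have h3 : Q.asIdeal ∣ Ideal.span {(2 : 𝓞 K)} := by
      rw [Ideal.dvd_span_singleton]
      exact hQ
    have h4 := map_dvd (Ideal.absNorm (S := 𝓞 K)) h3
    have h5 : Ideal.absNorm (Ideal.span {(2 : 𝓞 K)}) = 2 ^ dg K := by
      rw [Ideal.absNorm_span_singleton]
      have h6 : (2 : 𝓞 K) = algebraMap ℤ (𝓞 K) 2 := by simp
      rw [h6, Algebra.norm_algebraMap, RingOfIntegers.rank, Int.natAbs_pow]
      rfl
    rw [h5] at h4
    exact Nat.le_of_dvd (by positivity) h4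
  have hsu : SU S ((2 : 𝓞 K) : K) := by
    refine ⟨RingOfIntegers.coe_ne_zero_iff.2 h2, fun Q hQ => ?_⟩
    rw [od_eq_zero_iff Q h2]
    exact fun h' => hQ (h Q (hle Q h'))
  obtain ⟨m, hm, hle'⟩ := Ideal.exists_le_maximal (Ideal.span {(2 : 𝓞 K)}) (by
    rw [Ne, Ideal.span_singleton_eq_top]
    exact UbTS_two_not_unit)
  have h2m : (2 : 𝓞 K) ∈ m := hle' (Ideal.mem_span_singleton_self 2)
  have hbot : m ≠ ⊥ := by
    rintro rfl
    exact h2 ((Submodule.mem_bot (𝓞 K)).1 h2m)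
  let Q : Pr K := ⟨m, hm.isPrime, hbot⟩
  intro hV
  have h7 : lg ((2 : 𝓞 K) : K) = 0 := by
    have h8 := lg_mem_VS hsu
    rw [hV] at h8
    exact h8
  have h9 := vl_lg Q ((2 : 𝓞 K) : K)
  rw [h7, map_zero] at h9
  have h10 : 0 < od Q ((2 : 𝓞 K) : K) := (od_pos_iff Q h2).2 h2m
  have h11 : od Q ((2 : 𝓞 K) : K) = 0 := by exact_mod_cast h9.symm
  omega

end NFF
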