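import Pool.Agent.NFF.Defs
import Pool.Agent.NFF.Ord
import Pool.Agent.NFF.UbTS

set_option autoImplicit false

/-!
# NFF-UbP: properties of the basic quotients
-/

namespace NFF

open NumberField TensorProduct
open IsDedekindDomain (HeightOneSpectrum)

variable {K : Type} [Field K] [NumberField K]

variable {C : ℕ} {S : Set (Pr K)} {P : Pr K}

theorem big_su (h : Lev C S P) {M : 𝓞 K} (hM : M ∈ Big C S (qn P)) :
    M ≠ 0 ∧ SU S (M : K) ∧ M ∉ P.asIdeal := ⟨big_ne hM, h.big_su hM, h.big_not hM⟩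

/-- a product of two medium integers is in `Big` -/
theorem big_med2 (h : Lev C S P) {x y : 𝓞 K} (hx : x ∈ Med K (qn P)) (hy : y ∈ Med K (qn P)) :
    x * y ∈ Big C S (qn P) := h.med_med_big hx hy

theorem big_lrg1 (h : Lev C S P) {x e : 𝓞 K} (hx : x ∈ Lrg C S (qn P)) (he : e ∈ Tin K (qn P)) :
    x * e ∈ Big C S (qn P) := h.lrg_tin_big hx he

theorem big_med1 (h : Lev C S P) {x : 𝓞 K} (hx : x ∈ Med K (qn P)) : x ∈ Big C S (qn P) :=
  h.med_big hx

theorem ba_sub (h : Lev C S P) : Ba C S P ⊆ Ub C S P := h.ba_ub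

theorem ub_props (h : Lev C S P) (hA : Adm S P) {u : K} (hu : u ∈ Ub C S P) :
    u ≠ 0 ∧ u ≠ 1 ∧ SU S u ∧ SU (insert P S) (1 - u) ∧ od P (1 - u) = 1 := by
  refine ⟨(h.ub_su hu).1, ?_, h.ub_su hu, (h.ub_pu hu).1, (h.ub_pu hu).2⟩
  rintro rfl
  exact (h.ub_pu hu).1.1 (sub_self 1)

theorem ub_ts (h : Lev C S P) (hA : Adm S P) {u : K} (hu : u ∈ Ub C S P) :
    TS (insert P S) u := by
  obtain ⟨-, -, h1, h2, -⟩ := ub_props h hA hu
  exact ⟨h1.mono (Set.subset_insert _ _), h2⟩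

end NFF
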