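import Pool.Agent.NFF.Defs
import Pool.Agent.NFF.Ord
import Pool.Agent.NFF.UbP
import Pool.Agent.NFF.Span
import Pool.Agent.NFF.LvI

set_option autoImplicit false

/-!
# NFF-Bs: forms which vanish on all basic quotients
-/

namespace NFF

open NumberField TensorProduct
open IsDedekindDomain (HeightOneSpectrum)

variable {K : Type} [Field K] [NumberField K]

variable {C : ℕ}

/-- alternating forms are skew-symmetric -/
theorem Alt.skew {K : Type} [Field K] {A : VV K →ₗ[ℚ] VV K →ₗ[ℚ] ℚ} (hA : Alt A) (v w : VV K) :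
    A v w = - A w v := by
  have h := hA (v + w)
  simp only [map_add, LinearMap.add_apply, hA v, hA w] at h
  linarith

/-- the difference of the classes of two elements of order one -/
theorem lg_sub_mem_VS {S : Set (Pr K)} {P : Pr K} {x p : K} (hx : SU (insert P S) x)
    (hp : SU (insert P S) p) (h : od P x = od P p) : lg x - lg p ∈ VS S := by
  refine mem_VS_of_vl (P := P) (Submodule.sub_mem _ (lg_mem_VS hx) (lg_mem_VS hp)) ?_
  rw [map_sub, vl_lg, vl_lg, h, sub_self]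

/-- one step -/
theorem bs_step {S : Set (Pr K)} {P : Pr K} (h : Lev C S P) (hA : Adm S P)
    (A : VV K →ₗ[ℚ] VV K →ₗ[ℚ] ℚ) (hAlt : Alt A) (h0 : ∀ u ∈ VS S, ∀ v ∈ VS S, A u v = 0)
    (hz : ∀ u ∈ Ba C S P, dA A u = 0) :
    ∀ u ∈ VS (insert P S), ∀ v ∈ VS (insert P S), A u v = 0 := by
  obtain ⟨p, hp, hp1⟩ := h.unif
  have hK : ∀ w ∈ VS S, A (lg (p : K)) w = 0 := by
    intro w hw
    rw [span_ba h] at hw
    induction hw using Submodule.span_induction with
    | mem w hw =>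
      obtain ⟨u, hu, rfl⟩ := hw
      obtain ⟨hu0, hu1, hu2, hu3, hu4⟩ := ub_props h hA (ba_sub h hu)
      have h1 : lg (1 - u) - lg (p : K) ∈ VS S := lg_sub_mem_VS hu3 hp (by rw [hu4, hp1])
      have h2 := h0 _ h1 _ (lg_mem_VS hu2)
      have h3 := hz u hu
      unfold dA at h3
      rw [map_sub, LinearMap.sub_apply, h3, zero_sub, neg_eq_zero] at h2
      exact h2
    | zero => exact map_zero _
    | add a b _ _ ha hb => rw [map_add, ha, hb, add_zero]
    | smul c a _ ha => rw [map_smul, ha, smul_zero]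
  have hins := VS_insert (S := S) (P := P) hp (by rw [hp1]; exact one_ne_zero)
  intro u hu v hv
  rw [hins, Submodule.mem_sup] at hu hv
  obtain ⟨g, hg, a', ha', rfl⟩ := hu
  obtain ⟨k, hk, b', hb', rfl⟩ := hv
  rw [Submodule.mem_span_singleton] at ha' hb'
  obtain ⟨a, rfl⟩ := ha'
  obtain ⟨b, rfl⟩ := hb'
  have e1 : A g (lg (p : K)) = 0 := by rw [hAlt.skew, hK g hg, neg_zero]
  simp only [map_add, map_smul, LinearMap.add_apply, LinearMap.smul_apply, h0 g hg k hk, e1,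
    hK k hk, hAlt (lg (p : K)), smul_zero, add_zero]

theorem bs_all {q0 : ℕ} (hfin : ∀ n : ℕ, (Low K n).Finite)
    (hL : ∀ (S : Set (Pr K)) (P : Pr K), Adm S P → q0 ≤ qn P → Lev C S P)
    (A : VV K →ₗ[ℚ] VV K →ₗ[ℚ] ℚ) (hAlt : Alt A)
    (h0 : ∀ u ∈ VS (Low K q0), ∀ v ∈ VS (Low K q0), A u v = 0) {T : Set (Pr K)}
    (hT : IsLv q0 T)
    (hz : ∀ (S : Set (Pr K)) (P : Pr K), Adm S P → q0 ≤ qn P → insert P S ⊆ T →
      ∀ u ∈ Ba C S P, dA A u = 0) :
    ∀ u ∈ VS T, ∀ v ∈ VS T, A u v = 0 := by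
  refine lv_induct hfin (n0 := q0) (fun S => S ⊆ T → ∀ u ∈ VS S, ∀ v ∈ VS S, A u v = 0)
    (fun _ => h0) ?_ hT subset_rfl
  intro S P hA hq _ ih hST
  exact bs_step (hL S P hA hq) hA A hAlt (ih ((Set.subset_insert P S).trans hST))
    (hz S P hA hq hST)

end NFF
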