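import Pool.Agent.NFF.Defs
import Pool.Agent.NFF.Ord
import Pool.Agent.NFF.UbP

set_option autoImplicit false

/-!
# NFF-Cp1: local constancy
-/

namespace NFF

open NumberField TensorProduct
open IsDedekindDomain (HeightOneSpectrum)

variable {K : Type} [Field K] [NumberField K]

variable {C : ℕ} {S : Set (Pr K)} {P : Pr K} {ψ : K → ℚ}

/-- `ψ` vanishes at `x` if `1 - x` has positive order -/
private theorem cp1_van (hψ : Psi S P ψ) {x z : K} (hx : SU (insert P S) x)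
    (hz : SU (insert P S) z) (h1 : 1 - x = z) (h2 : 0 < od P z) : ψ x = 0 := by
  refine hψ.van x ⟨hx, ?_⟩ (Or.inr ?_)
  · rw [h1]
    exact hz
  · rw [h1]
    exact h2.ne'

theorem psi_loc (hP : P ∉ S) (hψ : Psi S P ψ) {s t : K} (hs : TS S s) (ht : TS S t)
    (h : s ≠ t → SU (insert P S) (s - t) ∧ 0 < od P (s - t)) : ψ s = ψ t := by
  by_cases hst : s = t
  · rw [hst]
  obtain ⟨hd, hd0⟩ := h hst
  have hsub : S ⊆ insert P S := Set.subset_insert _ _
  have hs0 : s ≠ 0 := hs.1.ne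
  have ht0 : t ≠ 0 := ht.1.ne
  have hs1 : (1 : K) - s ≠ 0 := hs.2.ne
  have ht1 : (1 : K) - t ≠ 0 := ht.2.ne
  have hsn : s ≠ 1 := hs.ne_one
  have htn : t ≠ 1 := ht.ne_one
  have ods : od P s = 0 := hs.1.2 P hP
  have odt1 : od P (1 - t) = 0 := ht.2.2 P hP
  have hd' : s - t ≠ 0 := sub_ne_zero.2 hst
  have e1 : ψ (t / s) = 0 := by
    refine cp1_van hψ ((ht.1.mono hsub).div (hs.1.mono hsub)) (hd.div (hs.1.mono hsub)) ?_ ?_
    · field_simp
    · rw [od_div P hd' hs0, ods, sub_zero]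
      exact hd0
  have e2 : ψ ((1 - s) / (1 - t)) = 0 := by
    refine cp1_van hψ ((hs.2.mono hsub).div (ht.2.mono hsub)) (hd.div (ht.2.mono hsub)) ?_ ?_
    · field_simp
      ring
    · rw [od_div P hd' ht1, odt1, sub_zero]
      exact hd0
  have e3 : ψ ((1 - s⁻¹) / (1 - t⁻¹)) = 0 := by
    have hx : (1 - s⁻¹) / (1 - t⁻¹) = (t / s) * ((1 - s) / (1 - t)) := by
      have ht2 : t - 1 ≠ 0 := sub_ne_zero.2 htn
      have ht3 : 1 - t⁻¹ ≠ 0 := by
        intro h0
        apply htn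
        have h1 : t⁻¹ = 1 := (sub_eq_zero.1 h0).symm
        rw [← inv_inv t, h1, inv_one]
      rw [div_mul_div_comm, div_eq_div_iff ht3 (mul_ne_zero hs0 ht1)]
      field_simp
      ring
    have hz : (1 : K) - (1 - s⁻¹) / (1 - t⁻¹) = (s - t) / (s * (1 - t)) := by
      rw [hx]
      field_simp
      ring
    refine cp1_van hψ ?_ (hd.div ((hs.1.mono hsub).mul (ht.2.mono hsub))) hz ?_
    · rw [hx]
      exact ((ht.1.mono hsub).div (hs.1.mono hsub)).mul ((hs.2.mono hsub).div (ht.2.mono hsub))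
    · rw [od_div P hd' (mul_ne_zero hs0 ht1), od_mul P hs0 ht1, ods, odt1, add_zero, sub_zero]
      exact hd0
  have h5 := hψ.five.five s t hs0 hsn ht0 htn hst
  rw [e1, e2, e3] at h5
  linarith

theorem psi_cmp (h : Lev C S P) (hP : P ∉ S) (hψ : Psi S P ψ) {M N x y : 𝓞 K} (hN0 : N ≠ 0)
    (hx0 : x ≠ 0) (h1 : TS S ((M : K) / (N : K))) (h2 : TS S ((y : K) / (x : K)))
    (hM : M * x ∈ Big C S (qn P)) (hN : N * y ∈ Big C S (qn P))
    (hc : M * x - N * y ∈ P.asIdeal) : ψ ((M : K) / (N : K)) = ψ ((y : K) / (x : K)) := by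
  refine psi_loc hP hψ h1 h2 fun hne => ?_
  have hNK : (N : K) ≠ 0 := RingOfIntegers.coe_ne_zero_iff.2 hN0
  have hxK : (x : K) ≠ 0 := RingOfIntegers.coe_ne_zero_iff.2 hx0
  have hNS : SU S (N : K) := SU.of_mul_left (big_su h hN).2.1
  have hxS : SU S (x : K) := SU.of_mul_right (big_su h hM).2.1
  have e : (M : K) / (N : K) - (y : K) / (x : K) = ((M * x - N * y : 𝓞 K) : K) / ((N : K) * (x : K)) := by
    push_cast
    rw [div_sub_div _ _ hNK hxK]
  have hMN : M * x ≠ N * y := by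
    intro h0
    apply hne
    rw [← sub_eq_zero, e, h0, sub_self]
    simp
  obtain ⟨h3, h4⟩ := h.close _ hM _ hN hMN hc
  have hsub : S ⊆ insert P S := Set.subset_insert _ _
  rw [e]
  refine ⟨h3.div ((hNS.mono hsub).mul (hxS.mono hsub)), ?_⟩
  rw [od_div P h3.ne (mul_ne_zero hNK hxK), od_mul P hNK hxK, hNS.2 P hP, hxS.2 P hP, h4]
  norm_num

end NFF
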