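import Pool.Agent.NFF.Defs
import Pool.Agent.NFF.Ord
import Pool.Agent.NFF.UbP
import Pool.Agent.NFF.Cp1

set_option autoImplicit false

/-!
# NFF-Cp2a: the function on the residue field, existence

The value at the class of `a` is `ψ (e₂ / e₁)` for tiny `e₁`, `e₂` with `a e₁ ≡ e₂` modulo `P`.
-/

namespace NFF

open NumberField TensorProduct
open IsDedekindDomain (HeightOneSpectrum)

variable {K : Type} [Field K] [NumberField K]

variable {C : ℕ} {S : Set (Pr K)} {P : Pr K} {ψ : K → ℚ}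

theorem med_ts (h : Lev C S P) {x y : 𝓞 K} (hx : x ∈ Med K (qn P)) (hy : y ∈ Med K (qn P))
    (hxy : x ≠ y) : TS S ((y : K) / (x : K)) := by
  have h1 : SU S (x : K) := (h.med_lrg hx).2.2
  have h2 : SU S (y : K) := (h.med_lrg hy).2.2
  have h3 : SU S ((x - y : 𝓞 K) : K) := (h.sub_med x hx y hy hxy).2
  refine ⟨h2.div h1, ?_⟩
  have h4 : (1 : K) - (y : K) / (x : K) = ((x - y : 𝓞 K) : K) / (x : K) := by
    have h5 : ((x - y : 𝓞 K) : K) = (x : K) - (y : K) := map_sub (algebraMap (𝓞 K) K) x y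
    rw [h5, sub_div, div_self h1.ne]
  rw [h4]
  exact h3.div h1

private theorem Cp2a_choose (h : Lev C S P) (ψ : K → ℚ) (c : 𝓞 K ⧸ P.asIdeal) : ∃ r : ℚ,
    (c = 0 ∨ c = 1 → r = 0) ∧ (¬ (c = 0 ∨ c = 1) → ∃ a : 𝓞 K, Ideal.Quotient.mk P.asIdeal a = c ∧
      ∃ e ∈ Tin K (qn P), ∃ e' ∈ Tin K (qn P), a * e - e' ∈ P.asIdeal ∧
        r = ψ ((e' : K) / (e : K))) := by
  by_cases hc : c = 0 ∨ c = 1
  · exact ⟨0, fun _ => rfl, fun h => absurd hc h⟩
  · obtain ⟨a, ha⟩ := Ideal.Quotient.mk_surjective c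
    have h1 : a ∉ P.asIdeal := by
      intro h2
      apply hc
      left
      rw [← ha]
      exact Ideal.Quotient.eq_zero_iff_mem.2 h2
    obtain ⟨e, he, e', he', h2⟩ := h.g1 a h1
    exact ⟨ψ ((e' : K) / (e : K)), fun h => absurd h hc, fun _ => ⟨a, ha, e, he, e', he', h2, rfl⟩⟩

/-- the function `be` on the residue field -/
theorem exists_be (h : Lev C S P) (hP : P ∉ S) (hψ : Psi S P ψ) :
    ∃ be : (𝓞 K ⧸ P.asIdeal) → ℚ, be 0 = 0 ∧ be 1 = 0 ∧
      ∀ (a : 𝓞 K) (M N : 𝓞 K), a ∉ P.asIdeal → a - 1 ∉ P.asIdeal → N ≠ 0 →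
        TS S ((M : K) / (N : K)) → a * N - M ∈ P.asIdeal →
        (∀ e ∈ Tin K (qn P), M * e ∈ Big C S (qn P)) →
        (∀ e ∈ Tin K (qn P), N * e ∈ Big C S (qn P)) →
        ψ ((M : K) / (N : K)) = be (Ideal.Quotient.mk P.asIdeal a) := by
  have hp : P.asIdeal.IsPrime := P.isPrime
  choose be h0 h1 using fun c => Cp2a_choose h ψ c
  refine ⟨be, h0 0 (Or.inl rfl), h0 1 (Or.inr rfl), ?_⟩
  intro a M N ha ha1 hN hT hM hBM hBN
  have hc : ¬ (Ideal.Quotient.mk P.asIdeal a = 0 ∨ Ideal.Quotient.mk P.asIdeal a = 1) := by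
    rintro (h2 | h2)
    · exact ha (Ideal.Quotient.eq_zero_iff_mem.1 h2)
    · apply ha1
      rw [← Ideal.Quotient.eq_zero_iff_mem, map_sub, h2, map_one, sub_self]
  obtain ⟨a', ha', e, he, e', he', h2, h3⟩ := h1 _ hc
  have h4 : a' - a ∈ P.asIdeal := by
    rw [← Ideal.Quotient.eq_zero_iff_mem, map_sub, ha', sub_self]
  have h5 : a * e - e' ∈ P.asIdeal := by
    have h6 : a * e - e' = (a' * e - e') - (a' - a) * e := by ring
    rw [h6]
    exact Ideal.sub_mem _ h2 (Ideal.mul_mem_right _ _ h4)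
  have hem : e ∈ Med K (qn P) := h.me0_med (h.tin_me0 he)
  have hem' : e' ∈ Med K (qn P) := h.me0_med (h.tin_me0 he')
  have hne : e ≠ e' := by
    intro h6
    have h7 : (a - 1) * e ∈ P.asIdeal := by
      have h8 : (a - 1) * e = a * e - e' := by rw [← h6]; ring
      rw [h8]
      exact h5
    rcases hp.mem_or_mem h7 with h8 | h8
    · exact ha1 h8
    · exact h.lrg_not _ (h.med_lrg hem) h8
  rw [h3]
  refine psi_cmp h hP hψ hN he.1 hT (med_ts h hem hem' hne) (hBM e he) (hBN e' he') ?_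
  have h6 : M * e - N * e' = N * (a * e - e') - (a * N - M) * e := by ring
  rw [h6]
  exact Ideal.sub_mem _ (Ideal.mul_mem_left _ _ h5) (Ideal.mul_mem_right _ _ hM)

end NFF
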