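import Pool.Agent.NFF.Defs
import Pool.Agent.QGC.A2

set_option autoImplicit false

/-!
# NFF, section 3.3: local constancy

`psi` five-term, `psi x = 0` if `x, 1 - x` are units outside `insert P S` and one of them is not a unit at `P`.  Then
`psi` vanishes at the `M / N` in `TS S` with `Ty C S (qn P) M N`.
-/

namespace NFF

open NumberField TensorProduct
open IsDedekindDomain (HeightOneSpectrum)

variable {K : Type} [Field K] [NumberField K]

section order

private theorem lo_cm (x y : 𝓞 K) : ((x * y : 𝓞 K) : K) = (x : K) * (y : K) :=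
  map_mul (algebraMap (𝓞 K) K) x y

private theorem lo_cs (x y : 𝓞 K) : ((x - y : 𝓞 K) : K) = (x : K) - (y : K) :=
  map_sub (algebraMap (𝓞 K) K) x y

private theorem lo_c1 : ((1 : 𝓞 K) : K) = 1 := map_one (algebraMap (𝓞 K) K)

private theorem lo_od_mul (P : Pr K) {x y : K} (hx : x ≠ 0) (hy : y ≠ 0) :
    od P (x * y) = od P x + od P y := by
  unfold od
  rw [dif_neg hx, dif_neg hy, dif_neg (mul_ne_zero hx hy), Units.mk0_mul, map_mul, toAdd_mul]
  ring

private theorem lo_od_one (P : Pr K) : od P (1 : K) = 0 := by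
  have h := lo_od_mul P (one_ne_zero (α := K)) (one_ne_zero (α := K))
  rw [mul_one] at h
  omega

private theorem lo_od_inv (P : Pr K) {x : K} (hx : x ≠ 0) : od P x⁻¹ = - od P x := by
  have h := lo_od_mul P hx (inv_ne_zero hx)
  rw [mul_inv_cancel₀ hx, lo_od_one] at h
  omega

private theorem lo_od_div (P : Pr K) {x y : K} (hx : x ≠ 0) (hy : y ≠ 0) :
    od P (x / y) = od P x - od P y := by
  rw [div_eq_mul_inv, lo_od_mul P hx (inv_ne_zero hy), lo_od_inv P hy]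
  ring

private theorem lo_od_neg (P : Pr K) (x : K) : od P (-x) = od P x := by
  by_cases hx : x = 0
  · rw [hx, neg_zero]
  have h1 : od P (-1 : K) = 0 := by
    have h := lo_od_mul P (neg_ne_zero.2 (one_ne_zero (α := K)))
      (neg_ne_zero.2 (one_ne_zero (α := K)))
    rw [neg_mul_neg, mul_one, lo_od_one] at h
    omega
  rw [← neg_one_mul, lo_od_mul P (neg_ne_zero.2 one_ne_zero) hx, h1, zero_add]

private theorem lo_mul {S : Set (Pr K)} {x y : K} (hx : SU S x) (hy : SU S y) : SU S (x * y) :=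
  ⟨mul_ne_zero hx.1 hy.1, fun Q hQ => by
    rw [lo_od_mul Q hx.1 hy.1, hx.2 Q hQ, hy.2 Q hQ, add_zero]⟩

private theorem lo_div {S : Set (Pr K)} {x y : K} (hx : SU S x) (hy : SU S y) : SU S (x / y) :=
  ⟨div_ne_zero hx.1 hy.1, fun Q hQ => by
    rw [lo_od_div Q hx.1 hy.1, hx.2 Q hQ, hy.2 Q hQ, sub_zero]⟩

private theorem lo_neg {S : Set (Pr K)} {x : K} (hx : SU S x) : SU S (-x) :=
  ⟨neg_ne_zero.2 hx.1, fun Q hQ => by rw [lo_od_neg, hx.2 Q hQ]⟩

private theorem lo_ins {S : Set (Pr K)} {P : Pr K} {x : K} (hx : SU S x) : SU (insert P S) x :=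
  ⟨hx.1, fun Q hQ => hx.2 Q fun h => hQ (Set.mem_insert_of_mem _ h)⟩

end order

variable {C : ℕ} {S : Set (Pr K)} {P : Pr K} {psi : K → ℚ}

/-- (a) -/
private theorem lo_a (hP : P ∉ S) (h5 : Five psi)
    (h0 : ∀ x : K, TS (insert P S) x → (od P x ≠ 0 ∨ od P (1 - x) ≠ 0) → psi x = 0) {s t : K}
    (hs : TS S s) (ht : TS S t) (hst : SU (insert P S) (s - t)) (ho : od P (s - t) ≠ 0) :
    psi s = psi t := by
  have hs0 := hs.1.1
  have ht0 := ht.1.1
  have hs1 := hs.2.1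
  have ht1 := ht.2.1
  have hd := hst.1
  have e1 : 1 - t / s = (s - t) / s := by field_simp
  have a1 : psi (t / s) = 0 := by
    refine h0 _ ⟨lo_ins (lo_div ht.1 hs.1), ?_⟩ (Or.inr ?_)
    · rw [e1]
      exact lo_div hst (lo_ins hs.1)
    · rw [e1, lo_od_div P hd hs0, hs.1.2 P hP, sub_zero]
      exact ho
  have e2 : 1 - (1 - s) / (1 - t) = (s - t) / (1 - t) := by
    field_simp
    ring
  have a2 : psi ((1 - s) / (1 - t)) = 0 := by
    refine h0 _ ⟨lo_ins (lo_div hs.2 ht.2), ?_⟩ (Or.inr ?_)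
    · rw [e2]
      exact lo_div hst (lo_ins ht.2)
    · rw [e2, lo_od_div P hd ht1, ht.2.2 P hP, sub_zero]
      exact ho
  have e3 : (1 - s⁻¹) / (1 - t⁻¹) = (1 - s) / (1 - t) * (t / s) := by
    have h1 : 1 - t⁻¹ = -((1 - t) / t) := by
      field_simp
      ring
    have h2 : 1 - s⁻¹ = -((1 - s) / s) := by
      field_simp
      ring
    rw [h1, h2]
    field_simp
  have e4 : 1 - (1 - s⁻¹) / (1 - t⁻¹) = (s - t) / ((1 - t) * s) := by
    rw [e3]
    field_simp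
    ring
  have a3 : psi ((1 - s⁻¹) / (1 - t⁻¹)) = 0 := by
    refine h0 _ ⟨?_, ?_⟩ (Or.inr ?_)
    · rw [e3]
      exact lo_ins (lo_mul (lo_div hs.2 ht.2) (lo_div ht.1 hs.1))
    · rw [e4]
      exact lo_div hst (lo_ins (lo_mul ht.2 hs.1))
    · rw [e4, lo_od_div P hd (mul_ne_zero ht1 hs0), lo_od_mul P ht1 hs0,
        ht.2.2 P hP, hs.1.2 P hP, add_zero, sub_zero]
      exact ho
  have h := h5.five s t hs0 (fun h => hs1 (by rw [h, sub_self])) ht0
    (fun h => ht1 (by rw [h, sub_self])) (fun h => hd (by rw [h, sub_self]))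
  rw [a1, a2, a3] at h
  linarith

/-- (b) -/
private theorem lo_b (hL : Lev C S P) (hP : P ∉ S) (h5 : Five psi)
    (h0 : ∀ x : K, TS (insert P S) x → (od P x ≠ 0 ∨ od P (1 - x) ≠ 0) → psi x = 0)
    {M N y x : 𝓞 K} (hN : SU S (N : K)) (hx : SU S (x : K)) (h1 : TS S ((M : K) / (N : K)))
    (h2 : TS S ((y : K) / (x : K))) (h3 : M * x - N * y ∈ P.asIdeal)
    (h4 : M * x ∈ Big C S (qn P)) (h6 : N * y ∈ Big C S (qn P)) :
    psi ((M : K) / (N : K)) = psi ((y : K) / (x : K)) := by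
  have hN0 := hN.1
  have hx0 := hx.1
  by_cases he : M * x = N * y
  · have h7 : (M : K) / (N : K) = (y : K) / (x : K) := by
      rw [div_eq_div_iff hN0 hx0]
      have h8 : ((M * x : 𝓞 K) : K) = ((N * y : 𝓞 K) : K) := by rw [he]
      rw [lo_cm, lo_cm] at h8
      rw [h8]
      ring
    rw [h7]
  · have hc := hL.close _ h4 _ h6 he h3
    have h7 : (M : K) / (N : K) - (y : K) / (x : K) = ((M * x - N * y : 𝓞 K) : K) /
        ((N : K) * (x : K)) := by
      rw [div_sub_div _ _ hN0 hx0, lo_cs, lo_cm, lo_cm]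
    refine lo_a hP h5 h0 h1 h2 ?_ ?_
    · rw [h7]
      exact lo_div hc.1 (lo_ins (lo_mul hN hx))
    · rw [h7, lo_od_div P hc.1.1 (mul_ne_zero hN0 hx0), hc.2, lo_od_mul P hN0 hx0, hN.2 P hP,
        hx.2 P hP]
      norm_num

section sets

theorem Lev.lo_med_su (hL : Lev C S P) {x : 𝓞 K} (hx : x ∈ Med K (qn P)) : SU S (x : K) :=
  (hL.med_lrg hx).2.2

theorem Lev.lo_tin_med (hL : Lev C S P) : Tin K (qn P) ⊆ Med K (qn P) :=
  fun _ h => hL.me0_med (hL.tin_me0 h)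

theorem Lev.lo_sml_med (hL : Lev C S P) : Sml K (qn P) ⊆ Med K (qn P) :=
  fun _ h => hL.lo_tin_med (hL.sml_tin h)

theorem Lev.lo_one_med (hL : Lev C S P) : (1 : 𝓞 K) ∈ Med K (qn P) := hL.lo_sml_med hL.one_sml

theorem Lev.lo_one_tin (hL : Lev C S P) : (1 : 𝓞 K) ∈ Tin K (qn P) := hL.sml_tin hL.one_sml

theorem Lev.lo_med_not (hL : Lev C S P) {x : 𝓞 K} (hx : x ∈ Med K (qn P)) : x ∉ P.asIdeal :=
  hL.lrg_not x (hL.med_lrg hx)

theorem Lev.lo_big_med (hL : Lev C S P) {x y e : 𝓞 K} (hx : x ∈ Med K (qn P))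
    (hy : y ∈ Med K (qn P)) (he : e ∈ Tin K (qn P)) : x * y * e ∈ Big C S (qn P) :=
  Or.inl ⟨x, hx, y, hy, e, he, rfl⟩

theorem Lev.lo_big_med1 (hL : Lev C S P) {x e : 𝓞 K} (hx : x ∈ Med K (qn P))
    (he : e ∈ Tin K (qn P)) : x * e ∈ Big C S (qn P) :=
  Or.inl ⟨x, hx, 1, hL.lo_one_med, e, he, by rw [mul_one]⟩

/-- quotients of different medium elements -/
theorem Lev.lo_ts_med (hL : Lev C S P) {x y : 𝓞 K} (hx : x ∈ Med K (qn P)) (hy : y ∈ Med K (qn P))
    (hxy : x ≠ y) : TS S ((y : K) / (x : K)) := by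
  refine ⟨lo_div (hL.lo_med_su hy) (hL.lo_med_su hx), ?_⟩
  have h1 : 1 - (y : K) / (x : K) = ((x - y : 𝓞 K) : K) / (x : K) := by
    rw [lo_cs, sub_div, div_self (hL.lo_med_su hx).1]
  rw [h1]
  exact lo_div (hL.sub_med x hx y hy hxy).2 (hL.lo_med_su hx)

end sets

section residue

/-- a representative of a class by a quotient of tiny elements -/
private theorem lo_rep (hL : Lev C S P) (a : 𝓞 K ⧸ P.asIdeal) (ha : a ≠ 0) :
    ∃ e ∈ Tin K (qn P), ∃ e' ∈ Tin K (qn P),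
      a * Ideal.Quotient.mk P.asIdeal e = Ideal.Quotient.mk P.asIdeal e' := by
  obtain ⟨a', rfl⟩ := Ideal.Quotient.mk_surjective a
  have h1 : a' ∉ P.asIdeal := fun h => ha (Ideal.Quotient.eq_zero_iff_mem.2 h)
  obtain ⟨e, he, e', he', h⟩ := hL.g1 a' h1
  refine ⟨e, he, e', he', ?_⟩
  rw [← map_mul, Ideal.Quotient.mk_eq_mk_iff_sub_mem]
  exact h

open Classical in
/-- the function on the residue field -/
private noncomputable def be (hL : Lev C S P) (psi : K → ℚ) (a : 𝓞 K ⧸ P.asIdeal) : ℚ :=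
  if h : a ≠ 0 ∧ a ≠ 1 then
    psi ((((lo_rep hL a h.1).choose_spec.2.choose : 𝓞 K) : K) / ((lo_rep hL a h.1).choose : 𝓞 K))
  else 0

private theorem be_zero (hL : Lev C S P) : be hL psi 0 = 0 := by
  unfold be
  rw [dif_neg]
  rintro ⟨h, -⟩
  exact h rfl

private theorem be_one (hL : Lev C S P) : be hL psi 1 = 0 := by
  unfold be
  rw [dif_neg]
  rintro ⟨-, h⟩
  exact h rfl

private theorem be_eq (hL : Lev C S P) {a : 𝓞 K ⧸ P.asIdeal} (h0 : a ≠ 0) (h1 : a ≠ 1) :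
    ∃ e ∈ Tin K (qn P), ∃ e' ∈ Tin K (qn P),
      a * Ideal.Quotient.mk P.asIdeal e = Ideal.Quotient.mk P.asIdeal e' ∧
      be hL psi a = psi ((e' : K) / (e : K)) := by
  refine ⟨(lo_rep hL a h0).choose, (lo_rep hL a h0).choose_spec.1,
    (lo_rep hL a h0).choose_spec.2.choose, (lo_rep hL a h0).choose_spec.2.choose_spec.1,
    (lo_rep hL a h0).choose_spec.2.choose_spec.2, ?_⟩
  unfold be
  rw [dif_pos ⟨h0, h1⟩]

/-- different medium elements: different classes -/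
private theorem lo_ne (hL : Lev C S P) {x : 𝓞 K} (hx : x ∈ Med K (qn P)) :
    Ideal.Quotient.mk P.asIdeal x ≠ 0 := fun h =>
  hL.lo_med_not hx (Ideal.Quotient.eq_zero_iff_mem.1 h)

private theorem lo_ne1 (hL : Lev C S P) {x y : 𝓞 K} (hx : x ∈ Med K (qn P))
    (hy : y ∈ Med K (qn P)) (hxy : x ≠ y) :
    Ideal.Quotient.mk P.asIdeal x ≠ Ideal.Quotient.mk P.asIdeal y := fun h =>
  (hL.sub_med x hx y hy hxy).1 (Ideal.Quotient.mk_eq_mk_iff_sub_mem _ _ |>.1 h)

/-- the value at a quotient `M / N` of elements with products in `Big` depends only on the class -/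
private theorem lo_val (hL : Lev C S P) (hP : P ∉ S) (h5 : Five psi)
    (h0 : ∀ x : K, TS (insert P S) x → (od P x ≠ 0 ∨ od P (1 - x) ≠ 0) → psi x = 0)
    {M N : 𝓞 K} {a : 𝓞 K ⧸ P.asIdeal} (ha0 : a ≠ 0) (ha1 : a ≠ 1)
    (hN : SU S (N : K)) (h1 : TS S ((M : K) / (N : K)))
    (ha : Ideal.Quotient.mk P.asIdeal M = a * Ideal.Quotient.mk P.asIdeal N)
    (h4 : ∀ e ∈ Tin K (qn P), M * e ∈ Big C S (qn P))
    (h6 : ∀ e ∈ Tin K (qn P), N * e ∈ Big C S (qn P)) :
    psi ((M : K) / (N : K)) = be hL psi a := by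
  obtain ⟨e, he, e', he', h7, h8⟩ := be_eq (psi := psi) hL ha0 ha1
  have hee : e ≠ e' := by
    rintro rfl
    apply ha1
    have hP' : P.asIdeal.IsPrime := P.isPrime
    exact (mul_eq_right₀ (lo_ne hL (hL.lo_tin_med he))).1 h7
  rw [h8]
  refine lo_b hL hP h5 h0 hN (hL.lo_med_su (hL.lo_tin_med he)) h1
    (hL.lo_ts_med (hL.lo_tin_med he) (hL.lo_tin_med he') hee) ?_ (h4 e he) (h6 e' he')
  rw [← Ideal.Quotient.mk_eq_mk_iff_sub_mem, map_mul, map_mul, ha, ← h7]
  ring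

private theorem lo_med (hL : Lev C S P) (hP : P ∉ S) (h5 : Five psi)
    (h0 : ∀ x : K, TS (insert P S) x → (od P x ≠ 0 ∨ od P (1 - x) ≠ 0) → psi x = 0)
    {x y : 𝓞 K} {a : 𝓞 K ⧸ P.asIdeal} (hx : x ∈ Med K (qn P)) (hy : y ∈ Med K (qn P))
    (hxy : x ≠ y) (ha : Ideal.Quotient.mk P.asIdeal y = a * Ideal.Quotient.mk P.asIdeal x) :
    psi ((y : K) / (x : K)) = be hL psi a := by
  refine lo_val hL hP h5 h0 ?_ ?_ (hL.lo_med_su hx) (hL.lo_ts_med hx hy hxy) ha
    (fun e he => hL.lo_big_med1 hy he) (fun e he => hL.lo_big_med1 hx he)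
  · rintro rfl
    rw [zero_mul] at ha
    exact lo_ne hL hy ha
  · rintro rfl
    rw [one_mul] at ha
    exact lo_ne1 hL hx hy hxy ha.symm

/-- (d), (e) -/
private theorem be_all (hL : Lev C S P) (hP : P ∉ S) (h5 : Five psi)
    (h0 : ∀ x : K, TS (insert P S) x → (od P x ≠ 0 ∨ od P (1 - x) ≠ 0) → psi x = 0)
    (a : 𝓞 K ⧸ P.asIdeal) : be hL psi a = 0 := by
  have hmax : P.asIdeal.IsMaximal := P.isMaximal
  have hfin : Finite (𝓞 K ⧸ P.asIdeal) := Ideal.finiteQuotientOfFreeOfNeBot P.asIdeal P.ne_bot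
  letI : Field (𝓞 K ⧸ P.asIdeal) := Ideal.Quotient.field P.asIdeal
  refine Pool.Agent.QGC.avg_field (be hL psi) (be_zero hL) (be_one hL) ?_ ?_ ?_ a
  · intro a ha0 ha1
    obtain ⟨e, he, e', he', h7, h8⟩ := be_eq (psi := psi) hL ha0 ha1
    have he0 := lo_ne hL (hL.lo_tin_med he)
    have hee : e ≠ e' := by
      rintro rfl
      exact ha1 ((mul_eq_right₀ he0).1 h7)
    have hm := hL.lo_ts_med (hL.lo_tin_med he) (hL.lo_tin_med he') hee
    rw [← lo_med hL hP h5 h0 (hL.lo_tin_med he') (hL.lo_tin_med he) hee.symm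
      (a := a⁻¹) (by rw [← h7, inv_mul_cancel_left₀ ha0]), h8,
      ← h5.inv _ hm.1.1 (fun h => hm.2.1 (by rw [h, sub_self])), inv_div]
  · intro a ha0 ha1
    obtain ⟨e, he, e', he', h7, h8⟩ := be_eq (psi := psi) hL ha0 ha1
    have he0 := lo_ne hL (hL.lo_tin_med he)
    have hee : e ≠ e' := by
      rintro rfl
      exact ha1 ((mul_eq_right₀ he0).1 h7)
    have hm := hL.lo_ts_med (hL.lo_tin_med he) (hL.lo_tin_med he') hee
    have h9 : e - e' ∈ Med K (qn P) := hL.sub_me0 e (hL.tin_me0 he) e' (hL.tin_me0 he') hee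
    have h10 : e ≠ e - e' := fun h => he'.1 (by linear_combination h)
    rw [← lo_med hL hP h5 h0 (hL.lo_tin_med he) h9 h10
      (a := 1 - a) (by rw [map_sub, ← h7]; ring), h8,
      ← h5.sub _ hm.1.1 (fun h => hm.2.1 (by rw [h, sub_self])), lo_cs, sub_div,
      div_self (hL.lo_med_su (hL.lo_tin_med he)).1]
  · intro a b ha0 ha1 hb0 hb1 hab
    obtain ⟨a', rfl⟩ := Ideal.Quotient.mk_surjective a
    obtain ⟨b', rfl⟩ := Ideal.Quotient.mk_surjective b
    obtain ⟨x, hx, y, hy, z, hz, hxy, hxz⟩ := hL.g3 a' b'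
      (fun h => ha0 (Ideal.Quotient.eq_zero_iff_mem.2 h))
      (fun h => hb0 (Ideal.Quotient.eq_zero_iff_mem.2 h))
    rw [← Ideal.Quotient.mk_eq_mk_iff_sub_mem, map_mul] at hxy hxz
    generalize Ideal.Quotient.mk P.asIdeal a' = a at *
    generalize Ideal.Quotient.mk P.asIdeal b' = b at *
    have mx := hL.me0_med hx
    have my := hL.me0_med hy
    have mz := hL.me0_med hz
    have x0 := lo_ne hL mx
    have y0 := lo_ne hL my
    have z0 := lo_ne hL mz
    have nxy : x ≠ y := by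
      rintro rfl
      exact ha1 ((mul_eq_right₀ x0).1 hxy)
    have nxz : x ≠ z := by
      rintro rfl
      exact hb1 ((mul_eq_right₀ x0).1 hxz)
    have nyz : y ≠ z := by
      rintro rfl
      exact hab (mul_right_cancel₀ x0 (hxy.trans hxz.symm))
    have m1 : x - y ∈ Med K (qn P) := hL.sub_me0 x hx y hy nxy
    have m2 : x - z ∈ Med K (qn P) := hL.sub_me0 x hx z hz nxz
    have m3 : y - z ∈ Med K (qn P) := hL.sub_me0 y hy z hz nyz
    have n12 : x - z ≠ x - y := fun h => nyz (by linear_combination h)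
    have kx := (hL.lo_med_su mx).1
    have ky := (hL.lo_med_su my).1
    have kz := (hL.lo_med_su mz).1
    have k1 := (hL.lo_med_su m1).1
    have k2 := (hL.lo_med_su m2).1
    have k3 := (hL.lo_med_su m3).1
    have t1 := hL.lo_ts_med mx my nxy
    have t2 := hL.lo_ts_med mx mz nxz
    have q1 : Ideal.Quotient.mk P.asIdeal (x - y) = (1 - a) * Ideal.Quotient.mk P.asIdeal x := by
      rw [map_sub, ← hxy]; ring
    have q2 : Ideal.Quotient.mk P.asIdeal (x - z) = (1 - b) * Ideal.Quotient.mk P.asIdeal x := by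
      rw [map_sub, ← hxz]; ring
    have b1 : 1 - b ≠ 0 := sub_ne_zero.2 (Ne.symm hb1)
    have b2 : 1 - b⁻¹ ≠ 0 := sub_ne_zero.2 fun h => hb1 (inv_eq_one.1 h.symm)
    have a1 : 1 - a ≠ 0 := sub_ne_zero.2 (Ne.symm ha1)
    have a2 : 1 - a⁻¹ ≠ 0 := sub_ne_zero.2 fun h => ha1 (inv_eq_one.1 h.symm)
    -- the five values
    have v1 := lo_med hL hP h5 h0 mx my nxy hxy.symm
    have v2 := lo_med hL hP h5 h0 mx mz nxz hxz.symm
    have v3 := lo_med hL hP h5 h0 my mz nyz (a := b / a)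
      (by rw [← hxy, ← hxz]; field_simp)
    have v5 := lo_med hL hP h5 h0 m2 m1 n12 (a := (1 - a) / (1 - b))
      (by rw [q1, q2]; field_simp)
    have v4 : psi ((((x - y) * z : 𝓞 K) : K) / ((y * (x - z) : 𝓞 K) : K)) =
        be hL psi ((1 - a⁻¹) / (1 - b⁻¹)) := by
      refine lo_val hL hP h5 h0 (div_ne_zero a2 b2) ?_ ?_ ?_ ?_ ?_ ?_
      · intro h
        rw [div_eq_one_iff_eq b2] at h
        exact hab (inv_inj.1 (by linear_combination -h))
      · rw [lo_cm]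
        exact lo_mul (hL.lo_med_su my) (hL.lo_med_su m2)
      · rw [lo_cm, lo_cm]
        refine ⟨lo_div (lo_mul (hL.lo_med_su m1) (hL.lo_med_su mz))
          (lo_mul (hL.lo_med_su my) (hL.lo_med_su m2)), ?_⟩
        have h9 : 1 - ((x - y : 𝓞 K) : K) * (z : K) / ((y : K) * ((x - z : 𝓞 K) : K)) =
            (x : K) * ((y - z : 𝓞 K) : K) / ((y : K) * ((x - z : 𝓞 K) : K)) := by
          have h10 : (y : K) * ((x - z : 𝓞 K) : K) ≠ 0 := mul_ne_zero ky k2
          rw [eq_div_iff h10, sub_mul, div_mul_cancel₀ _ h10, lo_cs, lo_cs, lo_cs]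
          ring
        rw [h9]
        exact lo_div (lo_mul (hL.lo_med_su mx) (hL.lo_med_su m3))
          (lo_mul (hL.lo_med_su my) (hL.lo_med_su m2))
      · rw [map_mul, map_mul, q1, q2, ← hxy, ← hxz]
        have h9 : (1 - a⁻¹) / (1 - b⁻¹) = (1 - a) * b / (a * (1 - b)) := by
          rw [div_eq_div_iff b2 (mul_ne_zero ha0 b1)]
          field_simp
          ring
        rw [h9]
        field_simp
      · intro e he
        exact hL.lo_big_med m1 mz he
      · intro e he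
        exact hL.lo_big_med my m2 he
    have h := h5.five ((y : K) / (x : K)) ((z : K) / (x : K)) t1.1.1
      (fun h => t1.2.1 (by rw [h, sub_self])) t2.1.1 (fun h => t2.2.1 (by rw [h, sub_self]))
      (fun h => k3 (by
        rw [div_left_inj' kx] at h
        rw [lo_cs, h, sub_self]))
    have e3 : ((z : K) / (x : K)) / ((y : K) / (x : K)) = (z : K) / (y : K) := by
      field_simp
    have e5 : (1 - (y : K) / (x : K)) / (1 - (z : K) / (x : K)) =
        ((x - y : 𝓞 K) : K) / ((x - z : 𝓞 K) : K) := by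
      have h9 : 1 - (z : K) / (x : K) ≠ 0 := t2.2.1
      rw [div_eq_div_iff h9 k2, lo_cs, lo_cs]
      field_simp
    have e4 : (1 - ((y : K) / (x : K))⁻¹) / (1 - ((z : K) / (x : K))⁻¹) =
        (((x - y) * z : 𝓞 K) : K) / ((y * (x - z) : 𝓞 K) : K) := by
      have h9 : 1 - ((z : K) / (x : K))⁻¹ ≠ 0 := by
        intro h10
        apply k2
        rw [inv_div] at h10
        have h11 : (x : K) / (z : K) = 1 := by linear_combination -h10
        rw [div_eq_one_iff_eq kz] at h11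
        rw [lo_cs, h11, sub_self]
      have h10 : ((y * (x - z) : 𝓞 K) : K) ≠ 0 := by
        rw [lo_cm]
        exact mul_ne_zero ky k2
      rw [div_eq_div_iff h9 h10, lo_cm, lo_cm, lo_cs, lo_cs, inv_div, inv_div]
      field_simp
      ring
    rw [e3, e4, e5, v1, v2, v3, v4, v5] at h
    exact h

/-- different classes -/
private theorem lo_cls (hL : Lev C S P) (hP : P ∉ S) {M N : 𝓞 K} (hM : M ∈ Big C S (qn P))
    (hN : N ∈ Big C S (qn P)) (hN' : SU S (N : K)) (h : TS S ((M : K) / (N : K))) :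
    Ideal.Quotient.mk P.asIdeal M ≠ Ideal.Quotient.mk P.asIdeal N := by
  intro h1
  have h2 : M - N ∈ P.asIdeal := Ideal.Quotient.mk_eq_mk_iff_sub_mem _ _ |>.1 h1
  have h3 : M ≠ N := by
    rintro rfl
    apply h.2.1
    rw [div_self hN'.1, sub_self]
  have h4 := hL.close M hM N hN h3 h2
  have h5 : 1 - (M : K) / (N : K) = -(((M - N : 𝓞 K) : K) / (N : K)) := by
    rw [lo_cs, sub_div, div_self hN'.1]
    ring
  have h6 := h.2.2 P hP
  rw [h5, lo_od_neg, lo_od_div P h4.1.1 hN'.1, h4.2, hN'.2 P hP] at h6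
  omega

/-- 3.3: the values at the basic quotients -/
theorem loc (hL : Lev C S P) (hP : P ∉ S) (h5 : Five psi)
    (h0 : ∀ x : K, TS (insert P S) x → (od P x ≠ 0 ∨ od P (1 - x) ≠ 0) → psi x = 0)
    {M N : 𝓞 K} (hT : Ty C S (qn P) M N) (hMN : TS S ((M : K) / (N : K))) :
    psi ((M : K) / (N : K)) = 0 := by
  have hmax : P.asIdeal.IsMaximal := P.isMaximal
  letI : Field (𝓞 K ⧸ P.asIdeal) := Ideal.Quotient.field P.asIdeal
  rcases hT with ⟨x, hx, y, hy, z, hz, w, hw, rfl, rfl⟩ | ⟨x, hx, e, he, rfl, hN⟩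
  · have sN : SU S ((z * w : 𝓞 K) : K) := by
      rw [lo_cm]
      exact lo_mul (hL.lo_med_su hz) (hL.lo_med_su hw)
    have bM : x * y ∈ Big C S (qn P) := Or.inl ⟨x, hx, y, hy, 1, hL.lo_one_tin, by rw [mul_one]⟩
    have bN : z * w ∈ Big C S (qn P) := Or.inl ⟨z, hz, w, hw, 1, hL.lo_one_tin, by rw [mul_one]⟩
    have hne := lo_cls hL hP bM bN sN hMN
    have n0 : Ideal.Quotient.mk P.asIdeal (z * w) ≠ 0 := by
      rw [map_mul]
      exact mul_ne_zero (lo_ne hL hz) (lo_ne hL hw)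
    have m0 : Ideal.Quotient.mk P.asIdeal (x * y) ≠ 0 := by
      rw [map_mul]
      exact mul_ne_zero (lo_ne hL hx) (lo_ne hL hy)
    rw [lo_val hL hP h5 h0
      (a := Ideal.Quotient.mk P.asIdeal (x * y) / Ideal.Quotient.mk P.asIdeal (z * w))
      (div_ne_zero m0 n0) (fun h => hne ((div_eq_one_iff_eq n0).1 h)) sN hMN
      (div_mul_cancel₀ _ n0).symm (fun e he => hL.lo_big_med hx hy he)
      (fun e he => hL.lo_big_med hz hw he)]
    exact be_all hL hP h5 h0 _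
  · have sN : SU S (N : K) := hL.lo_med_su (hL.lo_tin_med hN)
    have bM : x * e ∈ Big C S (qn P) := Or.inr ⟨x, hx, e, he, 1, hL.one_sml, by rw [mul_one]⟩
    have bN : N ∈ Big C S (qn P) :=
      Or.inl ⟨1, hL.lo_one_med, 1, hL.lo_one_med, N, hN, by rw [one_mul, one_mul]⟩
    have hne := lo_cls hL hP bM bN sN hMN
    have n0 := lo_ne hL (hL.lo_tin_med hN)
    have m0 : Ideal.Quotient.mk P.asIdeal (x * e) ≠ 0 := by
      rw [map_mul]
      exact mul_ne_zero (fun h => hL.lrg_not x hx (Ideal.Quotient.eq_zero_iff_mem.1 h))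
        (lo_ne hL (hL.lo_tin_med he))
    obtain ⟨a, ha⟩ := Ideal.Quotient.mk_surjective
      (Ideal.Quotient.mk P.asIdeal (x * e) / Ideal.Quotient.mk P.asIdeal N)
    have a0 : Ideal.Quotient.mk P.asIdeal a ≠ 0 := by
      rw [ha]
      exact div_ne_zero m0 n0
    obtain ⟨x0, hx0, y0, hy0, h1⟩ := hL.g2 a fun h => a0 (Ideal.Quotient.eq_zero_iff_mem.2 h)
    rw [← Ideal.Quotient.mk_eq_mk_iff_sub_mem, map_mul] at h1
    have mx := hL.lo_sml_med hx0
    have my := hL.me0_med hy0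
    have nxy : x0 ≠ y0 := by
      rintro rfl
      have h2 := (mul_eq_right₀ (lo_ne hL mx)).1 h1
      rw [ha, div_eq_one_iff_eq n0] at h2
      exact hne h2
    rw [lo_b hL hP h5 h0 sN (hL.lo_med_su mx) hMN (hL.lo_ts_med mx my nxy) ?_
      (Or.inr ⟨x, hx, e, he, x0, hx0, rfl⟩)
      (Or.inl ⟨y0, my, 1, hL.lo_one_med, N, hN, by ring⟩), lo_med hL hP h5 h0 mx my nxy h1.symm]
    · exact be_all hL hP h5 h0 _
    · rw [← Ideal.Quotient.mk_eq_mk_iff_sub_mem, map_mul (Ideal.Quotient.mk P.asIdeal) (x * e),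
        map_mul (Ideal.Quotient.mk P.asIdeal) N, ← h1, ha]
      field_simp

/-- 3.3: the values at the quotients of medium integers -/
theorem loc_med (hL : Lev C S P) (hP : P ∉ S) (h5 : Five psi)
    (h0 : ∀ x : K, TS (insert P S) x → (od P x ≠ 0 ∨ od P (1 - x) ≠ 0) → psi x = 0)
    {x y : 𝓞 K} (hx : x ∈ Med K (qn P)) (hy : y ∈ Med K (qn P)) (hxy : x ≠ y) :
    psi ((y : K) / (x : K)) = 0 := by
  have hmax : P.asIdeal.IsMaximal := P.isMaximal
  letI : Field (𝓞 K ⧸ P.asIdeal) := Ideal.Quotient.field P.asIdeal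
  rw [lo_med hL hP h5 h0 hx hy hxy
    (a := Ideal.Quotient.mk P.asIdeal y / Ideal.Quotient.mk P.asIdeal x)
    (div_mul_cancel₀ _ (lo_ne hL hx)).symm]
  exact be_all hL hP h5 h0 _

/-- 3.3, both statements -/
theorem psi_zero (hA : Adm S P) (hL : Lev C S P) (psi : K → ℚ) (h5 : Five psi)
    (hv : ∀ x : K, TS (insert P S) x → (od P x ≠ 0 ∨ od P (1 - x) ≠ 0) → psi x = 0) :
    (∀ x ∈ Med K (qn P), ∀ y ∈ Med K (qn P), x ≠ y → psi ((y : K) / (x : K)) = 0) ∧
      ∀ M N : 𝓞 K, Ty C S (qn P) M N → TS S ((M : K) / (N : K)) →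
        psi ((M : K) / (N : K)) = 0 :=
  ⟨fun _ hx _ hy hxy => loc_med hL hA.notMem h5 hv hx hy hxy,
    fun _ _ hT h => loc hL hA.notMem h5 hv hT h⟩

end residue

end NFF
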