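import Pool.Agent.NFF.Defs
import Pool.Agent.NFF.Ord
import Pool.Agent.NFF.UbP
import Pool.Agent.NFF.Loc

set_option autoImplicit false

/-!
# NFF-Cp2b: the function on the residue field is zero
-/

namespace NFF

open NumberField TensorProduct
open IsDedekindDomain (HeightOneSpectrum)

variable {K : Type} [Field K] [NumberField K]

variable {C : ℕ} {S : Set (Pr K)} {P : Pr K} {ψ : K → ℚ}

/-- `ψ = 0` on quotients of distinct medium integers -/
theorem psi_med (h : Lev C S P) (hP : P ∉ S) (hψ : Psi S P ψ) {x y : 𝓞 K}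
    (hx : x ∈ Med K (qn P)) (hy : y ∈ Med K (qn P)) (hxy : x ≠ y) :
    ψ ((y : K) / (x : K)) = 0 :=
  loc_med h hP hψ.five hψ.van hx hy hxy

end NFF
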