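import Pool.Agent.NFF.Defs
import Pool.Agent.NFF.Ord
import Pool.Agent.NFF.UbP
import Pool.Agent.NFF.Cp2b

set_option autoImplicit false

/-!
# NFF-Cp3: psi vanishes on the quotients of type Ty
-/

namespace NFF

open NumberField TensorProduct
open IsDedekindDomain (HeightOneSpectrum)

variable {K : Type} [Field K] [NumberField K]

variable {C : ℕ} {S : Set (Pr K)} {P : Pr K} {ψ : K → ℚ}

theorem psi_ty (h : Lev C S P) (hP : P ∉ S) (hψ : Psi S P ψ) {M N : 𝓞 K}
    (hT : Ty C S (qn P) M N) (hts : TS S ((M : K) / (N : K))) : ψ ((M : K) / (N : K)) = 0 :=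
  loc h hP hψ.five hψ.van hT hts

end NFF
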