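import Pool.Agent.NFF.GUp

set_option autoImplicit false

/-!
# Generation one step up (theorem (f) of helper13, part (2))

`claim3` is the analogue of `claim` (GUp) for `W2 ⊗ Λ^{j+1} → W1 ⊗ Λ^{j+2}`.  Proof: put
`β m = D (j+1) (θ m)`, contract with the dual functional `l` of `exists_dual`
(`(ctr l n).lTensor W1`, identity `ctrW_yw` as `ctr_wdg`): `β_last = ∑ yw (y m) (ι (β m))`; since
`del d2 (j+2) β_last = 0` (`hDD`), `claim` for `ι (β m) : W1 ⊗ Λ^{j+1}` gives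
`β_last = ∑ yw (y m) (ζ m)`, `del d2 (j+1) (ζ m) = 0`, `ζ m = D j (ξ m)` (`hR`); replace
`θ_last` by `θ_last + ∑ yw (y m) (ξ m)` (killed by `D`, by `hD`) and `θ m` by
`θ m + yw y_last (ξ m)` (`m < k`): the sum is unchanged; induction on `k`.
-/

namespace Pool.Agent.NFF

open scoped TensorProduct
open TensorProduct Pool.Agent.Helper91.Gon

universe u v w

variable {V : Type u} [AddCommGroup V] [Module ℚ V] {W1 : Type v} [AddCommGroup W1] [Module ℚ W1]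
  {W2 : Type w} [AddCommGroup W2] [Module ℚ W2]

/-- contraction on `W ⊗ Λ` -/
noncomputable def ctrW (W1 : Type v) [AddCommGroup W1] [Module ℚ W1] (l : V →ₗ[ℚ] ℚ) (n : ℕ) :
    W1 ⊗[ℚ] Lam V (n + 1) →ₗ[ℚ] W1 ⊗[ℚ] Lam V n := (ctr l n).lTensor W1

theorem ctrW_yw (l : V →ₗ[ℚ] ℚ) (n : ℕ) (v : V) (z : W1 ⊗[ℚ] Lam V (n + 1)) :
    ctrW W1 l (n + 1) (yw W1 (n + 1) v z) = l v • z - yw W1 n v (ctrW W1 l n z) := by
  sorry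

theorem claim3 (d2 : W1 →ₗ[ℚ] Lam V 2)
    (D : ∀ j : ℕ, W2 ⊗[ℚ] Lam V j →ₗ[ℚ] W1 ⊗[ℚ] Lam V (j + 1))
    (hD : ∀ (j : ℕ) (y : V) (t : W2 ⊗[ℚ] Lam V j), D (j + 1) (yw W2 j y t) = - yw W1 (j + 1) y (D j t))
    (hDD : ∀ (j : ℕ) (t : W2 ⊗[ℚ] Lam V j), del d2 (j + 1) (D j t) = 0)
    (j : ℕ) (hd : Function.Surjective (del d2 j))
    (hR : ∀ ζ : W1 ⊗[ℚ] Lam V (j + 1), del d2 (j + 1) ζ = 0 → ∃ ξ : W2 ⊗[ℚ] Lam V j, D j ξ = ζ) :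
    ∀ (k : ℕ) (y : Fin k → V), LinearIndependent ℚ y → ∀ θ : Fin k → W2 ⊗[ℚ] Lam V (j + 1),
    ∑ m, yw W1 (j + 2) (y m) (D (j + 1) (θ m)) = 0 →
    ∃ ζ : Fin k → W2 ⊗[ℚ] Lam V (j + 1), (∀ m, D (j + 1) (ζ m) = 0) ∧
      ∑ m, yw W2 (j + 1) (y m) (θ m) = ∑ m, yw W2 (j + 1) (y m) (ζ m) := by
  sorry

end Pool.Agent.NFF
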