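import Pool.Agent.NFF.GMul
import Pool.Agent.TLO.Main
import Pool.Agent.NFF.F3KillA

set_option autoImplicit false

/-!
# `δ(B_2)` kills `H^{n-2}(Γ(F, n) ⊗ ℚ)`, `F` algebraically closed (theorem (f), part (1))

For `w = {a}_2` and a cocycle `z ∈ B_3 ⊗ Λ^i`: over `F(t)` the class of `t ∧ (1 - t) ∧ z` in
`HC (RatFunc F) 1 (i + 2)` has residues zero at all closed points (`t = 0`: `lg 1 ∧ z`, `t = 1`:
`lg 1 ∧ z`, other points: all entries are units), so (`F` closed) it is constant; specialisation at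
`t = 0` shows that it is zero (`kill_Cx`, F3KillA).  Here: translation.
-/

namespace Pool.Agent.NFF

open scoped TensorProduct
open TensorProduct Pool.Agent.Helper91.Gon
open Helper14.Gon (P1 ZP br MU LM lgm elx ely BB CC TT clb gn tp dd dl RR CC_ext dd_gn dl_gn)
open Helper14.Loc (HC HT ZC BC BT hc ht)

universe u

variable (F : Type u) [Field F]

/-- the differential `B_{k+3} ⊗ Λ^j → B_{k+2} ⊗ Λ^{j+1}` -/
noncomputable abbrev dS (k j : ℕ) : Glue.Bq (k + 1) F ⊗[ℚ] Lam (Glue.Vq F) j →ₗ[ℚ]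
    Glue.Bq k F ⊗[ℚ] Lam (Glue.Vq F) (j + 1) :=
  Abs.diffS (V := Glue.Vq F) (B := fun n => Glue.Bq n F) Glue.dSq k j

variable {F}

/-- product with a unit, in the two descriptions -/
private lemma fk_phi (k j : ℕ) (u : MU F) (z : CC k j F) :
    Glue.Phi k (j + 1) F ((Helper14.Gon.eC F k (j + 1)).symm
      (Helper14.W4.wC (k + 2) j u (Helper14.Gon.eC F k j z))) =
      (wdg (Glue.Vq F) j ((1 : ℚ) ⊗ₜ[ℤ] (u : Additive Fˣ))).lTensor (Glue.Bq k F)
        (Glue.Phi k j F z) := by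
  have h : (Glue.Phi k (j + 1) F).toLinearMap ∘ₗ
      ((Helper14.Gon.eC F k (j + 1)).symm.toLinearMap ∘ₗ (Helper14.W4.wC (k + 2) j u ∘ₗ
        (Helper14.Gon.eC F k j).toLinearMap)) =
      (wdg (Glue.Vq F) j ((1 : ℚ) ⊗ₜ[ℤ] (u : Additive Fˣ))).lTensor (Glue.Bq k F) ∘ₗ
        (Glue.Phi k j F).toLinearMap := by
    refine CC_ext fun x v => ?_
    have h1 : Helper14.W4.wC (k + 2) j u (Helper14.Gon.eC F k j (gn k x v)) =
        Helper14.Gon.eC F k (j + 1) (gn k x (Fin.cons u v)) := by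
      rw [Helper14.Gon.eC_gn, Helper14.Gon.eC_gn, ← Helper14.W4.PB_gen, ← Helper14.W4.PB_gen,
        Helper14.W4.wC_PB, Helper14.W4.wT_toQ, Helper14.Gon.wL_ιMulti]
      rfl
    rw [LinearMap.comp_apply, LinearMap.comp_apply, LinearMap.comp_apply, LinearMap.comp_apply,
      LinearEquiv.coe_coe, LinearEquiv.coe_coe, LinearEquiv.coe_coe, LinearEquiv.coe_coe, h1,
      LinearEquiv.symm_apply_apply, Glue.Phi_gn, Glue.Phi_gn, LinearMap.lTensor_tmul,
      Abs.wdg_iota]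
    congr 2
    funext i
    refine Fin.cases ?_ (fun i => ?_) i <;> rfl
  exact LinearMap.congr_fun h z

private lemma fk_dd (k j : ℕ) (z : CC (k + 1) j F) :
    Helper14.Gon.eC F k (j + 1) (dd k j F z) =
      Helper14.Gon.dC k j (Helper14.Gon.eC F (k + 1) j z) := Helper14.Gon.dd_eq k j z

private lemma fk_wC_add {k j : ℕ} (u v : Additive Fˣ) (z : Helper14.Gon.Cx k j F) :
    Helper14.W4.wC k j (u + v) z = Helper14.W4.wC k j u z + Helper14.W4.wC k j v z := by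
  rw [Helper14.W4.wC, Helper14.W4.wT_add, Helper14.W4.mapT_add]
  rfl

private lemma fk_wC_zero' {k j : ℕ} (z : Helper14.Gon.Cx k j F) :
    Helper14.W4.wC k j (0 : Additive Fˣ) z = 0 := by
  rw [Helper14.W4.wC, Helper14.W4.wT_zero, Helper14.W4.mapT_zero]

private lemma fk_wC_neg_one' {k j : ℕ} (z : Helper14.Gon.Cx k j F) :
    Helper14.W4.wC k j (Helper14.Gon.lg (-1 : F)) z = 0 := by
  rw [Helper14.W4.wC, Helper14.W4.wT_neg_one, Helper14.W4.mapT_zero]

private lemma fk_tr (x : P1 F) (i : ℕ) (y : CC 1 i F) :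
    (wdg2 (Glue.Vq F) i (Glue.d2q (Glue.sq 0 x))).lTensor (Glue.Bq 1 F)
      (Glue.Phi 1 i F y) = Glue.Phi 1 (i + 2) F ((Helper14.Gon.eC F 1 (i + 2)).symm
        (Helper14.W4.wC (1 + 2) (i + 1) (ely x) (Helper14.W4.wC (1 + 2) i (elx x)
          (Helper14.Gon.eC F 1 i y)))) := by
  have h2 := fk_phi 1 i (elx x) y
  have h3 := fk_phi 1 (i + 1) (ely x) ((Helper14.Gon.eC F 1 (i + 1)).symm
    (Helper14.W4.wC (1 + 2) i (elx x) (Helper14.Gon.eC F 1 i y)))
  rw [LinearEquiv.apply_symm_apply, h2] at h3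
  refine Eq.trans ?_ h3.symm
  have h4 : wdg2 (Glue.Vq F) i (Glue.d2q (Glue.sq 0 x)) =
      wdg (Glue.Vq F) (i + 1) (Glue.bq x) ∘ₗ wdg (Glue.Vq F) i (Glue.aq x) := by
    rw [Glue.d2q_sq]
    refine LinearMap.ext fun ω => ?_
    rw [wdg2_ww]
    rfl
  rw [h4, LinearMap.lTensor_comp]
  rfl

private lemma fk_bd [IsAlgClosed F] (x : P1 F) (i : ℕ) (y : Helper14.Gon.Cx (1 + 2) i F)
    (hy : y ∈ Helper14.Gon.cyc F 1 i) :
    Helper14.W4.wC (1 + 2) (i + 1) (ely x) (Helper14.W4.wC (1 + 2) i (elx x) y) ∈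
      Helper14.Gon.bdry F 1 (i + 2) := by
  cases x with
  | none =>
    have h : (ely (none : P1 F) : MU F) = (0 : Additive Fˣ) := rfl
    rw [h, fk_wC_zero']
    exact zero_mem _
  | some c =>
    have hx : (elx (some c : P1 F) : MU F) = Helper14.Gon.lg c := rfl
    have hy' : (ely (some c : P1 F) : MU F) = Helper14.Gon.lg (1 - c) := rfl
    rw [hx, hy']
    by_cases h0 : c = 0
    · rw [h0, Helper14.Gon.lg_zero, fk_wC_zero', map_zero]
      exact zero_mem _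
    · by_cases h1 : c = 1
      · rw [h1, sub_self, Helper14.Gon.lg_zero, fk_wC_zero']
        exact zero_mem _
      · have h7 := kill_one i y hy c h0 h1
        have h8 : (1 - c : F) = (-1) * (c - 1) := by ring
        rw [h8, Helper14.Gon.lg_mul (neg_ne_zero.2 one_ne_zero) (sub_ne_zero.2 h1), fk_wC_add,
          fk_wC_neg_one', zero_add]
        exact h7

private lemma fk_cy (i : ℕ) (y : CC 1 i F) (hz : dS F 0 i (Glue.Phi 1 i F y) = 0) :
    Helper14.Gon.eC F 1 i y ∈ Helper14.Gon.cyc F 1 i := by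
  have hy : dd 0 i F y = 0 := by
    apply (Glue.Phi 0 (i + 1) F).injective
    rw [map_zero, Glue.Phi_dd]
    exact hz
  have h := fk_dd 0 i y
  rw [hy, map_zero] at h
  exact h.symm

private lemma fk_rg (i : ℕ) (w : Helper14.Gon.Cx (2 + 2) (i + 1) F) :
    Glue.Phi 1 (i + 2) F ((Helper14.Gon.eC F 1 (i + 2)).symm (Helper14.Gon.dC 1 (i + 1) w)) ∈
      LinearMap.range (dS F 1 (i + 1)) := by
  refine ⟨Glue.Phi 2 (i + 1) F ((Helper14.Gon.eC F 2 (i + 1)).symm w), ?_⟩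
  have h6 := Glue.Phi_dd 1 (i + 1) ((Helper14.Gon.eC F 2 (i + 1)).symm w)
  refine h6.symm.trans ?_
  congr 1
  rw [LinearEquiv.eq_symm_apply, fk_dd, LinearEquiv.apply_symm_apply]

variable (F)

private lemma fk_gen [IsAlgClosed F] (x : P1 F) (i : ℕ)
    (z : Glue.Bq 1 F ⊗[ℚ] Lam (Glue.Vq F) i) (hz : dS F 0 i z = 0) :
    (wdg2 (Glue.Vq F) i (Glue.d2q (Glue.sq 0 x))).lTensor (Glue.Bq 1 F) z ∈
      LinearMap.range (dS F 1 (i + 1)) := by
  obtain ⟨y, rfl⟩ := (Glue.Phi 1 i F).surjective z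
  obtain ⟨w, hw⟩ := fk_bd x i _ (fk_cy i y hz)
  rw [fk_tr, ← hw]
  exact fk_rg i w

theorem kill3 [IsAlgClosed F] (w : Glue.Bq 0 F) (i : ℕ)
    (z : Glue.Bq 1 F ⊗[ℚ] Lam (Glue.Vq F) i) (hz : dS F 0 i z = 0) :
    (wdg2 (Glue.Vq F) i (Glue.d2q w)).lTensor (Glue.Bq 1 F) z ∈
      LinearMap.range (dS F 1 (i + 1)) := by
  have h : w ∈ Submodule.span ℚ (Set.range (Glue.sq 0 : P1 F → Glue.Bq 0 F)) := by
    rw [Glue.sq_span]
    trivial
  induction h using Submodule.span_induction with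
  | mem w hw =>
    obtain ⟨x, rfl⟩ := hw
    exact fk_gen F x i z hz
  | zero =>
    rw [map_zero, map_zero, LinearMap.lTensor_zero]
    exact zero_mem _
  | add a b _ _ ha hb =>
    rw [map_add, map_add, LinearMap.lTensor_add]
    exact add_mem ha hb
  | smul c a _ ha =>
    rw [map_smul, map_smul, LinearMap.lTensor_smul]
    exact Submodule.smul_mem _ c ha

end Pool.Agent.NFF
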