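import Pool.Agent.Helper14.Loc.Defs

set_option autoImplicit false

/-!
# The products in `H^2(Γ(F, 3) ⊗ ℚ)`
-/

noncomputable section

namespace NFF

open Helper14.Gon Helper14.Loc

universe u

variable (F : Type u) [Field F]

/-- The subspace of `H^2(Γ(F, 3) ⊗ ℚ)` spanned by the products `c · y`, where
`c ∈ H^1(Γ(F, 2) ⊗ ℚ)` and `y ∈ F^*`: if `c` is the class of the cocycle `∑ a_x {x}_2`, the product
is the class of the cocycle `∑ a_x {x}_2 ⊗ y`. -/
def Prods : Submodule ℚ (HC F 0 1) :=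
  Submodule.span ℚ {h | ∃ (a : P1 F →₀ ℚ) (y : MU F) (z : ↥(ZC F 0 1)),
    (a.sum fun x r => r • gn 0 x (fun i : Fin 0 => i.elim0)) ∈ ZC F 0 0 ∧
    z.1 = (a.sum fun x r => r • gn 0 x (fun _ : Fin 1 => y)) ∧ h = hc z}

end NFF
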