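import Pool.Agent.NFF.GFam
import Pool.Agent.NFF.GDefs

set_option autoImplicit false

/-!
# From the main theorem to the cohomology of `Γ(K, 3) ⊗ ℚ`
-/

namespace Pool.Agent.NFF

open scoped TensorProduct
open TensorProduct Pool.Agent.Helper91.Gon
open Helper14.Gon (P1 ZP br MU LM lgm elx ely BB CC TT clb gn tp dd dl RR CC_ext dd_gn dl_gn)
open Helper14.Loc (HC HT ZC BC BT hc)
open _root_.QGC (lq lq_mul vq_ext aq_eq bq_eq sq_zero' sq_inf')
open _root_.NFF (VV lg Alt dA Five Fam Prods)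

variable {K : Type} [Field K]

/-- the statement of the main theorem -/
def Main (K : Type) [Field K] : Prop :=
  ∀ F : Submodule ℚ (K → ℚ), Fam F → ∃ X0 Y0 : Finset K, ∀ phi : VV K →ₗ[ℚ] (K → ℚ),
    (∀ v, phi v ∈ F) → (∀ x : K, x ≠ 0 → x ≠ 1 → phi (lg x) x = 0) →
    (∀ x ∈ X0, ∀ y ∈ Y0, phi (lg y) x = 0) →
    ∀ X Y : Finset K, (∀ x ∈ X, x ≠ 0 ∧ x ≠ 1) → (∀ y ∈ Y, y ≠ 0) →
      ∃ T : VV K →ₗ[ℚ] VV K →ₗ[ℚ] VV K →ₗ[ℚ] ℚ, _root_.NFF.Alt3 T ∧
        ∀ x ∈ X, ∀ y ∈ Y, phi (lg y) x = T (lg (1 - x)) (lg x) (lg y)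

theorem main_incl (hM : Main K) {N E0 : Submodule ℚ (Glue.Bq 0 K)}
    (hN : N ≤ LinearMap.ker Glue.d2q) (hE0 : E0.FG) (hN2 : LinearMap.ker Glue.d2q ≤ N ⊔ E0) :
    ∃ E : Submodule ℚ (CC 0 1 K), E.FG ∧
      LinearMap.ker (dl 1 K) ≤ LinearMap.range (dd 0 0 K) ⊔ NV N ⊔ E := by
  classical
  obtain ⟨X0, Y0, h⟩ := hM (FN N) (FN_fam hN hE0 hN2)
  refine ⟨_, ?_, incl N X0 Y0 fun φ h1 h2 h3 X Y hX hY => ?_⟩
  · refine ⟨(X0 ×ˢ Y0).image fun p => (gn 0 (some p.1) (fun _ => lgm p.2) : CC 0 1 K), ?_⟩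
    congr 1
    ext z
    rw [Finset.coe_image]
    constructor
    · rintro ⟨⟨x, y⟩, hp, rfl⟩
      obtain ⟨hx, hy⟩ := Finset.mem_product.1 (Finset.mem_coe.1 hp)
      exact ⟨x, hx, y, hy, rfl⟩
    · rintro ⟨x, hx, y, hy, rfl⟩
      exact ⟨(x, y), Finset.mem_coe.2 (Finset.mem_product.2 ⟨hx, hy⟩), rfl⟩
  · obtain ⟨T, hT, hT2⟩ := h (fam φ) (fun v => ⟨psi φ v, h1 v, fun x => rfl⟩)
      (fun x hx0 hx1 => by rw [← aq_lg]; exact h2 x hx0 hx1)
      (fun x hx y hy => by rw [← aq_lg]; exact h3 x hx y hy) X Y hX hY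
    refine ⟨T, ⟨hT.1, hT.2⟩, fun x hx y hy => ?_⟩
    rw [aq_lg, aq_lg, aq_lg]
    exact hT2 x hx y hy

section coh

/-- the elements of `N ⊗ K^*`, `N ≤ ker δ_2`, are spanned by the products -/
theorem NV_le : NV (LinearMap.ker (Glue.d2q : Glue.Bq 0 K →ₗ[ℚ] _)) ≤
    Submodule.span ℚ {z | ∃ (a : P1 K →₀ ℚ) (y : MU K),
      (a.sum fun x r => r • gn 0 x (fun i : Fin 0 => i.elim0)) ∈ ZC K 0 0 ∧
      z = (a.sum fun x r => r • gn 0 x (fun _ : Fin 1 => y))} := by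
  refine Submodule.span_le.2 ?_
  rintro _ ⟨c, hc, v, rfl⟩
  rw [SetLike.mem_coe]
  have hcs : c ∈ Submodule.span ℚ (Set.range (Glue.sq 0 : P1 K → Glue.Bq 0 K)) := by
    rw [Glue.sq_span]
    exact Submodule.mem_top
  obtain ⟨a, ha⟩ := Finsupp.mem_span_range_iff_exists_finsupp.1 hcs
  have hmem : (a.sum fun x r => r • gn 0 x (fun i : Fin 0 => i.elim0) : CC 0 0 K) ∈ ZC K 0 0 := by
    change dl 0 K _ = 0
    have h1 : (a.sum fun x r => r • gn 0 x (fun i : Fin 0 => i.elim0) : CC 0 0 K) =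
        (Glue.Phi 0 0 K).symm (Glue.eps (Glue.Bq 0 K) (Glue.Vq K) c) := by
      rw [LinearEquiv.eq_symm_apply, ← ha, Finsupp.sum, Finsupp.sum, map_sum, map_sum]
      refine Finset.sum_congr rfl fun x _ => ?_
      rw [map_smul, map_smul, Glue.Phi_gn, Glue.eps_apply]
    rw [h1]
    have h2 : Glue.Psi 2 K (dl 0 K ((Glue.Phi 0 0 K).symm
        (Glue.eps (Glue.Bq 0 K) (Glue.Vq K) c))) = 0 := hc
    exact (Glue.Psi 2 K).map_eq_zero_iff.1 h2
  induction v using TensorProduct.induction_on with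
  | zero =>
    rw [map_zero, TensorProduct.tmul_zero, map_zero]
    exact Submodule.zero_mem _
  | tmul q b =>
    have h1 : q ⊗ₜ[ℤ] b = q • (lq (Additive.toMul b) : Glue.Vq K) := by
      rw [lq, TensorProduct.smul_tmul', smul_eq_mul, mul_one]
      rfl
    rw [h1, map_smul, TensorProduct.tmul_smul, map_smul]
    refine Submodule.smul_mem _ _ (Submodule.subset_span ⟨a, b, hmem, ?_⟩)
    rw [LinearEquiv.symm_apply_eq, one_symm, ← ha, Finsupp.sum, Finsupp.sum,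
      TensorProduct.sum_tmul, map_sum]
    refine Finset.sum_congr rfl fun x _ => ?_
    rw [map_smul, Glue.Phi_gn, TensorProduct.smul_tmul']
    rfl
  | add u w hu hw =>
    rw [map_add, TensorProduct.tmul_add, map_add]
    exact Submodule.add_mem _ hu hw

private theorem range_le : LinearMap.range (dd 0 0 K) ≤ LinearMap.ker (dl 1 K) := by
  rintro _ ⟨z, rfl⟩
  have h : dl 1 K ∘ₗ dd 0 0 K = 0 := CC_ext fun x v => by
    rw [LinearMap.comp_apply, dd_gn, LinearMap.zero_apply]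
    apply (Glue.Psi 3 K).injective
    have h1 := Glue.Psi_dl 1 (gn 0 x (Fin.cons (elx x) v) : CC 0 1 K)
    rw [map_zero]
    refine h1.trans ?_
    rw [Glue.Phi_gn, Abs.diff2_s (V := Glue.Vq K) (B := fun n => Glue.Bq n K)
      (s := fun n => Glue.sq n) (a := Glue.aq) (b := Glue.bq) (d2 := Glue.d2q) Glue.d2q_sq 1 x,
      wdg2_ww, Abs.wdg_iota, Abs.wdg_iota]
    refine (exteriorPower.ιMulti ℚ 3 (M := Glue.Vq K)).map_eq_zero_of_eq _ (i := 1) (j := 2) ?_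
      (by decide)
    rfl
  exact LinearMap.congr_fun h z

private theorem hc_surj (h : HC K 0 1) : ∃ z : ↥(ZC K 0 1), hc z = h :=
  Submodule.Quotient.mk_surjective _ h

private theorem hc_range (z : ↥(ZC K 0 1)) (hz : z.1 ∈ LinearMap.range (dd 0 0 K)) :
    hc z = (0 : HC K 0 1) := by
  refine (Submodule.Quotient.mk_eq_zero _).2 ?_
  exact hz

private theorem hc_add (z w : ↥(ZC K 0 1)) : (hc (z + w) : HC K 0 1) = hc z + hc w := rfl

/-- the class map -/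
private noncomputable def hcl : ↥(ZC K 0 1) →ₗ[ℚ] HC K 0 1 where
  toFun := hc
  map_add' _ _ := rfl
  map_smul' _ _ := rfl

/-- classes of the elements of a finitely generated space -/
theorem fin_of_incl {M : Submodule ℚ (CC 0 1 K)} {E : Submodule ℚ (CC 0 1 K)} (hE : E.FG)
    (hM : M ≤ LinearMap.ker (dl 1 K))
    (h : LinearMap.ker (dl 1 K) ≤ LinearMap.range (dd 0 0 K) ⊔ M ⊔ E) (P : Submodule ℚ (HC K 0 1))
    (hP : ∀ z : ↥(ZC K 0 1), z.1 ∈ M → hc z ∈ P) : Module.Finite ℚ (HC K 0 1 ⧸ P) := by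
  classical
  have h1 : (E.comap (ZC K 0 1).subtype).FG := by
    have h2 : (E ⊓ ZC K 0 1).FG := hE.of_le inf_le_left
    have h3 : (E.comap (ZC K 0 1).subtype).map (ZC K 0 1).subtype = E ⊓ ZC K 0 1 := by
      rw [Submodule.map_comap_subtype, inf_comm]
    rw [← h3] at h2
    exact Submodule.fg_of_fg_map_injective _ (Submodule.subtype_injective _) h2
  have h2 : ((E.comap (ZC K 0 1).subtype).map (P.mkQ ∘ₗ hcl)) = ⊤ := by
    rw [eq_top_iff]
    intro q _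
    obtain ⟨w, rfl⟩ := Submodule.mkQ_surjective P q
    obtain ⟨z, rfl⟩ := hc_surj w
    obtain ⟨y, hy, e, he, hye⟩ := Submodule.mem_sup.1 (h z.2)
    obtain ⟨r, hr, m, hm, hrm⟩ := Submodule.mem_sup.1 hy
    have hrZ : r ∈ ZC K 0 1 := range_le hr
    have hmZ : m ∈ ZC K 0 1 := hM hm
    have heZ : e ∈ ZC K 0 1 := by
      have h3 : e = z.1 - r - m := by
        rw [← hye, ← hrm]
        abel
      rw [h3]
      exact Submodule.sub_mem _ (Submodule.sub_mem _ z.2 hrZ) hmZ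
    refine ⟨⟨e, heZ⟩, he, ?_⟩
    have h4 : z = ⟨r, hrZ⟩ + ⟨m, hmZ⟩ + ⟨e, heZ⟩ := by
      apply Subtype.ext
      change z.1 = r + m + e
      rw [← hye, ← hrm]
    have h5 : (hc z : HC K 0 1) = hc ⟨m, hmZ⟩ + hc ⟨e, heZ⟩ := by
      rw [h4, hc_add, hc_add, hc_range ⟨r, hrZ⟩ hr, zero_add]
    have h6 : P.mkQ (hc ⟨m, hmZ⟩) = 0 := by
      rw [Submodule.mkQ_apply, Submodule.Quotient.mk_eq_zero]
      exact hP _ hm
    change P.mkQ (hc ⟨e, heZ⟩) = P.mkQ (hc z)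
    rw [h5, map_add, h6, zero_add]
  exact ⟨by rw [← h2]; exact h1.map _⟩

/-- the first statement -/
theorem fin_a (hM : Main K) : Module.Finite ℚ (HC K 0 1 ⧸ Prods K) := by
  obtain ⟨E, hE, hE2⟩ := main_incl hM (N := LinearMap.ker Glue.d2q) (E0 := ⊥) le_rfl
    Submodule.fg_bot le_sup_left
  have hNV : NV (LinearMap.ker (Glue.d2q : Glue.Bq 0 K →ₗ[ℚ] _)) ≤ LinearMap.ker (dl 1 K) := by
    refine Submodule.span_le.2 ?_
    rintro _ ⟨c, hc, v, rfl⟩
    change dl 1 K _ = 0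
    apply (Glue.Psi 3 K).injective
    rw [map_zero]
    refine (Glue.Psi_dl 1 _).trans ?_
    rw [LinearEquiv.apply_symm_apply, Abs.diff2, LinearMap.comp_apply, LinearMap.rTensor_tmul,
      LinearMap.mem_ker.1 hc, TensorProduct.zero_tmul, map_zero]
  refine fin_of_incl hE hNV hE2 _ ?_
  rintro ⟨z, hz⟩ hzM
  have h1 := NV_le hzM
  have h2 : ∀ z ∈ Submodule.span ℚ {z | ∃ (a : P1 K →₀ ℚ) (y : MU K),
      (a.sum fun x r => r • gn 0 x (fun i : Fin 0 => i.elim0)) ∈ ZC K 0 0 ∧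
      z = (a.sum fun x r => r • gn 0 x (fun _ : Fin 1 => y))},
      ∃ h : z ∈ ZC K 0 1, hc ⟨z, h⟩ ∈ Prods K := by
    intro z hz
    induction hz using Submodule.span_induction with
    | mem z hz =>
      obtain ⟨a, y, ha, rfl⟩ := hz
      have h3 : (a.sum fun x r => r • gn 0 x (fun _ : Fin 1 => y) : CC 0 1 K) ∈ ZC K 0 1 := by
        apply hNV
        let c : Glue.Bq 0 K := a.sum fun x r => r • Glue.sq 0 x
        have hc : c ∈ LinearMap.ker (Glue.d2q : Glue.Bq 0 K →ₗ[ℚ] _) := by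
          have h1 : (a.sum fun x r => r • gn 0 x (fun i : Fin 0 => i.elim0) : CC 0 0 K) =
              (Glue.Phi 0 0 K).symm (Glue.eps (Glue.Bq 0 K) (Glue.Vq K) c) := by
            rw [LinearEquiv.eq_symm_apply, Finsupp.sum, map_sum]
            change _ = Glue.eps (Glue.Bq 0 K) (Glue.Vq K) (∑ x ∈ a.support, a x • Glue.sq 0 x)
            rw [map_sum]
            refine Finset.sum_congr rfl fun x _ => ?_
            rw [map_smul, map_smul, Glue.Phi_gn, Glue.eps_apply]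
          change Glue.Psi 2 K (dl 0 K ((Glue.Phi 0 0 K).symm
            (Glue.eps (Glue.Bq 0 K) (Glue.Vq K) c))) = 0
          rw [← h1]
          have h2 : dl 0 K (a.sum fun x r => r • gn 0 x (fun i : Fin 0 => i.elim0)) = 0 := ha
          rw [h2, map_zero]
        refine Submodule.subset_span ⟨c, hc, lq (Additive.toMul y), ?_⟩
        rw [LinearEquiv.eq_symm_apply, one_symm]
        change Glue.Phi 0 1 K (∑ x ∈ a.support, a x • gn 0 x (fun _ : Fin 1 => y)) =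
          (∑ x ∈ a.support, a x • Glue.sq 0 x) ⊗ₜ[ℚ] _
        rw [TensorProduct.sum_tmul, map_sum]
        refine Finset.sum_congr rfl fun x _ => ?_
        rw [map_smul, Glue.Phi_gn, TensorProduct.smul_tmul']
        rfl
      exact ⟨h3, Submodule.subset_span ⟨a, y, ⟨_, h3⟩, ha, rfl, rfl⟩⟩
    | zero => exact ⟨Submodule.zero_mem _, Submodule.zero_mem _⟩
    | add z w _ _ hz hw =>
      obtain ⟨h1, h2⟩ := hz
      obtain ⟨h3, h4⟩ := hw
      exact ⟨Submodule.add_mem _ h1 h3, Submodule.add_mem _ h2 h4⟩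
    | smul r z _ hz =>
      obtain ⟨h1, h2⟩ := hz
      exact ⟨Submodule.smul_mem _ r h1, Submodule.smul_mem _ r h2⟩
  obtain ⟨_, h3⟩ := h2 z h1
  exact h3

/-- the kernel modulo coboundaries, if `H^1(Γ(K, 2) ⊗ ℚ)` is finite-dimensional -/
theorem ker_one (hM : Main K) (hfin : Module.Finite ℚ (HC K 0 0)) :
    ∃ E : Submodule ℚ (CC 0 1 K), E.FG ∧
      LinearMap.ker (dl 1 K) ≤ LinearMap.range (dd 0 0 K) ⊔ E := by
  have hk : (LinearMap.ker (Glue.d2q : Glue.Bq 0 K →ₗ[ℚ] _)).FG := by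
    have h1 : (LinearMap.ker (dl 0 K)).FG := by
      have h2 : Module.Finite ℚ ↥(ZC K 0 0) := by
        let f : ↥(ZC K 0 0) →ₗ[ℚ] HC K 0 0 :=
          { toFun := hc
            map_add' := fun _ _ => rfl
            map_smul' := fun _ _ => rfl }
        refine Module.Finite.of_injective f ?_
        rw [← LinearMap.ker_eq_bot, LinearMap.ker_eq_bot']
        intro z hz
        have h3 : z ∈ (BC K 0 0).submoduleOf (ZC K 0 0) :=
          (Submodule.Quotient.mk_eq_zero _).1 hz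
        have h4 : z.1 ∈ (⊥ : Submodule ℚ (CC 0 0 K)) := h3
        exact Subtype.ext ((Submodule.mem_bot ℚ).1 h4)
      exact Module.Finite.iff_fg.1 h2
    have h2 : LinearMap.ker (Glue.d2q : Glue.Bq 0 K →ₗ[ℚ] _) =
        (LinearMap.ker (dl 0 K)).map ((Glue.Phi 0 0 K).trans
          (Glue.eps (Glue.Bq 0 K) (Glue.Vq K)).symm).toLinearMap := by
      ext c
      constructor
      · intro hc
        refine ⟨(Glue.Phi 0 0 K).symm (Glue.eps (Glue.Bq 0 K) (Glue.Vq K) c), ?_, ?_⟩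
        · have h2 : Glue.Psi 2 K (dl 0 K ((Glue.Phi 0 0 K).symm
            (Glue.eps (Glue.Bq 0 K) (Glue.Vq K) c))) = 0 := hc
          exact (Glue.Psi 2 K).map_eq_zero_iff.1 h2
        · change (Glue.eps (Glue.Bq 0 K) (Glue.Vq K)).symm (Glue.Phi 0 0 K
            ((Glue.Phi 0 0 K).symm (Glue.eps (Glue.Bq 0 K) (Glue.Vq K) c))) = c
          rw [LinearEquiv.apply_symm_apply, LinearEquiv.symm_apply_apply]
      · rintro ⟨z, hz, rfl⟩
        change Glue.Psi 2 K (dl 0 K ((Glue.Phi 0 0 K).symm (Glue.eps (Glue.Bq 0 K) (Glue.Vq K)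
          ((Glue.eps (Glue.Bq 0 K) (Glue.Vq K)).symm (Glue.Phi 0 0 K z))))) = 0
        rw [LinearEquiv.apply_symm_apply, LinearEquiv.symm_apply_apply]
        have h3 : dl 0 K z = 0 := hz
        rw [h3, map_zero]
    rw [h2]
    exact h1.map _
  obtain ⟨E, hE, hE2⟩ := main_incl hM (N := ⊥) (E0 := LinearMap.ker Glue.d2q) bot_le hk
    le_sup_right
  have hNV : NV (⊥ : Submodule ℚ (Glue.Bq 0 K)) = ⊥ := by
    rw [eq_bot_iff]
    refine Submodule.span_le.2 ?_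
    rintro _ ⟨c, hc, v, rfl⟩
    rw [(Submodule.mem_bot ℚ).1 hc, TensorProduct.zero_tmul, map_zero]
    exact Submodule.zero_mem _
  rw [hNV, sup_bot_eq] at hE2
  exact ⟨E, hE, hE2⟩

/-- the second statement -/
theorem fin_b (hM : Main K) (hfin : Module.Finite ℚ (HC K 0 0)) :
    Module.Finite ℚ (HC K 0 1) := by
  obtain ⟨E, hE, hE2⟩ := ker_one hM hfin
  have h1 : Module.Finite ℚ (HC K 0 1 ⧸ (⊥ : Submodule ℚ (HC K 0 1))) := by
    refine fin_of_incl (M := ⊥) hE bot_le (by rw [sup_bot_eq]; exact hE2) _ ?_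
    intro z hz
    have h2 : z = 0 := Subtype.ext ((Submodule.mem_bot ℚ).1 hz)
    rw [h2]
    exact Submodule.zero_mem _
  exact Module.Finite.equiv (Submodule.quotEquivOfEqBot ⊥ rfl)

end coh

end Pool.Agent.NFF
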