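import Pool.Agent.NFF.GUp
import Pool.Agent.NFF.GFin

set_option autoImplicit false

/-!
# The cohomology of `Γ(K, n) ⊗ ℚ` in degree `n - 1`, all `n`
-/

namespace Pool.Agent.NFF

open scoped TensorProduct
open TensorProduct Pool.Agent.Helper91.Gon
open Helper14.Gon (P1 ZP br MU LM lgm elx ely BB CC TT clb gn tp dd dl RR CC_ext dd_gn dl_gn)
open Helper14.Loc (HC HT ZC BC BT hc ht)
open _root_.QGC (lq lq_mul vq_ext aq_eq bq_eq sq_zero' sq_inf')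
open _root_.NFF (VV lg Alt dA Five Fam Prods)

variable {K : Type} [Field K]

variable (K) in
/-- the image of `B_3 ⊗ Λ^j` -/
noncomputable def PR (j : ℕ) : Submodule ℚ (Glue.Bq 0 K ⊗[ℚ] Lam (Glue.Vq K) (j + 1)) :=
  LinearMap.range (Abs.diffS (V := Glue.Vq K) (B := fun n => Glue.Bq n K) Glue.dSq 0 j)

theorem yw_PR (j : ℕ) (y : Glue.Vq K) (z : Glue.Bq 0 K ⊗[ℚ] Lam (Glue.Vq K) (j + 1))
    (hz : z ∈ PR K j) : yw (Glue.Bq 0 K) (j + 1) y z ∈ PR K (j + 1) := by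
  obtain ⟨t, rfl⟩ := hz
  refine ⟨- (wdg (Glue.Vq K) j y).lTensor (Glue.Bq 1 K) t, ?_⟩
  rw [map_neg, neg_eq_iff_eq_neg]
  have h := Abs.BL_ext (s := fun n => (Glue.sq n : P1 K → Glue.Bq n K)) (fun n => Glue.sq_span n) 1
    (L := Lam (Glue.Vq K) j)
    (f := Abs.diffS (V := Glue.Vq K) (B := fun n => Glue.Bq n K) Glue.dSq 0 (j + 1) ∘ₗ
      (wdg (Glue.Vq K) j y).lTensor (Glue.Bq 1 K))
    (g := - (yw (Glue.Bq 0 K) (j + 1) y ∘ₗ
      Abs.diffS (V := Glue.Vq K) (B := fun n => Glue.Bq n K) Glue.dSq 0 j)) (fun x ω => by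
      rw [LinearMap.comp_apply, LinearMap.lTensor_tmul, LinearMap.neg_apply,
        LinearMap.comp_apply]
      rw [Abs.diffS_s (V := Glue.Vq K) (B := fun n => Glue.Bq n K) (s := fun n => Glue.sq n)
        (a := Glue.aq) (dS := Glue.dSq) Glue.dSq_sq 0 (j + 1) x,
        Abs.diffS_s (V := Glue.Vq K) (B := fun n => Glue.Bq n K) (s := fun n => Glue.sq n)
        (a := Glue.aq) (dS := Glue.dSq) Glue.dSq_sq 0 j x]
      rw [yw_tmul, wdg_anti, TensorProduct.tmul_neg]) t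
  exact h

theorem PR_le (j : ℕ) : PR K j ≤ LinearMap.ker (del Glue.d2q (j + 1)) := by
  rintro _ ⟨t, rfl⟩
  rw [LinearMap.mem_ker]
  have h := Abs.BL_ext (s := fun n => (Glue.sq n : P1 K → Glue.Bq n K)) (fun n => Glue.sq_span n) 1
    (L := Lam (Glue.Vq K) j)
    (f := del Glue.d2q (j + 1) ∘ₗ
      Abs.diffS (V := Glue.Vq K) (B := fun n => Glue.Bq n K) Glue.dSq 0 j)
    (g := 0) (fun x ω => by
      rw [LinearMap.comp_apply, LinearMap.zero_apply,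
        Abs.diffS_s (V := Glue.Vq K) (B := fun n => Glue.Bq n K) (s := fun n => Glue.sq n)
        (a := Glue.aq) (dS := Glue.dSq) Glue.dSq_sq 0 j x, del_tmul, Glue.d2q_sq, wdg2_ww,
        wdg_wdg_same, map_zero]) t
  exact h

/-- the step, iterated -/
theorem ker_up (hd : Function.Surjective (Glue.d2q : Glue.Bq 0 K →ₗ[ℚ] _))
    (h0 : ∃ E : Submodule ℚ (Glue.Bq 0 K ⊗[ℚ] Lam (Glue.Vq K) 1), E.FG ∧
      LinearMap.ker (del Glue.d2q 1) ≤ PR K 0 ⊔ E) (j : ℕ) :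
    ∃ E : Submodule ℚ (Glue.Bq 0 K ⊗[ℚ] Lam (Glue.Vq K) (j + 1)), E.FG ∧
      LinearMap.ker (del Glue.d2q (j + 1)) ≤ PR K j ⊔ E := by
  induction j with
  | zero => exact h0
  | succ j ih =>
    obtain ⟨E, hE, hE2⟩ := ih
    exact step Glue.d2q hd j (fun y z hz => yw_PR j y z hz) (PR_le j) hE hE2

theorem mem_PR (j : ℕ) (z : CC 0 (j + 1) K) :
    Glue.Phi 0 (j + 1) K z ∈ PR K j ↔ z ∈ LinearMap.range (dd 0 j K) := by
  constructor
  · rintro ⟨t, ht⟩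
    refine ⟨(Glue.Phi 1 j K).symm t, ?_⟩
    apply (Glue.Phi 0 (j + 1) K).injective
    rw [Glue.Phi_dd, LinearEquiv.apply_symm_apply]
    exact ht
  · rintro ⟨t, rfl⟩
    exact ⟨Glue.Phi 1 j K t, (Glue.Phi_dd 0 j t).symm⟩

theorem mem_del (j : ℕ) (z : CC 0 j K) :
    Glue.Phi 0 j K z ∈ LinearMap.ker (del Glue.d2q j) ↔ z ∈ LinearMap.ker (dl j K) := by
  have h : Glue.Psi (j + 2) K (dl j K z) = del Glue.d2q j (Glue.Phi 0 j K z) := Glue.Psi_dl j z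
  rw [LinearMap.mem_ker, LinearMap.mem_ker, ← h]
  exact (Glue.Psi (j + 2) K).map_eq_zero_iff

/-- from `B ⊗ Λ` to the complexes -/
theorem ker_dl {j : ℕ} (h : ∃ E : Submodule ℚ (Glue.Bq 0 K ⊗[ℚ] Lam (Glue.Vq K) (j + 1)), E.FG ∧
      LinearMap.ker (del Glue.d2q (j + 1)) ≤ PR K j ⊔ E) :
    ∃ E : Submodule ℚ (CC 0 (j + 1) K), E.FG ∧
      LinearMap.ker (dl (j + 1) K) ≤ LinearMap.range (dd 0 j K) ⊔ E := by
  obtain ⟨E, hE, hE2⟩ := h
  refine ⟨E.map (Glue.Phi 0 (j + 1) K).symm.toLinearMap, hE.map _, fun z hz => ?_⟩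
  obtain ⟨p, hp, e, he, hpe⟩ := Submodule.mem_sup.1 (hE2 ((mem_del (j + 1) z).2 hz))
  have h1 : z = (Glue.Phi 0 (j + 1) K).symm p + (Glue.Phi 0 (j + 1) K).symm e := by
    rw [← map_add, hpe, LinearEquiv.symm_apply_apply]
  rw [h1]
  refine Submodule.add_mem_sup ((mem_PR j _).1 ?_) ⟨e, he, rfl⟩
  rw [LinearEquiv.apply_symm_apply]
  exact hp

/-- from the complexes to `B ⊗ Λ` -/
theorem ker_del {j : ℕ} (h : ∃ E : Submodule ℚ (CC 0 (j + 1) K), E.FG ∧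
      LinearMap.ker (dl (j + 1) K) ≤ LinearMap.range (dd 0 j K) ⊔ E) :
    ∃ E : Submodule ℚ (Glue.Bq 0 K ⊗[ℚ] Lam (Glue.Vq K) (j + 1)), E.FG ∧
      LinearMap.ker (del Glue.d2q (j + 1)) ≤ PR K j ⊔ E := by
  obtain ⟨E, hE, hE2⟩ := h
  refine ⟨E.map (Glue.Phi 0 (j + 1) K).toLinearMap, hE.map _, fun w hw => ?_⟩
  have hw1 : Glue.Phi 0 (j + 1) K ((Glue.Phi 0 (j + 1) K).symm w) = w :=
    LinearEquiv.apply_symm_apply _ _
  have hw2 : (Glue.Phi 0 (j + 1) K).symm w ∈ LinearMap.ker (dl (j + 1) K) := by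
    rw [← mem_del (j + 1), hw1]
    exact hw
  obtain ⟨p, hp, e, he, hpe⟩ := Submodule.mem_sup.1 (hE2 hw2)
  have h1 : w = Glue.Phi 0 (j + 1) K p + Glue.Phi 0 (j + 1) K e := by
    rw [← map_add, hpe, hw1]
  rw [h1]
  exact Submodule.add_mem_sup ((mem_PR j _).2 hp) ⟨e, he, rfl⟩

theorem d2q_surj (h : Subsingleton (HT K 2)) :
    Function.Surjective (Glue.d2q : Glue.Bq 0 K →ₗ[ℚ] _) := by
  have h1 : LinearMap.range (dl 0 K) = ⊤ := by
    rw [eq_top_iff]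
    intro t _
    have h2 : (Submodule.Quotient.mk t : TT 2 K ⧸ BT K 2) = 0 :=
      @Subsingleton.elim _ h (Submodule.Quotient.mk t : TT 2 K ⧸ BT K 2) 0
    exact (Submodule.Quotient.mk_eq_zero _).1 h2
  intro η
  obtain ⟨z, hz⟩ : (Glue.Psi 2 K).symm η ∈ LinearMap.range (dl 0 K) := by
    rw [h1]
    exact Submodule.mem_top
  refine ⟨(Glue.eps (Glue.Bq 0 K) (Glue.Vq K)).symm (Glue.Phi 0 0 K z), ?_⟩
  change Glue.Psi 2 K (dl 0 K ((Glue.Phi 0 0 K).symm (Glue.eps (Glue.Bq 0 K) (Glue.Vq K)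
    ((Glue.eps (Glue.Bq 0 K) (Glue.Vq K)).symm (Glue.Phi 0 0 K z))))) = η
  rw [LinearEquiv.apply_symm_apply, LinearEquiv.symm_apply_apply, hz,
    LinearEquiv.apply_symm_apply]

/-- finiteness of `H^{j+2}(Γ(K, j+3) ⊗ ℚ)` -/
theorem fin_of_ker {j : ℕ} (h : ∃ E : Submodule ℚ (CC 0 (j + 1) K), E.FG ∧
      LinearMap.ker (dl (j + 1) K) ≤ LinearMap.range (dd 0 j K) ⊔ E) :
    Module.Finite ℚ (HC K 0 (j + 1)) := by
  classical
  obtain ⟨E, hE, hE2⟩ := h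
  let hcl : ↥(ZC K 0 (j + 1)) →ₗ[ℚ] HC K 0 (j + 1) :=
    { toFun := hc
      map_add' := fun _ _ => rfl
      map_smul' := fun _ _ => rfl }
  have hR : LinearMap.range (dd 0 j K) ≤ ZC K 0 (j + 1) := by
    intro z hz
    exact (mem_del (j + 1) z).1 (PR_le j ((mem_PR j z).2 hz))
  have h1 : (E.comap (ZC K 0 (j + 1)).subtype).FG := by
    have h2 : (E ⊓ ZC K 0 (j + 1)).FG := hE.of_le inf_le_left
    have h3 : (E.comap (ZC K 0 (j + 1)).subtype).map (ZC K 0 (j + 1)).subtype =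
        E ⊓ ZC K 0 (j + 1) := by
      rw [Submodule.map_comap_subtype, inf_comm]
    rw [← h3] at h2
    exact Submodule.fg_of_fg_map_injective _ (Submodule.subtype_injective _) h2
  have h2 : ((E.comap (ZC K 0 (j + 1)).subtype).map hcl) = ⊤ := by
    rw [eq_top_iff]
    intro w _
    obtain ⟨z, hz⟩ : ∃ z : ↥(ZC K 0 (j + 1)), hc z = w := Submodule.Quotient.mk_surjective _ w
    obtain ⟨r, hr, e, he, hre⟩ := Submodule.mem_sup.1 (hE2 z.2)
    have hrZ : r ∈ ZC K 0 (j + 1) := hR hr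
    have heZ : e ∈ ZC K 0 (j + 1) := by
      have h3 : e = z.1 - r := by
        rw [← hre]
        abel
      rw [h3]
      exact Submodule.sub_mem _ z.2 hrZ
    refine ⟨⟨e, heZ⟩, he, ?_⟩
    have h4 : z = ⟨r, hrZ⟩ + ⟨e, heZ⟩ := by
      apply Subtype.ext
      change z.1 = r + e
      rw [← hre]
    have h5 : hcl ⟨r, hrZ⟩ = 0 := by
      refine (Submodule.Quotient.mk_eq_zero _).2 ?_
      exact hr
    have h6 : hcl z = w := hz
    rw [← h6, h4, map_add, h5, zero_add]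
  exact ⟨by rw [← h2]; exact h1.map _⟩

/-- the third statement -/
theorem fin_c (hM : Main K) (hK : Subsingleton (HT K 2)) (hfin : Module.Finite ℚ (HC K 0 0))
    (j : ℕ) : Module.Finite ℚ (HC K 0 j) := by
  cases j with
  | zero => exact hfin
  | succ j =>
    refine fin_of_ker (ker_dl (ker_up (d2q_surj hK) (ker_del ?_) j))
    exact ker_one hM hfin

end Pool.Agent.NFF
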