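import Pool.Agent.NFF.GMul

set_option autoImplicit false

/-!
# `Λ^n V = V-part`: if `Λ² V = δ(W) + Λ² U`, `U` finite-dimensional, then `W ⊗ Λ^n → Λ^{n+2}` is
surjective for large `n`
-/

namespace Pool.Agent.NFF

open scoped TensorProduct
open TensorProduct Pool.Agent.Helper91.Gon

universe u v

section sur

variable {V : Type u} [AddCommGroup V] [Module ℚ V] {W : Type v} [AddCommGroup W] [Module ℚ W]
  (d2 : W →ₗ[ℚ] Lam V 2)

/-- the span of the `u_1 ∧ ... ∧ u_n`, `u_i ∈ U` -/
noncomputable def LU (U : Submodule ℚ V) (n : ℕ) : Submodule ℚ (Lam V n) :=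
  Submodule.span ℚ {z | ∃ u : Fin n → V, (∀ i, u i ∈ U) ∧ z = Abs.iota n u}

theorem LU_bot {U : Submodule ℚ V} (hU : FiniteDimensional ℚ U) {n : ℕ}
    (hn : Module.finrank ℚ U < n) : LU U n = ⊥ := by
  rw [eq_bot_iff]
  refine Submodule.span_le.2 ?_
  rintro _ ⟨u, hu, rfl⟩
  rw [SetLike.mem_coe, Submodule.mem_bot]
  have h : ¬ LinearIndependent ℚ u := by
    intro h
    have h1 : LinearIndependent ℚ (fun i => (⟨u i, hu i⟩ : U)) := by
      refine LinearIndependent.of_comp U.subtype ?_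
      exact h
    have h2 := h1.fintype_card_le_finrank
    rw [Fintype.card_fin] at h2
    omega
  exact AlternatingMap.map_linearDependent (exteriorPower.ιMulti ℚ n (M := V)) u h

theorem del_zero (w : W) (v : Fin 0 → V) : del d2 0 (w ⊗ₜ Abs.iota 0 v) = d2 w := by
  rw [del_tmul]
  have h1 : (wdg2 V 0).flip (Abs.iota 0 v) = LinearMap.id := by
    apply liftL_ext
    intro a b
    change wdg2 V 0 (ww V a b) (Abs.iota 0 v) = ww V a b
    rw [wdg2_ww, Abs.wdg_iota, Abs.wdg_iota, ← Abs.iota_two]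
    congr 1
    funext i
    fin_cases i <;> rfl
  exact LinearMap.congr_fun h1 (d2 w)

variable {d2} in
theorem le_sup_LU {U : Submodule ℚ V}
    (h2 : LinearMap.range d2 ⊔ Submodule.map₂ (ww V) U U = ⊤) (n : ℕ) (ω : Lam V (n + 2)) :
    ω ∈ LinearMap.range (del d2 n) ⊔ LU U (n + 2) := by
  have hw2 : ∀ η : Lam V 2, ∃ w : W, ∃ l ∈ Submodule.map₂ (ww V) U U, η = d2 w + l := by
    intro η
    have h : η ∈ LinearMap.range d2 ⊔ Submodule.map₂ (ww V) U U := by
      rw [h2]
      exact Submodule.mem_top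
    obtain ⟨_, ⟨w, rfl⟩, l, hl, rfl⟩ := Submodule.mem_sup.1 h
    exact ⟨w, l, hl, rfl⟩
  induction n with
  | zero =>
    obtain ⟨w, l, hl, rfl⟩ := hw2 ω
    refine Submodule.add_mem_sup ⟨w ⊗ₜ Abs.iota 0 ![], del_zero d2 w _⟩ ?_
    refine (Submodule.map₂_le.2 ?_) hl
    intro a ha b hb
    refine Submodule.subset_span ⟨![a, b], ?_, (Abs.iota_two a b).symm⟩
    intro i
    fin_cases i
    · exact ha
    · exact hb
  | succ n ih =>
    refine Abs.Lam_span (n + 3) (LinearMap.range (del d2 (n + 1)) ⊔ LU U (n + 3)) (fun w => ?_) ω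
    rw [iota_succ]
    obtain ⟨_, ⟨θ, rfl⟩, l, hl, hθ⟩ := Submodule.mem_sup.1 (ih (Abs.iota (n + 2) fun i => w i.succ))
    rw [← hθ, map_add]
    refine Submodule.add_mem _ (Submodule.mem_sup_left ⟨yw W n (w 0) θ, del_yw d2 n (w 0) θ⟩) ?_
    clear hθ
    induction hl using Submodule.span_induction with
    | mem l hl =>
      obtain ⟨u, hu, rfl⟩ := hl
      rw [iota_succ (n + 1) u, ← wdg2_ww]
      obtain ⟨w', l, hl, hη⟩ := hw2 (ww V (w 0) (u 0))
      rw [hη, map_add, LinearMap.add_apply]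
      refine Submodule.add_mem _ (Submodule.mem_sup_left
        ⟨w' ⊗ₜ Abs.iota (n + 1) (fun i => u i.succ), del_tmul d2 (n + 1) w' _⟩)
        (Submodule.mem_sup_right ?_)
      clear hη
      have h3 : Submodule.map₂ (ww V) U U ≤ (LU U (n + 3)).comap
          ((wdg2 V (n + 1)).flip (Abs.iota (n + 1) (fun i => u i.succ))) := by
        refine Submodule.map₂_le.2 fun a ha b hb => ?_
        change wdg2 V (n + 1) (ww V a b) (Abs.iota (n + 1) (fun i => u i.succ)) ∈ LU U (n + 3)
        rw [wdg2_ww, Abs.wdg_iota, Abs.wdg_iota]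
        refine Submodule.subset_span ⟨_, fun i => ?_, rfl⟩
        refine Fin.cases ?_ (fun i => ?_) i
        · exact ha
        · refine Fin.cases ?_ (fun i => ?_) i
          · exact hb
          · exact hu i.succ
      exact h3 hl
    | zero =>
      rw [map_zero]
      exact Submodule.zero_mem _
    | add a b _ _ ha hb =>
      rw [map_add]
      exact Submodule.add_mem _ ha hb
    | smul c a _ ha =>
      rw [map_smul]
      exact Submodule.smul_mem _ c ha

variable {d2} in
theorem exists_surj {U : Submodule ℚ V} (hU : FiniteDimensional ℚ U)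
    (h2 : LinearMap.range d2 ⊔ Submodule.map₂ (ww V) U U = ⊤) :
    Function.Surjective (del d2 (Module.finrank ℚ U)) := by
  rw [← LinearMap.range_eq_top, eq_top_iff]
  intro ω _
  have h := le_sup_LU h2 (Module.finrank ℚ U) ω
  rw [LU_bot hU (by omega), sup_bot_eq] at h
  exact h

end sur

end Pool.Agent.NFF
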