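import Pool.Agent.NFF.Gel

set_option autoImplicit false

/-!
# Project NFF, block G: the differences of two products, item (g5) (helper13), JOB NFF-G5

`big_sz`: `M ∈ Big 1 S q` has `sz M ^ (6d) ≤ c^(12d) 2^(12d) q^11`.  First type `M = x y e`:
`sz M ≤ c c (sz x sz y sz e)` (`Con.mul` twice), `sz x ^ (6d) = (sz x ^ (3d))^2 ≤ (2^(3d) q^2)^2`,
the same for `y`, and `sz e ^ (6d) = (sz e ^ (2d))^3 ≤ q^3`; second type `M = x e z`:
`sz x ^ (6d) = (sz x ^ d)^6 ≤ q^6`, `sz e ^ (6d) ≤ q^3`, `sz z ^ (6d) ≤ q^2`.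
`close`: `sz (M - N) ≤ 2 max`, so `sz (M - N)^(6d) ≤ 2^(6d) c^(12d) 2^(12d) q^11` and
`nm (M - N)^6 ≤ c^6 sz (M - N)^(6d) ≤ c^(12d+6) 2^(18d) q^11 < q^12`: `nm (M - N) < q^2`, then
`pu_of_nm_lt`.
-/

namespace NFF

open NumberField

variable {K : Type} [Field K] [NumberField K]

private lemma gcl_three {c : ℕ} (hc : Con K c) {n X Y Z : ℕ} {x y z : 𝓞 K}
    (hx : sz x ^ n ≤ X) (hy : sz y ^ n ≤ Y) (hz : sz z ^ n ≤ Z) :
    sz (x * y * z) ^ n ≤ c ^ (2 * n) * (X * Y * Z) := by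
  have h1 : sz (x * y * z) ≤ c * c * (sz x * sz y * sz z) := by
    calc sz (x * y * z) ≤ c * (sz (x * y) * sz z) := hc.mul _ _
      _ ≤ c * (c * (sz x * sz y) * sz z) :=
          Nat.mul_le_mul_left _ (Nat.mul_le_mul_right _ (hc.mul _ _))
      _ = c * c * (sz x * sz y * sz z) := by ring
  calc sz (x * y * z) ^ n ≤ (c * c * (sz x * sz y * sz z)) ^ n := Nat.pow_le_pow_left h1 n
    _ = c ^ (2 * n) * (sz x ^ n * sz y ^ n * sz z ^ n) := by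
        rw [mul_pow, mul_pow, mul_pow, mul_pow, ← pow_add, two_mul]
    _ ≤ c ^ (2 * n) * (X * Y * Z) :=
        Nat.mul_le_mul_left _ (Nat.mul_le_mul (Nat.mul_le_mul hx hy) hz)

lemma big_sz {c : ℕ} (hc : Con K c) {S : Set (Pr K)} {q : ℕ} {M : 𝓞 K} (hM : M ∈ Big 1 S q) :
    sz M ^ (6 * dg K) ≤ c ^ (12 * dg K) * 2 ^ (12 * dg K) * q ^ 11 := by
  have hTin : ∀ e ∈ Tin K q, sz e ^ (6 * dg K) ≤ q ^ 3 := by
    intro e he
    calc sz e ^ (6 * dg K) = (sz e ^ (2 * dg K)) ^ 3 := by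
          rw [← pow_mul]; congr 1; ring
      _ ≤ q ^ 3 := Nat.pow_le_pow_left he.2 3
  have hMed : ∀ x ∈ Med K q, sz x ^ (6 * dg K) ≤ (2 ^ (3 * dg K) * q ^ 2) ^ 2 := by
    intro x hx
    calc sz x ^ (6 * dg K) = (sz x ^ (3 * dg K)) ^ 2 := by
          rw [← pow_mul]; congr 1; ring
      _ ≤ (2 ^ (3 * dg K) * q ^ 2) ^ 2 := Nat.pow_le_pow_left hx.2 2
  have hSml : ∀ z ∈ Sml K q, sz z ^ (6 * dg K) ≤ q ^ 2 := by
    intro z hz
    calc sz z ^ (6 * dg K) = (sz z ^ (3 * dg K)) ^ 2 := by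
          rw [← pow_mul]; congr 1; ring
      _ ≤ q ^ 2 := Nat.pow_le_pow_left hz.2 2
  have hLrg : ∀ x ∈ Lrg 1 S q, sz x ^ (6 * dg K) ≤ q ^ 6 := by
    intro x hx
    have h := hx.2.1
    rw [one_mul] at h
    calc sz x ^ (6 * dg K) = (sz x ^ dg K) ^ 6 := by
          rw [← pow_mul]; congr 1; ring
      _ ≤ q ^ 6 := Nat.pow_le_pow_left h 6
  have h12 : 2 * (6 * dg K) = 12 * dg K := by ring
  rcases hM with ⟨x, hx, y, hy, e, he, rfl⟩ | ⟨x, hx, e, he, z, hz, rfl⟩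
  · have h := gcl_three hc (hMed x hx) (hMed y hy) (hTin e he)
    rw [h12] at h
    refine h.trans (le_of_eq ?_)
    have h2 : (2 : ℕ) ^ (12 * dg K) = (2 ^ (3 * dg K)) ^ 4 := by
      rw [← pow_mul]; congr 1; ring
    rw [h2]
    ring
  · have h := gcl_three hc (hLrg x hx) (hTin e he) (hSml z hz)
    rw [h12] at h
    refine h.trans ?_
    have h2 : q ^ 6 * q ^ 3 * q ^ 2 = q ^ 11 := by ring
    rw [h2, mul_assoc]
    exact Nat.mul_le_mul_left _ (Nat.le_mul_of_pos_left _ (Nat.pow_pos (by norm_num)))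

/-- sizes of differences -/
private lemma gcl_sub {n B : ℕ} {x y : 𝓞 K} (hx : sz x ^ n ≤ B) (hy : sz y ^ n ≤ B) :
    sz (x - y) ^ n ≤ 2 ^ n * B := by
  have key : ∀ a b : ℕ, b ≤ a → a ^ n ≤ B → sz (x - y) ≤ a + b → sz (x - y) ^ n ≤ 2 ^ n * B := by
    intro a b hba ha h
    calc sz (x - y) ^ n ≤ (2 * a) ^ n := Nat.pow_le_pow_left (by omega) n
      _ = 2 ^ n * a ^ n := mul_pow _ _ _
      _ ≤ 2 ^ n * B := Nat.mul_le_mul_left _ ha
  rcases le_total (sz y) (sz x) with h | h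
  · exact key _ _ h hx (sz_sub_le x y)
  · exact key _ _ h hy ((sz_sub_le x y).trans (by rw [add_comm]))

theorem close {c : ℕ} (hc : Con K c) {S : Set (Pr K)} {P : Pr K} (hA : Adm S P)
    (hq : c ^ (12 * dg K + 6) * 2 ^ (18 * dg K) < qn P) {M N : 𝓞 K} (hM : M ∈ Big 1 S (qn P))
    (hN : N ∈ Big 1 S (qn P)) (hMN : M ≠ N) (h : M - N ∈ P.asIdeal) :
    PU S P ((M - N : 𝓞 K) : K) := by
  refine pu_of_nm_lt hA (sub_ne_zero.2 hMN) h ?_
  have h1 := gcl_sub (big_sz hc hM) (big_sz hc hN)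
  have hq0 : 0 < qn P := by omega
  have h2 : nm (M - N) ^ 6 < (qn P ^ 2) ^ 6 := by
    calc nm (M - N) ^ 6 ≤ (c * sz (M - N) ^ dg K) ^ 6 := Nat.pow_le_pow_left (hc.nm_le _) 6
      _ = c ^ 6 * sz (M - N) ^ (6 * dg K) := by
          rw [mul_pow, ← pow_mul, mul_comm (dg K) 6]
      _ ≤ c ^ 6 * (2 ^ (6 * dg K) * (c ^ (12 * dg K) * 2 ^ (12 * dg K) * qn P ^ 11)) :=
          Nat.mul_le_mul_left _ h1
      _ = c ^ (12 * dg K + 6) * 2 ^ (18 * dg K) * qn P ^ 11 := by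
          have e1 : c ^ (12 * dg K + 6) = c ^ (12 * dg K) * c ^ 6 := pow_add _ _ _
          have e2 : (2 : ℕ) ^ (18 * dg K) = 2 ^ (6 * dg K) * 2 ^ (12 * dg K) := by
            rw [← pow_add]; congr 1; ring
          rw [e1, e2]
          ring
      _ < qn P * qn P ^ 11 := Nat.mul_lt_mul_of_pos_right hq (Nat.pow_pos hq0)
      _ = (qn P ^ 2) ^ 6 := by ring
  exact lt_of_pow_lt_pow_left₀ 6 (Nat.zero_le _) h2

end NFF
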