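import Pool.Agent.NFF.Ord

set_option autoImplicit false

/-!
# Project NFF, block G: `V_T` is finite-dimensional for finite `T` (helper13), JOB NFF-G6

The group of `T`-units is finitely generated: its image under the orders at the primes of `T` is a
submodule of the noetherian module `T → ℤ`, and the kernel is the group of units of `𝓞 K`.
-/

namespace NFF

open NumberField TensorProduct

variable {K : Type} [Field K] [NumberField K]

/-- the group of `T`-units -/
private def gfdU (T : Set (Pr K)) : AddSubgroup (Additive Kˣ) where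
  carrier := {x | SU T ((Additive.toMul x : Kˣ) : K)}
  zero_mem' := by
    show SU T (((1 : Kˣ)) : K)
    rw [Units.val_one]
    exact SU_one T
  add_mem' := by
    intro a b ha hb
    show SU T (((Additive.toMul a * Additive.toMul b : Kˣ)) : K)
    rw [Units.val_mul]
    exact SU.mul ha hb
  neg_mem' := by
    intro a ha
    show SU T ((((Additive.toMul a)⁻¹ : Kˣ)) : K)
    rw [Units.val_inv_eq_inv_val]
    exact SU.inv ha

/-- the orders at the primes of `T` -/
private noncomputable def gfdF (T : Set (Pr K)) : Additive Kˣ →+ (T → ℤ) where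
  toFun x Q := od Q.1 ((Additive.toMul x : Kˣ) : K)
  map_zero' := by
    funext Q
    show od Q.1 (((1 : Kˣ)) : K) = 0
    rw [Units.val_one, od_one]
  map_add' := by
    intro a b
    funext Q
    show od Q.1 (((Additive.toMul a * Additive.toMul b : Kˣ)) : K) = _
    rw [Units.val_mul, od_mul Q.1 (Units.ne_zero _) (Units.ne_zero _)]
    rfl

/-- `V_T` for a finite set `T` of primes is spanned by the classes of finitely many `T`-units -/
theorem vs_fin {T : Set (Pr K)} (hT : T.Finite) :
    ∃ Y : Finset K, (∀ y ∈ Y, SU T y) ∧ VS T = Submodule.span ℚ (lg '' (Y : Set K)) := by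
  classical
  have hTf : Finite T := hT.to_subtype
  have hfg : (AddSubgroup.toIntSubmodule (gfdU T)).FG := by
    refine Submodule.fg_of_fg_map_of_fg_inf_ker (gfdF T).toIntLinearMap
      (IsNoetherian.noetherian _) ?_
    let g : Additive (𝓞 K)ˣ →ₗ[ℤ] Additive Kˣ :=
      (MonoidHom.toAdditive (Units.map (algebraMap (𝓞 K) K : 𝓞 K →* K))).toIntLinearMap
    have h1 : (Submodule.map g ⊤).FG := Submodule.FG.map g Module.Finite.fg_top
    have h2 : AddSubgroup.toIntSubmodule (gfdU T) ⊓ LinearMap.ker (gfdF T).toIntLinearMap
        = Submodule.map g ⊤ := by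
      ext x
      constructor
      · rintro ⟨hx1, hx2⟩
        have hx3 : SU T ((Additive.toMul x : Kˣ) : K) := hx1
        have hx4 : gfdF T x = 0 := hx2
        have hx5 : ∀ P : Pr K, od P ((Additive.toMul x : Kˣ) : K) = 0 := by
          intro P
          by_cases hP : P ∈ T
          · exact congrFun hx4 ⟨P, hP⟩
          · exact hx3.2 P hP
        obtain ⟨u, hu⟩ := exists_unit (Units.ne_zero (Additive.toMul x)) hx5
        refine ⟨Additive.ofMul u, trivial, ?_⟩
        apply Additive.toMul.injective
        ext
        show ((u : 𝓞 K) : K) = _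
        exact hu
      · rintro ⟨u, -, rfl⟩
        refine ⟨?_, ?_⟩
        · show SU T (((Additive.toMul u : (𝓞 K)ˣ) : 𝓞 K) : K)
          exact SU_unit T _
        · show gfdF T (g u) = 0
          funext Q
          show od Q.1 (((Additive.toMul u : (𝓞 K)ˣ) : 𝓞 K) : K) = 0
          exact od_unit Q.1 _
    rw [h2]
    exact h1
  obtain ⟨S, hS⟩ := hfg
  refine ⟨S.image fun x => ((Additive.toMul x : Kˣ) : K), ?_, le_antisymm ?_ ?_⟩
  · intro y hy
    obtain ⟨x, hx, rfl⟩ := Finset.mem_image.1 hy
    have : x ∈ AddSubgroup.toIntSubmodule (gfdU T) := hS ▸ Submodule.subset_span hx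
    exact this
  · refine Submodule.span_le.2 ?_
    rintro _ ⟨x, hx, rfl⟩
    have hx0 : x ≠ 0 := hx.1
    have hmem : Additive.ofMul (Units.mk0 x hx0) ∈ Submodule.span ℤ (S : Set (Additive Kˣ)) := by
      rw [hS]
      show SU T _
      exact hx
    have key : ∀ u ∈ Submodule.span ℤ (S : Set (Additive Kˣ)),
        (1 : ℚ) ⊗ₜ[ℤ] u ∈ Submodule.span ℚ
          (lg '' ((S.image fun x => ((Additive.toMul x : Kˣ) : K) : Finset K) : Set K)) := by
      intro u hu
      induction hu using Submodule.span_induction with
      | mem u hu =>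
        refine Submodule.subset_span ⟨((Additive.toMul u : Kˣ) : K), ?_, ?_⟩
        · exact Finset.mem_coe.2 (Finset.mem_image.2 ⟨u, hu, rfl⟩)
        · rw [lg_of_ne (Units.ne_zero _)]
          congr 1
          rw [Units.mk0_val]
          rfl
      | zero => rw [TensorProduct.tmul_zero]; exact Submodule.zero_mem _
      | add a b _ _ ha hb => rw [TensorProduct.tmul_add]; exact Submodule.add_mem _ ha hb
      | smul n a _ ha =>
        rw [TensorProduct.tmul_smul]
        exact zsmul_mem ha n
    have := key _ hmem
    rw [lg_of_ne hx0]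
    exact this
  · refine Submodule.span_mono (Set.image_mono ?_)
    intro y hy
    obtain ⟨x, hx, rfl⟩ := Finset.mem_image.1 (Finset.mem_coe.1 hy)
    have : x ∈ AddSubgroup.toIntSubmodule (gfdU T) := hS ▸ Submodule.subset_span hx
    exact this

end NFF
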