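import Pool.Agent.NFF.Gel
import Pool.Agent.NFF.Gfd

set_option autoImplicit false

/-!
# Project NFF, block G: generators of bounded size, item (g6)

`exists_xq`: `pigeon` with `ι = Unit`, `A = 𝓞 K ⧸ Q`, `f x = mk (x ())`, and `t^d ≤ qn Q < (t+1)^d`
(`exists_root`).
`od_xq`: `nm x ≤ c sz x ^ d ≤ c qn Q`; `x ∈ Q^2` would give `qn Q ^ 2 ≤ c qn Q`, so `qn Q ≤ c`:
for `c < qn Q` the order at `Q` is `1` (`le_od_iff` for `n = 1, 2`).
`od_xq'`: `Q' ≠ Q` with `x ∈ Q'` gives `qn Q qn Q' ≤ nm x ≤ c qn Q`, so `qn Q' ≤ c`.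
`reduce`: for `x ≠ 0` let `F` be the finite set of the `Q` with `od Q x ≠ 0` and `c < qn Q`
(`od_finite`), `y = x / ∏_(Q ∈ F) (w Q) ^ (od Q x)`; then `od Q' y = 0` for `c < qn Q'`, so
`SU (Low K (c + 1)) y`, and `lg x = lg y + ∑_(Q ∈ F) od Q x • lg (w Q)`.
`span_lrg`: `Y` from `vs_fin` for `Low K (c + 1)` (finite by `low_finite`); every `y ∈ Y` is `a / b`
with integers `a, b ≠ 0` (`exists_int_div`); for `q1` larger than all `sz a ^ d`, `sz b ^ d`,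
`nm a`, `nm b` these are in `Lrg 1 S (qn P)` (`mem_lrg_of_nm`), so `VS (Low K (c + 1))` is in the
span.  For an `S`-unit `x` and `Q` with `od Q x ≠ 0`, `Q ∈ S`, so `qn Q ≤ qn P` (`Adm.le`) and
`w Q ∈ Lrg 1 S (qn P)`: size by `exists_xq`, `S`-unit since its primes are `Q` and primes of norm
`≤ c < qn P` (`od_xq'`, `Adm.lower`).
-/

namespace NFF

open NumberField

variable {K : Type} [Field K] [NumberField K]

/-- a small nonzero element of `Q` -/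
theorem exists_xq (Q : Pr K) : ∃ x : 𝓞 K, x ≠ 0 ∧ x ∈ Q.asIdeal ∧ sz x ^ dg K ≤ qn Q := by
  obtain ⟨t, ht1, ht2⟩ := exists_root (dg K) (qn Q) dg_pos
  have := finite_quot Q
  let f : (Unit → 𝓞 K) →+ (𝓞 K ⧸ Q.asIdeal) :=
    (Ideal.Quotient.mk Q.asIdeal).toAddMonoidHom.comp (Pi.evalAddMonoidHom (fun _ : Unit => 𝓞 K) ())
  obtain ⟨x, hx0, hx1, hx2⟩ := pigeon f (fun _ => t) (by
    rw [card_quot]
    simpa using ht2)
  refine ⟨x (), fun h => hx0 (funext fun i => ?_), Ideal.Quotient.eq_zero_iff_mem.mp hx2,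
    (Nat.pow_le_pow_left (hx1 ()) _).trans ht1⟩
  have hi : i = () := Subsingleton.elim _ _
  rw [hi]
  exact h

lemma od_xq {c : ℕ} (hc : Con K c) {Q : Pr K} {x : 𝓞 K} (hx : x ≠ 0) (hQ : x ∈ Q.asIdeal)
    (h : sz x ^ dg K ≤ qn Q) (hq : c < qn Q) : od Q (x : K) = 1 := by
  have h0 : nm x ≤ c * qn Q := (hc.nm_le x).trans (Nat.mul_le_mul_left c h)
  have h1 : ((1 : ℕ) : ℤ) ≤ od Q (x : K) := (le_od_iff Q hx 1).2 (by rw [pow_one]; exact hQ)
  have h2 : ¬ (((2 : ℕ) : ℤ) ≤ od Q (x : K)) := by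
    intro h2
    have h3 := (qn_sq_le_nm hx ((le_od_iff Q hx 2).1 h2)).trans h0
    rw [pow_two] at h3
    have h4 : qn Q ≤ c := Nat.le_of_mul_le_mul_right h3 (by have := two_le_qn Q; omega)
    omega
  push_cast at h1 h2
  omega

lemma od_xq' {c : ℕ} (hc : Con K c) {Q Q' : Pr K} (hQQ : Q' ≠ Q) {x : 𝓞 K} (hx : x ≠ 0)
    (hQ : x ∈ Q.asIdeal) (h : sz x ^ dg K ≤ qn Q) (hq : c < qn Q') : od Q' (x : K) = 0 := by
  rw [od_eq_zero_iff Q' hx]
  intro hQ'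
  have h0 : nm x ≤ c * qn Q := (hc.nm_le x).trans (Nat.mul_le_mul_left c h)
  have h3 := (qn_mul_le_nm hQQ hx hQ' hQ).trans h0
  have h4 : qn Q' ≤ c := Nat.le_of_mul_le_mul_right h3 (by have := two_le_qn Q; omega)
  omega

/-- `lg x` is a combination of the `lg (w Q)` modulo `V_(Low (c + 1))` -/
theorem reduce {c : ℕ} (hc : Con K c) (w : Pr K → 𝓞 K) (hw : ∀ Q, w Q ≠ 0)
    (hw1 : ∀ Q, w Q ∈ Q.asIdeal) (hw2 : ∀ Q, sz (w Q) ^ dg K ≤ qn Q) {x : K} (hx : x ≠ 0) :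
    lg x ∈ VS (Low K (c + 1)) ⊔
      Submodule.span ℚ ((fun Q : Pr K => lg (w Q : K)) '' {Q | od Q x ≠ 0}) := by
  classical
  set F : Finset (Pr K) := (od_finite x).toFinset.filter fun Q => c < qn Q with hF
  have hw0 : ∀ Q : Pr K, (w Q : K) ≠ 0 := fun Q => RingOfIntegers.coe_ne_zero_iff.2 (hw Q)
  set z : K := ∏ Q ∈ F, (w Q : K) ^ (od Q x) with hz
  have hz0 : z ≠ 0 := Finset.prod_ne_zero_iff.2 fun Q _ => zpow_ne_zero _ (hw0 Q)
  have hlz : lg z = ∑ Q ∈ F, (od Q x : ℚ) • lg (w Q : K) := by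
    rw [hz, lg_prod F _ fun Q _ => zpow_ne_zero _ (hw0 Q)]
    exact Finset.sum_congr rfl fun Q _ => lg_zpow _ _
  have hy : SU (Low K (c + 1)) (x / z) := by
    refine ⟨div_ne_zero hx hz0, fun Q' hQ' => ?_⟩
    have hq : c < qn Q' := by
      by_contra hcon
      exact hQ' (show qn Q' < c + 1 by omega)
    rw [od_div Q' hx hz0, hz, od_prod Q' F _ fun Q _ => zpow_ne_zero _ (hw0 Q)]
    have h1 : ∀ Q ∈ F, od Q' ((w Q : K) ^ (od Q x)) = if Q = Q' then od Q' x else 0 := by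
      intro Q _
      rw [od_zpow]
      by_cases hQ : Q = Q'
      · subst hQ
        rw [if_pos rfl, od_xq hc (hw Q) (hw1 Q) (hw2 Q) hq, mul_one]
      · rw [if_neg hQ, od_xq' hc (fun h => hQ h.symm) (hw Q) (hw1 Q) (hw2 Q) hq, mul_zero]
    rw [Finset.sum_congr rfl h1, Finset.sum_ite_eq']
    by_cases hm : Q' ∈ F
    · rw [if_pos hm, sub_self]
    · rw [if_neg hm, sub_zero]
      by_contra hne
      exact hm (Finset.mem_filter.2 ⟨(od_finite x).mem_toFinset.2 hne, hq⟩)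
  have hlx : lg x = lg (x / z) + lg z := by
    rw [lg_div hx hz0, sub_add_cancel]
  rw [hlx]
  refine Submodule.add_mem_sup (lg_mem_VS hy) ?_
  rw [hlz]
  refine Submodule.sum_mem _ fun Q hQ => Submodule.smul_mem _ _ (Submodule.subset_span ⟨Q, ?_, rfl⟩)
  exact (od_finite x).mem_toFinset.1 (Finset.mem_filter.1 hQ).1

private lemma gSp_one (y : K) (hy : y ≠ 0) : ∃ n : ℕ, ∀ (S : Set (Pr K)) (P : Pr K), Adm S P →
    n ≤ qn P → lg y ∈ Submodule.span ℚ ((fun x : 𝓞 K => lg (x : K)) '' Lrg 1 S (qn P)) := by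
  obtain ⟨a, b, ha, hb, hab⟩ := exists_int_div y hy
  refine ⟨sz a ^ dg K + sz b ^ dg K + nm a + nm b + 1, fun S P hA hq => ?_⟩
  have ha1 : a ∈ Lrg 1 S (qn P) := mem_lrg_of_nm hA ha (by omega) (by omega)
  have hb1 : b ∈ Lrg 1 S (qn P) := mem_lrg_of_nm hA hb (by omega) (by omega)
  rw [hab, lg_div (RingOfIntegers.coe_ne_zero_iff.2 ha) (RingOfIntegers.coe_ne_zero_iff.2 hb)]
  exact Submodule.sub_mem _ (Submodule.subset_span ⟨a, ha1, rfl⟩)
    (Submodule.subset_span ⟨b, hb1, rfl⟩)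

theorem span_lrg {c : ℕ} (hc : Con K c) :
    ∃ q1 : ℕ, ∀ (S : Set (Pr K)) (P : Pr K), Adm S P → q1 ≤ qn P →
      VS S = Submodule.span ℚ ((fun x : 𝓞 K => lg (x : K)) '' Lrg 1 S (qn P)) := by
  classical
  obtain ⟨Y, hY1, hY2⟩ := vs_fin (low_finite (K := K) (c + 1))
  choose w hw0 hw1 hw2 using (exists_xq (K := K))
  choose! n hn using (gSp_one (K := K))
  refine ⟨Y.sup n + c + 1, fun S P hA hq => le_antisymm ?_ ?_⟩
  · rw [VS, Submodule.span_le]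
    rintro _ ⟨x, hx, rfl⟩
    have hx' : SU S x := hx
    refine (sup_le ?_ ?_ : VS (Low K (c + 1)) ⊔
      Submodule.span ℚ ((fun Q : Pr K => lg (w Q : K)) '' {Q | od Q x ≠ 0}) ≤ _)
        (reduce hc w hw0 hw1 hw2 hx'.1)
    · rw [hY2, Submodule.span_le]
      rintro _ ⟨y, hy, rfl⟩
      have h1 : n y ≤ Y.sup n := Finset.le_sup (f := n) hy
      exact hn y (hY1 y hy).1 S P hA (by omega)
    · rw [Submodule.span_le]
      rintro _ ⟨Q, hQ, rfl⟩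
      have hQS : Q ∈ S := by
        by_contra hcon
        exact hQ (hx'.2 Q hcon)
      refine Submodule.subset_span ⟨w Q, ⟨hw0 Q, ?_, RingOfIntegers.coe_ne_zero_iff.2 (hw0 Q),
        fun Q' hQ' => ?_⟩, rfl⟩
      · rw [one_mul]
        exact (hw2 Q).trans (hA.le Q hQS)
      · have h2 : qn P ≤ qn Q' := by
          by_contra hcon
          exact hQ' (hA.lower Q' (by omega))
        refine od_xq' hc (fun h => hQ' (by rw [h]; exact hQS)) (hw0 Q) (hw1 Q) (hw2 Q) (by omega)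
  · rw [Submodule.span_le]
    rintro _ ⟨x, hx, rfl⟩
    exact lg_mem_VS hx.2.2

end NFF
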