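import Pool.Agent.NFF.Gpg
import Pool.Agent.NFF.Gcl
import Pool.Agent.NFF.Gsp

set_option autoImplicit false

/-!
# NFF-Geo: geometry: the exported statements (helper13)

`exists_lev`, `vs_low_fin`, `eventually_med`; `low_finite` is in `Gnm`.
-/

namespace NFF

open NumberField TensorProduct
open IsDedekindDomain (HeightOneSpectrum)

variable {K : Type} [Field K] [NumberField K]

/-- a prime of large norm divides a small integer, which is `P` times an `S`-unit -/
theorem exists_unif {c : ℕ} (hc : Con K c) {S : Set (Pr K)} {P : Pr K} (hA : Adm S P)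
    (hq : c < qn P) : ∃ p : 𝓞 K, PU S P (p : K) := by
  obtain ⟨x, hx, hP, hs⟩ := exists_xq P
  refine ⟨x, pu_of_nm_lt hA hx hP ?_⟩
  calc nm x ≤ c * sz x ^ dg K := hc.nm_le x
    _ ≤ c * qn P := Nat.mul_le_mul_left _ hs
    _ < qn P * qn P := Nat.mul_lt_mul_of_pos_right hq (by omega)
    _ = qn P ^ 2 := (sq _).symm

/-- the geometric input holds at all primes of large norm -/
theorem exists_lev (K : Type) [Field K] [NumberField K] :
    ∃ C q0 : ℕ, ∀ (S : Set (Pr K)) (P : Pr K), Adm S P → q0 ≤ qn P → Lev C S P := by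
  obtain ⟨c, hc⟩ := exists_con K
  obtain ⟨q1, h1⟩ := span_lrg hc
  refine ⟨1, q1 + c ^ (12 * dg K + 6) * 2 ^ (18 * dg K) + sz (1 : 𝓞 K) ^ (3 * dg K) + 1,
    fun S P hA hq => ?_⟩
  have hq5 : c ^ (12 * dg K + 6) * 2 ^ (18 * dg K) < qn P := by omega
  have hc1 := hc.one_le
  have hq3 : c ^ 3 * 2 ^ (6 * dg K) < qn P := by
    refine lt_of_le_of_lt (Nat.mul_le_mul ?_ ?_) hq5
    · exact Nat.pow_le_pow_right hc1 (by omega)
    · exact Nat.pow_le_pow_right (by norm_num) (by omega)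
  have hq1 : c < qn P := by
    refine lt_of_le_of_lt ?_ hq3
    calc c = c * 1 := (mul_one c).symm
      _ ≤ c ^ 3 * 2 ^ (6 * dg K) :=
        Nat.mul_le_mul (Nat.le_self_pow (by norm_num) c) (Nat.one_le_pow _ _ (by norm_num))
  exact
    { one_sml := ⟨one_ne_zero, by omega⟩
      sml_tin := sml_tin _
      tin_me0 := tin_me0 _
      me0_med := me0_med _
      unif := exists_unif hc hA hq1
      med_lrg := med_lrg hc hA hq3
      lrg_not := fun x hx => lrg_not hA hx
      g1 := g1 hc hq3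
      g2 := g2 hc hq3
      g3 := g3 hc hq3
      sub_me0 := fun x hx y hy h => sub_me0 hx hy h
      sub_med := fun x hx y hy h => sub_med hc hA hq3 hx hy h
      close := fun M hM N hN h h' => close hc hA hq5 hM hN h h'
      span_lrg := h1 S P hA (by omega) }

/-- the space `V_(Low n)` is finite-dimensional -/
theorem vs_low_fin (n : ℕ) : ∃ Y : Finset K, (∀ y ∈ Y, SU (Low K n) y) ∧
    VS (Low K n) = Submodule.span ℚ (lg '' (Y : Set K)) :=
  vs_fin (low_finite n)

lemma vs_low_findim (n : ℕ) : FiniteDimensional ℚ (VS (Low K n)) := by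
  obtain ⟨Y, -, hY⟩ := vs_low_fin (K := K) n
  rw [hY]
  exact FiniteDimensional.span_of_finite ℚ (Y.finite_toSet.image _)

/-- every `x ≠ 0` is a unit outside the primes of small norm -/
theorem eventually_su {x : K} (hx : x ≠ 0) : ∃ q1 : ℕ, ∀ q : ℕ, q1 ≤ q → SU (Low K q) x := by
  classical
  obtain ⟨F, hF⟩ := (od_finite x).exists_finset
  refine ⟨F.sup qn + 1, fun q hq => ⟨hx, fun Q hQ => ?_⟩⟩
  by_contra h
  have h1 : Q ∈ F := (hF Q).2 h
  have h2 : qn Q ≤ F.sup qn := Finset.le_sup h1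
  exact hQ (show qn Q < q by omega)

/-- every `x ≠ 0` is a quotient of two elements of `Med K q` for all large `q` -/
theorem eventually_med (x : K) (hx : x ≠ 0) : ∃ q1 : ℕ, SU (Low K q1) x ∧
    ∀ q : ℕ, q1 ≤ q → ∃ y ∈ Med K q, ∃ z ∈ Med K q, x = (y : K) / (z : K) := by
  obtain ⟨a, b, ha, hb, hab⟩ := exists_int_div x hx
  obtain ⟨q2, h2⟩ := eventually_su hx
  have key : ∀ a : 𝓞 K, a ≠ 0 → ∀ q : ℕ, sz a ^ (3 * dg K) + 1 ≤ q → a ∈ Med K q := by
    intro a ha q hq
    refine ⟨ha, ?_⟩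
    have h2 : 1 ≤ 2 ^ (3 * dg K) := Nat.one_le_pow _ _ (by norm_num)
    have h3 : sz a ^ (3 * dg K) ≤ q := by omega
    calc sz a ^ (3 * dg K) ≤ q := h3
      _ ≤ q ^ 2 := Nat.le_self_pow (by norm_num) q
      _ ≤ 2 ^ (3 * dg K) * q ^ 2 := Nat.le_mul_of_pos_left _ (by omega)
  exact ⟨sz a ^ (3 * dg K) + sz b ^ (3 * dg K) + 1 + q2, h2 _ (by omega), fun q hq =>
    ⟨a, key a ha q (by omega), b, key b hb q (by omega), hab⟩⟩

end NFF
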