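import Pool.Agent.NFF.Bs
import Pool.Agent.NFF.Geo
import Pool.Agent.NFF.GVan
import Pool.Agent.NFF.GSur
import Pool.Agent.NFF.GFam

set_option autoImplicit false

/-!
# Number fields: `Λ² V = δ(B_2) + Λ² U` with `U` finite-dimensional
-/

namespace Pool.Agent.NFF

open scoped TensorProduct
open TensorProduct Pool.Agent.Helper91.Gon
open Helper14.Gon (P1 ZP br MU LM lgm elx ely BB CC TT clb gn tp dd dl RR CC_ext dd_gn dl_gn)
open Helper14.Loc (HC HT ZC BC BT hc ht)
open _root_.QGC (lq lq_mul vq_ext aq_eq bq_eq sq_zero' sq_inf')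
open _root_.NFF (VV lg Alt dA Pr VS SU Low qn IsLv exists_lev vs_low_findim eventually_su low_finite
  isLv_low bs_all lg_mem_VS span_lg)

variable {K : Type} [Field K] [NumberField K]

theorem alt_zero (K : Type) [Field K] [NumberField K] :
    ∃ U : Submodule ℚ (VV K), FiniteDimensional ℚ U ∧
      ∀ A : VV K →ₗ[ℚ] VV K →ₗ[ℚ] ℚ, Alt A → (∀ x : K, dA A x = 0) →
        (∀ u ∈ U, ∀ v ∈ U, A u v = 0) → A = 0 := by
  obtain ⟨C, q0, hL⟩ := exists_lev K
  refine ⟨VS (Low K q0), vs_low_findim q0, fun A hA h1 h0 => ?_⟩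
  have key : ∀ x y : K, x ≠ 0 → y ≠ 0 → A (lg x) (lg y) = 0 := by
    intro x y hx hy
    obtain ⟨q1, h2⟩ := eventually_su hx
    obtain ⟨q2, h3⟩ := eventually_su hy
    exact bs_all low_finite hL A hA h0 (isLv_low q0 (q0 + q1 + q2) (by omega))
      (fun S P _ _ _ u _ => h1 u) _ (lg_mem_VS (h2 _ (by omega))) _ (lg_mem_VS (h3 _ (by omega)))
  have hsp : Submodule.span ℚ (Set.range (lg : K → VV K)) = ⊤ := by
    rw [eq_top_iff, ← span_lg (K := K)]
    refine Submodule.span_mono ?_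
    rintro _ ⟨x, _, rfl⟩
    exact ⟨x, rfl⟩
  have key2 : ∀ x y : K, A (lg x) (lg y) = 0 := by
    intro x y
    by_cases hx : x = 0
    · have : (lg x : VV K) = 0 := by rw [lg, dif_pos hx]
      rw [this, map_zero, LinearMap.zero_apply]
    · by_cases hy : y = 0
      · have : (lg y : VV K) = 0 := by rw [lg, dif_pos hy]
        rw [this, map_zero]
      · exact key x y hx hy
  refine LinearMap.ext_on_range hsp fun x => ?_
  rw [LinearMap.zero_apply]
  refine LinearMap.ext_on_range hsp fun y => ?_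
  rw [key2, LinearMap.zero_apply]

theorem range_sup (K : Type) [Field K] [NumberField K] :
    ∃ U : Submodule ℚ (Glue.Vq K), FiniteDimensional ℚ U ∧
      LinearMap.range (Glue.d2q : Glue.Bq 0 K →ₗ[ℚ] _) ⊔ Submodule.map₂ (ww (Glue.Vq K)) U U = ⊤ := by
  obtain ⟨U, hU, h⟩ := alt_zero K
  refine ⟨U, hU, ?_⟩
  by_contra hne
  obtain ⟨η, hη⟩ : ∃ η, η ∉ LinearMap.range (Glue.d2q : Glue.Bq 0 K →ₗ[ℚ] _) ⊔
      Submodule.map₂ (ww (Glue.Vq K)) U U := by
    by_contra h2
    push Not at h2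
    exact hne (eq_top_iff.2 fun η _ => h2 η)
  obtain ⟨α, hα, hker⟩ := Submodule.exists_le_ker_of_notMem hη
  apply hα
  let A : VV K →ₗ[ℚ] VV K →ₗ[ℚ] ℚ := (ww (Glue.Vq K)).compr₂ α
  have hA : ∀ u v, A u v = α (ww (Glue.Vq K) u v) := fun u v => rfl
  have hA0 : A = 0 := by
    refine h A (fun v => ?_) (fun x => ?_) (fun u hu v hv => ?_)
    · rw [hA, ww_self, map_zero]
    · rw [dA, hA, ← aq_lg x, ← bq_lg x, ← Glue.d2q_sq]
      exact hker (Submodule.mem_sup_left ⟨_, rfl⟩)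
    · rw [hA]
      exact hker (Submodule.mem_sup_right (Submodule.apply_mem_map₂ _ hu hv))
  have h3 : α = 0 := by
    apply liftL_ext
    intro u v
    rw [LinearMap.zero_apply, ← hA, hA0]
    rfl
  rw [h3, LinearMap.zero_apply]

/-- unconditional vanishing for number fields -/
theorem van_numberField (K : Type) [Field K] [NumberField K] :
    ∃ N : ℕ, ∀ i : ℕ, N ≤ i → Subsingleton (HC K 0 i) ∧ Subsingleton (HT K i) := by
  obtain ⟨U, hU, h⟩ := range_sup K
  have hd := exists_surj hU h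
  refine ⟨2 * Module.finrank ℚ U + 3, fun i hi => ⟨vanish' hd hi, ?_⟩⟩
  obtain ⟨t, rfl⟩ : ∃ t, i = Module.finrank ℚ U + t + 2 := ⟨i - Module.finrank ℚ U - 2, by omega⟩
  have hd2 := surj_up Glue.d2q hd t
  have h1 : LinearMap.range (dl (Module.finrank ℚ U + t) K) = ⊤ := by
    rw [eq_top_iff]
    intro z _
    obtain ⟨y, hy⟩ := hd2 (Glue.Psi _ K z)
    refine ⟨(Glue.Phi 0 _ K).symm y, ?_⟩
    apply (Glue.Psi (Module.finrank ℚ U + t + 2) K).injective
    refine (Glue.Psi_dl _ _).trans ?_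
    rw [LinearEquiv.apply_symm_apply]
    exact hy
  refine ⟨fun a b => ?_⟩
  have h4 : ∀ a : HT K (Module.finrank ℚ U + t + 2), a = 0 := by
    intro a
    obtain ⟨z, rfl⟩ : ∃ z : TT (Module.finrank ℚ U + t + 2) K, ht z = a :=
      Submodule.Quotient.mk_surjective _ a
    refine (Submodule.Quotient.mk_eq_zero _).2 ?_
    change z ∈ LinearMap.range (dl (Module.finrank ℚ U + t) K)
    rw [h1]
    exact Submodule.mem_top
  rw [h4 a, h4 b]

end Pool.Agent.NFF
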