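import Pool.Agent.NFF.GUp

set_option autoImplicit false

/-!
# The action of the Milnor ring on `H^{n-1}(Γ(F, n) ⊗ ℚ)`

`{x}_2 ⊗ (1-y) ∧ y - {y}_2 ⊗ (1-x) ∧ x` lies in the image of `B_3 ⊗ F^* → B_2 ⊗ Λ² F^*`, for all
`x, y` of an arbitrary field.
-/

namespace Pool.Agent.NFF

open scoped TensorProduct
open TensorProduct Pool.Agent.Helper91.Gon
open Helper14.Gon (P1 ZP br MU LM lgm elx ely BB CC TT clb gn tp dd dl RR CC_ext dd_gn dl_gn)
open Helper14.Loc (HC HT ZC BC BT hc ht)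
open _root_.QGC (lq lq_mul vq_ext aq_eq bq_eq sq_zero' sq_inf')

universe u

variable {F : Type u} [Field F]

variable (F) in
/-- the image of `B_3 ⊗ Λ^j` in `B_2 ⊗ Λ^{j+1}` -/
noncomputable def PRu (j : ℕ) : Submodule ℚ (Glue.Bq 0 F ⊗[ℚ] Lam (Glue.Vq F) (j + 1)) :=
  LinearMap.range (Abs.diffS (V := Glue.Vq F) (B := fun n => Glue.Bq n F) Glue.dSq 0 j)

theorem gen_PR (j : ℕ) (x : P1 F) (ω : Lam (Glue.Vq F) j) :
    (Glue.sq 0 x : Glue.Bq 0 F) ⊗ₜ[ℚ] wdg (Glue.Vq F) j (Glue.aq x) ω ∈ PRu F j :=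
  ⟨(Glue.sq 1 x : Glue.Bq 1 F) ⊗ₜ[ℚ] ω, Abs.diffS_s (V := Glue.Vq F) (B := fun n => Glue.Bq n F)
    (s := fun n => Glue.sq n) (a := Glue.aq) (dS := Glue.dSq) Glue.dSq_sq 0 j x ω⟩

theorem yw_PRu (j : ℕ) (y : Glue.Vq F) (z : Glue.Bq 0 F ⊗[ℚ] Lam (Glue.Vq F) (j + 1))
    (hz : z ∈ PRu F j) : yw (Glue.Bq 0 F) (j + 1) y z ∈ PRu F (j + 1) := by
  obtain ⟨t, rfl⟩ := hz
  refine ⟨- (wdg (Glue.Vq F) j y).lTensor (Glue.Bq 1 F) t, ?_⟩
  rw [map_neg, neg_eq_iff_eq_neg]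
  have h := Abs.BL_ext (s := fun n => (Glue.sq n : P1 F → Glue.Bq n F)) (fun n => Glue.sq_span n) 1
    (L := Lam (Glue.Vq F) j)
    (f := Abs.diffS (V := Glue.Vq F) (B := fun n => Glue.Bq n F) Glue.dSq 0 (j + 1) ∘ₗ
      (wdg (Glue.Vq F) j y).lTensor (Glue.Bq 1 F))
    (g := - (yw (Glue.Bq 0 F) (j + 1) y ∘ₗ
      Abs.diffS (V := Glue.Vq F) (B := fun n => Glue.Bq n F) Glue.dSq 0 j)) (fun x ω => by
      rw [LinearMap.comp_apply, LinearMap.lTensor_tmul, LinearMap.neg_apply,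
        LinearMap.comp_apply]
      rw [Abs.diffS_s (V := Glue.Vq F) (B := fun n => Glue.Bq n F) (s := fun n => Glue.sq n)
        (a := Glue.aq) (dS := Glue.dSq) Glue.dSq_sq 0 (j + 1) x,
        Abs.diffS_s (V := Glue.Vq F) (B := fun n => Glue.Bq n F) (s := fun n => Glue.sq n)
        (a := Glue.aq) (dS := Glue.dSq) Glue.dSq_sq 0 j x]
      rw [yw_tmul, wdg_anti, TensorProduct.tmul_neg]) t
  exact h

/-- the logarithm -/
noncomputable def la (t : F) : Glue.Vq F := Glue.aq (some t)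

theorem la_mul {x y : F} (hx : x ≠ 0) (hy : y ≠ 0) : la (x * y) = la x + la y := by
  have h1 : la x = lq (Units.mk0 x hx) := aq_eq (Units.mk0 x hx)
  have h2 : la y = lq (Units.mk0 y hy) := aq_eq (Units.mk0 y hy)
  have h3 : la (x * y) = lq (Units.mk0 x hx * Units.mk0 y hy) :=
    aq_eq (Units.mk0 x hx * Units.mk0 y hy)
  rw [h1, h2, h3, lq_mul]

theorem la_one : la (1 : F) = 0 := by
  have h := la_mul (one_ne_zero (α := F)) (one_ne_zero (α := F))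
  rw [mul_one] at h
  exact left_eq_add.1 h

theorem la_neg_one : la (-1 : F) = 0 := by
  have h := la_mul (neg_ne_zero.2 (one_ne_zero (α := F))) (neg_ne_zero.2 (one_ne_zero (α := F)))
  rw [neg_mul_neg, mul_one, la_one] at h
  have h2 : (2 : ℚ) • la (-1 : F) = 0 := by rw [two_smul]; exact h.symm
  exact (smul_eq_zero.1 h2).resolve_left two_ne_zero

theorem la_inv {x : F} (hx : x ≠ 0) : la x⁻¹ = - la x := by
  have h := la_mul hx (inv_ne_zero hx)
  rw [mul_inv_cancel₀ hx, la_one] at h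
  exact eq_neg_of_add_eq_zero_right h.symm

theorem la_div {x y : F} (hx : x ≠ 0) (hy : y ≠ 0) : la (x / y) = la x - la y := by
  rw [div_eq_mul_inv, la_mul hx (inv_ne_zero hy), la_inv hy, sub_eq_add_neg]

theorem la_neg {x : F} (hx : x ≠ 0) : la (-x) = la x := by
  rw [← neg_one_mul, la_mul (neg_ne_zero.2 one_ne_zero) hx, la_neg_one, zero_add]

theorem la_four {x y : F} (hx : x ≠ 0) (hx1 : x ≠ 1) (hy : y ≠ 0) (hy1 : y ≠ 1) :
    la ((1 - x⁻¹) / (1 - y⁻¹)) = (la y - la x) + (la (1 - x) - la (1 - y)) := by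
  have hx' : 1 - x ≠ 0 := sub_ne_zero.2 (Ne.symm hx1)
  have hy' : 1 - y ≠ 0 := sub_ne_zero.2 (Ne.symm hy1)
  have e1 : 1 - x⁻¹ = - ((1 - x) / x) := by
    field_simp
    ring
  have e2 : 1 - y⁻¹ = - ((1 - y) / y) := by
    field_simp
    ring
  have n1 : (1 - x) / x ≠ 0 := div_ne_zero hx' hx
  have n2 : (1 - y) / y ≠ 0 := div_ne_zero hy' hy
  rw [e1, e2, neg_div_neg_eq, la_div n1 n2, la_div hx' hx, la_div hy' hy]
  abel

section kap

variable (φ : Glue.Bq 0 F ⊗[ℚ] Lam (Glue.Vq F) 2 →ₗ[ℚ] ℚ)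

/-- the value at `{x} ⊗ a ∧ b` -/
noncomputable def pv (x : P1 F) (a b : Glue.Vq F) : ℚ :=
  φ ((Glue.sq 0 x : Glue.Bq 0 F) ⊗ₜ[ℚ] ww (Glue.Vq F) a b)

/-- the functional `w ↦ φ (w ⊗ a ∧ b)` -/
noncomputable def pf (a b : Glue.Vq F) : Glue.Bq 0 F →ₗ[ℚ] ℚ :=
  φ ∘ₗ (TensorProduct.mk ℚ (Glue.Bq 0 F) (Lam (Glue.Vq F) 2)).flip (ww (Glue.Vq F) a b)

theorem pf_sq (a b : Glue.Vq F) (x : P1 F) : pf φ a b (Glue.sq 0 x) = pv φ x a b := rfl

theorem pv_add_left (x : P1 F) (a a' b : Glue.Vq F) :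
    pv φ x (a + a') b = pv φ x a b + pv φ x a' b := by
  rw [pv, map_add, LinearMap.add_apply, TensorProduct.tmul_add, map_add]
  rfl

theorem pv_add_right (x : P1 F) (a b b' : Glue.Vq F) :
    pv φ x a (b + b') = pv φ x a b + pv φ x a b' := by
  rw [pv, map_add, TensorProduct.tmul_add, map_add]
  rfl

theorem pv_self (x : P1 F) (a : Glue.Vq F) : pv φ x a a = 0 := by
  rw [pv, ww_self, TensorProduct.tmul_zero, map_zero]

theorem pv_swap (x : P1 F) (a b : Glue.Vq F) : pv φ x a b = - pv φ x b a := by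
  have h := pv_self φ x (a + b)
  rw [pv_add_left, pv_add_right, pv_add_right, pv_self, pv_self] at h
  linarith

theorem pv_neg_left (x : P1 F) (a b : Glue.Vq F) : pv φ x (-a) b = - pv φ x a b := by
  rw [pv, map_neg, LinearMap.neg_apply, TensorProduct.tmul_neg, map_neg]
  rfl

theorem pv_neg_right (x : P1 F) (a b : Glue.Vq F) : pv φ x a (-b) = - pv φ x a b := by
  rw [pv, map_neg, TensorProduct.tmul_neg, map_neg]
  rfl

variable {φ}

theorem pv_aq (hφ : PRu F 1 ≤ LinearMap.ker φ) (x : P1 F) (b : Glue.Vq F) :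
    pv φ x (Glue.aq x) b = 0 := by
  have h := hφ (gen_PR 1 x (Abs.iota 1 ![b]))
  rw [Abs.wdg_iota] at h
  have h2 : (Abs.iota 2 (Matrix.vecCons (Glue.aq x) ![b]) : Lam (Glue.Vq F) 2) =
      ww (Glue.Vq F) (Glue.aq x) b := Abs.iota_two _ _
  rw [h2] at h
  exact h

theorem pv_bq (hφ : PRu F 1 ≤ LinearMap.ker φ) {t : F} (ht : t ≠ 0) (b : Glue.Vq F) :
    pv φ (some t) (la (1 - t)) b = 0 := by
  obtain ⟨_, _, _, h2, _, _⟩ := Pool.Agent.QGC.flib_field (pf φ (la (1 - t)) b)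
  have h3 := h2 t ht
  rw [pf_sq, pf_sq] at h3
  have h4 : pv φ (some (1 - t)) (la (1 - t)) b = 0 := pv_aq hφ (some (1 - t)) b
  rw [h4] at h3
  linarith

/-- the main relation, for two elements different from `0`, `1`, `∞` -/
theorem kap_xy (hφ : PRu F 1 ≤ LinearMap.ker φ) {x y : F} (hx : x ≠ 0) (hx1 : x ≠ 1)
    (hy : y ≠ 0) (hy1 : y ≠ 1) :
    pv φ (some x) (la (1 - y)) (la y) = pv φ (some y) (la (1 - x)) (la x) := by
  have hx' : 1 - x ≠ 0 := sub_ne_zero.2 (Ne.symm hx1)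
  have hy' : 1 - y ≠ 0 := sub_ne_zero.2 (Ne.symm hy1)
  obtain ⟨_, _, _, _, _, h5⟩ := Pool.Agent.QGC.flib_field
    (pf φ (la y - la x) (la (1 - x) - la (1 - y)))
  have h6 := h5 x y hx hx1 hy hy1
  simp only [pf_sq] at h6
  -- the last three terms vanish
  have t3 : pv φ (some (y / x)) (la y - la x) (la (1 - x) - la (1 - y)) = 0 := by
    have h := pv_aq hφ (some (y / x)) (la (1 - x) - la (1 - y))
    have e : Glue.aq (some (y / x)) = la y - la x := la_div hy hx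
    rw [e] at h
    exact h
  have t4 : pv φ (some ((1 - x⁻¹) / (1 - y⁻¹))) (la y - la x) (la (1 - x) - la (1 - y)) = 0 := by
    have h := pv_aq hφ (some ((1 - x⁻¹) / (1 - y⁻¹))) (la (1 - x) - la (1 - y))
    have e : Glue.aq (some ((1 - x⁻¹) / (1 - y⁻¹))) =
      (la y - la x) + (la (1 - x) - la (1 - y)) := la_four hx hx1 hy hy1
    rw [e, pv_add_left, pv_self, add_zero] at h
    exact h
  have t5 : pv φ (some ((1 - x) / (1 - y))) (la y - la x) (la (1 - x) - la (1 - y)) = 0 := by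
    have h := pv_aq hφ (some ((1 - x) / (1 - y))) (la y - la x)
    have e : Glue.aq (some ((1 - x) / (1 - y))) = la (1 - x) - la (1 - y) := la_div hx' hy'
    rw [e, pv_swap, neg_eq_zero] at h
    exact h
  -- the first two terms
  have a1 : pv φ (some x) (la y - la x) (la (1 - x) - la (1 - y)) =
      pv φ (some x) (la (1 - y)) (la y) := by
    have h1 : ∀ b, pv φ (some x) (la x) b = 0 := fun b => pv_aq hφ (some x) b
    have h2 : ∀ b, pv φ (some x) (la (1 - x)) b = 0 := fun b => pv_bq hφ hx b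
    rw [sub_eq_add_neg, sub_eq_add_neg, pv_add_left, pv_neg_left, h1, neg_zero, add_zero,
      pv_add_right, pv_neg_right, pv_swap φ _ (la y) (la (1 - x)), h2, neg_zero, zero_add,
      pv_swap φ _ (la y), neg_neg]
  have a2 : pv φ (some y) (la y - la x) (la (1 - x) - la (1 - y)) =
      pv φ (some y) (la (1 - x)) (la x) := by
    have h1 : ∀ b, pv φ (some y) (la y) b = 0 := fun b => pv_aq hφ (some y) b
    have h2 : ∀ b, pv φ (some y) (la (1 - y)) b = 0 := fun b => pv_bq hφ hy b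
    rw [sub_eq_add_neg, sub_eq_add_neg, pv_add_left, pv_neg_left, h1, zero_add,
      pv_add_right, pv_neg_right, pv_swap φ _ (la x) (la (1 - y)), h2, neg_zero, neg_zero,
      add_zero, pv_swap φ _ (la x), neg_neg]
  rw [t3, t4, t5, a1, a2] at h6
  linarith

/-- the values of a functional which kills the image of `B_3 ⊗ F^*` -/
theorem kap_fun (hφ : PRu F 1 ≤ LinearMap.ker φ)
    (x y : P1 F) : φ ((Glue.sq 0 x : Glue.Bq 0 F) ⊗ₜ[ℚ] (Glue.d2q (Glue.sq 0 y))) =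
      φ ((Glue.sq 0 y : Glue.Bq 0 F) ⊗ₜ[ℚ] (Glue.d2q (Glue.sq 0 x))) := by
  have h0 : ∀ x : P1 F, (Glue.sq 0 x : Glue.Bq 0 F) = 0 ∨ ∃ t : F, x = some t ∧ t ≠ 0 ∧ t ≠ 1 := by
    intro x
    rcases x with _ | t
    · exact Or.inl sq_inf'
    · by_cases ht : t = 0
      · subst ht
        exact Or.inl sq_zero'
      · by_cases ht1 : t = 1
        · subst ht1
          exact Or.inl sq_one
        · exact Or.inr ⟨t, rfl, ht, ht1⟩
  rcases h0 x with hx | ⟨x, rfl, hx, hx1⟩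
  · rw [hx, TensorProduct.zero_tmul, map_zero (Glue.d2q : Glue.Bq 0 F →ₗ[ℚ] _),
      TensorProduct.tmul_zero]
  · rcases h0 y with hy | ⟨y, rfl, hy, hy1⟩
    · rw [hy, TensorProduct.zero_tmul, map_zero (Glue.d2q : Glue.Bq 0 F →ₗ[ℚ] _),
        TensorProduct.tmul_zero]
    · rw [Glue.d2q_sq, Glue.d2q_sq]
      exact kap_xy hφ hx hx1 hy hy1

end kap

/-- `w ⊗ δ w' - w' ⊗ δ w` is a coboundary -/
theorem kap (w w' : Glue.Bq 0 F) :
    w ⊗ₜ[ℚ] (Glue.d2q w') - w' ⊗ₜ[ℚ] (Glue.d2q w) ∈ PRu F 1 := by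
  by_contra hne
  obtain ⟨φ, hφ, hker⟩ := Submodule.exists_le_ker_of_notMem hne
  apply hφ
  rw [map_sub, sub_eq_zero]
  let L1 : Glue.Bq 0 F →ₗ[ℚ] Glue.Bq 0 F →ₗ[ℚ] ℚ :=
    ((TensorProduct.mk ℚ (Glue.Bq 0 F) (Lam (Glue.Vq F) 2)).compl₂ Glue.d2q).compr₂ φ
  have h1 : ∀ w w', L1 w w' = φ (w ⊗ₜ[ℚ] (Glue.d2q w')) := fun _ _ => rfl
  have h2 : L1 w w' = L1.flip w w' := by
    have h3 : ∀ w', L1 w w' = L1.flip w w' := by
      intro w'
      refine Abs.B_ext (s := fun n => (Glue.sq n : P1 F → Glue.Bq n F)) (fun n => Glue.sq_span n) 0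
        (f := L1 w) (g := L1.flip w) (fun y => ?_) w'
      refine Abs.B_ext (s := fun n => (Glue.sq n : P1 F → Glue.Bq n F)) (fun n => Glue.sq_span n) 0
        (f := L1.flip (Glue.sq 0 y)) (g := L1 (Glue.sq 0 y)) (fun x => ?_) w
      exact kap_fun hker x y
    exact h3 w'
  exact h2

end Pool.Agent.NFF
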