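import Pool.Agent.NFF.GKap

set_option autoImplicit false

/-!
# Products in the exterior algebra
-/

namespace Pool.Agent.NFF

open scoped TensorProduct
open TensorProduct Pool.Agent.Helper91.Gon

universe u v

section mul

variable {V : Type u} [AddCommGroup V] [Module ℚ V]

variable (V) in
/-- the underlying element of the exterior algebra -/
noncomputable def cE (n : ℕ) : Lam V n →ₗ[ℚ] ExteriorAlgebra ℚ V := (⋀[ℚ]^n V).subtype

theorem cE_inj (n : ℕ) {a b : Lam V n} (h : cE V n a = cE V n b) : a = b := Subtype.ext h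

theorem cE_wdg (n : ℕ) (y : V) (a : Lam V n) :
    cE V (n + 1) (wdg V n y a) = ExteriorAlgebra.ι ℚ y * cE V n a := by
  let N : Submodule ℚ (Lam V n) := LinearMap.eqLocus (cE V (n + 1) ∘ₗ wdg V n y)
    (LinearMap.mulLeft ℚ (ExteriorAlgebra.ι ℚ y) ∘ₗ cE V n)
  refine Abs.Lam_span n N (fun w => ?_) a
  change cE V (n + 1) (wdg V n y (Abs.iota n w)) =
    ExteriorAlgebra.ι ℚ y * cE V n (Abs.iota n w)
  rw [Abs.wdg_iota]
  change ExteriorAlgebra.ιMulti ℚ (n + 1) (Matrix.vecCons y w) =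
    ExteriorAlgebra.ι ℚ y * ExteriorAlgebra.ιMulti ℚ n w
  rw [ExteriorAlgebra.ιMulti_succ_apply]
  rfl

theorem cE_mul_mem (k i : ℕ) (a : Lam V k) (b : Lam V i) :
    cE V k a * cE V i b ∈ ⋀[ℚ]^(i + k) V := by
  have h : (⋀[ℚ]^(i + k) V : Submodule ℚ (ExteriorAlgebra ℚ V)) = ⋀[ℚ]^k V * ⋀[ℚ]^i V := by
    rw [add_comm i k]
    exact pow_add _ _ _
  rw [h]
  exact Submodule.mul_mem_mul a.2 b.2

variable (V) in
/-- the product `Λ^k ⊗ Λ^i → Λ^{i+k}` -/
noncomputable def wm (k i : ℕ) : Lam V k →ₗ[ℚ] Lam V i →ₗ[ℚ] Lam V (i + k) :=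
  LinearMap.mk₂ ℚ (fun a b => (⟨cE V k a * cE V i b, cE_mul_mem k i a b⟩ : ⋀[ℚ]^(i + k) V))
    (fun a a' b => Subtype.ext (by
      change cE V k (a + a') * cE V i b = cE V k a * cE V i b + cE V k a' * cE V i b
      rw [map_add, add_mul]))
    (fun c a b => Subtype.ext (by
      change cE V k (c • a) * cE V i b = c • (cE V k a * cE V i b)
      rw [map_smul, smul_mul_assoc]))
    (fun a b b' => Subtype.ext (by
      change cE V k a * cE V i (b + b') = cE V k a * cE V i b + cE V k a * cE V i b'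
      rw [map_add, mul_add]))
    (fun c a b => Subtype.ext (by
      change cE V k a * cE V i (c • b) = c • (cE V k a * cE V i b)
      rw [map_smul, mul_smul_comm]))

theorem cE_wm (k i : ℕ) (a : Lam V k) (b : Lam V i) :
    cE V (i + k) (wm V k i a b) = cE V k a * cE V i b := rfl

theorem wm_wdg (k i : ℕ) (y : V) (a : Lam V k) (b : Lam V i) :
    wm V (k + 1) i (wdg V k y a) b = wdg V (i + k) y (wm V k i a b) := by
  apply cE_inj
  have h := cE_wm (k + 1) i (wdg V k y a) b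
  have h2 := cE_wdg (i + k) y (wm V k i a b)
  rw [cE_wdg, mul_assoc] at h
  rw [cE_wm] at h2
  exact h.trans h2.symm

theorem wm_zero (i : ℕ) (w : Fin 0 → V) (b : Lam V i) : wm V 0 i (Abs.iota 0 w) b = b := by
  apply cE_inj
  have h := cE_wm 0 i (Abs.iota 0 w) b
  have h2 : cE V 0 (Abs.iota 0 w) = 1 := ExteriorAlgebra.ιMulti_zero_apply (R := ℚ) w
  rw [h2, one_mul] at h
  exact h

theorem wm_wdg2 (k i : ℕ) (η : Lam V 2) (a : Lam V k) (b : Lam V i) :
    wm V (k + 2) i (wdg2 V k η a) b = wdg2 V (i + k) η (wm V k i a b) := by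
  have h : ((wm V (k + 2) i).flip b) ∘ₗ (wdg2 V k).flip a =
      (wdg2 V (i + k)).flip (wm V k i a b) := by
    apply liftL_ext
    intro u w
    change wm V (k + 2) i (wdg2 V k (ww V u w) a) b = wdg2 V (i + k) (ww V u w) (wm V k i a b)
    rw [wdg2_ww, wdg2_ww, wm_wdg, wm_wdg]
    rfl
  exact LinearMap.congr_fun h η

variable {W : Type v} [AddCommGroup W] [Module ℚ W]

variable (V W) in
/-- the product `Λ^k ⊗ (W ⊗ Λ^i) → W ⊗ Λ^{i+k}` -/
noncomputable def am (k i : ℕ) : Lam V k →ₗ[ℚ] W ⊗[ℚ] Lam V i →ₗ[ℚ] W ⊗[ℚ] Lam V (i + k) :=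
  (LinearMap.lTensorHom W) ∘ₗ wm V k i

theorem am_apply (k i : ℕ) (a : Lam V k) (z : W ⊗[ℚ] Lam V i) :
    am V W k i a z = (wm V k i a).lTensor W z := rfl

theorem am_tmul (k i : ℕ) (a : Lam V k) (w : W) (b : Lam V i) :
    am V W k i a (w ⊗ₜ b) = w ⊗ₜ wm V k i a b := by
  rw [am_apply, LinearMap.lTensor_tmul]

theorem am_wdg (k i : ℕ) (y : V) (a : Lam V k) (z : W ⊗[ℚ] Lam V i) :
    am V W (k + 1) i (wdg V k y a) z = yw W (i + k) y (am V W k i a z) := by
  induction z using TensorProduct.induction_on with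
  | zero => rw [map_zero, map_zero, map_zero]
  | tmul w b => rw [am_tmul, am_tmul, yw_tmul, wm_wdg]
  | add z z' hz hz' => rw [map_add, hz, hz', map_add, map_add]

theorem am_zero (i : ℕ) (v : Fin 0 → V) (z : W ⊗[ℚ] Lam V i) :
    am V W 0 i (Abs.iota 0 v) z = z := by
  induction z using TensorProduct.induction_on with
  | zero => rw [map_zero]
  | tmul w b => rw [am_tmul, wm_zero]
  | add z z' hz hz' => rw [map_add, hz, hz']

theorem am_wdg2 (k i : ℕ) (η : Lam V 2) (a : Lam V k) (z : W ⊗[ℚ] Lam V i) :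
    am V W (k + 2) i (wdg2 V k η a) z =
      (wdg2 V (i + k) η).lTensor W (am V W k i a z) := by
  induction z using TensorProduct.induction_on with
  | zero => rw [map_zero, map_zero, map_zero]
  | tmul w b => rw [am_tmul, am_tmul, LinearMap.lTensor_tmul, wm_wdg2]
  | add z z' hz hz' => rw [map_add, hz, hz', map_add, map_add]

variable (d2 : W →ₗ[ℚ] Lam V 2)

theorem am_ker (k i : ℕ) (a : Lam V k) (z : W ⊗[ℚ] Lam V i) (hz : del d2 i z = 0) :
    del d2 (i + k) (am V W k i a z) = 0 := by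
  let N : Submodule ℚ (Lam V k) :=
    LinearMap.ker ((del d2 (i + k)) ∘ₗ (am V W k i).flip z)
  refine Abs.Lam_span k N (fun w => ?_) a
  change del d2 (i + k) (am V W k i (Abs.iota k w) z) = 0
  clear N
  induction k with
  | zero =>
    have h := am_zero i w z
    have h2 : del d2 i (am V W 0 i (Abs.iota 0 w) z) = 0 := by rw [h]; exact hz
    exact h2
  | succ k ih =>
    have h1 : Abs.iota (k + 1) w = wdg V k (w 0) (Abs.iota k (fun i => w i.succ)) := by
      rw [Abs.wdg_iota]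
      congr 1
      funext i
      refine Fin.cases ?_ (fun i => ?_) i <;> rfl
    rw [h1, am_wdg]
    have h3 := del_yw d2 (i + k) (w 0) (am V W k i (Abs.iota k (fun i => w i.succ)) z)
    have h4 : del d2 (i + k) (am V W k i (Abs.iota k (fun i => w i.succ)) z) = 0 :=
      ih (Abs.iota k fun i => w i.succ) _
    rw [h4, map_zero] at h3
    exact h3

theorem iota_succ (k : ℕ) (w : Fin (k + 1) → V) :
    Abs.iota (k + 1) w = wdg V k (w 0) (Abs.iota k (fun i => w i.succ)) := by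
  rw [Abs.wdg_iota]
  congr 1
  funext i
  refine Fin.cases ?_ (fun i => ?_) i <;> rfl

/-- surjectivity is inherited by higher degrees -/
theorem surj_up {j : ℕ} (hd : Function.Surjective (del d2 j)) (t : ℕ) :
    Function.Surjective (del d2 (j + t)) := by
  induction t with
  | zero => exact hd
  | succ t ih =>
    rw [← LinearMap.range_eq_top, eq_top_iff]
    intro ω _
    refine Abs.Lam_span (j + t + 1 + 2) (LinearMap.range (del d2 (j + t + 1))) (fun w => ?_) ω
    obtain ⟨θ, hθ⟩ := ih (Abs.iota (j + t + 2) (fun i => w i.succ))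
    refine ⟨yw W (j + t) (w 0) θ, ?_⟩
    rw [del_yw, hθ]
    exact (iota_succ (j + t + 2) w).symm

/-- the kernel in degree `j + 2` is generated by the kernel in degree `j + 1` -/
theorem gen {j : ℕ} (hd : Function.Surjective (del d2 j)) (z : W ⊗[ℚ] Lam V (j + 2))
    (hz : del d2 (j + 2) z = 0) : ∃ (k : ℕ) (y : Fin k → V) (ζ : Fin k → W ⊗[ℚ] Lam V (j + 1)),
      (∀ m, del d2 (j + 1) (ζ m) = 0) ∧ z = ∑ m, yw W (j + 1) (y m) (ζ m) := by
  obtain ⟨k, y, hy, hz2⟩ := decomp (j + 1) (Submodule.fg_span_singleton (R := ℚ) z)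
  obtain ⟨θ, hθ⟩ := hz2 z (Submodule.mem_span_singleton_self z)
  have h2 : ∑ m, wdg V (j + 3) (y m) (del d2 (j + 1) (θ m)) = 0 := by
    rw [hθ, map_sum] at hz
    simp only [del_yw] at hz
    exact hz
  obtain ⟨ζ, hζ, hζ2⟩ := claim d2 j hd k y hy θ h2
  exact ⟨k, y, ζ, hζ, hθ.trans hζ2⟩

/-- the same, with a free index -/
theorem gen' : ∀ (n j : ℕ), n = j + 1 → Function.Surjective (del d2 j) →
    ∀ z : W ⊗[ℚ] Lam V (n + 1), del d2 (n + 1) z = 0 →
    ∃ (k : ℕ) (y : Fin k → V) (ζ : Fin k → W ⊗[ℚ] Lam V n),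
      (∀ m, del d2 n (ζ m) = 0) ∧ z = ∑ m, yw W n (y m) (ζ m) := by
  rintro n j rfl hd z hz
  exact gen d2 hd z hz

/-- the kernel in degree `i + k` is `Λ^k` times the kernel in degree `i = j + 1` -/
theorem gen_iter {j : ℕ} (hd : Function.Surjective (del d2 j)) (k : ℕ) :
    ∀ z : W ⊗[ℚ] Lam V (j + 1 + k), del d2 (j + 1 + k) z = 0 →
      z ∈ Submodule.span ℚ {y | ∃ (a : Lam V k) (ζ : W ⊗[ℚ] Lam V (j + 1)),
        del d2 (j + 1) ζ = 0 ∧ y = am V W k (j + 1) a ζ} := by
  induction k with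
  | zero =>
    intro z hz
    refine Submodule.subset_span ⟨Abs.iota 0 ![], z, hz, ?_⟩
    exact (am_zero (j + 1) ![] z).symm
  | succ k ih =>
    intro z hz
    have hd2 : Function.Surjective (del d2 (j + k)) := surj_up d2 hd k
    obtain ⟨l, y, ζ, hζ, rfl⟩ := gen' d2 (j + 1 + k) (j + k) (by omega) hd2 z hz
    refine Submodule.sum_mem _ fun m _ => ?_
    have h1 := ih (ζ m) (hζ m)
    generalize ζ m = t at h1
    induction h1 using Submodule.span_induction with
    | mem t ht =>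
      obtain ⟨a, ζ', hζ', rfl⟩ := ht
      exact Submodule.subset_span ⟨wdg V k (y m) a, ζ', hζ', (am_wdg k (j + 1) (y m) a ζ').symm⟩
    | zero =>
      rw [map_zero]
      exact Submodule.zero_mem _
    | add a b _ _ ha hb =>
      rw [map_add]
      exact Submodule.add_mem _ ha hb
    | smul c a _ ha =>
      rw [map_smul]
      exact Submodule.smul_mem _ c ha

end mul

end Pool.Agent.NFF
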