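import Pool.Agent.NFF.GFam

set_option autoImplicit false

/-!
# From weight three to all weights

`W = B_2 ⊗ ℚ`, `δ_2 : W → Λ² V` surjective. The kernel `Z_j` of `W ⊗ Λ^j → Λ^{j+2}` is
finite-dimensional modulo an ideal `P` for all `j ≥ 1` if this holds for `j = 1`.
-/

namespace Pool.Agent.NFF

open scoped TensorProduct
open TensorProduct Pool.Agent.Helper91.Gon

universe u v

section up

variable {V : Type u} [AddCommGroup V] [Module ℚ V] {W : Type v} [AddCommGroup W] [Module ℚ W]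
  (d2 : W →ₗ[ℚ] Lam V 2)

variable (W) in
/-- `w ⊗ ω ↦ w ⊗ (y ∧ ω)` -/
noncomputable def yw (j : ℕ) (y : V) : W ⊗[ℚ] Lam V j →ₗ[ℚ] W ⊗[ℚ] Lam V (j + 1) :=
  (wdg V j y).lTensor W

/-- the differential `W ⊗ Λ^j → Λ^{j+2}` -/
noncomputable def del (j : ℕ) : W ⊗[ℚ] Lam V j →ₗ[ℚ] Lam V (j + 2) :=
  TensorProduct.lift (wdg2 V j) ∘ₗ d2.rTensor (Lam V j)

theorem wdg_anti (n : ℕ) (a b : V) (ω : Lam V n) :
    wdg V (n + 1) a (wdg V n b ω) = - wdg V (n + 1) b (wdg V n a ω) := by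
  have h := wdg_wdg_same n (a + b) ω
  simp only [map_add, LinearMap.add_apply, wdg_wdg_same, zero_add, add_zero] at h
  exact eq_neg_of_add_eq_zero_right h

theorem yw_tmul (j : ℕ) (y : V) (w : W) (ω : Lam V j) :
    yw W j y (w ⊗ₜ ω) = w ⊗ₜ wdg V j y ω := by
  rw [yw, LinearMap.lTensor_tmul]

theorem yw_anti (j : ℕ) (a b : V) (z : W ⊗[ℚ] Lam V j) :
    yw W (j + 1) a (yw W j b z) = - yw W (j + 1) b (yw W j a z) := by
  induction z using TensorProduct.induction_on with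
  | zero => simp only [map_zero, neg_zero]
  | tmul w ω =>
    rw [yw_tmul, yw_tmul, yw_tmul, yw_tmul, wdg_anti, TensorProduct.tmul_neg]
  | add x y hx hy => rw [map_add, map_add, hx, hy, map_add, map_add, neg_add]

theorem yw_self (j : ℕ) (a : V) (z : W ⊗[ℚ] Lam V j) :
    yw W (j + 1) a (yw W j a z) = 0 := by
  have h := yw_anti j a a z
  have h2 : (2 : ℚ) • yw W (j + 1) a (yw W j a z) = 0 := by
    rw [two_smul]
    nth_rewrite 1 [h]
    exact neg_add_cancel _
  exact (smul_eq_zero.1 h2).resolve_left two_ne_zero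

theorem yw_add (j : ℕ) (a b : V) (z : W ⊗[ℚ] Lam V j) :
    yw W j (a + b) z = yw W j a z + yw W j b z := by
  rw [yw, map_add, LinearMap.lTensor_add]
  rfl

theorem yw_smul (j : ℕ) (c : ℚ) (a : V) (z : W ⊗[ℚ] Lam V j) :
    yw W j (c • a) z = c • yw W j a z := by
  rw [yw, map_smul, LinearMap.lTensor_smul]
  rfl

/-- `yw` as a bilinear map -/
noncomputable def ywl (j : ℕ) (z : W ⊗[ℚ] Lam V j) : V →ₗ[ℚ] W ⊗[ℚ] Lam V (j + 1) where
  toFun a := yw W j a z
  map_add' a b := yw_add j a b z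
  map_smul' c a := yw_smul j c a z

theorem wdg2_wdg (j : ℕ) (y : V) (η : Lam V 2) (ω : Lam V j) :
    wdg2 V (j + 1) η (wdg V j y ω) = wdg V (j + 2) y (wdg2 V j η ω) := by
  have h : (wdg2 V (j + 1)).flip (wdg V j y ω) =
      wdg V (j + 2) y ∘ₗ (wdg2 V j).flip ω := by
    apply liftL_ext
    intro a b
    change wdg2 V (j + 1) (ww V a b) (wdg V j y ω) = wdg V (j + 2) y (wdg2 V j (ww V a b) ω)
    rw [wdg2_ww, wdg2_ww, wdg_anti j b y, map_neg, wdg_anti (j + 1) a y, neg_neg]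
  exact LinearMap.congr_fun h η

theorem del_tmul (j : ℕ) (w : W) (ω : Lam V j) : del d2 j (w ⊗ₜ ω) = wdg2 V j (d2 w) ω := by
  rw [del, LinearMap.comp_apply, LinearMap.rTensor_tmul, TensorProduct.lift.tmul]

theorem del_yw (j : ℕ) (y : V) (z : W ⊗[ℚ] Lam V j) :
    del d2 (j + 1) (yw W j y z) = wdg V (j + 2) y (del d2 j z) := by
  induction z using TensorProduct.induction_on with
  | zero => simp only [map_zero]
  | tmul w ω => rw [yw_tmul, del_tmul, del_tmul, wdg2_wdg]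
  | add a b ha hb => rw [map_add, map_add, ha, hb, map_add, map_add]

/-- contraction with a functional -/
noncomputable def ctr (l : V →ₗ[ℚ] ℚ) (n : ℕ) : Lam V (n + 1) →ₗ[ℚ] Lam V n :=
  (TensorProduct.lid ℚ (Lam V n)).toLinearMap ∘ₗ l.rTensor (Lam V n) ∘ₗ cml V n

theorem ctr_wdg (l : V →ₗ[ℚ] ℚ) (n : ℕ) (v : V) (ω : Lam V (n + 1)) :
    ctr l (n + 1) (wdg V (n + 1) v ω) = l v • ω - wdg V n v (ctr l n ω) := by
  have h : ∀ t : V ⊗[ℚ] Lam V n,
      (TensorProduct.lid ℚ (Lam V (n + 1))) (l.rTensor (Lam V (n + 1))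
        ((wdg V n v).lTensor V t)) =
      wdg V n v ((TensorProduct.lid ℚ (Lam V n)) (l.rTensor (Lam V n) t)) := by
    intro t
    induction t using TensorProduct.induction_on with
    | zero => simp only [map_zero]
    | tmul a ω =>
      rw [LinearMap.lTensor_tmul, LinearMap.rTensor_tmul, LinearMap.rTensor_tmul,
        TensorProduct.lid_tmul, TensorProduct.lid_tmul, map_smul]
    | add a b ha hb => simp only [map_add, ha, hb]
  change (TensorProduct.lid ℚ (Lam V (n + 1))) (l.rTensor (Lam V (n + 1))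
    (cml V (n + 1) (wdg V (n + 1) v ω))) = _
  rw [cml_wdg_succ, map_sub, map_sub, h, LinearMap.rTensor_tmul, TensorProduct.lid_tmul]
  rfl

theorem del_surj (hd : Function.Surjective d2) (j : ℕ) : Function.Surjective (del d2 j) := by
  rw [← LinearMap.range_eq_top, eq_top_iff]
  intro ω _
  refine Abs.Lam_span (j + 2) (LinearMap.range (del d2 j)) (fun w => ?_) ω
  obtain ⟨y, hy⟩ := hd (ww V (w 0) (w 1))
  refine ⟨y ⊗ₜ Abs.iota j (fun i => w i.succ.succ), ?_⟩
  rw [del_tmul, hy, wdg2_ww, Abs.wdg_iota, Abs.wdg_iota]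
  congr 1
  funext i
  refine Fin.cases ?_ (fun i => ?_) i
  · rfl
  · refine Fin.cases ?_ (fun i => ?_) i
    · rfl
    · rfl

/-- the dual functional of the last vector of an independent family -/
theorem exists_dual {k : ℕ} {y : Fin (k + 1) → V} (hy : LinearIndependent ℚ y) :
    ∃ l : V →ₗ[ℚ] ℚ, l (y (Fin.last k)) = 1 ∧ ∀ m : Fin k, l (y m.castSucc) = 0 := by
  let b := Module.Basis.span hy
  obtain ⟨l, hl⟩ := LinearMap.exists_extend (b.coord (Fin.last k))
  have h : ∀ m, l (y m) = b.coord (Fin.last k) (b m) := by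
    intro m
    have h1 : ((b m : Submodule.span ℚ (Set.range y)) : V) = y m :=
      congrArg Subtype.val (Module.Basis.span_apply hy m)
    rw [← h1]
    exact LinearMap.congr_fun hl (b m)
  refine ⟨l, ?_, fun m => ?_⟩
  · rw [h, Module.Basis.coord_apply, Module.Basis.repr_self, Finsupp.single_eq_same]
  · rw [h, Module.Basis.coord_apply, Module.Basis.repr_self, Finsupp.single_apply, if_neg]
    exact (Fin.castSucc_lt_last m).ne

/-- the relations between `y_1 ∧, ..., y_k ∧` -/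
theorem claim (j : ℕ) (hd : Function.Surjective (del d2 j)) : ∀ (k : ℕ) (y : Fin k → V),
    LinearIndependent ℚ y → ∀ θ : Fin k → W ⊗[ℚ] Lam V (j + 1),
    ∑ m, wdg V (j + 3) (y m) (del d2 (j + 1) (θ m)) = 0 →
    ∃ ζ : Fin k → W ⊗[ℚ] Lam V (j + 1), (∀ m, del d2 (j + 1) (ζ m) = 0) ∧
      ∑ m, yw W (j + 1) (y m) (θ m) = ∑ m, yw W (j + 1) (y m) (ζ m) := by
  intro k
  induction k with
  | zero =>
    intro y _ θ _
    exact ⟨θ, fun m => m.elim0, rfl⟩
  | succ k ih =>
    intro y hy θ hθ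
    obtain ⟨l, hl1, hl0⟩ := exists_dual hy
    choose γ hγ using fun m : Fin (k + 1) =>
      hd (ctr l (j + 2) (del d2 (j + 1) (θ m)))
    -- the last coefficient
    have hlast : del d2 (j + 1) (θ (Fin.last k)) =
        ∑ m, wdg V (j + 2) (y m) (ctr l (j + 2) (del d2 (j + 1) (θ m))) := by
      have h1 := congrArg (ctr l (j + 3)) hθ
      rw [map_zero, map_sum] at h1
      simp only [ctr_wdg] at h1
      rw [Finset.sum_sub_distrib, sub_eq_zero] at h1
      rw [← h1, Fin.sum_univ_castSucc, hl1, one_smul]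
      simp only [hl0, zero_smul, Finset.sum_const_zero, zero_add]
    let θl : W ⊗[ℚ] Lam V (j + 1) := θ (Fin.last k) - ∑ m, yw W j (y m) (γ m)
    have hθl : del d2 (j + 1) θl = 0 := by
      change del d2 (j + 1) (θ (Fin.last k) - ∑ m, yw W j (y m) (γ m)) = 0
      rw [map_sub, map_sum, hlast, sub_eq_zero]
      refine Finset.sum_congr rfl fun m _ => ?_
      rw [del_yw, hγ]
    let θ' : Fin k → W ⊗[ℚ] Lam V (j + 1) := fun m =>
      θ m.castSucc - yw W j (y (Fin.last k)) (γ m.castSucc)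
    have htot : ∑ m, yw W (j + 1) (y m) (θ m) =
        yw W (j + 1) (y (Fin.last k)) θl +
          ∑ m, yw W (j + 1) (y m.castSucc) (θ' m) := by
      have h1 : yw W (j + 1) (y (Fin.last k)) θl = yw W (j + 1) (y (Fin.last k)) (θ (Fin.last k)) -
          ∑ m : Fin k, yw W (j + 1) (y (Fin.last k)) (yw W j (y m.castSucc) (γ m.castSucc)) := by
        change yw W (j + 1) (y (Fin.last k)) (θ (Fin.last k) - ∑ m, yw W j (y m) (γ m)) = _
        rw [map_sub, map_sum, Fin.sum_univ_castSucc, yw_self, add_zero]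
      have h2 : ∑ m, yw W (j + 1) (y m.castSucc) (θ' m) =
          (∑ m : Fin k, yw W (j + 1) (y m.castSucc) (θ m.castSucc)) +
          ∑ m : Fin k, yw W (j + 1) (y (Fin.last k)) (yw W j (y m.castSucc) (γ m.castSucc)) := by
        rw [← Finset.sum_add_distrib]
        refine Finset.sum_congr rfl fun m _ => ?_
        change yw W (j + 1) (y m.castSucc)
          (θ m.castSucc - yw W j (y (Fin.last k)) (γ m.castSucc)) = _
        rw [map_sub, yw_anti j (y m.castSucc) (y (Fin.last k)), sub_neg_eq_add]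
      rw [h1, h2, Fin.sum_univ_castSucc]
      abel
    have hθ' : ∑ m, wdg V (j + 3) (y m.castSucc) (del d2 (j + 1) (θ' m)) = 0 := by
      have h1 := congrArg (del d2 (j + 2)) htot
      rw [map_sum, map_add, map_sum] at h1
      simp only [del_yw] at h1
      rw [hθ, hθl, map_zero, zero_add] at h1
      exact h1.symm
    obtain ⟨ζ, hζ, hζ2⟩ := ih (fun m => y m.castSucc)
      (hy.comp _ (Fin.castSucc_injective k)) θ' hθ'
    refine ⟨Fin.snoc ζ θl, fun m => ?_, ?_⟩
    · refine Fin.lastCases ?_ (fun m => ?_) m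
      · rw [Fin.snoc_last]
        exact hθl
      · rw [Fin.snoc_castSucc]
        exact hζ m
    · rw [htot, hζ2, Fin.sum_univ_castSucc (f := fun m => yw W (j + 1) (y m)
        ((Fin.snoc ζ θl : Fin (k + 1) → W ⊗[ℚ] Lam V (j + 1)) m))]
      simp only [Fin.snoc_castSucc, Fin.snoc_last]
      exact add_comm _ _

/-- sums of the elements `u ∧ z`, `u ∈ U` -/
noncomputable def SU' (W : Type v) [AddCommGroup W] [Module ℚ W] (j : ℕ) (U : Submodule ℚ V) :
    Submodule ℚ (W ⊗[ℚ] Lam V (j + 1)) :=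
  Submodule.span ℚ {z | ∃ u ∈ U, ∃ w : W ⊗[ℚ] Lam V j, z = yw W j u w}

theorem SU'_mono (j : ℕ) {U U' : Submodule ℚ V} (h : U ≤ U') : SU' W j U ≤ SU' W j U' :=
  Submodule.span_mono fun _ ⟨u, hu, w, hw⟩ => ⟨u, h hu, w, hw⟩

theorem mem_SU' (j : ℕ) (z : W ⊗[ℚ] Lam V (j + 1)) :
    ∃ U : Submodule ℚ V, U.FG ∧ z ∈ SU' W j U := by
  induction z using TensorProduct.induction_on with
  | zero => exact ⟨⊥, Submodule.fg_bot, Submodule.zero_mem _⟩
  | tmul w ω =>
    have h : ∀ ω : Lam V (j + 1), ∃ U : Submodule ℚ V, U.FG ∧ w ⊗ₜ ω ∈ SU' W j U := by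
      intro ω
      let N : Submodule ℚ (Lam V (j + 1)) :=
        { carrier := {ω | ∃ U : Submodule ℚ V, U.FG ∧ w ⊗ₜ ω ∈ SU' W j U}
          add_mem' := by
            rintro a b ⟨U, hU, ha⟩ ⟨U', hU', hb⟩
            refine ⟨U ⊔ U', hU.sup hU', ?_⟩
            rw [TensorProduct.tmul_add]
            exact Submodule.add_mem _ (SU'_mono j le_sup_left ha) (SU'_mono j le_sup_right hb)
          zero_mem' := ⟨⊥, Submodule.fg_bot, by
            rw [TensorProduct.tmul_zero]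
            exact Submodule.zero_mem _⟩
          smul_mem' := by
            rintro c a ⟨U, hU, ha⟩
            refine ⟨U, hU, ?_⟩
            rw [TensorProduct.tmul_smul]
            exact Submodule.smul_mem _ _ ha }
      refine Abs.Lam_span (j + 1) N (fun v => ?_) ω
      refine ⟨Submodule.span ℚ {v 0}, Submodule.fg_span_singleton _, ?_⟩
      refine Submodule.subset_span ⟨v 0, Submodule.mem_span_singleton_self _,
        w ⊗ₜ Abs.iota j (fun i => v i.succ), ?_⟩
      rw [yw_tmul, Abs.wdg_iota]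
      congr 2
      funext i
      refine Fin.cases ?_ (fun i => ?_) i
      · rfl
      · rfl
    exact h ω
  | add a b ha hb =>
    obtain ⟨U, hU, ha⟩ := ha
    obtain ⟨U', hU', hb⟩ := hb
    exact ⟨U ⊔ U', hU.sup hU', Submodule.add_mem _ (SU'_mono j le_sup_left ha)
      (SU'_mono j le_sup_right hb)⟩

theorem le_SU' (j : ℕ) {E : Submodule ℚ (W ⊗[ℚ] Lam V (j + 1))} (hE : E.FG) :
    ∃ U : Submodule ℚ V, U.FG ∧ E ≤ SU' W j U := by
  classical
  obtain ⟨t, rfl⟩ := hE
  choose U hU hUz using fun z : W ⊗[ℚ] Lam V (j + 1) => mem_SU' j z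
  refine ⟨t.sup U, Submodule.fg_finset_sup t U fun z _ => hU z, Submodule.span_le.2 ?_⟩
  intro z hz
  exact SU'_mono j (Finset.le_sup (f := U) hz) (hUz z)

/-- uniform decomposition of the elements of a finitely generated space -/
theorem decomp (j : ℕ) {E : Submodule ℚ (W ⊗[ℚ] Lam V (j + 1))} (hE : E.FG) :
    ∃ (k : ℕ) (y : Fin k → V), LinearIndependent ℚ y ∧ ∀ e ∈ E,
      ∃ θ : Fin k → W ⊗[ℚ] Lam V j, e = ∑ m, yw W j (y m) (θ m) := by
  obtain ⟨U, hU, hEU⟩ := le_SU' j hE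
  have : Module.Finite ℚ U := Module.Finite.iff_fg.2 hU
  let b := Module.finBasis ℚ U
  refine ⟨_, fun m => (b m : V), b.linearIndependent.map' U.subtype
    (Submodule.ker_subtype U), fun e he => ?_⟩
  have h := hEU he
  clear he
  induction h using Submodule.span_induction with
  | mem z hz =>
    obtain ⟨u, hu, w, rfl⟩ := hz
    refine ⟨fun m => (b.repr ⟨u, hu⟩ m) • w, ?_⟩
    have h1 : u = ∑ m, (b.repr ⟨u, hu⟩ m) • (b m : V) := by
      have h2 : ((∑ m, (b.repr ⟨u, hu⟩ m) • b m : U) : V) = u :=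
        congrArg Subtype.val (b.sum_repr ⟨u, hu⟩)
      rw [Submodule.coe_sum] at h2
      exact h2.symm
    have h3 : yw W j u w = ywl j w u := rfl
    rw [h3]
    conv_lhs => rw [h1]
    rw [map_sum]
    refine Finset.sum_congr rfl fun m _ => ?_
    rw [map_smul, map_smul]
    rfl
  | zero => exact ⟨0, by simp⟩
  | add x y _ _ hx hy =>
    obtain ⟨θ, rfl⟩ := hx
    obtain ⟨θ', rfl⟩ := hy
    exact ⟨θ + θ', by simp [Finset.sum_add_distrib]⟩
  | smul c x _ hx =>
    obtain ⟨θ, rfl⟩ := hx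
    exact ⟨c • θ, by simp [Finset.smul_sum]⟩

/-- **the step** -/
theorem step (hd : Function.Surjective d2) (j : ℕ)
    {P : Submodule ℚ (W ⊗[ℚ] Lam V (j + 1))} {P' : Submodule ℚ (W ⊗[ℚ] Lam V (j + 2))}
    (hPP : ∀ (y : V), ∀ z ∈ P, yw W (j + 1) y z ∈ P') (hPZ : P ≤ LinearMap.ker (del d2 (j + 1)))
    {E : Submodule ℚ (W ⊗[ℚ] Lam V (j + 1))} (hE : E.FG)
    (h : LinearMap.ker (del d2 (j + 1)) ≤ P ⊔ E) :
    ∃ E' : Submodule ℚ (W ⊗[ℚ] Lam V (j + 2)), E'.FG ∧
      LinearMap.ker (del d2 (j + 2)) ≤ P' ⊔ E' := by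
  classical
  -- make `E` a subspace of the kernel
  obtain ⟨E1, hE1, hE1Z, h1⟩ : ∃ E1 : Submodule ℚ (W ⊗[ℚ] Lam V (j + 1)), E1.FG ∧
      E1 ≤ LinearMap.ker (del d2 (j + 1)) ∧ LinearMap.ker (del d2 (j + 1)) ≤ P ⊔ E1 := by
    refine ⟨E ⊓ LinearMap.ker (del d2 (j + 1)), hE.of_le inf_le_left, inf_le_right, ?_⟩
    intro z hz
    obtain ⟨p, hp, e, he, rfl⟩ := Submodule.mem_sup.1 (h hz)
    refine Submodule.add_mem_sup hp ⟨he, ?_⟩
    have h2 : e = (p + e) - p := by abel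
    rw [h2]
    exact Submodule.sub_mem _ hz (hPZ hp)
  obtain ⟨k, y, hy, hdec⟩ := decomp j hE1
  refine ⟨⨆ m, E1.map (yw W (j + 1) (y m)), Submodule.fg_iSup _ fun m => hE1.map _, ?_⟩
  intro z hz
  obtain ⟨k', v, hv, hz2⟩ := decomp (j + 1) (Submodule.fg_span_singleton (R := ℚ) z)
  obtain ⟨θ, hθ⟩ := hz2 z (Submodule.mem_span_singleton_self z)
  -- all elements of the kernel which are combinations are combinations of kernel elements
  have key : ∀ (k : ℕ) (y : Fin k → V), LinearIndependent ℚ y →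
      ∀ θ : Fin k → W ⊗[ℚ] Lam V (j + 1),
      (∑ m, yw W (j + 1) (y m) (θ m)) ∈ LinearMap.ker (del d2 (j + 2)) →
      ∃ (p e : Fin k → W ⊗[ℚ] Lam V (j + 1)), (∀ m, p m ∈ P) ∧ (∀ m, e m ∈ E1) ∧
        ∑ m, yw W (j + 1) (y m) (θ m) =
          (∑ m, yw W (j + 1) (y m) (p m)) + ∑ m, yw W (j + 1) (y m) (e m) := by
    intro k y hy θ hθ
    have h2 : ∑ m, wdg V (j + 3) (y m) (del d2 (j + 1) (θ m)) = 0 := by
      rw [LinearMap.mem_ker, map_sum] at hθ
      simp only [del_yw] at hθ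
      exact hθ
    obtain ⟨ζ, hζ, hζ2⟩ := claim d2 j (del_surj d2 hd j) k y hy θ h2
    choose p hp e he hpe using fun m => Submodule.mem_sup.1 (h1 (LinearMap.mem_ker.2 (hζ m)))
    refine ⟨p, e, hp, he, ?_⟩
    rw [hζ2, ← Finset.sum_add_distrib]
    refine Finset.sum_congr rfl fun m _ => ?_
    rw [← map_add, hpe]
  obtain ⟨p, e, hp, he, hpe⟩ := key k' v hv θ (by rw [← hθ]; exact hz)
  rw [hθ, hpe]
  have hE2 : ∀ (ε : Fin k → W ⊗[ℚ] Lam V (j + 1)), (∀ m, ε m ∈ E1) →
      ∑ m, yw W (j + 1) (y m) (ε m) ∈ ⨆ m, E1.map (yw W (j + 1) (y m)) := fun ε hε =>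
    Submodule.sum_mem _ fun m _ => Submodule.mem_iSup_of_mem m ⟨_, hε m, rfl⟩
  refine Submodule.add_mem _ (Submodule.mem_sup_left
    (Submodule.sum_mem _ fun m _ => hPP _ _ (hp m))) ?_
  -- the second part
  choose η hη using fun m => hdec (e m) (he m)
  have h3 : ∑ m, yw W (j + 1) (v m) (e m) =
      ∑ i, yw W (j + 1) (y i) (-∑ m, yw W j (v m) (η m i)) := by
    have h4 : ∀ m, yw W (j + 1) (v m) (e m) =
        ∑ i, - yw W (j + 1) (y i) (yw W j (v m) (η m i)) := by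
      intro m
      conv_lhs => rw [hη m]
      rw [map_sum]
      refine Finset.sum_congr rfl fun i _ => ?_
      rw [yw_anti]
    rw [Finset.sum_congr rfl fun m _ => h4 m, Finset.sum_comm]
    refine Finset.sum_congr rfl fun i _ => ?_
    rw [map_neg, map_sum, Finset.sum_neg_distrib]
  have h5 : (∑ m, yw W (j + 1) (v m) (e m)) ∈ LinearMap.ker (del d2 (j + 2)) := by
    refine Submodule.sum_mem _ fun m _ => ?_
    rw [LinearMap.mem_ker, del_yw, LinearMap.mem_ker.1 (hE1Z (he m)), map_zero]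
  rw [h3] at h5 ⊢
  obtain ⟨p', e', hp', he', hpe'⟩ := key k y hy _ h5
  rw [hpe']
  exact Submodule.add_mem _ (Submodule.mem_sup_left
    (Submodule.sum_mem _ fun m _ => hPP _ _ (hp' m)))
    (Submodule.mem_sup_right (hE2 _ he'))

end up

end Pool.Agent.NFF
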