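import Pool.Agent.NFF.Gnm

set_option autoImplicit false

/-!
# Project NFF, block G: the elementary items of `Lev` (helper13), JOB NFF-G3

`c` is the constant of `Con K c`; `d = dg K ≥ 1` (`dg_pos`).  The inclusions hold for every `q`:
nonzero `x` have `sz x ≥ 1` (`sz_pos`), so `sz x ^ (2d) ≤ sz x ^ (3d)`, and
`sz x ^ (3d) ≤ sz x ^ (4d) = (sz x ^ (2d)) ^ 2`.
`nm_lt_of_med`: `(nm x)^3 ≤ (c sz^d)^3 = c^3 sz^(3d) ≤ c^3 2^(3d) q^2 < q^3`, so `nm x < q`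
(`lt_of_pow_lt_pow_left₀`).
`med_lrg`: `(sz^d)^3 ≤ 2^(3d) q^2 ≤ q^3`, so `sz^d ≤ q`; `SU S x` by `nm_lt_of_med`, `su_of_nm_lt`.
`sub_me0`: `sz (x - y) ≤ sz x + sz y ≤ 2 max`, and `(2 max)^(3d) = 2^(3d) max^(3d)`.
`sub_med`: `sz (x - y)^(3d) ≤ 2^(3d) 2^(3d) q^2`, so `nm (x - y)^3 ≤ c^3 2^(6d) q^2 < q^3`.
-/

namespace NFF

open NumberField

variable {K : Type} [Field K] [NumberField K]

lemma sml_tin (q : ℕ) : Sml K q ⊆ Tin K q := by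
  rintro x ⟨hx, h⟩
  exact ⟨hx, (Nat.pow_le_pow_right (sz_pos hx) (by omega)).trans h⟩

lemma tin_me0 (q : ℕ) : Tin K q ⊆ Me0 K q := by
  rintro x ⟨hx, h⟩
  refine ⟨hx, ?_⟩
  calc sz x ^ (3 * dg K) ≤ sz x ^ (2 * dg K * 2) :=
        Nat.pow_le_pow_right (sz_pos hx) (by omega)
    _ = (sz x ^ (2 * dg K)) ^ 2 := by rw [pow_mul]
    _ ≤ q ^ 2 := Nat.pow_le_pow_left h 2

lemma me0_med (q : ℕ) : Me0 K q ⊆ Med K q := by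
  rintro x ⟨hx, h⟩
  exact ⟨hx, h.trans (Nat.le_mul_of_pos_left _ (Nat.pow_pos (by norm_num)))⟩

/-- the basic estimate for the norms -/
private lemma gel_nm {c : ℕ} (hc : Con K c) {q : ℕ} (hq : c ^ 3 * 2 ^ (6 * dg K) < q) {x : 𝓞 K}
    (h : sz x ^ (3 * dg K) ≤ 2 ^ (6 * dg K) * q ^ 2) : nm x < q := by
  have h1 : nm x ^ 3 ≤ c ^ 3 * sz x ^ (3 * dg K) := by
    calc nm x ^ 3 ≤ (c * sz x ^ dg K) ^ 3 := Nat.pow_le_pow_left (hc.nm_le x) 3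
      _ = c ^ 3 * sz x ^ (3 * dg K) := by rw [mul_pow, ← pow_mul, mul_comm (dg K) 3]
  have h2 : nm x ^ 3 ≤ c ^ 3 * 2 ^ (6 * dg K) * q ^ 2 := by
    calc nm x ^ 3 ≤ c ^ 3 * sz x ^ (3 * dg K) := h1
      _ ≤ c ^ 3 * (2 ^ (6 * dg K) * q ^ 2) := Nat.mul_le_mul_left _ h
      _ = c ^ 3 * 2 ^ (6 * dg K) * q ^ 2 := by ring
  have hq0 : 0 < q := by omega
  have h3 : c ^ 3 * 2 ^ (6 * dg K) * q ^ 2 < q * q ^ 2 :=
    Nat.mul_lt_mul_of_pos_right hq (Nat.pow_pos hq0)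
  have h4 : nm x ^ 3 < q ^ 3 := by
    calc nm x ^ 3 ≤ c ^ 3 * 2 ^ (6 * dg K) * q ^ 2 := h2
      _ < q * q ^ 2 := h3
      _ = q ^ 3 := by ring
  exact lt_of_pow_lt_pow_left₀ 3 (Nat.zero_le _) h4

lemma nm_lt_of_med {c : ℕ} (hc : Con K c) {q : ℕ} (hq : c ^ 3 * 2 ^ (6 * dg K) < q) {x : 𝓞 K}
    (hx : x ∈ Med K q) : nm x < q := by
  refine gel_nm hc hq (hx.2.trans (Nat.mul_le_mul_right _ ?_))
  exact Nat.pow_le_pow_right (by norm_num) (by omega)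

/-- nonzero integers in the boxes of `Med` are not in `P` -/
lemma med_not {c : ℕ} (hc : Con K c) {P : Pr K} (hq : c ^ 3 * 2 ^ (6 * dg K) < qn P) {x : 𝓞 K}
    (hx : x ∈ Med K (qn P)) : x ∉ P.asIdeal := fun h =>
  absurd (qn_le_nm hx.1 h) (not_le.2 (nm_lt_of_med hc hq hx))

lemma med_lrg {c : ℕ} (hc : Con K c) {S : Set (Pr K)} {P : Pr K} (hA : Adm S P)
    (hq : c ^ 3 * 2 ^ (6 * dg K) < qn P) : Med K (qn P) ⊆ Lrg 1 S (qn P) := by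
  intro x hx
  refine ⟨hx.1, ?_, (su_of_nm_lt hA hx.1 (nm_lt_of_med hc hq hx)).1⟩
  rw [one_mul]
  have hc1 := hc.one_le
  have h1 : 2 ^ (3 * dg K) ≤ qn P := by
    refine le_of_lt (lt_of_le_of_lt ?_ hq)
    calc 2 ^ (3 * dg K) ≤ 2 ^ (6 * dg K) := Nat.pow_le_pow_right (by norm_num) (by omega)
      _ ≤ c ^ 3 * 2 ^ (6 * dg K) := Nat.le_mul_of_pos_left _ (Nat.pow_pos hc1)
  have h2 : (sz x ^ dg K) ^ 3 ≤ qn P ^ 3 := by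
    calc (sz x ^ dg K) ^ 3 = sz x ^ (3 * dg K) := by rw [← pow_mul, mul_comm (dg K) 3]
      _ ≤ 2 ^ (3 * dg K) * qn P ^ 2 := hx.2
      _ ≤ qn P * qn P ^ 2 := Nat.mul_le_mul_right _ h1
      _ = qn P ^ 3 := by ring
  exact le_of_pow_le_pow_left₀ (by norm_num) (Nat.zero_le _) h2

lemma lrg_not {C : ℕ} {S : Set (Pr K)} {P : Pr K} (hA : Adm S P) {q : ℕ} {x : 𝓞 K}
    (hx : x ∈ Lrg C S q) : x ∉ P.asIdeal :=
  (od_eq_zero_iff P hx.1).1 (hx.2.2.2 P hA.notMem)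

/-- `S`-units of small size are in `Lrg` -/
lemma mem_lrg_of_nm {S : Set (Pr K)} {P : Pr K} (hA : Adm S P) {x : 𝓞 K} (hx : x ≠ 0)
    (h : sz x ^ dg K ≤ qn P) (hn : nm x < qn P) : x ∈ Lrg 1 S (qn P) :=
  ⟨hx, by rw [one_mul]; exact h, (su_of_nm_lt hA hx hn).1⟩

/-- sizes of differences -/
private lemma gel_sub {n B : ℕ} {x y : 𝓞 K} (hx : sz x ^ n ≤ B) (hy : sz y ^ n ≤ B) :
    sz (x - y) ^ n ≤ 2 ^ n * B := by
  have key : ∀ a b : ℕ, b ≤ a → a ^ n ≤ B → sz (x - y) ≤ a + b → sz (x - y) ^ n ≤ 2 ^ n * B := by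
    intro a b hba ha h
    calc sz (x - y) ^ n ≤ (2 * a) ^ n := Nat.pow_le_pow_left (by omega) n
      _ = 2 ^ n * a ^ n := mul_pow _ _ _
      _ ≤ 2 ^ n * B := Nat.mul_le_mul_left _ ha
  rcases le_total (sz y) (sz x) with h | h
  · exact key _ _ h hx (sz_sub_le x y)
  · exact key _ _ h hy ((sz_sub_le x y).trans (by rw [add_comm]))

lemma sub_me0 {q : ℕ} {x y : 𝓞 K} (hx : x ∈ Me0 K q) (hy : y ∈ Me0 K q) (h : x ≠ y) :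
    x - y ∈ Med K q :=
  ⟨sub_ne_zero.2 h, gel_sub hx.2 hy.2⟩

lemma sub_med {c : ℕ} (hc : Con K c) {S : Set (Pr K)} {P : Pr K} (hA : Adm S P)
    (hq : c ^ 3 * 2 ^ (6 * dg K) < qn P) {x y : 𝓞 K} (hx : x ∈ Med K (qn P))
    (hy : y ∈ Med K (qn P)) (h : x ≠ y) :
    x - y ∉ P.asIdeal ∧ SU S ((x - y : 𝓞 K) : K) := by
  have h1 : sz (x - y) ^ (3 * dg K) ≤ 2 ^ (6 * dg K) * qn P ^ 2 := by
    refine (gel_sub hx.2 hy.2).trans (le_of_eq ?_)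
    rw [← mul_assoc, ← pow_add]
    congr 2
    omega
  have h2 := su_of_nm_lt hA (sub_ne_zero.2 h) (gel_nm hc hq h1)
  exact ⟨h2.2, h2.1⟩

end NFF
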