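import Pool.Agent.QGC.Fin
import Pool.Agent.QGC.Flib

set_option autoImplicit false

/-!
# From trilinear alternating functionals to the kernel of `B_2 ⊗ F^* → Λ^3 F^*`
-/

namespace Pool.Agent.NFF

open scoped TensorProduct
open TensorProduct Pool.Agent.Helper91.Gon
open Helper14.Gon (P1 ZP br MU LM lgm elx ely BB CC TT clb gn tp dd dl RR CC_ext dd_gn dl_gn)
open Helper14.Loc (HC HT ZC BC BT)
open _root_.QGC (lq lq_mul vq_ext aq_eq bq_eq sq_zero' sq_inf')

universe u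

section alt3

variable {V : Type u} [AddCommGroup V] [Module ℚ V]

/-- trilinear alternating -/
structure Alt3 (T : V →ₗ[ℚ] V →ₗ[ℚ] V →ₗ[ℚ] ℚ) : Prop where
  a12 : ∀ u w, T u u w = 0
  a23 : ∀ u w, T u w w = 0

theorem Alt3.a13 {T : V →ₗ[ℚ] V →ₗ[ℚ] V →ₗ[ℚ] ℚ} (h : Alt3 T) (u w : V) : T u w u = 0 := by
  have h1 := h.a12 (u + w) u
  simp only [map_add, LinearMap.add_apply, h.a12, h.a23, zero_add, add_zero] at h1
  exact h1

private theorem f10 : (1 : Fin 3) ≠ 0 := by decide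
private theorem f20 : (2 : Fin 3) ≠ 0 := by decide
private theorem f01 : (0 : Fin 3) ≠ 1 := by decide
private theorem f21 : (2 : Fin 3) ≠ 1 := by decide
private theorem f02 : (0 : Fin 3) ≠ 2 := by decide
private theorem f12 : (1 : Fin 3) ≠ 2 := by decide
private theorem fin3 (i : Fin 3) : i = 0 ∨ i = 1 ∨ i = 2 := by
  fin_cases i
  · exact Or.inl rfl
  · exact Or.inr (Or.inl rfl)
  · exact Or.inr (Or.inr rfl)

/-- the alternating map -/
def alt3 (T : V →ₗ[ℚ] V →ₗ[ℚ] V →ₗ[ℚ] ℚ) (h : Alt3 T) : V [⋀^Fin 3]→ₗ[ℚ] ℚ where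
  toFun v := T (v 0) (v 1) (v 2)
  map_update_add' := by
    intro _ m i x y
    obtain rfl | rfl | rfl := fin3 i
    · simp only [Function.update_self, Function.update_of_ne f10, Function.update_of_ne f20,
        map_add, LinearMap.add_apply]
    · simp only [Function.update_self, Function.update_of_ne f01, Function.update_of_ne f21,
        map_add, LinearMap.add_apply]
    · simp only [Function.update_self, Function.update_of_ne f02, Function.update_of_ne f12,
        map_add]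
  map_update_smul' := by
    intro _ m i c x
    obtain rfl | rfl | rfl := fin3 i
    · simp only [Function.update_self, Function.update_of_ne f10, Function.update_of_ne f20,
        map_smul, LinearMap.smul_apply]
    · simp only [Function.update_self, Function.update_of_ne f01, Function.update_of_ne f21,
        map_smul, LinearMap.smul_apply]
    · simp only [Function.update_self, Function.update_of_ne f02, Function.update_of_ne f12,
        map_smul]
  map_eq_zero_of_eq' := by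
    intro v i j hv hij
    have h12 : v 0 = v 1 → T (v 0) (v 1) (v 2) = 0 := fun e => by rw [e]; exact h.a12 _ _
    have h23 : v 1 = v 2 → T (v 0) (v 1) (v 2) = 0 := fun e => by rw [e]; exact h.a23 _ _
    have h13 : v 0 = v 2 → T (v 0) (v 1) (v 2) = 0 := fun e => by rw [e]; exact h.a13 _ _
    fin_cases i <;> fin_cases j
    · exact absurd rfl hij
    · exact h12 hv
    · exact h13 hv
    · exact h12 hv.symm
    · exact absurd rfl hij
    · exact h23 hv
    · exact h13 hv.symm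
    · exact h23 hv.symm
    · exact absurd rfl hij

theorem exists_fun3 {T : V →ₗ[ℚ] V →ₗ[ℚ] V →ₗ[ℚ] ℚ} (h : Alt3 T) :
    ∃ τ : Lam V 3 →ₗ[ℚ] ℚ, ∀ w : Fin 3 → V, τ (Abs.iota 3 w) = T (w 0) (w 1) (w 2) := by
  let τ : ⋀[ℚ]^3 V →ₗ[ℚ] ℚ := exteriorPower.alternatingMapLinearEquiv (alt3 T h)
  refine ⟨τ, fun w => ?_⟩
  have h1 := exteriorPower.alternatingMapLinearEquiv_apply_ιMulti (alt3 T h) w
  exact h1

end alt3

section field

variable {F : Type u} [Field F]

theorem gn_none (v : Fin 1 → MU F) : (gn 0 (none : P1 F) v : CC 0 1 F) = 0 := by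
  apply (Glue.Phi 0 1 F).injective
  have h : (Glue.sq 0 (none : P1 F) : Glue.Bq 0 F) = 0 := sq_inf'
  rw [Glue.Phi_gn, map_zero, h, TensorProduct.zero_tmul]

theorem gn_zero (v : Fin 1 → MU F) : (gn 0 (some (0 : F)) v : CC 0 1 F) = 0 := by
  apply (Glue.Phi 0 1 F).injective
  have h : (Glue.sq 0 (some (0 : F)) : Glue.Bq 0 F) = 0 := sq_zero'
  rw [Glue.Phi_gn, map_zero, h, TensorProduct.zero_tmul]

theorem sq_one : (Glue.sq 0 (some (1 : F)) : Glue.Bq 0 F) = 0 := by
  refine (Module.forall_dual_apply_eq_zero_iff ℚ _).1 fun φ => ?_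
  exact (Pool.Agent.QGC.flib_field φ).2.2.1

theorem gn_one (v : Fin 1 → MU F) : (gn 0 (some (1 : F)) v : CC 0 1 F) = 0 := by
  apply (Glue.Phi 0 1 F).injective
  rw [Glue.Phi_gn, map_zero, sq_one, TensorProduct.zero_tmul]

theorem gn_span (k j : ℕ) : Submodule.span ℚ
    (Set.range fun p : P1 F × (Fin j → MU F) => (gn k p.1 p.2 : CC k j F)) = ⊤ := by
  rw [eq_top_iff]
  intro z _
  by_contra hz
  obtain ⟨φ, hφ, hN⟩ := Submodule.exists_le_ker_of_notMem hz
  apply hφ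
  have h : φ = 0 := CC_ext fun x v => by
    rw [LinearMap.zero_apply]
    exact hN (Submodule.subset_span ⟨(x, v), rfl⟩)
  rw [h, LinearMap.zero_apply]

/-- the family of functions `x ↦ φ({x} ⊗ v)` attached to a functional -/
noncomputable def fam (φ : CC 0 1 F →ₗ[ℚ] ℚ) : Glue.Vq F →ₗ[ℚ] (F → ℚ) :=
  LinearMap.pi fun x => φ ∘ₗ (Glue.Phi 0 1 F).symm.toLinearMap ∘ₗ
    (TensorProduct.mk ℚ (Glue.Bq 0 F) (Lam (Glue.Vq F) 1) (Glue.sq 0 (some x))) ∘ₗ
      (Glue.one (Glue.Vq F)).symm.toLinearMap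

theorem one_symm (y : Fˣ) : (Glue.one (Glue.Vq F)).symm (lq y) =
    Abs.iota 1 (fun _ : Fin 1 => (1 : ℚ) ⊗ₜ[ℤ] (Additive.ofMul y : MU F)) := by
  rw [LinearEquiv.symm_apply_eq, Glue.one_iota]
  rfl

theorem fam_gn (φ : CC 0 1 F →ₗ[ℚ] ℚ) (x : F) (y : Fˣ) :
    fam φ (lq y) x = φ (gn 0 (some x) (fun _ => (Additive.ofMul y : MU F))) := by
  have h : fam φ (lq y) x = φ ((Glue.Phi 0 1 F).symm ((Glue.sq 0 (some x)) ⊗ₜ[ℚ]
      (Glue.one (Glue.Vq F)).symm (lq y))) := rfl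
  rw [h, one_symm, Glue.Phi_symm 0 1 (some x) (fun _ => (Additive.ofMul y : MU F))]

/-- `φ(· ⊗ v)` as a functional on `B_2` -/
noncomputable def psi (φ : CC 0 1 F →ₗ[ℚ] ℚ) (v : Glue.Vq F) : Glue.Bq 0 F →ₗ[ℚ] ℚ :=
  φ ∘ₗ (Glue.Phi 0 1 F).symm.toLinearMap ∘ₗ
    ((TensorProduct.mk ℚ (Glue.Bq 0 F) (Lam (Glue.Vq F) 1)).flip
      ((Glue.one (Glue.Vq F)).symm v))

theorem fam_psi (φ : CC 0 1 F →ₗ[ℚ] ℚ) (v : Glue.Vq F) (x : F) :
    fam φ v x = psi φ v (Glue.sq 0 (some x)) := rfl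

/-- A functional which has the form `T (1-x) x y` on finite sets vanishes on the kernel of
`B_2 ⊗ F^* → Λ^3 F^*`. -/
theorem kill (φ : CC 0 1 F →ₗ[ℚ] ℚ)
    (h : ∀ X Y : Finset F, (∀ x ∈ X, x ≠ 0 ∧ x ≠ 1) → (∀ y ∈ Y, y ≠ 0) →
      ∃ T : Glue.Vq F →ₗ[ℚ] Glue.Vq F →ₗ[ℚ] Glue.Vq F →ₗ[ℚ] ℚ, Alt3 T ∧ ∀ x ∈ X, ∀ y ∈ Y,
        fam φ (Glue.aq (some y)) x =
          T (Glue.aq (some (1 - x))) (Glue.aq (some x)) (Glue.aq (some y)))
    (z : CC 0 1 F) (hz : dl 1 F z = 0) : φ z = 0 := by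
  classical
  have hz1 : z ∈ Submodule.span ℚ
      (Set.range fun p : P1 F × (Fin 1 → MU F) => (gn 0 p.1 p.2 : CC 0 1 F)) := by
    rw [gn_span]
    exact Submodule.mem_top
  obtain ⟨c, hc⟩ := Finsupp.mem_span_range_iff_exists_finsupp.1 hz1
  let X : Finset F := (c.support.image (fun p => Option.getD p.1 0)).filter
    (fun t => t ≠ 0 ∧ t ≠ 1)
  let Y : Finset F := c.support.image (fun p => ((Additive.toMul (p.2 0) : Fˣ) : F))
  obtain ⟨T, hT, hφ⟩ := h X Y (fun x hx => (Finset.mem_filter.1 hx).2) (fun y hy => by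
    obtain ⟨p, _, rfl⟩ := Finset.mem_image.1 hy
    exact Units.ne_zero _)
  obtain ⟨τ, hτ⟩ := exists_fun3 hT
  have key : ∀ p ∈ c.support, φ (gn 0 p.1 p.2) =
      τ (Glue.Psi 3 F (dl 1 F (gn 0 p.1 p.2))) := by
    rintro ⟨x, v⟩ hp
    rcases x with _ | x
    · have h1 : (gn 0 (Option.none : P1 F) v : CC 0 1 F) = 0 := gn_none v
      simp only
      rw [h1, map_zero, map_zero, map_zero, map_zero]
    · by_cases hx0 : x = 0
      · subst hx0
        have h1 : (gn 0 (Option.some (0 : F)) v : CC 0 1 F) = 0 := gn_zero v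
        simp only
        rw [h1, map_zero, map_zero, map_zero, map_zero]
      · by_cases hx1 : x = 1
        · subst hx1
          have h1 : (gn 0 (Option.some (1 : F)) v : CC 0 1 F) = 0 := gn_one v
          simp only
          rw [h1, map_zero, map_zero, map_zero, map_zero]
        · have hX : x ∈ X := Finset.mem_filter.2
            ⟨Finset.mem_image.2 ⟨_, hp, rfl⟩, hx0, hx1⟩
          have hY : ((Additive.toMul (v 0) : Fˣ) : F) ∈ Y := Finset.mem_image.2 ⟨_, hp, rfl⟩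
          have h1 := hφ x hX _ hY
          rw [aq_eq, fam_gn] at h1
          have h2 : (fun _ : Fin 1 => (Additive.ofMul (Additive.toMul (v 0)) : MU F)) = v := by
            funext i
            rw [Subsingleton.elim i 0]
            rfl
          rw [h2] at h1
          simp only
          have h3 : dl 1 F (gn 0 (some x) v) =
            tp (Fin.cons (ely (some x)) (Fin.cons (elx (some x)) v)) := dl_gn 1 _ v
          have h4 : φ (gn 0 (Option.some x) v) = φ (gn 0 (some x) v) := rfl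
          have h5 : Glue.Psi 3 F (dl 1 F (gn 0 (some x) v)) = Abs.iota 3 (fun i =>
            (1 : ℚ) ⊗ₜ[ℤ] (Fin.cons (ely (some x)) (Fin.cons (elx (some x)) v) :
              Fin 3 → MU F) i) := by
            rw [h3]
            exact Glue.Psi_tp 3 _
          rw [h4, h1]
          refine Eq.symm ((congrArg τ h5).trans ?_)
          rw [hτ]
          rfl
  have h3 : φ z = τ (Glue.Psi 3 F (dl 1 F z)) := by
    rw [← hc, Finsupp.sum, map_sum, map_sum, map_sum, map_sum]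
    refine Finset.sum_congr rfl fun x hx => ?_
    rw [map_smul, map_smul, map_smul, map_smul, key x hx]
  rw [h3, hz, map_zero, map_zero]

/-- the subspace `N ⊗ F^*` -/
noncomputable def NV (N : Submodule ℚ (Glue.Bq 0 F)) : Submodule ℚ (CC 0 1 F) :=
  Submodule.span ℚ {z | ∃ c ∈ N, ∃ v : Glue.Vq F,
    z = (Glue.Phi 0 1 F).symm (c ⊗ₜ[ℚ] (Glue.one (Glue.Vq F)).symm v)}

/-- the main inclusion -/
theorem incl (N : Submodule ℚ (Glue.Bq 0 F)) (X0 Y0 : Finset F)
    (hmain : ∀ φ : CC 0 1 F →ₗ[ℚ] ℚ, (∀ v : Glue.Vq F, ∀ c ∈ N, psi φ v c = 0) →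
      (∀ x : F, x ≠ 0 → x ≠ 1 → fam φ (Glue.aq (some x)) x = 0) →
      (∀ x ∈ X0, ∀ y ∈ Y0, fam φ (Glue.aq (some y)) x = 0) →
      ∀ X Y : Finset F, (∀ x ∈ X, x ≠ 0 ∧ x ≠ 1) → (∀ y ∈ Y, y ≠ 0) →
      ∃ T : Glue.Vq F →ₗ[ℚ] Glue.Vq F →ₗ[ℚ] Glue.Vq F →ₗ[ℚ] ℚ, Alt3 T ∧ ∀ x ∈ X, ∀ y ∈ Y,
        fam φ (Glue.aq (some y)) x =
          T (Glue.aq (some (1 - x))) (Glue.aq (some x)) (Glue.aq (some y))) :
    LinearMap.ker (dl 1 F) ≤ LinearMap.range (dd 0 0 F) ⊔ NV N ⊔ Submodule.span ℚ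
      {z | ∃ x ∈ X0, ∃ y ∈ Y0, z = gn 0 (some x) (fun _ => lgm y)} := by
  intro z hz
  by_contra hne
  obtain ⟨φ, hφ, hker⟩ := Submodule.exists_le_ker_of_notMem hne
  apply hφ
  have h1 := le_sup_left.trans (le_sup_left.trans hker)
  have h2 := le_sup_right.trans (le_sup_left.trans hker)
  have h3 := le_sup_right.trans hker
  have hfam : ∀ x y : F, y ≠ 0 → fam φ (Glue.aq (some y)) x =
      φ (gn 0 (some x) (fun _ => lgm y)) := by
    intro x y hy
    have h4 := fam_gn φ x (Units.mk0 y hy)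
    have h5 : Glue.aq (some y) = lq (Units.mk0 y hy) := aq_eq (Units.mk0 y hy)
    have h6 : (lgm y : MU F) = Additive.ofMul (Units.mk0 y hy) := by
      rw [lgm, dif_neg hy]
    rw [h5, h6]
    exact h4
  refine kill φ (hmain φ ?_ ?_ ?_) z hz
  · intro v c hc
    exact h2 (Submodule.subset_span ⟨c, hc, v, rfl⟩)
  · intro x hx0 hx1
    rw [hfam x x hx0]
    have h4 : (gn 0 (some x) (fun _ => lgm x) : CC 0 1 F) =
        dd 0 0 F (gn 1 (some x) (fun i => i.elim0)) := by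
      rw [dd_gn]
      congr 1
      funext i
      rw [Subsingleton.elim i 0]
      rfl
    rw [h4]
    exact h1 ⟨_, rfl⟩
  · intro x hx y hy
    by_cases hy0 : y = 0
    · have h5 : Glue.aq (some y) = 0 := by
        rw [hy0, Glue.aq]
        have : (elx (some (0 : F)) : MU F) = 0 := by
          simp [elx, Option.elim, lgm]
        rw [this, TensorProduct.tmul_zero]
      rw [h5, map_zero]
      rfl
    · rw [hfam x y hy0]
      exact h3 (Submodule.subset_span ⟨x, hx, y, hy, rfl⟩)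

end field

end Pool.Agent.NFF
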