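import Pool.Agent.NFF.Defs

set_option autoImplicit false

/-!
# Project NFF, block G: sizes of integers, pigeonhole in boxes (helper13)

`exists_con` (JOB NFF-G1): there is a constant `c` for products and norms.  Norms:
`ClassGroup.norm_le AbsoluteValue.abs (RingOfIntegers.basis K)` with `y = sz x`
(`Fintype.card = dg K`: `RingOfIntegers.rank` / `Module.finrank_eq_card_basis`).  Products: write
`x = ∑ x_i b_i`, `y = ∑ y_j b_j` (`Basis.sum_repr`), then `x y = ∑ x_i y_j (b_i b_j)` has size
`≤ (∑_(i j) sz (b_i b_j)) * (sz x * sz y)` by `sz_sum_le` and `sz_smul`.  Take the maximum of the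
two constants and `1`.

`pigeon` (JOB NFF-G1): for an additive map `f` from `(𝓞 K)^ι` to a finite group `A` and boxes with
more elements than `A` there is a nonzero `x` in the doubled box with `f x = 0`.  The box is
`∀ i, ∀ j, Fin (s i + 1)` (`j` a basis index), mapped to `x i = ∑_j n_(i j) b_j`; this map is
injective, two elements have the same image in `A` (`Finite.exists_ne_map_eq_of_card_lt` or
`Fintype.exists_ne_map_eq_of_card_lt`), take the difference; coordinates are differences of two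
numbers between `0` and `s i`.
-/

namespace NFF

open NumberField

variable {K : Type} [Field K] [NumberField K]

/-- `|N x|` -/
noncomputable def nm (x : 𝓞 K) : ℕ := (Algebra.norm ℤ x).natAbs

/-- `c` bounds products and norms -/
structure Con (K : Type) [Field K] [NumberField K] (c : ℕ) : Prop where
  one_le : 1 ≤ c
  mul : ∀ x y : 𝓞 K, sz (x * y) ≤ c * (sz x * sz y)
  nm_le : ∀ x : 𝓞 K, nm x ≤ c * sz x ^ dg K

lemma dg_pos : 1 ≤ dg K := Module.finrank_pos

lemma sz_le_iff (x : 𝓞 K) (n : ℕ) :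
    sz x ≤ n ↔ ∀ i, ((RingOfIntegers.basis K).repr x i).natAbs ≤ n := by
  simp [sz, Finset.sup_le_iff]

lemma coord_le (x : 𝓞 K) (i) : ((RingOfIntegers.basis K).repr x i).natAbs ≤ sz x :=
  (sz_le_iff x (sz x)).1 le_rfl i

lemma sz_zero : sz (0 : 𝓞 K) = 0 := by
  simp [sz]

lemma sz_eq_zero {x : 𝓞 K} : sz x = 0 ↔ x = 0 := by
  constructor
  · intro h
    have : (RingOfIntegers.basis K).repr x = 0 := by
      ext i
      have := coord_le x i
      rw [h] at this
      simpa using this
    simpa using this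
  · rintro rfl
    exact sz_zero

lemma sz_pos {x : 𝓞 K} (h : x ≠ 0) : 1 ≤ sz x :=
  Nat.one_le_iff_ne_zero.2 fun h' => h (sz_eq_zero.1 h')

lemma sz_neg (x : 𝓞 K) : sz (-x) = sz x := by
  simp [sz]

lemma sz_add_le (x y : 𝓞 K) : sz (x + y) ≤ sz x + sz y := by
  rw [sz_le_iff]
  intro i
  rw [map_add, Finsupp.add_apply]
  exact (Int.natAbs_add_le _ _).trans (Nat.add_le_add (coord_le x i) (coord_le y i))

lemma sz_sub_le (x y : 𝓞 K) : sz (x - y) ≤ sz x + sz y := by
  rw [sub_eq_add_neg]
  exact (sz_add_le x (-y)).trans (by rw [sz_neg])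

lemma sz_smul_le (n : ℤ) (x : 𝓞 K) : sz (n • x) ≤ n.natAbs * sz x := by
  rw [sz_le_iff]
  intro i
  rw [map_smul, Finsupp.smul_apply, smul_eq_mul, Int.natAbs_mul]
  exact Nat.mul_le_mul_left _ (coord_le x i)

lemma sz_sum_le {ι : Type*} (s : Finset ι) (f : ι → 𝓞 K) :
    sz (∑ i ∈ s, f i) ≤ ∑ i ∈ s, sz (f i) := by
  classical
  induction s using Finset.induction_on with
  | empty => simp [sz_zero]
  | insert a s ha ih =>
    rw [Finset.sum_insert ha, Finset.sum_insert ha]
    exact (sz_add_le _ _).trans (Nat.add_le_add_left ih _)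

/-- integral roots -/
lemma exists_root (n q : ℕ) (hn : 1 ≤ n) : ∃ t : ℕ, t ^ n ≤ q ∧ q < (t + 1) ^ n := by
  classical
  have h : ∃ t : ℕ, q < (t + 1) ^ n :=
    ⟨q, (Nat.lt_succ_self q).trans_le (Nat.le_self_pow (by omega) _)⟩
  refine ⟨Nat.find h, ?_, Nat.find_spec h⟩
  rcases Nat.eq_zero_or_pos (Nat.find h) with h0 | h0
  · rw [h0, zero_pow (by omega)]
    exact Nat.zero_le _
  · have h1 := Nat.find_min h (m := Nat.find h - 1) (by omega)
    rw [Nat.sub_add_cancel h0] at h1
    omega

/-- submultiplicativity up to a constant -/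
lemma exists_sz_mul (K : Type) [Field K] [NumberField K] :
    ∃ c : ℕ, ∀ x y : 𝓞 K, sz (x * y) ≤ c * sz x * sz y := by
  classical
  let b := RingOfIntegers.basis K
  refine ⟨∑ i, ∑ j, sz (b i * b j), fun x y => ?_⟩
  have hx := b.sum_repr x
  have hy := b.sum_repr y
  have h1 : x * y = ∑ i, ∑ j, (b.repr x i * b.repr y j) • (b i * b j) := by
    conv_lhs => rw [← hx, ← hy]
    rw [Finset.sum_mul_sum]
    refine Finset.sum_congr rfl fun i _ => Finset.sum_congr rfl fun j _ => ?_
    rw [smul_mul_smul_comm]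
  rw [h1]
  refine (sz_sum_le _ _).trans ?_
  rw [Finset.sum_mul, Finset.sum_mul]
  refine Finset.sum_le_sum fun i _ => ?_
  refine (sz_sum_le _ _).trans ?_
  rw [Finset.sum_mul, Finset.sum_mul]
  refine Finset.sum_le_sum fun j _ => ?_
  refine (sz_smul_le _ _).trans ?_
  rw [Int.natAbs_mul, mul_comm, mul_assoc]
  exact Nat.mul_le_mul_left _ (Nat.mul_le_mul (coord_le x i) (coord_le y j))

lemma card_basis (K : Type) [Field K] [NumberField K] :
    Fintype.card (Module.Free.ChooseBasisIndex ℤ (𝓞 K)) = dg K := by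
  rw [dg, ← RingOfIntegers.rank K, Module.finrank_eq_card_basis (RingOfIntegers.basis K)]

/-- the norm is bounded by the size -/
lemma exists_norm_le (K : Type) [Field K] [NumberField K] :
    ∃ c : ℕ, ∀ x : 𝓞 K, (Algebra.norm ℤ x).natAbs ≤ c * sz x ^ dg K := by
  classical
  obtain ⟨c, hc⟩ := exists_sz_mul K
  let b := RingOfIntegers.basis K
  let B : ℕ := ∑ j, sz (b j)
  refine ⟨(dg K).factorial * (c * B) ^ dg K, fun x => ?_⟩
  have h1 : ∀ i j, |Algebra.leftMulMatrix b x i j| ≤ ((c * B * sz x : ℕ) : ℤ) := by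
    intro i j
    rw [Algebra.leftMulMatrix_eq_repr_mul]
    have h2 : (b.repr (x * b j) i).natAbs ≤ sz (x * b j) := coord_le _ i
    have h3 : sz (x * b j) ≤ c * sz x * sz (b j) := hc _ _
    have h4 : sz (b j) ≤ B := Finset.single_le_sum (f := fun j => sz (b j))
      (fun _ _ => Nat.zero_le _) (Finset.mem_univ j)
    have h5 : c * sz x * sz (b j) ≤ c * B * sz x := by
      calc c * sz x * sz (b j) ≤ c * sz x * B := Nat.mul_le_mul_left _ h4
        _ = c * B * sz x := by ring
    rw [Int.abs_eq_natAbs]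
    exact_mod_cast h2.trans (h3.trans h5)
  have h6 := Matrix.det_le (abv := AbsoluteValue.abs) (A := Algebra.leftMulMatrix b x) h1
  rw [AbsoluteValue.abs_apply, ← Algebra.norm_eq_matrix_det, card_basis, Int.abs_eq_natAbs] at h6
  have h7 : (Algebra.norm ℤ x).natAbs ≤ (dg K).factorial * (c * B * sz x) ^ dg K := by
    rw [nsmul_eq_mul] at h6
    exact_mod_cast h6
  refine h7.trans (le_of_eq ?_)
  rw [mul_pow (c * B) (sz x), mul_assoc]

/-- the constants exist -/
theorem exists_con (K : Type) [Field K] [NumberField K] : ∃ c : ℕ, Con K c := by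
  obtain ⟨c, hc⟩ := exists_sz_mul K
  obtain ⟨c', hc'⟩ := exists_norm_le K
  refine ⟨c + c' + 1, by omega, fun x y => (hc x y).trans ?_, fun x => (hc' x).trans ?_⟩
  · rw [mul_assoc]
    exact Nat.mul_le_mul_right _ (by omega)
  · exact Nat.mul_le_mul_right _ (by omega)

/-- Pigeonhole in boxes. -/
theorem pigeon {A : Type*} [AddCommGroup A] [Finite A] {ι : Type*} [Fintype ι]
    (f : (ι → 𝓞 K) →+ A) (s : ι → ℕ)
    (h : Nat.card A < ∏ i, (s i + 1) ^ dg K) :
    ∃ x : ι → 𝓞 K, x ≠ 0 ∧ (∀ i, sz (x i) ≤ s i) ∧ f x = 0 := by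
  classical
  have := Fintype.ofFinite A
  let κ := Module.Free.ChooseBasisIndex ℤ (𝓞 K)
  let b := RingOfIntegers.basis K
  let T := (k : ι) → (κ → Fin (s k + 1))
  let g : T → (ι → 𝓞 K) := fun u k => ∑ i, ((u k i : ℕ) : ℤ) • b i
  have hg : ∀ (u : T) (k : ι) (i : κ), b.repr (g u k) i = ((u k i : ℕ) : ℤ) := by
    intro u k i
    simp only [g]
    rw [Module.Basis.repr_sum_self]
  have hcard : Fintype.card A < Fintype.card T := by
    have : Fintype.card T = ∏ k, (s k + 1) ^ dg K := by
      rw [Fintype.card_pi]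
      refine Finset.prod_congr rfl fun k _ => ?_
      rw [Fintype.card_fun, Fintype.card_fin, card_basis]
    rw [this, ← Nat.card_eq_fintype_card]
    exact h
  obtain ⟨u, v, huv, hf⟩ := Fintype.exists_ne_map_eq_of_card_lt (fun u : T => f (g u)) hcard
  refine ⟨g u - g v, ?_, ?_, ?_⟩
  · intro h0
    apply huv
    funext k i
    have h1 : g u k = g v k := by
      have := congrFun h0 k
      simpa [sub_eq_zero] using this
    have h2 := hg u k i
    rw [h1, hg v k i] at h2
    exact Fin.ext (by exact_mod_cast h2.symm)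
  · intro k
    rw [sz_le_iff]
    intro i
    rw [Pi.sub_apply, map_sub, Finsupp.sub_apply]
    have h1 := hg u k i
    have h2 := hg v k i
    change (b.repr (g u k) i - b.repr (g v k) i).natAbs ≤ s k
    rw [h1, h2]
    have h3 := (u k i).2
    have h4 := (v k i).2
    omega
  · rw [map_sub, hf, sub_self]

end NFF
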