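import Pool.Agent.NFF.Ord
import Pool.Agent.NFF.Gsz

set_option autoImplicit false

/-!
# Project NFF, block G: norms and primes (helper13), JOB NFF-G2

`absNorm_le_nm`: `span {x} ≤ I`, so `absNorm I ∣ absNorm (span {x}) = nm x`
(`Ideal.absNorm_dvd_absNorm_of_le`, `Ideal.absNorm_span_singleton`), and `nm x ≠ 0`.
`qn_mul_le_nm`: `P`, `Q` are coprime (two different maximal ideals), so
`x ∈ P ⊓ Q = P * Q` (`Ideal.inf_eq_mul_of_isCoprime`, `Ideal.isCoprime_of_isMaximal`, or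
`IsDedekindDomain.inf_prime_pow_eq_prod`), and `absNorm` is multiplicative.
`low_finite`: `Ideal.finite_setOfPred_absNorm_le` and injectivity of `asIdeal`.
`su_of_nm_lt`: a prime `Q` with `od Q x ≠ 0` contains `x` (`od_eq_zero_iff`), so
`qn Q ≤ nm x < qn P` and `Q ∈ S` by `Adm.lower`; if `x ∈ P`, then `qn P ≤ nm x`.
`pu_of_nm_lt`: `x ∉ P ^ 2` (otherwise `qn P ^ 2 ≤ nm x`), so `od P x = 1` (`le_od_iff` with `n = 1`
and `n = 2`); a prime `Q ∉ S`, `Q ≠ P` has `qn P ≤ qn Q` by `Adm.lower`, so `x ∈ Q` would give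
`qn P ^ 2 ≤ qn P * qn Q ≤ nm x`.
-/

namespace NFF

open NumberField

variable {K : Type} [Field K] [NumberField K]

lemma nm_ne_zero {x : 𝓞 K} (hx : x ≠ 0) : nm x ≠ 0 := by
  rw [nm, Ne, Int.natAbs_eq_zero]
  exact (Algebra.norm_ne_zero_iff).2 hx

lemma absNorm_le_nm {I : Ideal (𝓞 K)} {x : 𝓞 K} (hx : x ≠ 0) (h : x ∈ I) :
    Ideal.absNorm I ≤ nm x := by
  have h1 : Ideal.span {x} ≤ I := (Ideal.span_singleton_le_iff_mem I).2 h
  have h2 := Ideal.absNorm_dvd_absNorm_of_le h1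
  rw [Ideal.absNorm_span_singleton] at h2
  exact Nat.le_of_dvd (Nat.pos_of_ne_zero (nm_ne_zero hx)) h2

lemma qn_le_nm {P : Pr K} {x : 𝓞 K} (hx : x ≠ 0) (h : x ∈ P.asIdeal) : qn P ≤ nm x :=
  absNorm_le_nm hx h

lemma qn_sq_le_nm {P : Pr K} {x : 𝓞 K} (hx : x ≠ 0) (h : x ∈ P.asIdeal ^ 2) :
    qn P ^ 2 ≤ nm x := by
  have := absNorm_le_nm hx h
  rwa [map_pow] at this

lemma qn_mul_le_nm {P Q : Pr K} (hPQ : P ≠ Q) {x : 𝓞 K} (hx : x ≠ 0) (hP : x ∈ P.asIdeal)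
    (hQ : x ∈ Q.asIdeal) : qn P * qn Q ≤ nm x := by
  have hne : P.asIdeal ≠ Q.asIdeal := fun h => hPQ (IsDedekindDomain.HeightOneSpectrum.ext h)
  have hcop : IsCoprime P.asIdeal Q.asIdeal := by
    have := P.isMaximal
    have := Q.isMaximal
    exact Ideal.isCoprime_of_isMaximal hne
  have hmem : x ∈ P.asIdeal * Q.asIdeal := by
    rw [Ideal.mul_eq_inf_of_isCoprime hcop]
    exact ⟨hP, hQ⟩
  have := absNorm_le_nm hx hmem
  rwa [map_mul] at this

lemma qn_ne_zero (P : Pr K) : qn P ≠ 0 := by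
  rw [qn, Ne, Ideal.absNorm_eq_zero_iff]
  exact P.ne_bot

lemma two_le_qn (P : Pr K) : 2 ≤ qn P := by
  have h0 := qn_ne_zero P
  have h1 : qn P ≠ 1 := by
    rw [qn, Ne, Ideal.absNorm_eq_one_iff]
    exact P.isPrime.ne_top
  omega

lemma card_quot (P : Pr K) : Nat.card (𝓞 K ⧸ P.asIdeal) = qn P := by
  rw [qn, Ideal.absNorm_apply, Submodule.cardQuot_apply]

lemma finite_quot (P : Pr K) : Finite (𝓞 K ⧸ P.asIdeal) := by
  have h := qn_ne_zero P
  rw [← card_quot] at h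
  exact Nat.finite_of_card_ne_zero h

/-- finitely many primes of norm `< n` -/
theorem low_finite (n : ℕ) : (Low K n).Finite := by
  have h := Ideal.finite_setOfPred_absNorm_le (S := 𝓞 K) n
  refine Set.Finite.of_finite_image (f := fun P : Pr K => P.asIdeal) (h.subset ?_) ?_
  · rintro _ ⟨P, hP, rfl⟩
    exact le_of_lt (show qn P < n from hP)
  · intro P _ Q _ h
    exact IsDedekindDomain.HeightOneSpectrum.ext h

/-- integers of norm `< qn P` are `S`-units and not in `P` -/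
theorem su_of_nm_lt {S : Set (Pr K)} {P : Pr K} (hA : Adm S P) {x : 𝓞 K} (hx : x ≠ 0)
    (h : nm x < qn P) : SU S (x : K) ∧ x ∉ P.asIdeal := by
  have hxK : (x : K) ≠ 0 := by
    intro h0
    exact hx (RingOfIntegers.coe_eq_zero_iff.1 h0)
  refine ⟨⟨hxK, fun Q hQ => ?_⟩, fun hP => ?_⟩
  · rw [od_eq_zero_iff Q hx]
    intro hxQ
    exact hQ (hA.lower Q ((qn_le_nm hx hxQ).trans_lt h))
  · exact absurd (qn_le_nm hx hP) (not_le.2 h)

/-- elements of `P` of norm `< qn P ^ 2` are `P` times an `S`-unit -/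
theorem pu_of_nm_lt {S : Set (Pr K)} {P : Pr K} (hA : Adm S P) {x : 𝓞 K} (hx : x ≠ 0)
    (hP : x ∈ P.asIdeal) (h : nm x < qn P ^ 2) : PU S P (x : K) := by
  have hxK : (x : K) ≠ 0 := by
    intro h0
    exact hx (RingOfIntegers.coe_eq_zero_iff.1 h0)
  refine ⟨⟨hxK, fun Q hQ => ?_⟩, ?_⟩
  · rw [Set.mem_insert_iff, not_or] at hQ
    rw [od_eq_zero_iff Q hx]
    intro hxQ
    have h1 := qn_mul_le_nm (Ne.symm hQ.1) hx hP hxQ
    have h2 : qn P ≤ qn Q := not_lt.1 fun h => hQ.2 (hA.lower Q h)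
    have h3 : qn P ^ 2 ≤ qn P * qn Q := by
      rw [sq]
      exact Nat.mul_le_mul_left _ h2
    omega
  · have h1 : 0 < od P (x : K) := (od_pos_iff P hx).2 hP
    have h2 : ¬ ((2 : ℕ) : ℤ) ≤ od P (x : K) := by
      rw [le_od_iff P hx 2]
      intro h2
      have := qn_sq_le_nm hx h2
      omega
    push_cast at h2
    omega

end NFF
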