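import Pool.Agent.NFF.Gel

set_option autoImplicit false

/-!
# Project NFF, block G: the congruences (g1), (g2), (g3)

Pigeonhole in boxes (`pigeon`), and nonzero elements of `Med` are not in `P` (`med_not`).
-/

namespace NFF

open NumberField

variable {K : Type} [Field K] [NumberField K]

private lemma Gpg_pair {P : Pr K} {a : 𝓞 K} (ha : a ∉ P.asIdeal) {x y : 𝓞 K}
    (h : a * x - y ∈ P.asIdeal) (hx : x ≠ 0 → x ∉ P.asIdeal) (hy : y ≠ 0 → y ∉ P.asIdeal)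
    (hne : x ≠ 0 ∨ y ≠ 0) : x ≠ 0 ∧ y ≠ 0 := by
  by_cases hx0 : x = 0
  · exfalso
    have hy0 : y ≠ 0 := hne.resolve_left (not_not.2 hx0)
    rw [hx0, mul_zero, zero_sub, neg_mem_iff] at h
    exact hy hy0 h
  · refine ⟨hx0, fun hy0 => ?_⟩
    rw [hy0, sub_zero] at h
    rcases P.isPrime.mem_or_mem h with h1 | h1
    · exact ha h1
    · exact hx hx0 h1

private def Gpg_lin (a : 𝓞 K) {n : ℕ} (i j : Fin n) : (Fin n → 𝓞 K) →+ 𝓞 K where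
  toFun x := a * x i - x j
  map_zero' := by simp
  map_add' x y := by
    simp only [Pi.add_apply]
    ring

theorem g1 {c : ℕ} (hc : Con K c) {P : Pr K} (hq : c ^ 3 * 2 ^ (6 * dg K) < qn P) (a : 𝓞 K)
    (ha : a ∉ P.asIdeal) :
    ∃ e ∈ Tin K (qn P), ∃ e' ∈ Tin K (qn P), a * e - e' ∈ P.asIdeal := by
  have hd := dg_pos (K := K)
  obtain ⟨t, ht, ht'⟩ := exists_root (2 * dg K) (qn P) (by omega)
  have := finite_quot P
  have hcard : Nat.card (𝓞 K ⧸ P.asIdeal) < ∏ _i : Fin 2, (t + 1) ^ dg K := by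
    rw [card_quot, Fin.prod_univ_two, ← pow_add, ← two_mul]
    exact ht'
  obtain ⟨x, hx, hs, hf⟩ := pigeon
    ((Ideal.Quotient.mk P.asIdeal).toAddMonoidHom.comp (Gpg_lin a 0 1)) (fun _ => t) hcard
  have hf' : a * x 0 - x 1 ∈ P.asIdeal := Ideal.Quotient.eq_zero_iff_mem.1 hf
  have hT : ∀ i, x i ≠ 0 → x i ∈ Tin K (qn P) := fun i hi =>
    ⟨hi, (Nat.pow_le_pow_left (hs i) _).trans ht⟩
  have hP : ∀ i, x i ≠ 0 → x i ∉ P.asIdeal := fun i hi =>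
    med_not hc hq (me0_med _ (tin_me0 _ (hT i hi)))
  obtain ⟨h0, h1⟩ := Gpg_pair ha hf' (hP 0) (hP 1) (by
    by_contra hcon
    push Not at hcon
    apply hx
    funext i
    fin_cases i
    · exact hcon.1
    · exact hcon.2)
  exact ⟨x 0, hT 0 h0, x 1, hT 1 h1, hf'⟩

theorem g2 {c : ℕ} (hc : Con K c) {P : Pr K} (hq : c ^ 3 * 2 ^ (6 * dg K) < qn P) (a : 𝓞 K)
    (ha : a ∉ P.asIdeal) :
    ∃ x ∈ Sml K (qn P), ∃ y ∈ Me0 K (qn P), a * x - y ∈ P.asIdeal := by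
  have hd := dg_pos (K := K)
  obtain ⟨s, hs1, hs2⟩ := exists_root (3 * dg K) (qn P) (by omega)
  obtain ⟨m, hm1, hm2⟩ := exists_root (3 * dg K) (qn P ^ 2) (by omega)
  have := finite_quot P
  have hcard : Nat.card (𝓞 K ⧸ P.asIdeal) < ∏ i : Fin 2, ((![s, m] : Fin 2 → ℕ) i + 1) ^ dg K := by
    rw [card_quot, Fin.prod_univ_two]
    change qn P < (s + 1) ^ dg K * (m + 1) ^ dg K
    refine lt_of_pow_lt_pow_left₀ 3 (Nat.zero_le _) ?_
    have h1 : ((s + 1) ^ dg K * (m + 1) ^ dg K) ^ 3 =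
        (s + 1) ^ (3 * dg K) * (m + 1) ^ (3 * dg K) := by
      rw [mul_pow, ← pow_mul, ← pow_mul, mul_comm (dg K) 3]
    rw [h1, pow_succ' (qn P) 2]
    exact Nat.mul_lt_mul_of_lt_of_lt hs2 hm2
  obtain ⟨x, hx, hs, hf⟩ := pigeon
    ((Ideal.Quotient.mk P.asIdeal).toAddMonoidHom.comp (Gpg_lin a 0 1)) (![s, m]) hcard
  have hf' : a * x 0 - x 1 ∈ P.asIdeal := Ideal.Quotient.eq_zero_iff_mem.1 hf
  have hT0 : x 0 ≠ 0 → x 0 ∈ Sml K (qn P) := fun hi =>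
    ⟨hi, (Nat.pow_le_pow_left (hs 0) _).trans hs1⟩
  have hT1 : x 1 ≠ 0 → x 1 ∈ Me0 K (qn P) := fun hi =>
    ⟨hi, (Nat.pow_le_pow_left (hs 1) _).trans hm1⟩
  have hP0 : x 0 ≠ 0 → x 0 ∉ P.asIdeal := fun hi =>
    med_not hc hq (me0_med _ (tin_me0 _ (sml_tin _ (hT0 hi))))
  have hP1 : x 1 ≠ 0 → x 1 ∉ P.asIdeal := fun hi => med_not hc hq (me0_med _ (hT1 hi))
  obtain ⟨h0, h1⟩ := Gpg_pair ha hf' hP0 hP1 (by
    by_contra hcon
    push Not at hcon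
    apply hx
    funext i
    fin_cases i
    · exact hcon.1
    · exact hcon.2)
  exact ⟨x 0, hT0 h0, x 1, hT1 h1, hf'⟩

theorem g3 {c : ℕ} (hc : Con K c) {P : Pr K} (hq : c ^ 3 * 2 ^ (6 * dg K) < qn P) (a b : 𝓞 K)
    (ha : a ∉ P.asIdeal) (hb : b ∉ P.asIdeal) :
    ∃ x ∈ Me0 K (qn P), ∃ y ∈ Me0 K (qn P), ∃ z ∈ Me0 K (qn P),
      a * x - y ∈ P.asIdeal ∧ b * x - z ∈ P.asIdeal := by
  have hd := dg_pos (K := K)
  obtain ⟨m, hm1, hm2⟩ := exists_root (3 * dg K) (qn P ^ 2) (by omega)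
  have := finite_quot P
  have hcard : Nat.card ((𝓞 K ⧸ P.asIdeal) × (𝓞 K ⧸ P.asIdeal)) <
      ∏ _i : Fin 3, (m + 1) ^ dg K := by
    rw [Nat.card_prod, card_quot, Finset.prod_const, Finset.card_univ, Fintype.card_fin,
      ← pow_mul, mul_comm (dg K) 3, ← pow_two]
    exact hm2
  obtain ⟨x, hx, hs, hf⟩ := pigeon
    (((Ideal.Quotient.mk P.asIdeal).toAddMonoidHom.comp (Gpg_lin a 0 1)).prod
      ((Ideal.Quotient.mk P.asIdeal).toAddMonoidHom.comp (Gpg_lin b 0 2))) (fun _ => m) hcard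
  have hfa : a * x 0 - x 1 ∈ P.asIdeal :=
    Ideal.Quotient.eq_zero_iff_mem.1 (congrArg Prod.fst hf)
  have hfb : b * x 0 - x 2 ∈ P.asIdeal :=
    Ideal.Quotient.eq_zero_iff_mem.1 (congrArg Prod.snd hf)
  have hT : ∀ i, x i ≠ 0 → x i ∈ Me0 K (qn P) := fun i hi =>
    ⟨hi, (Nat.pow_le_pow_left (hs i) _).trans hm1⟩
  have hP : ∀ i, x i ≠ 0 → x i ∉ P.asIdeal := fun i hi => med_not hc hq (me0_med _ (hT i hi))
  have h0 : x 0 ≠ 0 := by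
    intro h0
    apply hx
    funext i
    fin_cases i
    · exact h0
    · by_contra h1
      exact (Gpg_pair ha hfa (hP 0) (hP 1) (Or.inr h1)).1 h0
    · by_contra h1
      exact (Gpg_pair hb hfb (hP 0) (hP 2) (Or.inr h1)).1 h0
  have h1 := (Gpg_pair ha hfa (hP 0) (hP 1) (Or.inl h0)).2
  have h2 := (Gpg_pair hb hfb (hP 0) (hP 2) (Or.inl h0)).2
  exact ⟨x 0, hT 0 h0, x 1, hT 1 h1, x 2, hT 2 h2, hfa, hfb⟩

end NFF
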