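import Pool.Agent.NFF.HDefs

set_option autoImplicit false

/-!
# NFF, all weights: functionals on `Λ^{n+2}` from `V × Λ^{n+1}`
-/

namespace NFF

open Pool.Agent.Helper91.Gon

variable {V : Type*} [AddCommGroup V] [Module ℚ V]

/-- `v ∧` followed by comultiplication and multiplication: `(n + 1) ω` -/
theorem lift_wdg_cml (n : ℕ) (ω : Lam V (n + 1)) :
    TensorProduct.lift (wdg V n) (cml V n ω) = ((n + 1 : ℕ) : ℚ) • ω := by
  rw [wdg_cml, Nat.cast_succ]

theorem exists_alt_fun (n : ℕ) (f : V →ₗ[ℚ] Lam V (n + 1) →ₗ[ℚ] ℚ)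
    (hf : ∀ (v : V) (ω : Lam V n), f v (wdg V n v ω) = 0) :
    ∃ N : Lam V (n + 2) →ₗ[ℚ] ℚ, ∀ (v : V) (ω : Lam V (n + 1)),
      N (wdg V (n + 1) v ω) = f v ω := by
  have hpol : ∀ (u v : V) (η : Lam V n), f u (wdg V n v η) = - f v (wdg V n u η) := by
    intro u v η
    have h1 := hf (u + v) η
    have h2 := hf u η
    have h3 := hf v η
    simp only [map_add, LinearMap.add_apply] at h1
    linarith
  have key : ∀ (v : V) (t : TensorProduct ℚ V (Lam V n)),
      TensorProduct.lift f ((wdg V n v).lTensor V t) =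
        - f v (TensorProduct.lift (wdg V n) t) := by
    intro v t
    induction t using TensorProduct.induction_on with
    | zero => simp only [map_zero, neg_zero]
    | tmul u η =>
      rw [LinearMap.lTensor_tmul, TensorProduct.lift.tmul, TensorProduct.lift.tmul, hpol]
    | add a b ha hb => rw [map_add, map_add, map_add, map_add, ha, hb, neg_add]
  have hne : ((n : ℚ) + 2) ≠ 0 := by positivity
  refine ⟨((n : ℚ) + 2)⁻¹ • (TensorProduct.lift f ∘ₗ cml V (n + 1)), fun v ω => ?_⟩
  rw [LinearMap.smul_apply, LinearMap.comp_apply, cml_wdg_succ, map_sub,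
    TensorProduct.lift.tmul, key, lift_wdg_cml, map_smul, smul_eq_mul, smul_eq_mul]
  push_cast
  field_simp
  ring

end NFF
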