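import Pool.Agent.NFF.GMul

set_option autoImplicit false

/-!
# Generation of the cocycles by cocycles of low degree, all codegrees
-/

namespace Pool.Agent.NFF

open scoped TensorProduct
open TensorProduct Pool.Agent.Helper91.Gon

universe u v w x

section cl

variable {V : Type u} [AddCommGroup V] [Module ℚ V]

/-- relations between `y_1 ∧, ..., y_k ∧` modulo `Z` come from elements of `Z` -/
def Cl {W : Type v} [AddCommGroup W] [Module ℚ W] (Z : ∀ j : ℕ, Submodule ℚ (W ⊗[ℚ] Lam V j))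
    (j : ℕ) : Prop :=
  ∀ (k : ℕ) (y : Fin k → V), LinearIndependent ℚ y → ∀ θ : Fin k → W ⊗[ℚ] Lam V j,
    ∑ m, yw W j (y m) (θ m) ∈ Z (j + 1) →
    ∃ ζ : Fin k → W ⊗[ℚ] Lam V j, (∀ m, ζ m ∈ Z j) ∧
      ∑ m, yw W j (y m) (θ m) = ∑ m, yw W j (y m) (ζ m)

variable {W0 : Type w} [AddCommGroup W0] [Module ℚ W0] (d2 : W0 →ₗ[ℚ] Lam V 2)

/-- the first codegree -/
theorem cl_one {j : ℕ} (hd : Function.Surjective (del d2 j)) :
    Cl (fun j => LinearMap.ker (del d2 j)) (j + 1) := by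
  intro k y hy θ hθ
  refine claim d2 j hd k y hy θ ?_
  rw [LinearMap.mem_ker, map_sum] at hθ
  rw [← hθ]
  exact Finset.sum_congr rfl fun m _ => (del_yw d2 (j + 1) (y m) (θ m)).symm

variable {W : Type v} [AddCommGroup W] [Module ℚ W]

variable (W) in
/-- contraction with a functional -/
noncomputable def ctw (l : V →ₗ[ℚ] ℚ) (n : ℕ) : W ⊗[ℚ] Lam V (n + 1) →ₗ[ℚ] W ⊗[ℚ] Lam V n :=
  (ctr l n).lTensor W

theorem ctw_yw (l : V →ₗ[ℚ] ℚ) (n : ℕ) (v : V) (z : W ⊗[ℚ] Lam V (n + 1)) :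
    ctw W l (n + 1) (yw W (n + 1) v z) = l v • z - yw W n v (ctw W l n z) := by
  induction z using TensorProduct.induction_on with
  | zero => simp only [map_zero, smul_zero, sub_zero]
  | tmul a b =>
    rw [yw_tmul, ctw, LinearMap.lTensor_tmul, ctr_wdg, ctw, LinearMap.lTensor_tmul, yw_tmul,
      TensorProduct.tmul_sub, TensorProduct.tmul_smul]
  | add a b ha hb =>
    rw [map_add, map_add, ha, hb, map_add, map_add, smul_add]
    abel

variable {W' : Type x} [AddCommGroup W'] [Module ℚ W']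
  {Z : ∀ j : ℕ, Submodule ℚ (W ⊗[ℚ] Lam V j)}
  (D : ∀ j : ℕ, W' ⊗[ℚ] Lam V j →ₗ[ℚ] W ⊗[ℚ] Lam V (j + 1))

/-- one codegree up -/
theorem cl_succ (hD : ∀ (j : ℕ) (y : V) (z : W' ⊗[ℚ] Lam V j),
      D (j + 1) (yw W' j y z) = - yw W (j + 1) y (D j z))
    (hDZ : ∀ (j : ℕ) (z : W' ⊗[ℚ] Lam V j), D j z ∈ Z (j + 1)) {i : ℕ}
    (hZR : Z (i + 1) ≤ LinearMap.range (D i)) (hcl : Cl Z (i + 1)) :
    Cl (fun j => LinearMap.ker (D j)) (i + 1) := by
  intro k
  induction k with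
  | zero =>
    intro y _ θ _
    exact ⟨θ, fun m => m.elim0, rfl⟩
  | succ k ih =>
    intro y hy θ hθ
    have hθ0 : ∑ m, yw W (i + 2) (y m) (D (i + 1) (θ m)) = 0 := by
      rw [LinearMap.mem_ker, map_sum] at hθ
      simp only [hD, Finset.sum_neg_distrib] at hθ
      exact neg_eq_zero.1 hθ
    obtain ⟨l, hl1, hl0⟩ := exists_dual hy
    have hlast : D (i + 1) (θ (Fin.last k)) =
        ∑ m, yw W (i + 1) (y m) (ctw W l (i + 1) (D (i + 1) (θ m))) := by
      have h1 := congrArg (ctw W l (i + 2)) hθ0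
      rw [map_zero, map_sum] at h1
      simp only [ctw_yw] at h1
      rw [Finset.sum_sub_distrib, sub_eq_zero] at h1
      rw [← h1, Fin.sum_univ_castSucc, hl1, one_smul]
      simp only [hl0, zero_smul, Finset.sum_const_zero, zero_add]
    obtain ⟨ζ, hζ, hζ2⟩ := hcl (k + 1) y hy (fun m => ctw W l (i + 1) (D (i + 1) (θ m))) (by
      rw [← hlast]
      exact hDZ _ _)
    choose ξ hξ using fun m => hZR (hζ m)
    let θl : W' ⊗[ℚ] Lam V (i + 1) := θ (Fin.last k) + ∑ m, yw W' i (y m) (ξ m)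
    have hθl : D (i + 1) θl = 0 := by
      change D (i + 1) (θ (Fin.last k) + ∑ m, yw W' i (y m) (ξ m)) = 0
      rw [map_add, map_sum, hlast, hζ2, ← Finset.sum_add_distrib]
      refine Finset.sum_eq_zero fun m _ => ?_
      rw [hD, hξ, add_neg_cancel]
    let θ' : Fin k → W' ⊗[ℚ] Lam V (i + 1) := fun m =>
      θ m.castSucc + yw W' i (y (Fin.last k)) (ξ m.castSucc)
    have htot : ∑ m, yw W' (i + 1) (y m) (θ m) =
        yw W' (i + 1) (y (Fin.last k)) θl +
          ∑ m, yw W' (i + 1) (y m.castSucc) (θ' m) := by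
      have h1 : yw W' (i + 1) (y (Fin.last k)) θl =
          yw W' (i + 1) (y (Fin.last k)) (θ (Fin.last k)) +
          ∑ m : Fin k, yw W' (i + 1) (y (Fin.last k)) (yw W' i (y m.castSucc) (ξ m.castSucc)) := by
        change yw W' (i + 1) (y (Fin.last k)) (θ (Fin.last k) + ∑ m, yw W' i (y m) (ξ m)) = _
        rw [map_add, map_sum, Fin.sum_univ_castSucc, yw_self, add_zero]
      have h2 : ∑ m, yw W' (i + 1) (y m.castSucc) (θ' m) =
          (∑ m : Fin k, yw W' (i + 1) (y m.castSucc) (θ m.castSucc)) -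
          ∑ m : Fin k, yw W' (i + 1) (y (Fin.last k)) (yw W' i (y m.castSucc) (ξ m.castSucc)) := by
        rw [← Finset.sum_sub_distrib]
        refine Finset.sum_congr rfl fun m _ => ?_
        change yw W' (i + 1) (y m.castSucc)
          (θ m.castSucc + yw W' i (y (Fin.last k)) (ξ m.castSucc)) = _
        rw [map_add, yw_anti i (y m.castSucc) (y (Fin.last k)), sub_eq_add_neg]
      rw [h1, h2, Fin.sum_univ_castSucc]
      abel
    have hθ' : ∑ m, yw W' (i + 1) (y m.castSucc) (θ' m) ∈ LinearMap.ker (D (i + 2)) := by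
      have h1 : ∑ m, yw W' (i + 1) (y m.castSucc) (θ' m) =
          ∑ m, yw W' (i + 1) (y m) (θ m) - yw W' (i + 1) (y (Fin.last k)) θl := by
        rw [htot]
        abel
      rw [h1]
      refine Submodule.sub_mem _ hθ ?_
      rw [LinearMap.mem_ker, hD, hθl, map_zero, neg_zero]
    obtain ⟨η, hη, hη2⟩ := ih (fun m => y m.castSucc)
      (hy.comp _ (Fin.castSucc_injective k)) θ' hθ'
    refine ⟨Fin.snoc η θl, fun m => ?_, ?_⟩
    · refine Fin.lastCases ?_ (fun m => ?_) m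
      · rw [Fin.snoc_last]
        exact hθl
      · rw [Fin.snoc_castSucc]
        exact hη m
    · rw [htot, hη2, Fin.sum_univ_castSucc (f := fun m => yw W' (i + 1) (y m)
        ((Fin.snoc η θl : Fin (k + 1) → W' ⊗[ℚ] Lam V (i + 1)) m))]
      simp only [Fin.snoc_castSucc, Fin.snoc_last]
      exact add_comm _ _

/-- generation, one step -/
theorem Cl.gen {j : ℕ} (h : Cl Z j) {z : W ⊗[ℚ] Lam V (j + 1)} (hz : z ∈ Z (j + 1)) :
    ∃ (k : ℕ) (y : Fin k → V) (ζ : Fin k → W ⊗[ℚ] Lam V j),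
      (∀ m, ζ m ∈ Z j) ∧ z = ∑ m, yw W j (y m) (ζ m) := by
  obtain ⟨k, y, hy, hz2⟩ := decomp j (Submodule.fg_span_singleton (R := ℚ) z)
  obtain ⟨θ, hθ⟩ := hz2 z (Submodule.mem_span_singleton_self z)
  rw [hθ] at hz
  obtain ⟨ζ, hζ, hζ2⟩ := h k y hy θ hz
  exact ⟨k, y, ζ, hζ, hθ.trans hζ2⟩

/-- generation -/
theorem Cl.gen_iter {i : ℕ} (h : ∀ t, Cl Z (i + t)) (k : ℕ) :
    ∀ z : W ⊗[ℚ] Lam V (i + k), z ∈ Z (i + k) →
      z ∈ Submodule.span ℚ {y | ∃ (a : Lam V k) (ζ : W ⊗[ℚ] Lam V i),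
        ζ ∈ Z i ∧ y = am V W k i a ζ} := by
  induction k with
  | zero =>
    intro z hz
    refine Submodule.subset_span ⟨Abs.iota 0 ![], z, hz, ?_⟩
    exact (am_zero i ![] z).symm
  | succ k ih =>
    intro z hz
    obtain ⟨l, y, ζ, hζ, rfl⟩ := (h k).gen hz
    refine Submodule.sum_mem _ fun m _ => ?_
    have h1 := ih (ζ m) (hζ m)
    generalize ζ m = t at h1
    induction h1 using Submodule.span_induction with
    | mem t ht =>
      obtain ⟨a, ζ', hζ', rfl⟩ := ht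
      exact Submodule.subset_span ⟨wdg V k (y m) a, ζ', hζ', (am_wdg k i (y m) a ζ').symm⟩
    | zero =>
      rw [map_zero]
      exact Submodule.zero_mem _
    | add a b _ _ ha hb =>
      rw [map_add]
      exact Submodule.add_mem _ ha hb
    | smul c a _ ha =>
      rw [map_smul]
      exact Submodule.smul_mem _ c ha

/-- products of cocycles with elements of the exterior algebra -/
theorem am_mem (hZy : ∀ (j : ℕ) (y : V) (z : W ⊗[ℚ] Lam V j), z ∈ Z j → yw W j y z ∈ Z (j + 1))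
    (k i : ℕ) (a : Lam V k) (z : W ⊗[ℚ] Lam V i) (hz : z ∈ Z i) :
    am V W k i a z ∈ Z (i + k) := by
  refine Abs.Lam_span k ((Z (i + k)).comap ((am V W k i).flip z)) (fun w => ?_) a
  change am V W k i (Abs.iota k w) z ∈ Z (i + k)
  induction k with
  | zero =>
    have h := am_zero i w z
    have h2 : am V W 0 i (Abs.iota 0 w) z ∈ Z i := by rw [h]; exact hz
    exact h2
  | succ k ih =>
    rw [iota_succ, am_wdg]
    exact hZy _ _ _ (ih (Abs.iota k fun i => w i.succ) _)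

/-- vanishing -/
theorem van_gen (hZy : ∀ (j : ℕ) (y : V) (z : W ⊗[ℚ] Lam V j), z ∈ Z j → yw W j y z ∈ Z (j + 1))
    {R : ∀ j : ℕ, Submodule ℚ (W ⊗[ℚ] Lam V j)}
    (hmod : ∀ (w : W0) (j : ℕ) (z : W ⊗[ℚ] Lam V j), z ∈ Z j →
      (wdg2 V j (d2 w)).lTensor W z ∈ R (j + 2))
    {k : ℕ} (hd : Function.Surjective (del d2 k)) {i : ℕ} (h : ∀ t, Cl Z (i + t)) (t : ℕ) :
    Z (i + (k + t + 2)) ≤ R (i + (k + t + 2)) := by
  intro z hz
  have h1 := Cl.gen_iter h (k + t + 2) z hz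
  refine (Submodule.span_le.2 ?_) h1
  rintro _ ⟨a, ζ, hζ, rfl⟩
  obtain ⟨θ, rfl⟩ := surj_up d2 hd t a
  rw [SetLike.mem_coe]
  induction θ using TensorProduct.induction_on with
  | zero =>
    rw [map_zero, map_zero, LinearMap.zero_apply]
    exact Submodule.zero_mem _
  | tmul w b =>
    rw [del_tmul, am_wdg2]
    exact hmod w (i + (k + t)) _ (am_mem hZy (k + t) i b ζ hζ)
  | add a b ha hb =>
    rw [map_add, map_add, LinearMap.add_apply]
    exact Submodule.add_mem _ ha hb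

end cl

end Pool.Agent.NFF
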