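import Pool.Agent.NFF.Defs
import Pool.Agent.Helper91.Gon.Abs

set_option autoImplicit false

/-!
# NFF, all weights: definitions

`Lam V n` is the exterior power, `wdg V n v ω = v ∧ ω`, `iota n w = w 0 ∧ ... ∧ w (n-1)`.
-/

namespace NFF

open Pool.Agent.Helper91.Gon

/-- the part of `Λ^n V` which comes from the subspace `U` -/
noncomputable def LamS {V : Type*} [AddCommGroup V] [Module ℚ V] (U : Submodule ℚ V) (n : ℕ) :
    Submodule ℚ (Lam V n) :=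
  Submodule.span ℚ {z | ∃ w : Fin n → V, (∀ i, w i ∈ U) ∧ z = Abs.iota n w}

/-- The main theorem for families of functions indexed by `Λ^{j+1}`. -/
def MainAll (K : Type) [Field K] : Prop :=
  ∀ (j : ℕ) (F : Submodule ℚ (K → ℚ)), Fam F → ∃ X0 Y0 : Finset K,
    ∀ φ : Lam (VV K) (j + 1) →ₗ[ℚ] (K → ℚ), (∀ ω, φ ω ∈ F) →
      (∀ x : K, x ≠ 0 → x ≠ 1 → ∀ ω : Lam (VV K) j, φ (wdg (VV K) j (lg x) ω) x = 0) →
      (∀ x ∈ X0, ∀ w : Fin (j + 1) → K, (∀ i, w i ∈ Y0) →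
        φ (Abs.iota (j + 1) fun i => lg (w i)) x = 0) →
      ∀ X Y : Finset K, (∀ x ∈ X, x ≠ 0 ∧ x ≠ 1) → (∀ y ∈ Y, y ≠ 0) →
        ∃ T : Lam (VV K) (j + 3) →ₗ[ℚ] ℚ, ∀ x ∈ X, ∀ w : Fin (j + 1) → K, (∀ i, w i ∈ Y) →
          φ (Abs.iota (j + 1) fun i => lg (w i)) x =
            T (wdg (VV K) (j + 2) (lg (1 - x)) (wdg (VV K) (j + 1) (lg x)
              (Abs.iota (j + 1) fun i => lg (w i))))

end NFF
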