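import Pool.Agent.NFF.GMul

set_option autoImplicit false

/-!
# Generation one step higher

`U → W ⊗ V`, `W → Λ² V`; the kernels `Y_j` of `U ⊗ Λ^j → W ⊗ Λ^{j+1}` are generated by `Y_i` as soon as `W ⊗ Λ^k → Λ^{k+2}` is
surjective and `U ⊗ Λ^k → W ⊗ Λ^{k+1} → Λ^{k+3}` is exact for all large `k`.
-/

namespace Pool.Agent.NFF

open scoped TensorProduct
open TensorProduct Pool.Agent.Helper91.Gon
open Helper14.Gon (P1 ZP br MU LM lgm elx ely BB CC TT clb gn tp dd dl RR CC_ext dd_gn dl_gn)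
open Helper14.Loc (HC HT ZC BC BT hc ht)
open _root_.QGC (lq lq_mul vq_ext aq_eq bq_eq sq_zero' sq_inf')

universe u v w

section alg

variable {V : Type u} [AddCommGroup V] [Module ℚ V] {W : Type v} [AddCommGroup W] [Module ℚ W]
  {U : Type w} [AddCommGroup U] [Module ℚ U]

/-- contraction on `W ⊗ Λ` -/
noncomputable def hfCtr (l : V →ₗ[ℚ] ℚ) (n : ℕ) : W ⊗[ℚ] Lam V (n + 1) →ₗ[ℚ] W ⊗[ℚ] Lam V n :=
  (ctr l n).lTensor W

private theorem hfa_ctr (l : V →ₗ[ℚ] ℚ) (n : ℕ) (v : V) (z : W ⊗[ℚ] Lam V (n + 1)) :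
    hfCtr l (n + 1) (yw W (n + 1) v z) = l v • z - yw W n v (hfCtr l n z) := by
  unfold hfCtr
  induction z using TensorProduct.induction_on with
  | zero => simp only [map_zero, smul_zero, sub_zero]
  | tmul w ω =>
    rw [yw_tmul, LinearMap.lTensor_tmul, LinearMap.lTensor_tmul, yw_tmul, ctr_wdg,
      TensorProduct.tmul_sub, TensorProduct.tmul_smul]
  | add a b ha hb =>
    rw [map_add, map_add, ha, hb, map_add, map_add, smul_add]
    abel

variable (d2 : W →ₗ[ℚ] Lam V 2) (D : ∀ j : ℕ, U ⊗[ℚ] Lam V j →ₗ[ℚ] W ⊗[ℚ] Lam V (j + 1))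

/-- the relations between the multiplications with independent vectors, one step higher -/
theorem claim3 (hD : ∀ (j : ℕ) (y : V) (z : U ⊗[ℚ] Lam V j),
      D (j + 1) (yw U j y z) = - yw W (j + 1) y (D j z))
    (hDD : ∀ (j : ℕ) (z : U ⊗[ℚ] Lam V j), del d2 (j + 1) (D j z) = 0)
    (j : ℕ) (hd : Function.Surjective (del d2 j))
    (hex : ∀ z : W ⊗[ℚ] Lam V (j + 1), del d2 (j + 1) z = 0 → ∃ ξ, D j ξ = z) :
    ∀ (k : ℕ) (y : Fin k → V), LinearIndependent ℚ y → ∀ θ : Fin k → U ⊗[ℚ] Lam V (j + 1),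
    ∑ m, yw W (j + 2) (y m) (D (j + 1) (θ m)) = 0 →
    ∃ ζ : Fin k → U ⊗[ℚ] Lam V (j + 1), (∀ m, D (j + 1) (ζ m) = 0) ∧
      ∑ m, yw U (j + 1) (y m) (θ m) = ∑ m, yw U (j + 1) (y m) (ζ m) := by
  intro k
  induction k with
  | zero =>
    intro y _ θ _
    exact ⟨θ, fun m => m.elim0, rfl⟩
  | succ k ih =>
    intro y hy θ hθ
    obtain ⟨l, hl1, hl0⟩ := exists_dual hy
    -- the last coefficient
    have hlast : D (j + 1) (θ (Fin.last k)) =
        ∑ m, yw W (j + 1) (y m) (hfCtr l (j + 1) (D (j + 1) (θ m))) := by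
      have h1 := congrArg (hfCtr l (j + 2)) hθ
      rw [map_zero, map_sum] at h1
      simp only [hfa_ctr] at h1
      rw [Finset.sum_sub_distrib, sub_eq_zero] at h1
      rw [← h1, Fin.sum_univ_castSucc, hl1, one_smul]
      simp only [hl0, zero_smul, Finset.sum_const_zero, zero_add]
    have h0 : ∑ m, wdg V (j + 3) (y m)
        (del d2 (j + 1) (hfCtr l (j + 1) (D (j + 1) (θ m)))) = 0 := by
      have h1 := hDD (j + 1) (θ (Fin.last k))
      rw [hlast, map_sum] at h1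
      simp only [del_yw] at h1
      exact h1
    obtain ⟨γ, hγ, hγ2⟩ := claim d2 j hd (k + 1) y hy _ h0
    rw [hγ2] at hlast
    choose ξ hξ using fun m => hex (γ m) (hγ m)
    let θl : U ⊗[ℚ] Lam V (j + 1) := θ (Fin.last k) + ∑ m, yw U j (y m) (ξ m)
    have hθl : D (j + 1) θl = 0 := by
      change D (j + 1) (θ (Fin.last k) + ∑ m, yw U j (y m) (ξ m)) = 0
      rw [map_add, map_sum, hlast, ← Finset.sum_add_distrib]
      refine Finset.sum_eq_zero fun m _ => ?_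
      rw [hD, hξ, add_neg_cancel]
    let θ' : Fin k → U ⊗[ℚ] Lam V (j + 1) := fun m =>
      θ m.castSucc + yw U j (y (Fin.last k)) (ξ m.castSucc)
    have htot : ∑ m, yw U (j + 1) (y m) (θ m) =
        yw U (j + 1) (y (Fin.last k)) θl +
          ∑ m, yw U (j + 1) (y m.castSucc) (θ' m) := by
      have h1 : yw U (j + 1) (y (Fin.last k)) θl = yw U (j + 1) (y (Fin.last k)) (θ (Fin.last k)) +
          ∑ m : Fin k, yw U (j + 1) (y (Fin.last k)) (yw U j (y m.castSucc) (ξ m.castSucc)) := by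
        change yw U (j + 1) (y (Fin.last k)) (θ (Fin.last k) + ∑ m, yw U j (y m) (ξ m)) = _
        rw [map_add, map_sum, Fin.sum_univ_castSucc, yw_self, add_zero]
      have h2 : ∑ m, yw U (j + 1) (y m.castSucc) (θ' m) =
          (∑ m : Fin k, yw U (j + 1) (y m.castSucc) (θ m.castSucc)) -
          ∑ m : Fin k, yw U (j + 1) (y (Fin.last k)) (yw U j (y m.castSucc) (ξ m.castSucc)) := by
        rw [← Finset.sum_sub_distrib]
        refine Finset.sum_congr rfl fun m _ => ?_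
        change yw U (j + 1) (y m.castSucc)
          (θ m.castSucc + yw U j (y (Fin.last k)) (ξ m.castSucc)) = _
        rw [map_add, yw_anti j (y m.castSucc) (y (Fin.last k)), sub_eq_add_neg]
      rw [h1, h2, Fin.sum_univ_castSucc]
      abel
    have hθ' : ∑ m, yw W (j + 2) (y m.castSucc) (D (j + 1) (θ' m)) = 0 := by
      have h1 := congrArg (D (j + 2)) htot
      rw [map_sum, map_add, map_sum] at h1
      simp only [hD] at h1
      rw [Finset.sum_neg_distrib, hθ, hθl, map_zero, neg_zero, zero_add,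
        Finset.sum_neg_distrib] at h1
      exact neg_eq_zero.1 h1.symm
    obtain ⟨ζ, hζ, hζ2⟩ := ih (fun m => y m.castSucc)
      (hy.comp _ (Fin.castSucc_injective k)) θ' hθ'
    refine ⟨Fin.snoc ζ θl, fun m => ?_, ?_⟩
    · refine Fin.lastCases ?_ (fun m => ?_) m
      · rw [Fin.snoc_last]
        exact hθl
      · rw [Fin.snoc_castSucc]
        exact hζ m
    · rw [htot, hζ2, Fin.sum_univ_castSucc (f := fun m => yw U (j + 1) (y m)
        ((Fin.snoc ζ θl : Fin (k + 1) → U ⊗[ℚ] Lam V (j + 1)) m))]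
      simp only [Fin.snoc_castSucc, Fin.snoc_last]
      exact add_comm _ _

/-- the kernel in degree `j + 2` is generated by the kernel in degree `j + 1` -/
theorem gen3 (hD : ∀ (j : ℕ) (y : V) (z : U ⊗[ℚ] Lam V j),
      D (j + 1) (yw U j y z) = - yw W (j + 1) y (D j z))
    (hDD : ∀ (j : ℕ) (z : U ⊗[ℚ] Lam V j), del d2 (j + 1) (D j z) = 0)
    {j : ℕ} (hd : Function.Surjective (del d2 j))
    (hex : ∀ z : W ⊗[ℚ] Lam V (j + 1), del d2 (j + 1) z = 0 → ∃ ξ, D j ξ = z)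
    (z : U ⊗[ℚ] Lam V (j + 2)) (hz : D (j + 2) z = 0) :
    ∃ (k : ℕ) (y : Fin k → V) (ζ : Fin k → U ⊗[ℚ] Lam V (j + 1)),
      (∀ m, D (j + 1) (ζ m) = 0) ∧ z = ∑ m, yw U (j + 1) (y m) (ζ m) := by
  obtain ⟨k, y, hy, hz2⟩ := decomp (j + 1) (Submodule.fg_span_singleton (R := ℚ) z)
  obtain ⟨θ, hθ⟩ := hz2 z (Submodule.mem_span_singleton_self z)
  have h2 : ∑ m, yw W (j + 2) (y m) (D (j + 1) (θ m)) = 0 := by
    rw [hθ, map_sum] at hz
    simp only [hD] at hz
    rw [Finset.sum_neg_distrib] at hz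
    exact neg_eq_zero.1 hz
  obtain ⟨ζ, hζ, hζ2⟩ := claim3 d2 D hD hDD j hd hex k y hy θ h2
  exact ⟨k, y, ζ, hζ, hθ.trans hζ2⟩

/-- the same, with a free index -/
theorem gen3' (hD : ∀ (j : ℕ) (y : V) (z : U ⊗[ℚ] Lam V j),
      D (j + 1) (yw U j y z) = - yw W (j + 1) y (D j z))
    (hDD : ∀ (j : ℕ) (z : U ⊗[ℚ] Lam V j), del d2 (j + 1) (D j z) = 0) :
    ∀ (n j : ℕ), n = j + 1 → Function.Surjective (del d2 j) →
    (∀ z : W ⊗[ℚ] Lam V (j + 1), del d2 (j + 1) z = 0 → ∃ ξ, D j ξ = z) →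
    ∀ z : U ⊗[ℚ] Lam V (n + 1), D (n + 1) z = 0 →
    ∃ (k : ℕ) (y : Fin k → V) (ζ : Fin k → U ⊗[ℚ] Lam V n),
      (∀ m, D n (ζ m) = 0) ∧ z = ∑ m, yw U n (y m) (ζ m) := by
  rintro n j rfl hd hex z hz
  exact gen3 d2 D hD hDD hd hex z hz

/-- the kernel in degree `i + k` is `Λ^k` times the kernel in degree `i = j + 1` -/
theorem gen3_iter (hD : ∀ (j : ℕ) (y : V) (z : U ⊗[ℚ] Lam V j),
      D (j + 1) (yw U j y z) = - yw W (j + 1) y (D j z))
    (hDD : ∀ (j : ℕ) (z : U ⊗[ℚ] Lam V j), del d2 (j + 1) (D j z) = 0)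
    {j : ℕ} (hd : Function.Surjective (del d2 j))
    (hex : ∀ (t : ℕ) (z : W ⊗[ℚ] Lam V (j + t + 1)), del d2 (j + t + 1) z = 0 →
      ∃ ξ, D (j + t) ξ = z) (k : ℕ) :
    ∀ z : U ⊗[ℚ] Lam V (j + 1 + k), D (j + 1 + k) z = 0 →
      z ∈ Submodule.span ℚ {y | ∃ (a : Lam V k) (ζ : U ⊗[ℚ] Lam V (j + 1)),
        D (j + 1) ζ = 0 ∧ y = am V U k (j + 1) a ζ} := by
  induction k with
  | zero =>
    intro z hz
    refine Submodule.subset_span ⟨Abs.iota 0 ![], z, hz, ?_⟩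
    exact (am_zero (j + 1) ![] z).symm
  | succ k ih =>
    intro z hz
    have hd2 : Function.Surjective (del d2 (j + k)) := surj_up d2 hd k
    obtain ⟨l, y, ζ, hζ, rfl⟩ := gen3' d2 D hD hDD (j + 1 + k) (j + k) (by omega) hd2 (hex k) z hz
    refine Submodule.sum_mem _ fun m _ => ?_
    have h1 := ih (ζ m) (hζ m)
    generalize ζ m = t at h1
    induction h1 using Submodule.span_induction with
    | mem t ht =>
      obtain ⟨a, ζ', hζ', rfl⟩ := ht
      exact Submodule.subset_span ⟨wdg V k (y m) a, ζ', hζ', (am_wdg k (j + 1) (y m) a ζ').symm⟩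
    | zero =>
      rw [map_zero]
      exact Submodule.zero_mem _
    | add a b _ _ ha hb =>
      rw [map_add]
      exact Submodule.add_mem _ ha hb
    | smul c a _ ha =>
      rw [map_smul]
      exact Submodule.smul_mem _ c ha

/-- products with kernel elements are kernel elements -/
theorem am_kerD (hD : ∀ (j : ℕ) (y : V) (z : U ⊗[ℚ] Lam V j),
      D (j + 1) (yw U j y z) = - yw W (j + 1) y (D j z))
    (k i : ℕ) (a : Lam V k) (z : U ⊗[ℚ] Lam V i) (hz : D i z = 0) :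
    D (i + k) (am V U k i a z) = 0 := by
  let N : Submodule ℚ (Lam V k) :=
    LinearMap.ker ((D (i + k)) ∘ₗ (am V U k i).flip z)
  refine Abs.Lam_span k N (fun w => ?_) a
  change D (i + k) (am V U k i (Abs.iota k w) z) = 0
  clear N
  induction k with
  | zero =>
    have h := am_zero i w z
    have h2 : D i (am V U 0 i (Abs.iota 0 w) z) = 0 := by rw [h]; exact hz
    exact h2
  | succ k ih =>
    have h1 := iota_succ k w
    rw [h1, am_wdg]
    have h3 := hD (i + k) (w 0) (am V U k i (Abs.iota k (fun i => w i.succ)) z)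
    have h4 : D (i + k) (am V U k i (Abs.iota k (fun i => w i.succ)) z) = 0 :=
      ih (Abs.iota k fun i => w i.succ) _
    rw [h4, map_zero, neg_zero] at h3
    exact h3

/-- **the kernel is generated by the products with `δ`** -/
theorem gen3_del (hD : ∀ (j : ℕ) (y : V) (z : U ⊗[ℚ] Lam V j),
      D (j + 1) (yw U j y z) = - yw W (j + 1) y (D j z))
    (hDD : ∀ (j : ℕ) (z : U ⊗[ℚ] Lam V j), del d2 (j + 1) (D j z) = 0)
    {j k : ℕ} (hd : Function.Surjective (del d2 j)) (hdk : Function.Surjective (del d2 k))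
    (hex : ∀ (t : ℕ) (z : W ⊗[ℚ] Lam V (j + t + 1)), del d2 (j + t + 1) z = 0 →
      ∃ ξ, D (j + t) ξ = z)
    (z : U ⊗[ℚ] Lam V (j + 1 + (k + 2))) (hz : D (j + 1 + (k + 2)) z = 0) :
    z ∈ Submodule.span ℚ {y | ∃ (w : W) (ζ : U ⊗[ℚ] Lam V (j + 1 + k)),
        D (j + 1 + k) ζ = 0 ∧ y = (wdg2 V (j + 1 + k) (d2 w)).lTensor U ζ} := by
  refine (Submodule.span_le.2 ?_) (gen3_iter d2 D hD hDD hd hex (k + 2) z hz)
  rintro _ ⟨a, ζ, hζ, rfl⟩
  obtain ⟨θ, rfl⟩ := hdk a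
  induction θ using TensorProduct.induction_on with
  | zero =>
    rw [map_zero, map_zero, LinearMap.zero_apply]
    exact Submodule.zero_mem _
  | tmul w a =>
    refine Submodule.subset_span ⟨w, am V U k (j + 1) a ζ, am_kerD D hD k (j + 1) a ζ hζ, ?_⟩
    rw [del_tmul]
    exact am_wdg2 k (j + 1) (d2 w) a ζ
  | add a b ha hb =>
    rw [map_add, map_add, LinearMap.add_apply]
    exact Submodule.add_mem _ ha hb

end alg

end Pool.Agent.NFF
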