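import Pool.Agent.NFF.HFa
import Pool.Agent.NFF.GVan

set_option autoImplicit false

/-!
# Vanishing of `H^{n-2}(Γ(F, n) ⊗ ℚ)` for large `n`, from the vanishing of the products with `δ(B_2)`
-/

namespace Pool.Agent.NFF

open scoped TensorProduct
open TensorProduct Pool.Agent.Helper91.Gon
open Helper14.Gon (P1 ZP br MU LM lgm elx ely BB CC TT clb gn tp dd dl RR CC_ext dd_gn dl_gn)
open Helper14.Loc (HC HT ZC BC BT hc ht)
open _root_.QGC (lq lq_mul vq_ext aq_eq bq_eq sq_zero' sq_inf')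

universe u

variable {F : Type u} [Field F]

variable (F) in
/-- the differential `B_{n+3} ⊗ Λ^j → B_{n+2} ⊗ Λ^{j+1}` -/
noncomputable def DS (n j : ℕ) : Glue.Bq (n + 1) F ⊗[ℚ] Lam (Glue.Vq F) j →ₗ[ℚ]
    Glue.Bq n F ⊗[ℚ] Lam (Glue.Vq F) (j + 1) :=
  Abs.diffS (V := Glue.Vq F) (B := fun n => Glue.Bq n F) Glue.dSq n j

theorem DS_sq (n j : ℕ) (x : P1 F) (ω : Lam (Glue.Vq F) j) :
    DS F n j ((Glue.sq (n + 1) x : Glue.Bq (n + 1) F) ⊗ₜ[ℚ] ω) =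
      (Glue.sq n x : Glue.Bq n F) ⊗ₜ[ℚ] wdg (Glue.Vq F) j (Glue.aq x) ω :=
  Abs.diffS_s (V := Glue.Vq F) (B := fun n => Glue.Bq n F)
    (s := fun n => Glue.sq n) (a := Glue.aq) (dS := Glue.dSq) Glue.dSq_sq n j x ω

theorem DS_yw (n j : ℕ) (y : Glue.Vq F) (z : Glue.Bq (n + 1) F ⊗[ℚ] Lam (Glue.Vq F) j) :
    DS F n (j + 1) (yw (Glue.Bq (n + 1) F) j y z) =
      - yw (Glue.Bq n F) (j + 1) y (DS F n j z) := by
  have h := Abs.BL_ext (s := fun n => (Glue.sq n : P1 F → Glue.Bq n F)) (fun n => Glue.sq_span n)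
    (n + 1) (L := Lam (Glue.Vq F) j)
    (f := DS F n (j + 1) ∘ₗ yw (Glue.Bq (n + 1) F) j y)
    (g := - (yw (Glue.Bq n F) (j + 1) y ∘ₗ DS F n j)) (fun x ω => by
      rw [LinearMap.comp_apply, yw_tmul, LinearMap.neg_apply, LinearMap.comp_apply]
      have h1 := DS_sq n (j + 1) x (wdg (Glue.Vq F) j y ω)
      have h2 := DS_sq n j x ω
      refine h1.trans ?_
      rw [h2, yw_tmul, wdg_anti, TensorProduct.tmul_neg]) z
  exact h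

theorem del_DS (j : ℕ) (z : Glue.Bq 1 F ⊗[ℚ] Lam (Glue.Vq F) j) :
    del Glue.d2q (j + 1) (DS F 0 j z) = 0 := by
  have h := Abs.BL_ext (s := fun n => (Glue.sq n : P1 F → Glue.Bq n F)) (fun n => Glue.sq_span n) 1
    (L := Lam (Glue.Vq F) j)
    (f := del Glue.d2q (j + 1) ∘ₗ DS F 0 j)
    (g := 0) (fun x ω => by
      rw [LinearMap.comp_apply, LinearMap.zero_apply]
      have h1 := DS_sq 0 j x ω
      rw [h1, del_tmul, Glue.d2q_sq, wdg2_ww, wdg_wdg_same, map_zero]) z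
  exact h

/-- exactness at `B_2 ⊗ Λ^{n+1}`, with a free index -/
theorem van_free {k : ℕ} (hd : Function.Surjective (del (Glue.d2q : Glue.Bq 0 F →ₗ[ℚ] _) k))
    (t : ℕ) : ∀ n : ℕ, n = k + 1 + (k + t) + 1 →
      ∀ z : Glue.Bq 0 F ⊗[ℚ] Lam (Glue.Vq F) (n + 1), del Glue.d2q (n + 1) z = 0 →
      ∃ ξ, DS F 0 n ξ = z := by
  rintro n rfl z hz
  exact van hd t z hz

/-- surjectivity, with a free index -/
theorem surj_free {k : ℕ} (hd : Function.Surjective (del (Glue.d2q : Glue.Bq 0 F →ₗ[ℚ] _) k)) :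
    ∀ n : ℕ, k ≤ n → Function.Surjective (del (Glue.d2q : Glue.Bq 0 F →ₗ[ℚ] _) n) := by
  intro n hn
  obtain ⟨t, rfl⟩ := Nat.exists_eq_add_of_le hn
  exact surj_up Glue.d2q hd t

variable (F) in
/-- the products of cocycles in `B_3 ⊗ Λ^j` with the elements `δ w`, `w ∈ B_2`, are coboundaries -/
def ActZero : Prop := ∀ (w : Glue.Bq 0 F) (j : ℕ) (ζ : Glue.Bq 1 F ⊗[ℚ] Lam (Glue.Vq F) j),
  DS F 0 j ζ = 0 → ∃ ξ : Glue.Bq 2 F ⊗[ℚ] Lam (Glue.Vq F) (j + 1),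
    DS F 1 (j + 1) ξ = (wdg2 (Glue.Vq F) j (Glue.d2q w)).lTensor (Glue.Bq 1 F) ζ

/-- exactness at `B_3 ⊗ Λ^i` for large `i` -/
theorem van3 (hA : ActZero F) {k : ℕ}
    (hd : Function.Surjective (del (Glue.d2q : Glue.Bq 0 F →ₗ[ℚ] _) k)) {j : ℕ}
    (hj : 2 * k + 2 ≤ j) (z : Glue.Bq 1 F ⊗[ℚ] Lam (Glue.Vq F) (j + 1 + (k + 2)))
    (hz : DS F 0 (j + 1 + (k + 2)) z = 0) :
    ∃ ξ : Glue.Bq 2 F ⊗[ℚ] Lam (Glue.Vq F) (j + 1 + (k + 1)),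
      DS F 1 (j + 1 + (k + 1)) ξ = z := by
  have h1 := gen3_del Glue.d2q (DS F 0) (DS_yw 0) del_DS (surj_free hd j (by omega)) hd
    (fun t z hz => van_free hd (j + t - (2 * k + 2)) (j + t) (by omega) z hz) z hz
  have h2 : z ∈ LinearMap.range (DS F 1 (j + 1 + (k + 1))) := by
    refine (Submodule.span_le.2 ?_) h1
    rintro _ ⟨w, ζ, hζ, rfl⟩
    obtain ⟨ξ, hξ⟩ := hA w (j + 1 + k) ζ hζ
    exact ⟨ξ, hξ⟩
  exact h2

/-- vanishing, from the surjectivity of `B_2 ⊗ Λ^k → Λ^{k+2}` -/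
theorem vanish3' (hA : ActZero F) {k : ℕ}
    (hd : Function.Surjective (del (Glue.d2q : Glue.Bq 0 F →ₗ[ℚ] _) k)) {i : ℕ}
    (hi : 3 * k + 5 ≤ i) : Subsingleton (HC F 1 i) := by
  obtain ⟨j, hj, rfl⟩ : ∃ j, 2 * k + 2 ≤ j ∧ i = j + 1 + (k + 1) + 1 :=
    ⟨i - (k + 3), by omega, by omega⟩
  have h1 : ZC F 1 (j + 1 + (k + 1) + 1) ≤ BC F 1 (j + 1 + (k + 1) + 1) := by
    intro z hz
    have h2 := Glue.Phi_dd 0 (j + 1 + (k + 1) + 1) z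
    have h3 : dd 0 (j + 1 + (k + 1) + 1) F z = 0 := hz
    rw [h3, map_zero] at h2
    obtain ⟨y, hy⟩ := van3 hA hd hj (Glue.Phi 1 (j + 1 + (k + 1) + 1) F z) h2.symm
    refine ⟨(Glue.Phi 2 (j + 1 + (k + 1)) F).symm y, ?_⟩
    apply (Glue.Phi 1 (j + 1 + (k + 1) + 1) F).injective
    rw [Glue.Phi_dd, LinearEquiv.apply_symm_apply]
    exact hy
  refine ⟨fun a b => ?_⟩
  have h4 : ∀ a : HC F 1 (j + 1 + (k + 1) + 1), a = 0 := by
    intro a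
    obtain ⟨z, rfl⟩ : ∃ z : ↥(ZC F 1 (j + 1 + (k + 1) + 1)), hc z = a :=
      Submodule.Quotient.mk_surjective _ a
    exact (Submodule.Quotient.mk_eq_zero _).2 (h1 z.2)
  rw [h4 a, h4 b]

/-- **vanishing**: if `K^M_m(F) ⊗ ℚ = 0` and the products with `δ(B_2)` vanish, then
`H^{n-2}(Γ(F, n) ⊗ ℚ) = 0` for `n ≥ 3m + 2` -/
theorem vanish3 (hA : ActZero F) {m : ℕ} (hm : 2 ≤ m) (h : Subsingleton (HT F m)) {i : ℕ}
    (hi : 3 * m ≤ i + 1) : Subsingleton (HC F 1 i) := by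
  obtain ⟨k, rfl⟩ : ∃ k, m = k + 2 := ⟨m - 2, by omega⟩
  exact vanish3' hA (dl_surj h) (by omega)

end Pool.Agent.NFF
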