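import Pool.Agent.NFF.HFb

set_option autoImplicit false

/-!
# The products with `δ(B_2)`: from the complexes to `B_3 ⊗ Λ`
-/

namespace Pool.Agent.NFF

open scoped TensorProduct
open TensorProduct Pool.Agent.Helper91.Gon
open Helper14.Gon (P1 ZP br MU LM lgm elx ely BB CC TT clb gn tp dd dl RR CC_ext dd_gn dl_gn mu)
open Helper14.Loc (HC HT ZC BC BT hc ht us us_gn)
open _root_.QGC (lq lq_mul vq_ext aq_eq bq_eq sq_zero' sq_inf')

universe u

variable {F : Type u} [Field F]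

private theorem hfc_mu (v : MU F) : mu (RingHom.id F) v = v := rfl

private theorem hfc_opt (x : P1 F) : Option.map (RingHom.id F) x = x := by
  cases x <;> rfl

/-- the wedge maps -/
theorem Phi_us (k j : ℕ) (v : MU F) (z : CC k j F) :
    Glue.Phi k (j + 1) F (us k j (RingHom.id F) v z) =
      yw (Glue.Bq k F) j ((1 : ℚ) ⊗ₜ[ℤ] v) (Glue.Phi k j F z) := by
  have h : (Glue.Phi k (j + 1) F).toLinearMap ∘ₗ us k j (RingHom.id F) v =
      yw (Glue.Bq k F) j ((1 : ℚ) ⊗ₜ[ℤ] v) ∘ₗ (Glue.Phi k j F).toLinearMap := by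
    refine CC_ext fun x w => ?_
    rw [LinearMap.comp_apply, LinearMap.comp_apply, LinearEquiv.coe_coe, LinearEquiv.coe_coe,
      us_gn, Glue.Phi_gn, Glue.Phi_gn, yw_tmul, Abs.wdg_iota, hfc_opt]
    congr 2
    funext i
    refine Fin.cases ?_ (fun i => ?_) i
    · rfl
    · rfl
  exact LinearMap.congr_fun h z

/-- the action of `δ {x}_2` -/
theorem Phi_us_us (k j : ℕ) (x : P1 F) (z : CC k j F) :
    Glue.Phi k (j + 2) F (us k (j + 1) (RingHom.id F) (ely x)
        (us k j (RingHom.id F) (elx x) z)) =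
      (wdg2 (Glue.Vq F) j (Glue.d2q (Glue.sq 0 x))).lTensor (Glue.Bq k F) (Glue.Phi k j F z) := by
  rw [Phi_us, Phi_us, Glue.d2q_sq, yw, yw, ← LinearMap.comp_apply, ← LinearMap.lTensor_comp]
  congr 2
  ext1 ω
  exact (wdg2_ww j _ _ ω).symm

/-- **the bridge** -/
theorem actZero_of (h : ∀ (x : F), x ≠ 0 → x ≠ 1 → ∀ (j : ℕ) (z : CC 1 j F), z ∈ ZC F 1 j →
      us 1 (j + 1) (RingHom.id F) (ely (some x)) (us 1 j (RingHom.id F) (elx (some x)) z) ∈
        BC F 1 (j + 2)) : ActZero F := by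
  intro w j ζ hζ
  have hz : (Glue.Phi 1 j F).symm ζ ∈ ZC F 1 j := by
    have h1 := Glue.Phi_dd 0 j ((Glue.Phi 1 j F).symm ζ)
    rw [LinearEquiv.apply_symm_apply] at h1
    have h2 : Glue.Phi 0 (j + 1) F (dd 0 j F ((Glue.Phi 1 j F).symm ζ)) = 0 := h1.trans hζ
    exact (Glue.Phi 0 (j + 1) F).map_eq_zero_iff.1 h2
  have h0 : ∀ x : P1 F, Glue.d2q (Glue.sq 0 x) = 0 →
      ∃ ξ, DS F 1 (j + 1) ξ =
        (wdg2 (Glue.Vq F) j (Glue.d2q (Glue.sq 0 x))).lTensor (Glue.Bq 1 F) ζ := by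
    intro x hx
    refine ⟨0, ?_⟩
    rw [hx, map_zero, map_zero, LinearMap.lTensor_zero, LinearMap.zero_apply]
  have hlg1 : lgm (1 : F) = 0 := by
    unfold lgm
    rw [dif_neg one_ne_zero]
    have : Units.mk0 (1 : F) one_ne_zero = 1 := Units.ext rfl
    rw [this]
    rfl
  have key : ∀ x : P1 F, ∃ ξ, DS F 1 (j + 1) ξ =
      (wdg2 (Glue.Vq F) j (Glue.d2q (Glue.sq 0 x))).lTensor (Glue.Bq 1 F) ζ := by
    intro x
    cases x with
    | none =>
      apply h0
      rw [Glue.d2q_sq]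
      have h1 : (Glue.aq (none : P1 F) : Glue.Vq F) = 0 := TensorProduct.tmul_zero _ _
      rw [h1, map_zero]
    | some x =>
      by_cases hx0 : x = 0
      · apply h0
        rw [Glue.d2q_sq]
        have h1 : (Glue.aq (some x : P1 F) : Glue.Vq F) = 0 := by
          change (1 : ℚ) ⊗ₜ[ℤ] lgm x = 0
          rw [hx0, lgm, dif_pos rfl, TensorProduct.tmul_zero]
        rw [h1, map_zero]
      by_cases hx1 : x = 1
      · apply h0
        rw [Glue.d2q_sq]
        have h1 : (Glue.aq (some x : P1 F) : Glue.Vq F) = 0 := by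
          change (1 : ℚ) ⊗ₜ[ℤ] lgm x = 0
          rw [hx1, hlg1, TensorProduct.tmul_zero]
        rw [h1, map_zero]
      obtain ⟨y, hy⟩ := h x hx0 hx1 j _ hz
      refine ⟨Glue.Phi 2 (j + 1) F y, ?_⟩
      have h1 := Glue.Phi_dd 1 (j + 1) y
      have h2 := Phi_us_us 1 j (some x : P1 F) ((Glue.Phi 1 j F).symm ζ)
      rw [LinearEquiv.apply_symm_apply] at h2
      rw [← h2, ← hy]
      exact h1.symm
  have hw : w ∈ Submodule.span ℚ (Set.range (Glue.sq 0 : P1 F → Glue.Bq 0 F)) := by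
    rw [Glue.sq_span]
    exact Submodule.mem_top
  induction hw using Submodule.span_induction with
  | mem w hw =>
    obtain ⟨x, rfl⟩ := hw
    exact key x
  | zero =>
    refine ⟨0, ?_⟩
    rw [map_zero, map_zero, map_zero, LinearMap.lTensor_zero, LinearMap.zero_apply]
  | add a b _ _ ha hb =>
    obtain ⟨ξ, hξ⟩ := ha
    obtain ⟨ξ', hξ'⟩ := hb
    refine ⟨ξ + ξ', ?_⟩
    rw [map_add, hξ, hξ', map_add, map_add, LinearMap.lTensor_add, LinearMap.add_apply]
  | smul c a _ ha =>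
    obtain ⟨ξ, hξ⟩ := ha
    refine ⟨c • ξ, ?_⟩
    rw [map_smul, hξ, map_smul, map_smul, LinearMap.lTensor_smul, LinearMap.smul_apply]

end Pool.Agent.NFF
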