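import Pool.Agent.NFF.HMo

set_option autoImplicit false

/-!
# The vanishing of `H^{n-2}` over `F(t)`, `F` algebraically closed
-/

namespace Pool.Agent.NFF

open Helper14.Loc (HC HT LocMid SM locMid_of)
open TLO TGF

universe u

/-- `H^{n-2}(Γ(F(t), n) ⊗ ℚ) = 0` for `n ≥ 3m + 3`, if `K^M_m(F) ⊗ ℚ = 0` -/
theorem vanish_ft (F : Type u) [Field F] [IsAlgClosed F] {m : ℕ} (hm : 2 ≤ m)
    (h : Subsingleton (HT F m)) {i : ℕ} (hi : 3 * m ≤ i) :
    Subsingleton (HC (RatFunc F) 1 i) := by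
  obtain ⟨j, rfl⟩ : ∃ j, i = j + 1 := ⟨i - 1, by omega⟩
  obtain ⟨e, -, -⟩ := locMid_of 1 j (Helper42.LT.surj_one (K := F) j)
  have h1 : Subsingleton (HC F 1 (j + 1)) := vanish_f F hm h (by omega)
  have h2 : Subsingleton (HC F 1 j) := vanish_f F hm h (by omega)
  have h3 : Subsingleton (HC F 1 (j + 1) × (F →₀ HC F 1 j)) := inferInstance
  exact (e.symm.toEquiv.subsingleton_congr).2 h3

end Pool.Agent.NFF
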