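import Pool.Agent.NFF.HFc
import Pool.Agent.TLO.Main

set_option autoImplicit false

/-!
# The products with `δ(B_2)` are zero, from the localisation sequence

`z` a cocycle over `K`; the class of `(1 - t) ∧ t ∧ z` over `K(t)` has no residues, so it is the class of a constant `y`. The
specialisations at `t = a`, `a ≠ 0, 1`, show that `y` is the class of `(1 - a) ∧ a ∧ z`; for `a⁻¹` it is the opposite class.
-/

noncomputable section

namespace Pool.Agent.NFF

open scoped TensorProduct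
open TensorProduct Pool.Agent.Helper91.Gon TLO TGF
open Helper14.Gon (P1 ZP br MU LM lgm elx ely BB CC TT clb gn tp dd dl RR CC_ext dd_gn dl_gn mu rs
  rs_gn)
open Helper14.Loc (HC HT ZC BC BT hc ht us us_gn)
open _root_.QGC (lq lq_mul vq_ext aq_eq bq_eq sq_zero' sq_inf')

universe u

section gen

variable {L : Type u} [Field L]

theorem hmo_Z (k j : ℕ) (u : MU L) {z : CC k j L} (hz : z ∈ ZC L k j) :
    us k j (RingHom.id L) u z ∈ ZC L k (j + 1) := by
  cases k with
  | zero =>
    have h1 : dl j L z = 0 := hz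
    change dl (j + 1) L (us 0 j (RingHom.id L) u z) = 0
    apply (Glue.Psi (j + 1 + 2) L).injective
    have h2 : Glue.Psi (j + 1 + 2) L (dl (j + 1) L (us 0 j (RingHom.id L) u z)) =
      del Glue.d2q (j + 1) (Glue.Phi 0 (j + 1) L (us 0 j (RingHom.id L) u z)) := Glue.Psi_dl _ _
    have h3 : Glue.Psi (j + 2) L (dl j L z) = del Glue.d2q j (Glue.Phi 0 j L z) := Glue.Psi_dl j z
    rw [h2, Phi_us, del_yw, ← h3, h1, map_zero, map_zero, map_zero]
  | succ k =>
    have h1 : dd k j L z = 0 := hz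
    change dd k (j + 1) L (us (k + 1) j (RingHom.id L) u z) = 0
    apply (Glue.Phi k (j + 1 + 1) L).injective
    have h2 : Glue.Phi k (j + 1 + 1) L (dd k (j + 1) L (us (k + 1) j (RingHom.id L) u z)) =
      DS L k (j + 1) (Glue.Phi (k + 1) (j + 1) L (us (k + 1) j (RingHom.id L) u z)) :=
        Glue.Phi_dd _ _ _
    have h3 : Glue.Phi k (j + 1) L (dd k j L z) = DS L k j (Glue.Phi (k + 1) j L z) :=
      Glue.Phi_dd k j z
    rw [h2, Phi_us, DS_yw, ← h3, h1, map_zero, map_zero, neg_zero, map_zero]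

theorem hmo_B (k j : ℕ) (u : MU L) {z : CC k (j + 1) L} (hz : z ∈ BC L k (j + 1)) :
    us k (j + 1) (RingHom.id L) u z ∈ BC L k (j + 2) := by
  obtain ⟨y, rfl⟩ := hz
  refine ⟨-(us (k + 1) j (RingHom.id L) u y), ?_⟩
  apply (Glue.Phi k (j + 1 + 1) L).injective
  have h2 : Glue.Phi k (j + 1 + 1) L (dd k (j + 1) L (us (k + 1) j (RingHom.id L) u y)) =
    DS L k (j + 1) (Glue.Phi (k + 1) (j + 1) L (us (k + 1) j (RingHom.id L) u y)) :=
      Glue.Phi_dd _ _ _
  have h3 : Glue.Phi k (j + 1) L (dd k j L y) = DS L k j (Glue.Phi (k + 1) j L y) :=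
    Glue.Phi_dd k j y
  rw [map_neg, map_neg, h2, Phi_us, DS_yw, neg_neg]
  have h4 := Phi_us k (j + 1) u (dd k j L y)
  rw [h3] at h4
  exact h4.symm

theorem hmo_anti (k j : ℕ) (u v : MU L) (z : CC k j L) :
    us k (j + 1) (RingHom.id L) u (us k j (RingHom.id L) v z) =
      - us k (j + 1) (RingHom.id L) v (us k j (RingHom.id L) u z) := by
  apply (Glue.Phi k (j + 1 + 1) L).injective
  rw [map_neg, Phi_us, Phi_us, Phi_us, Phi_us, yw_anti]

theorem hmo_add (k j : ℕ) (u v : MU L) (z : CC k j L) :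
    us k j (RingHom.id L) (u + v) z =
      us k j (RingHom.id L) u z + us k j (RingHom.id L) v z := by
  apply (Glue.Phi k (j + 1) L).injective
  rw [map_add, Phi_us, Phi_us, Phi_us, TensorProduct.tmul_add, yw_add]

theorem hmo_zero (k j : ℕ) (z : CC k j L) : us k j (RingHom.id L) (0 : MU L) z = 0 := by
  have h := hmo_add k j (0 : MU L) 0 z
  rw [add_zero] at h
  exact left_eq_add.1 h

theorem hmo_mu {L' : Type u} [Field L'] (φ : L →+* L') {a : L} (ha : a ≠ 0) :
    mu φ (lgm a) = lgm (φ a) := by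
  have h1 : φ a ≠ 0 := (map_ne_zero φ).2 ha
  rw [lgm, lgm, dif_neg ha, dif_neg h1]
  change Additive.ofMul _ = Additive.ofMul _
  congr 1
  ext
  rfl

theorem hmo_lgm_one : lgm (1 : L) = 0 := by
  unfold lgm
  rw [dif_neg one_ne_zero]
  have : Units.mk0 (1 : L) one_ne_zero = 1 := Units.ext rfl
  rw [this]
  rfl

/-- the products for `a` and `a⁻¹` -/
theorem hmo_inv (k j : ℕ) {a : L} (ha : a ≠ 0) (ha1 : a ≠ 1) (z : CC k j L) :
    us k (j + 1) (RingHom.id L) (ely (some a⁻¹ : P1 L))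
        (us k j (RingHom.id L) (elx (some a⁻¹ : P1 L)) z) =
      - us k (j + 1) (RingHom.id L) (ely (some a : P1 L))
        (us k j (RingHom.id L) (elx (some a : P1 L)) z) := by
  apply (Glue.Phi k (j + 1 + 1) L).injective
  rw [map_neg]
  have h1 := Phi_us_us k j (some a⁻¹ : P1 L) z
  have h2 := Phi_us_us k j (some a : P1 L) z
  rw [h1, h2]
  have h3 : Glue.d2q (Glue.sq 0 (some a⁻¹ : P1 L)) = - Glue.d2q (Glue.sq 0 (some a : P1 L)) := by
    rw [Glue.d2q_sq, Glue.d2q_sq]
    have e1 : Glue.aq (some a⁻¹ : P1 L) = - la a := la_inv ha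
    have e2 : Glue.aq (some a : P1 L) = la a := rfl
    have e3 : Glue.bq (some a : P1 L) = la (1 - a) := rfl
    have hn : 1 - a ≠ 0 := sub_ne_zero.2 ha1.symm
    have e4 : Glue.bq (some a⁻¹ : P1 L) = la (1 - a) - la a := by
      change la (1 - a⁻¹) = _
      have e5 : 1 - a⁻¹ = -((1 - a) / a) := by
        field_simp
        ring
      rw [e5, la_neg (div_ne_zero hn ha), la_div hn ha]
    rw [e1, e2, e3, e4, map_sub, LinearMap.sub_apply, map_neg, map_neg]
    have e6 : ww (Glue.Vq L) (la a) (la a) = 0 := ww_self _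
    rw [e6, neg_zero, sub_zero]
  rw [h3, map_neg, LinearMap.lTensor_neg, LinearMap.neg_apply]

end gen

section loc

variable {K : Type u} [Field K]

/-- the constants -/
def hmoPsi (P : Pt K) : K →+* TLO.kap P := (rP P).comp Polynomial.C

/-- three wedge factors, the first one the uniformizer -/
theorem hmo_sp (P : Pt K) (k j : ℕ) (u₁ u₂ : MU (RatFunc K)) (e₁ e₂ : MU K)
    (h₁ : UVal P u₁ (mu (hmoPsi P) e₁)) (h₂ : UVal P u₂ (mu (hmoPsi P) e₂)) (z : CC k j K) :
    rsd (vP P) k (j + 2) (us k (j + 2) (RingHom.id _) (pi P) (us k (j + 1) (RingHom.id _) u₁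
      (us k j (RingHom.id _) u₂ (rs k j (RatFunc.C : K →+* RatFunc K) z)))) =
    rs k (j + 2) (hmoPsi P) (us k (j + 1) (RingHom.id _) e₁ (us k j (RingHom.id _) e₂ z)) := by
  have h : (rsd (vP P) k (j + 2)) ∘ₗ (us k (j + 2) (RingHom.id _) (pi P)) ∘ₗ
      (us k (j + 1) (RingHom.id _) u₁) ∘ₗ (us k j (RingHom.id _) u₂) ∘ₗ
        (rs k j (RatFunc.C : K →+* RatFunc K)) =
      (rs k (j + 2) (hmoPsi P)) ∘ₗ (us k (j + 1) (RingHom.id _) e₁) ∘ₗ
        (us k j (RingHom.id _) e₂) := by
    refine CC_ext fun x v => ?_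
    simp only [LinearMap.comp_apply, rs_gn, us_gn]
    have hx : Option.map (RingHom.id (RatFunc K)) (Option.map (RingHom.id (RatFunc K))
        (Option.map (RingHom.id (RatFunc K)) (Option.map (RatFunc.C : K →+* RatFunc K) x))) =
        Option.map (RatFunc.C : K →+* RatFunc K) x := by
      cases x <;> rfl
    have hx' : Option.map (hmoPsi P) (Option.map (RingHom.id K) (Option.map (RingHom.id K) x)) =
        Option.map (hmoPsi P) x := by
      cases x <;> rfl
    rw [hx, hx']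
    refine ((isRes_rsd P k (j + 2) _ _ (val_C P x)).1 _
      (Fin.cons (mu (hmoPsi P) e₁) (Fin.cons (mu (hmoPsi P) e₂)
        (fun i => mu (hmoPsi P) (v i)))) (fun i => ?_)).trans ?_
    · refine Fin.cases ?_ (fun i => ?_) i
      · exact h₁
      · refine Fin.cases ?_ (fun i => ?_) i
        · exact h₂
        · exact uval_C P (v i)
    · congr 1
      funext i
      refine Fin.cases ?_ (fun i => ?_) i
      · rfl
      · refine Fin.cases ?_ (fun i => ?_) i
        · rfl
        · rfl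
  exact LinearMap.congr_fun h z

/-- one wedge factor, the uniformizer -/
theorem hmo_sp0 (P : Pt K) (k j : ℕ) (z : CC k j K) :
    rsd (vP P) k j (us k j (RingHom.id _) (pi P) (rs k j (RatFunc.C : K →+* RatFunc K) z)) =
    rs k j (hmoPsi P) z := by
  have h : (rsd (vP P) k j) ∘ₗ (us k j (RingHom.id _) (pi P)) ∘ₗ
        (rs k j (RatFunc.C : K →+* RatFunc K)) = rs k j (hmoPsi P) := by
    refine CC_ext fun x v => ?_
    simp only [LinearMap.comp_apply, rs_gn, us_gn]
    have hx : Option.map (RingHom.id (RatFunc K)) (Option.map (RatFunc.C : K →+* RatFunc K) x) =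
        Option.map (RatFunc.C : K →+* RatFunc K) x := by
      cases x <;> rfl
    rw [hx]
    exact (isRes_rsd P k j _ _ (val_C P x)).1 _ (fun i => mu (hmoPsi P) (v i))
      (fun i => uval_C P (v i))
  exact LinearMap.congr_fun h z

/-- two wedge factors, the first one the uniformizer -/
theorem hmo_sp1 (P : Pt K) (k j : ℕ) (u : MU (RatFunc K)) (c : MU (TLO.kap P))
    (h₁ : UVal P u c) (z : CC k j K) :
    rsd (vP P) k (j + 1) (us k (j + 1) (RingHom.id _) (pi P)
      (us k j (RingHom.id _) u (rs k j (RatFunc.C : K →+* RatFunc K) z))) =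
    us k j (RingHom.id _) c (rs k j (hmoPsi P) z) := by
  have h : (rsd (vP P) k (j + 1)) ∘ₗ (us k (j + 1) (RingHom.id _) (pi P)) ∘ₗ
      (us k j (RingHom.id _) u) ∘ₗ (rs k j (RatFunc.C : K →+* RatFunc K)) =
      (us k j (RingHom.id _) c) ∘ₗ (rs k j (hmoPsi P)) := by
    refine CC_ext fun x v => ?_
    simp only [LinearMap.comp_apply, rs_gn, us_gn]
    have hx : Option.map (RingHom.id (RatFunc K)) (Option.map (RingHom.id (RatFunc K))
        (Option.map (RatFunc.C : K →+* RatFunc K) x)) =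
        Option.map (RatFunc.C : K →+* RatFunc K) x := by
      cases x <;> rfl
    have hx' : Option.map (RingHom.id (TLO.kap P)) (Option.map (hmoPsi P) x) =
        Option.map (hmoPsi P) x := by
      cases x <;> rfl
    rw [hx, hx']
    refine ((isRes_rsd P k (j + 1) _ _ (val_C P x)).1 _
      (Fin.cons c (fun i => mu (hmoPsi P) (v i))) (fun i => ?_)).trans ?_
    · refine Fin.cases ?_ (fun i => ?_) i
      · exact h₁
      · exact uval_C P (v i)
    · congr 1
  exact LinearMap.congr_fun h z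

/-- two wedge factors which are units -/
theorem hmo_res0 (P : Pt K) (k j : ℕ) (u₁ u₂ : MU (RatFunc K)) (c₁ c₂ : MU (TLO.kap P))
    (h₁ : UVal P u₁ c₁) (h₂ : UVal P u₂ c₂) (z : CC k j K) :
    rsd (vP P) k (j + 1) (us k (j + 1) (RingHom.id _) u₁
      (us k j (RingHom.id _) u₂ (rs k j (RatFunc.C : K →+* RatFunc K) z))) = 0 := by
  have h : (rsd (vP P) k (j + 1)) ∘ₗ (us k (j + 1) (RingHom.id _) u₁) ∘ₗ
      (us k j (RingHom.id _) u₂) ∘ₗ (rs k j (RatFunc.C : K →+* RatFunc K)) = 0 := by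
    refine CC_ext fun x v => ?_
    simp only [LinearMap.comp_apply, rs_gn, us_gn, LinearMap.zero_apply]
    have hx : Option.map (RingHom.id (RatFunc K)) (Option.map (RingHom.id (RatFunc K))
        (Option.map (RatFunc.C : K →+* RatFunc K) x)) =
        Option.map (RatFunc.C : K →+* RatFunc K) x := by
      cases x <;> rfl
    rw [hx]
    refine (isRes_rsd P k (j + 1) _ _ (val_C P x)).2 _
      (Fin.cons c₁ (Fin.cons c₂ (fun i => mu (hmoPsi P) (v i)))) (fun i => ?_)
    refine Fin.cases ?_ (fun i => ?_) i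
    · exact h₁
    · refine Fin.cases ?_ (fun i => ?_) i
      · exact h₂
      · exact uval_C P (v i)
  exact LinearMap.congr_fun h z

theorem hmo_uval (P : Pt K) (A : Polynomial K) (hA : ¬ P.1 ∣ A) :
    UVal P (lgm (algebraMap (Polynomial K) (RatFunc K) A)) (lgm (rP P A)) := by
  refine ⟨A, 1, hA, fun h => P.2.2.not_isUnit (isUnit_of_dvd_one h), ?_, ?_⟩
  · rw [map_one, div_one]
  · rw [map_one, div_one]

private theorem hmo_X : (RatFunc.X : RatFunc K) =
    algebraMap (Polynomial K) (RatFunc K) Polynomial.X := RatFunc.algebraMap_X.symm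

private theorem hmo_1X : (1 - RatFunc.X : RatFunc K) =
    algebraMap (Polynomial K) (RatFunc K) (1 - Polynomial.X) := by
  rw [map_sub, map_one, RatFunc.algebraMap_X]

/-- no residues -/
theorem hmo_res (P : Pt K) (k j : ℕ) (z : CC k j K) :
    rsd (vP P) k (j + 1) (us k (j + 1) (RingHom.id _) (ely (some RatFunc.X : P1 (RatFunc K)))
      (us k j (RingHom.id _) (elx (some RatFunc.X : P1 (RatFunc K)))
        (rs k j (RatFunc.C : K →+* RatFunc K) z))) = 0 := by
  have e1 : ely (some RatFunc.X : P1 (RatFunc K)) =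
      lgm (algebraMap (Polynomial K) (RatFunc K) (1 - Polynomial.X)) := by
    change lgm (1 - RatFunc.X : RatFunc K) = _
    rw [hmo_1X]
  have e2 : elx (some RatFunc.X : P1 (RatFunc K)) =
      lgm (algebraMap (Polynomial K) (RatFunc K) Polynomial.X) := by
    change lgm (RatFunc.X : RatFunc K) = _
    rw [hmo_X]
  rw [e1, e2]
  by_cases hX : P.1 ∣ Polynomial.X
  · have hP : P.1 = Polynomial.X := Polynomial.eq_of_monic_of_associated P.2.1
      Polynomial.monic_X ((Irreducible.dvd_irreducible_iff_associated P.2.2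
        Polynomial.irreducible_X).1 hX)
    have h1 : ¬ P.1 ∣ (1 - Polynomial.X : Polynomial K) := by
      intro h
      refine P.2.2.not_isUnit (isUnit_of_dvd_one ?_)
      have h2 := dvd_add h hX
      rwa [sub_add_cancel] at h2
    have h2 : lgm (algebraMap (Polynomial K) (RatFunc K) Polynomial.X) = pi P := by
      rw [TLO.pi, hP]
    have h3 : rP P (1 - Polynomial.X) = 1 := by
      rw [map_sub, map_one, (rP_zero P).2 hX, sub_zero]
    rw [hmo_anti, h2, map_neg, hmo_sp1 P k j _ _ (hmo_uval P _ h1), h3, hmo_lgm_one, hmo_zero,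
      neg_zero]
  by_cases h1 : P.1 ∣ (1 - Polynomial.X : Polynomial K)
  · have h1' : P.1 ∣ (Polynomial.X - Polynomial.C 1 : Polynomial K) := by
      rw [Polynomial.C_1, ← neg_sub]
      exact (dvd_neg).2 h1
    have hP : P.1 = Polynomial.X - Polynomial.C 1 :=
      Polynomial.eq_of_monic_of_associated P.2.1 (Polynomial.monic_X_sub_C 1)
        ((Irreducible.dvd_irreducible_iff_associated P.2.2
          (Polynomial.irreducible_X_sub_C 1)).1 h1')
    have h4 : (1 - Polynomial.X : Polynomial K) = Polynomial.C (-1) * P.1 := by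
      rw [hP, Polynomial.C_neg, Polynomial.C_1]
      ring
    have hP0 : algebraMap (Polynomial K) (RatFunc K) P.1 ≠ 0 :=
      (map_ne_zero_iff _ (RatFunc.algebraMap_injective K)).2 P.2.1.ne_zero
    have hC0 : algebraMap (Polynomial K) (RatFunc K) (Polynomial.C (-1)) ≠ 0 :=
      (map_ne_zero_iff _ (RatFunc.algebraMap_injective K)).2
        (Polynomial.C_ne_zero.2 (neg_ne_zero.2 one_ne_zero))
    have h5 : lgm (algebraMap (Polynomial K) (RatFunc K) (1 - Polynomial.X)) =
        lgm (algebraMap (Polynomial K) (RatFunc K) (Polynomial.C (-1))) + pi P := by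
      rw [h4, map_mul, TLO.pi, lgm, lgm, lgm, dif_neg (mul_ne_zero hC0 hP0), dif_neg hC0,
        dif_neg hP0]
      change Additive.ofMul _ = Additive.ofMul (_ * _)
      congr 1
      ext
      rfl
    have h6 : rP P Polynomial.X = 1 := by
      have h7 := (rP_zero P).2 h1
      rw [map_sub, map_one, sub_eq_zero] at h7
      exact h7.symm
    have h8 : ¬ P.1 ∣ (Polynomial.C (-1) : Polynomial K) := fun h => P.2.2.not_isUnit
      (isUnit_of_dvd_unit h (Polynomial.isUnit_C.2 (isUnit_iff_ne_zero.2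
        (neg_ne_zero.2 one_ne_zero))))
    rw [h5, hmo_add, map_add, hmo_sp1 P k j _ _ (hmo_uval P _ hX), h6, hmo_lgm_one, hmo_zero,
      add_zero]
    exact hmo_res0 P k j _ _ _ _ (hmo_uval P _ h8) (hmo_uval P _ hX) z
  · exact hmo_res0 P k j _ _ _ _ (hmo_uval P _ h1) (hmo_uval P _ hX) z

private theorem hmo_psi (a : K) : ∃ ψ : TLO.kap (pa a) →+* K,
    ψ.comp (hmoPsi (pa a)) = RingHom.id K := by
  have h0 : (Polynomial.X - Polynomial.C a : Polynomial K).eval₂ (RingHom.id K) a = 0 := by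
    rw [Polynomial.eval₂_sub, Polynomial.eval₂_X, Polynomial.eval₂_C, RingHom.id_apply, sub_self]
  refine ⟨AdjoinRoot.lift (RingHom.id K) a h0, RingHom.ext fun x => ?_⟩
  refine (AdjoinRoot.lift_mk (f := (Polynomial.X - Polynomial.C a : Polynomial K)) h0
    (Polynomial.C x)).trans ?_
  rw [Polynomial.eval₂_C]

/-- **the products are zero**, from the exactness of the localisation sequence -/
theorem mod_of_exact (k : ℕ) (hex : ∀ j : ℕ, Function.Exact
      (hm k (j + 1) (RatFunc.C : K →+* RatFunc K)) (Rs K k j)) (x : K) (hx0 : x ≠ 0)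
    (hx1 : x ≠ 1) (j : ℕ) (z : CC k j K) (hz : z ∈ ZC K k j) :
    us k (j + 1) (RingHom.id K) (ely (some x)) (us k j (RingHom.id K) (elx (some x)) z) ∈
      BC K k (j + 2) := by
  -- the class over `K(t)`
  obtain ⟨hzC, -⟩ := hm_ind k j (RatFunc.C : K →+* RatFunc K) ⟨z, hz⟩
  obtain ⟨Z, hZ⟩ : ∃ Z : CC k (j + 2) (RatFunc K), Z =
      us k (j + 1) (RingHom.id _) (ely (some RatFunc.X : P1 (RatFunc K)))
      (us k j (RingHom.id _) (elx (some RatFunc.X : P1 (RatFunc K)))
        (rs k j (RatFunc.C : K →+* RatFunc K) z)) := ⟨_, rfl⟩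
  have hZZ : Z ∈ ZC (RatFunc K) k (j + 2) := by
    rw [hZ]
    exact hmo_Z k (j + 1) _ (hmo_Z k j _ hzC)
  have h1 : Rs K k (j + 1) (hc ⟨Z, hZZ⟩) = 0 := by
    refine DirectSum.ext_component ℚ fun P => ?_
    change Rs K k (j + 1) (hc ⟨Z, hZZ⟩) P = 0
    rw [Rs_hc, hc_zero]
    change rsd (vP P) k (j + 1) Z ∈ _
    rw [hZ, hmo_res]
    exact zero_mem _
  obtain ⟨c, hc1⟩ := ((hex (j + 1)) _).1 h1
  obtain ⟨y, rfl⟩ := hc_surj c
  obtain ⟨h2, h3⟩ := hm_ind k (j + 2) (RatFunc.C : K →+* RatFunc K) y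
  have h4 : hc (⟨rs k (j + 2) (RatFunc.C : K →+* RatFunc K) y.1, h2⟩ :
      ↥(ZC (RatFunc K) k (j + 2))) = hc ⟨Z, hZZ⟩ := h3.symm.trans hc1
  have h5 : rs k (j + 2) (RatFunc.C : K →+* RatFunc K) y.1 - Z ∈ BC (RatFunc K) k (j + 2) :=
    (hc_eq _ _).1 h4
  -- the specialisations
  have key : ∀ a : K, a ≠ 0 → a ≠ 1 →
      y.1 - us k (j + 1) (RingHom.id K) (ely (some a)) (us k j (RingHom.id K) (elx (some a)) z) ∈
        BC K k (j + 2) := by
    intro a ha0 ha1
    have h6 := rsd_B (vP (pa a)) k (j + 2) (hmo_B k (j + 1) (pi (pa a)) h5)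
    have hX : ¬ (pa a).1 ∣ (Polynomial.X : Polynomial K) := by
      intro h
      have h7 : (Polynomial.X - Polynomial.C a : Polynomial K) ∣ Polynomial.X := h
      rw [Polynomial.dvd_iff_isRoot, Polynomial.IsRoot, Polynomial.eval_X] at h7
      exact ha0 h7
    have h1X : ¬ (pa a).1 ∣ (1 - Polynomial.X : Polynomial K) := by
      intro h
      have h7 : (Polynomial.X - Polynomial.C a : Polynomial K) ∣ 1 - Polynomial.X := h
      rw [Polynomial.dvd_iff_isRoot, Polynomial.IsRoot, Polynomial.eval_sub, Polynomial.eval_one,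
        Polynomial.eval_X, sub_eq_zero] at h7
      exact ha1 h7.symm
    have hr : rP (pa a) Polynomial.X = hmoPsi (pa a) a := by
      have h7 : rP (pa a) (Polynomial.X - Polynomial.C a) = 0 := (rP_zero (pa a)).2 (dvd_refl _)
      rw [map_sub, sub_eq_zero] at h7
      exact h7
    have hv2 : UVal (pa a) (elx (some RatFunc.X : P1 (RatFunc K)))
        (mu (hmoPsi (pa a)) (elx (some a : P1 K))) := by
      have h7 := hmo_uval (pa a) _ hX
      rw [hr, ← hmo_X] at h7
      have h8 : mu (hmoPsi (pa a)) (elx (some a : P1 K)) = lgm (hmoPsi (pa a) a) := hmo_mu _ ha0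
      rw [h8]
      exact h7
    have hv1 : UVal (pa a) (ely (some RatFunc.X : P1 (RatFunc K)))
        (mu (hmoPsi (pa a)) (ely (some a : P1 K))) := by
      have h7 := hmo_uval (pa a) _ h1X
      have hr' : rP (pa a) (1 - Polynomial.X) = 1 - hmoPsi (pa a) a := by
        rw [map_sub, map_one, hr]
      rw [hr', ← hmo_1X] at h7
      have h8 : mu (hmoPsi (pa a)) (ely (some a : P1 K)) = lgm (hmoPsi (pa a) (1 - a)) :=
        hmo_mu _ (sub_ne_zero.2 ha1.symm)
      rw [h8, map_sub, map_one]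
      exact h7
    rw [map_sub, map_sub, hmo_sp0, hZ, hmo_sp (pa a) k j _ _ _ _ hv1 hv2, ← map_sub] at h6
    -- injectivity
    have hT : y.1 - us k (j + 1) (RingHom.id K) (ely (some a))
        (us k j (RingHom.id K) (elx (some a)) z) ∈ ZC K k (j + 2) :=
      sub_mem y.2 (hmo_Z k (j + 1) _ (hmo_Z k j _ hz))
    obtain ⟨ψ, hψ⟩ := hmo_psi a
    have hinj := hm_inj_of k (j + 2) (hmoPsi (pa a)) ψ hψ
    obtain ⟨h9, h10⟩ := hm_ind k (j + 2) (hmoPsi (pa a)) ⟨_, hT⟩
    refine (hc_zero (⟨_, hT⟩ : ↥(ZC K k (j + 2)))).1 (hinj ?_)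
    rw [h10, map_zero, hc_zero]
    exact h6
  have h7 := key x hx0 hx1
  have h8 := key x⁻¹ (inv_ne_zero hx0) (fun h => hx1 (inv_eq_one.1 h))
  rw [hmo_inv k j hx0 hx1 z] at h8
  have h9 := sub_mem h8 h7
  obtain ⟨T, hT⟩ : ∃ T : CC k (j + 2) K, T = us k (j + 1) (RingHom.id K) (ely (some x))
    (us k j (RingHom.id K) (elx (some x)) z) := ⟨_, rfl⟩
  rw [← hT] at h9 ⊢
  have h10 : y.1 - -T - (y.1 - T) = (2 : ℚ) • T := by
    rw [two_smul]
    abel
  rw [h10] at h9
  have h11 := Submodule.smul_mem _ (2 : ℚ)⁻¹ h9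
  rwa [smul_smul, inv_mul_cancel₀ two_ne_zero, one_smul] at h11

end loc

/-- the products with `δ(B_2)` vanish in `H^{n-2}`, over algebraically closed fields -/
theorem mod_one' (F : Type u) [Field F] [IsAlgClosed F] (x : F) (hx0 : x ≠ 0) (hx1 : x ≠ 1)
    (j : ℕ) (z : CC 1 j F) (hz : z ∈ ZC F 1 j) :
    us 1 (j + 1) (RingHom.id F) (ely (some x)) (us 1 j (RingHom.id F) (elx (some x)) z) ∈
      BC F 1 (j + 2) :=
  mod_of_exact 1 (fun j => (seq1 F j).2.1) x hx0 hx1 j z hz

theorem actZero (F : Type u) [Field F] [IsAlgClosed F] : ActZero F :=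
  actZero_of (mod_one' F)

/-- **(f)** -/
theorem vanish_f (F : Type u) [Field F] [IsAlgClosed F] {m : ℕ} (hm : 2 ≤ m)
    (h : Subsingleton (HT F m)) {i : ℕ} (hi : 3 * m ≤ i + 1) : Subsingleton (HC F 1 i) :=
  vanish3 (actZero F) hm h hi

end Pool.Agent.NFF

end
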