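import Pool.Agent.NFF.HVanS
import Pool.Agent.NFF.F3Kill

set_option autoImplicit false

/-!
# `Mod F 1` for algebraically closed fields
-/

namespace Pool.Agent.NFF

open scoped TensorProduct
open TensorProduct Pool.Agent.Helper91.Gon
open Helper14.Gon (P1 ZP br MU LM lgm elx ely BB CC TT clb gn tp dd dl RR CC_ext dd_gn dl_gn)
open Helper14.Loc (HC HT ZC BC BT hc ht us us_gn)

universe u

/-- from tensor products to the complexes -/
theorem mod_of_act {F : Type u} [Field F] {k : ℕ}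
    (h : ∀ (w : Glue.Bq 0 F) (j : ℕ) (z : Glue.Bq k F ⊗[ℚ] Lam (Glue.Vq F) j), z ∈ Zt F k j →
      (wdg2 (Glue.Vq F) j (Glue.d2q w)).lTensor (Glue.Bq k F) z ∈ Rt F k (j + 2)) : Mod F k := by
  intro t _ _ j z hz
  rw [← mem_Rt, Phi_us, Phi_us]
  have h1 := h (Glue.sq 0 (some t)) j (Glue.Phi k j F z) ((mem_Zt k j z).2 hz)
  have h2 : (wdg2 (Glue.Vq F) j (Glue.d2q (Glue.sq 0 (some t)))).lTensor (Glue.Bq k F)
      (Glue.Phi k j F z) = yw (Glue.Bq k F) (j + 1) ((1 : ℚ) ⊗ₜ[ℤ] ely (some t))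
        (yw (Glue.Bq k F) j ((1 : ℚ) ⊗ₜ[ℤ] elx (some t)) (Glue.Phi k j F z)) := by
    rw [Glue.d2q_sq]
    generalize Glue.Phi k j F z = y
    induction y using TensorProduct.induction_on with
    | zero => rw [map_zero, map_zero, map_zero]
    | tmul a b =>
      rw [LinearMap.lTensor_tmul, wdg2_ww, yw_tmul, yw_tmul]
      rfl
    | add a b ha hb => rw [map_add, ha, hb, map_add, map_add]
  rw [h2] at h1
  exact h1

/-- the symbols act by zero in codegree two -/
theorem mod_one (F : Type u) [Field F] [IsAlgClosed F] : Mod F 1 :=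
  mod_of_act fun w j z hz => kill3 F w j z hz

end Pool.Agent.NFF
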