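import Pool.Agent.NFF.HVan
import Pool.Agent.NFF.F3KillA

set_option autoImplicit false

/-!
# The `K^M`-module property in codegree `k + 1` follows from localisation (surjectivity) in this codegree
-/

namespace Pool.Agent.NFF

open Helper14.Gon (P1 ZP br MU LM lgm elx ely BB CC TT clb gn tp dd dl RR CC_ext dd_gn dl_gn)
open Helper14.Loc (HC HT ZC BC BT hc ht us)

universe u

variable (F : Type u) [Field F]

private lemma hm_wC_add {k j : ℕ} (u v : Additive Fˣ) (z : Helper14.Gon.Cx k j F) :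
    Helper14.W4.wC k j (u + v) z = Helper14.W4.wC k j u z + Helper14.W4.wC k j v z := by
  rw [Helper14.W4.wC, Helper14.W4.wT_add, Helper14.W4.mapT_add]
  rfl

private lemma hm_wC_neg_one {k j : ℕ} (z : Helper14.Gon.Cx k j F) :
    Helper14.W4.wC k j (Helper14.Gon.lg (-1 : F)) z = 0 := by
  rw [Helper14.W4.wC, Helper14.W4.wT_neg_one, Helper14.W4.mapT_zero]

private lemma hm_us (k j : ℕ) (u : MU F) (z : CC k j F) :
    Helper14.Gon.eC F k (j + 1) (us k j (RingHom.id F) u z) =
      Helper14.W4.wC (k + 2) j u (Helper14.Gon.eC F k j z) := by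
  have : (Helper14.Gon.eC F k (j + 1)).toLinearMap ∘ₗ us k j (RingHom.id F) u =
      (Helper14.W4.wC (k + 2) j u) ∘ₗ (Helper14.Gon.eC F k j).toLinearMap := by
    refine CC_ext fun x v => ?_
    rw [LinearMap.comp_apply, LinearMap.comp_apply, LinearEquiv.coe_coe,
      LinearEquiv.coe_coe, Helper14.Loc.us_gn, Helper14.Gon.eC_gn, Helper14.Gon.eC_gn,
      ← Helper14.W4.PB_gen, ← Helper14.W4.PB_gen, Helper14.W4.wC_PB, Helper14.W4.wT_toQ,
      Helper14.Gon.wL_ιMulti]
    have e1 : Option.map (RingHom.id F) x = x := by cases x <;> rfl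
    have e2 : (fun i => Helper14.Gon.mu (RingHom.id F) (v i)) = v := by
      funext i
      rfl
    rw [e1, e2]
    rfl
  exact LinearMap.congr_fun this z

theorem mod_of_surj (k : ℕ) (hS : ∀ j, Helper14.Loc.Surj F k (j + 1)) : Mod F k := by
  intro x h0 h1 j z hz
  rw [Helper14.Loc.mem_BC, hm_us, hm_us]
  have hy : (elx (some x : P1 F) : MU F) = Helper14.Gon.lg x := rfl
  have hy' : (ely (some x : P1 F) : MU F) = Helper14.Gon.lg (1 - x) := rfl
  have h7 := kill_Cx k j (hS j) (Helper14.Gon.eC F k j z) ((Helper14.Loc.mem_ZC k j z).1 hz) x h0 h1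
  have h8 : (1 - x : F) = (-1) * (x - 1) := by ring
  rw [hy, hy', h8, Helper14.Gon.lg_mul (neg_ne_zero.2 one_ne_zero) (sub_ne_zero.2 h1), hm_wC_add,
    hm_wC_neg_one, zero_add]
  exact h7

theorem mod_one [IsAlgClosed F] : Mod F 1 :=
  mod_of_surj F 1 fun j => Helper42.LT.surj_one (j + 1)

end Pool.Agent.NFF
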