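import Pool.Agent.NFF.HVan

set_option autoImplicit false

/-!
# One codegree up, with the range of the vanishing as a parameter
-/

namespace Pool.Agent.NFF

open scoped TensorProduct
open TensorProduct Pool.Agent.Helper91.Gon
open Helper14.Gon (P1 ZP br MU LM lgm elx ely BB CC TT clb gn tp dd dl RR CC_ext dd_gn dl_gn)
open Helper14.Loc (HC HT ZC BC BT hc ht us us_gn)

universe u

variable {F : Type u} [Field F]

theorem sub_iff (p j : ℕ) : Subsingleton (HC F p j) ↔ Zt F p j ≤ Rt F p j := by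
  constructor
  · intro h z hz
    obtain ⟨z, rfl⟩ := (Glue.Phi p j F).surjective z
    rw [mem_Zt] at hz
    rw [mem_Rt]
    have h2 : (hc (⟨z, hz⟩ : ↥(ZC F p j)) : HC F p j) = 0 := Subsingleton.elim _ _
    have h3 : (⟨z, hz⟩ : ↥(ZC F p j)) ∈ (BC F p j).submoduleOf (ZC F p j) :=
      (Submodule.Quotient.mk_eq_zero _).1 h2
    exact h3
  · intro h
    have h1 : ZC F p j ≤ BC F p j := fun z hz => (mem_Rt p j z).1 (h ((mem_Zt p j z).2 hz))
    refine ⟨fun a b => ?_⟩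
    have h4 : ∀ a : HC F p j, a = 0 := by
      intro a
      obtain ⟨z, rfl⟩ : ∃ z : ↥(ZC F p j), hc z = a := Submodule.Quotient.mk_surjective _ a
      exact (Submodule.Quotient.mk_eq_zero _).2 (h1 z.2)
    rw [h4 a, h4 b]

/-- generation in codegree one -/
theorem cl_zero' {k : ℕ} (hd : Function.Surjective (del (Glue.d2q : Glue.Bq 0 F →ₗ[ℚ] _) k))
    {i : ℕ} (hi : k + 1 ≤ i) : Cl (Zt F 0) i := by
  obtain ⟨t, rfl⟩ : ∃ t, i = k + t + 1 := ⟨i - (k + 1), by omega⟩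
  exact cl_one Glue.d2q (surj_up Glue.d2q hd t)

/-- generation one codegree up -/
theorem cl_up {p i : ℕ} (h : Cl (Zt F p) (i + 1)) (hv : Subsingleton (HC F p (i + 1))) :
    Cl (Zt F (p + 1)) (i + 1) :=
  cl_succ (Z := Zt F p)
    (fun j => Abs.diffS (V := Glue.Vq F) (B := fun n => Glue.Bq n F) Glue.dSq p j)
    (fun j y z => diffS_yw p j y z) (fun j z => diffS_mem_Zt p j z)
    (i := i) ((sub_iff p (i + 1)).1 hv) h

/-- vanishing from generation and the action of the symbols -/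
theorem van_cl {k : ℕ} (hd : Function.Surjective (del (Glue.d2q : Glue.Bq 0 F →ₗ[ℚ] _) k))
    {p : ℕ} (hmod : Mod F p) {s : ℕ} (h : ∀ i, s ≤ i → Cl (Zt F p) i) {j : ℕ}
    (hj : s + (k + 2) ≤ j) : Subsingleton (HC F p j) := by
  rw [sub_iff]
  obtain ⟨t, rfl⟩ : ∃ t, j = s + (k + t + 2) := ⟨j - s - k - 2, by omega⟩
  exact van_gen Glue.d2q (Z := Zt F p) (R := Rt F p)
    (fun j y z hz => yw_mem_Zt p j y z hz)
    (fun w j z hz => hmod.act w j z hz) hd (i := s) (fun t => h _ (by omega)) t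

/-- codegree two -/
theorem vanS' {k : ℕ} (hd : Function.Surjective (del (Glue.d2q : Glue.Bq 0 F →ₗ[ℚ] _) k))
    (hmod : Mod F 1) {s : ℕ} (hs : k + 1 ≤ s) (hv : ∀ j, s ≤ j → Subsingleton (HC F 0 j))
    {j : ℕ} (hj : s + (k + 2) ≤ j) : Subsingleton (HC F 1 j) := by
  refine van_cl hd hmod (s := s) (fun i hi => ?_) hj
  obtain ⟨i, rfl⟩ : ∃ i', i = i' + 1 := ⟨i - 1, by omega⟩
  exact cl_up (cl_zero' hd (by omega)) (hv _ hi)

/-- codegree two, in terms of the Milnor groups -/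
theorem vanS {m : ℕ} (hm : 2 ≤ m) (h : Subsingleton (HT F m)) (hmod : Mod F 1) {s : ℕ}
    (hs : m ≤ s + 1) (hv : ∀ j, s ≤ j → Subsingleton (HC F 0 j))
    {j : ℕ} (hj : s + m ≤ j) : Subsingleton (HC F 1 j) := by
  obtain ⟨k, rfl⟩ : ∃ k, m = k + 2 := ⟨m - 2, by omega⟩
  exact vanS' (dl_surj h) hmod (by omega) hv hj

end Pool.Agent.NFF
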