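import Pool.Agent.NFF.Span

set_option autoImplicit false

/-!
# Project NFF: isotropic forms

Paper, section 3.2.
-/

namespace NFF

open NumberField TensorProduct
open IsDedekindDomain (HeightOneSpectrum)

variable {K : Type} [Field K] [NumberField K] {C : ℕ} {S : Set (Pr K)} {P : Pr K}

private theorem Iso_ratio (hL : Lev C S P) {r r' : 𝓞 K} (hr : r ∉ P.asIdeal)
    (hr' : r' ∉ P.asIdeal) :
    ∃ e ∈ Tin K (qn P), ∃ e' ∈ Tin K (qn P), r * e - r' * e' ∈ P.asIdeal := by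
  have hp : P.asIdeal.IsPrime := P.isPrime
  have hm : P.asIdeal.IsMaximal := P.isMaximal
  obtain ⟨c, i, hi, hc⟩ := hm.exists_inv hr'
  have hcP : c ∉ P.asIdeal := by
    intro h
    apply hp.ne_top
    rw [Ideal.eq_top_iff_one, ← hc]
    exact Ideal.add_mem _ (Ideal.mul_mem_right _ _ h) hi
  obtain ⟨e, he, e', he', h⟩ := hL.g1 (c * r) (fun h => (hp.mem_or_mem h).elim hcP hr)
  refine ⟨e, he, e', he', ?_⟩
  have h1 : r * e - r' * e' = r' * (c * r * e - e') + i * (r * e) := by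
    have h2 : r * e = (c * r' + i) * (r * e) := by rw [hc, one_mul]
    calc r * e - r' * e' = (c * r' + i) * (r * e) - r' * e' := by rw [← h2]
      _ = _ := by ring
  rw [h1]
  exact Ideal.add_mem _ (Ideal.mul_mem_left _ _ h) (Ideal.mul_mem_right _ _ hi)

private theorem Iso_mul_not (hL : Lev C S P) {x y : 𝓞 K} (hx : x ∈ Med K (qn P))
    (hy : y ∈ Med K (qn P)) : x * y ∉ P.asIdeal := by
  have hp : P.asIdeal.IsPrime := P.isPrime
  exact fun h => (hp.mem_or_mem h).elim (hL.lrg_not _ (hL.med_lrg hx))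
    (hL.lrg_not _ (hL.med_lrg hy))

private theorem Iso_big {q : ℕ} {M : 𝓞 K} (hM : M ∈ Big C S q) : M ≠ 0 := by
  rcases hM with ⟨x, hx, y, hy, e, he, rfl⟩ | ⟨x, hx, e, he, z, hz, rfl⟩
  · exact mul_ne_zero (mul_ne_zero hx.1 hy.1) he.1
  · exact mul_ne_zero (mul_ne_zero hx.1 he.1) hz.1

omit [NumberField K] in
private theorem Iso_lg3 {x y z : 𝓞 K} (hx : x ≠ 0) (hy : y ≠ 0) (hz : z ≠ 0) :
    lg ((x * y * z : 𝓞 K) : K) = lg (x : K) + lg (y : K) + lg (z : K) := by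
  rw [lgo_mul (mul_ne_zero hx hy) hz, lgo_mul hx hy]

private theorem Iso_ub {B : VV K →ₗ[ℚ] VV K →ₗ[ℚ] ℚ}
    (hB : ∀ u ∈ Ub C S P, B (lg u) (lg u) = 0) {M N : 𝓞 K}
    (hM : M ∈ Big C S (qn P)) (hN : N ∈ Big C S (qn P)) (h : M - N ∈ P.asIdeal) :
    B (lg (M : K) - lg (N : K)) (lg (M : K) - lg (N : K)) = 0 := by
  by_cases hMN : M = N
  · rw [hMN, sub_self, map_zero]
  · have h1 := hB _ ⟨M, hM, N, hN, hMN, h, rfl⟩
    rw [lgo_div (Iso_big hM) (Iso_big hN)] at h1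
    exact h1

private theorem Iso_dd (hL : Lev C S P) {B : VV K →ₗ[ℚ] VV K →ₗ[ℚ] ℚ}
    (hB : ∀ u ∈ Ub C S P, B (lg u) (lg u) = 0) {D D' : VV K} (hD : D ∈ DD P) (hD' : D' ∈ DD P) :
    B D D' + B D' D = 0 := by
  obtain ⟨x1, hx1, x2, hx2, x3, hx3, x4, hx4, hx, rfl⟩ := hD
  obtain ⟨y1, hy1, y2, hy2, y3, hy3, y4, hy4, hy, rfl⟩ := hD'
  obtain ⟨e, he, e', he', h⟩ := Iso_ratio hL (Iso_mul_not hL hx1 hx2) (Iso_mul_not hL hy1 hy2)
  have b1 : x1 * x2 * e ∈ Big C S (qn P) := Or.inl ⟨x1, hx1, x2, hx2, e, he, rfl⟩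
  have b2 : x3 * x4 * e ∈ Big C S (qn P) := Or.inl ⟨x3, hx3, x4, hx4, e, he, rfl⟩
  have b3 : y1 * y2 * e' ∈ Big C S (qn P) := Or.inl ⟨y1, hy1, y2, hy2, e', he', rfl⟩
  have b4 : y3 * y4 * e' ∈ Big C S (qn P) := Or.inl ⟨y3, hy3, y4, hy4, e', he', rfl⟩
  have c13 : x1 * x2 * e - y1 * y2 * e' ∈ P.asIdeal := h
  have c14 : x1 * x2 * e - y3 * y4 * e' ∈ P.asIdeal := by
    have h1 : x1 * x2 * e - y3 * y4 * e' =
        (x1 * x2 * e - y1 * y2 * e') + (y1 * y2 - y3 * y4) * e' := by ring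
    rw [h1]
    exact Ideal.add_mem _ h (Ideal.mul_mem_right _ _ hy)
  have c23 : x3 * x4 * e - y1 * y2 * e' ∈ P.asIdeal := by
    have h1 : x3 * x4 * e - y1 * y2 * e' =
        (x1 * x2 * e - y1 * y2 * e') - (x1 * x2 - x3 * x4) * e := by ring
    rw [h1]
    exact Ideal.sub_mem _ h (Ideal.mul_mem_right _ _ hx)
  have c24 : x3 * x4 * e - y3 * y4 * e' ∈ P.asIdeal := by
    have h1 : x3 * x4 * e - y3 * y4 * e' =
        (x3 * x4 * e - y1 * y2 * e') + (y1 * y2 - y3 * y4) * e' := by ring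
    rw [h1]
    exact Ideal.add_mem _ c23 (Ideal.mul_mem_right _ _ hy)
  have q13 := Iso_ub hB b1 b3 c13
  have q14 := Iso_ub hB b1 b4 c14
  have q23 := Iso_ub hB b2 b3 c23
  have q24 := Iso_ub hB b2 b4 c24
  have p12 : lg (x1 : K) + lg (x2 : K) - lg (x3 : K) - lg (x4 : K) =
      lg ((x1 * x2 * e : 𝓞 K) : K) - lg ((x3 * x4 * e : 𝓞 K) : K) := by
    rw [Iso_lg3 hx1.1 hx2.1 he.1, Iso_lg3 hx3.1 hx4.1 he.1]
    abel
  have p34 : lg (y1 : K) + lg (y2 : K) - lg (y3 : K) - lg (y4 : K) =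
      lg ((y1 * y2 * e' : 𝓞 K) : K) - lg ((y3 * y4 * e' : 𝓞 K) : K) := by
    rw [Iso_lg3 hy1.1 hy2.1 he'.1, Iso_lg3 hy3.1 hy4.1 he'.1]
    abel
  rw [p12, p34]
  generalize lg ((x1 * x2 * e : 𝓞 K) : K) = p1 at q13 q14
  generalize lg ((x3 * x4 * e : 𝓞 K) : K) = p2 at q23 q24
  generalize lg ((y1 * y2 * e' : 𝓞 K) : K) = p3 at q13 q23
  generalize lg ((y3 * y4 * e' : 𝓞 K) : K) = p4 at q14 q24
  simp only [map_sub, LinearMap.sub_apply] at q13 q14 q23 q24 ⊢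
  linarith

private theorem Iso_span (hL : Lev C S P) {B : VV K →ₗ[ℚ] VV K →ₗ[ℚ] ℚ}
    (hB : ∀ u ∈ Ub C S P, B (lg u) (lg u) = 0) {v w : VV K}
    (hv : v ∈ Submodule.span ℚ (DD P)) (hw : w ∈ Submodule.span ℚ (DD P)) :
    B v w + B w v = 0 := by
  have h1 : ∀ D ∈ DD P, ∀ w ∈ Submodule.span ℚ (DD P), (B + B.flip) D w = 0 := by
    intro D hD w hw
    have h2 : Submodule.span ℚ (DD P) ≤ LinearMap.ker ((B + B.flip) D) := by
      rw [Submodule.span_le]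
      intro D' hD'
      exact Iso_dd hL hB hD hD'
    exact h2 hw
  have h3 : Submodule.span ℚ (DD P) ≤ LinearMap.ker ((B + B.flip).flip w) := by
    rw [Submodule.span_le]
    intro D hD
    exact h1 D hD w hw
  exact h3 hv

private theorem Iso_self (hL : Lev C S P) {B : VV K →ₗ[ℚ] VV K →ₗ[ℚ] ℚ}
    (hB : ∀ u ∈ Ub C S P, B (lg u) (lg u) = 0) {v : VV K}
    (hv : v ∈ Submodule.span ℚ (DD P)) : B v v = 0 := by
  have h := Iso_span hL hB hv hv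
  linarith

private theorem Iso_med (hL : Lev C S P) {B : VV K →ₗ[ℚ] VV K →ₗ[ℚ] ℚ}
    (hB : ∀ u ∈ Ub C S P, B (lg u) (lg u) = 0) {x m x1 x2 e : 𝓞 K}
    (hx : x ∈ Lrg C S (qn P)) (hm : m ∈ Tin K (qn P)) (hx1 : x1 ∈ Med K (qn P))
    (hx2 : x2 ∈ Med K (qn P)) (he : e ∈ Tin K (qn P)) (h : x * m - x1 * x2 * e ∈ P.asIdeal) :
    B (lg (x : K)) (lg (x : K)) +
      (B (lg (x : K)) (lg (m : K) - lg (x1 : K) - lg (x2 : K) - lg (e : K)) +
        B (lg (m : K) - lg (x1 : K) - lg (x2 : K) - lg (e : K)) (lg (x : K))) = 0 := by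
  have b1 : x * m * 1 ∈ Big C S (qn P) := Or.inr ⟨x, hx, m, hm, 1, hL.one_sml, rfl⟩
  rw [mul_one] at b1
  have b2 : x1 * x2 * e ∈ Big C S (qn P) := Or.inl ⟨x1, hx1, x2, hx2, e, he, rfl⟩
  have q := Iso_ub hB b1 b2 h
  rw [lgo_mul hx.1 hm.1, Iso_lg3 hx1.1 hx2.1 he.1] at q
  have hw : lg (m : K) - lg (x1 : K) - lg (x2 : K) - lg (e : K) ∈ Submodule.span ℚ (DD P) :=
    Submodule.sub_mem _ (Submodule.sub_mem _ (Submodule.sub_mem _
      (med_mem hL (hL.tin_med hm)) (med_mem hL hx1)) (med_mem hL hx2))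
      (med_mem hL (hL.tin_med he))
  have hs := Iso_self hL hB hw
  have he1 : lg (x : K) + lg (m : K) - (lg (x1 : K) + lg (x2 : K) + lg (e : K)) =
      lg (x : K) + (lg (m : K) - lg (x1 : K) - lg (x2 : K) - lg (e : K)) := by abel
  rw [he1] at q
  generalize lg (m : K) - lg (x1 : K) - lg (x2 : K) - lg (e : K) = w at q hs ⊢
  simp only [map_add, LinearMap.add_apply] at q
  linarith

private theorem Iso_lrg_dd (hL : Lev C S P) {B : VV K →ₗ[ℚ] VV K →ₗ[ℚ] ℚ}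
    (hB : ∀ u ∈ Ub C S P, B (lg u) (lg u) = 0) {x : 𝓞 K} (hx : x ∈ Lrg C S (qn P)) {v : VV K}
    (hv : v ∈ Submodule.span ℚ (DD P)) : B (lg (x : K)) v + B v (lg (x : K)) = 0 := by
  have h0 : Submodule.span ℚ (DD P) ≤ LinearMap.ker ((B + B.flip) (lg (x : K))) := by
    rw [Submodule.span_le]
    rintro _ ⟨x1, hx1, x2, hx2, x3, hx3, x4, hx4, h, rfl⟩
    change B (lg (x : K)) (lg (x1 : K) + lg (x2 : K) - lg (x3 : K) - lg (x4 : K)) +
      B (lg (x1 : K) + lg (x2 : K) - lg (x3 : K) - lg (x4 : K)) (lg (x : K)) = 0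
    obtain ⟨m, hm, e, he, h1⟩ := Iso_ratio hL (hL.lrg_not x hx) (Iso_mul_not hL hx1 hx2)
    have h2 : x * m - x3 * x4 * e ∈ P.asIdeal := by
      have h3 : x * m - x3 * x4 * e = (x * m - x1 * x2 * e) + (x1 * x2 - x3 * x4) * e := by ring
      rw [h3]
      exact Ideal.add_mem _ h1 (Ideal.mul_mem_right _ _ h)
    have q1 := Iso_med hL hB hx hm hx1 hx2 he h1
    have q2 := Iso_med hL hB hx hm hx3 hx4 he h2
    simp only [map_sub, map_add, LinearMap.sub_apply, LinearMap.add_apply] at q1 q2 ⊢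
    linarith
  exact h0 hv

private theorem Iso_lrg (hL : Lev C S P) {B : VV K →ₗ[ℚ] VV K →ₗ[ℚ] ℚ}
    (hB : ∀ u ∈ Ub C S P, B (lg u) (lg u) = 0) {x : 𝓞 K} (hx : x ∈ Lrg C S (qn P)) :
    B (lg (x : K)) (lg (x : K)) = 0 := by
  obtain ⟨m, hm, e, he, h1⟩ := Iso_ratio hL (hL.lrg_not x hx)
    (Iso_mul_not hL hL.one_med hL.one_med)
  have q := Iso_med hL hB hx hm hL.one_med hL.one_med he h1
  rw [Iso_lrg_dd hL hB hx (Submodule.sub_mem _ (Submodule.sub_mem _ (Submodule.sub_mem _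
      (med_mem hL (hL.tin_med hm)) (med_mem hL hL.one_med)) (med_mem hL hL.one_med))
      (med_mem hL (hL.tin_med he))), add_zero] at q
  exact q

private theorem Iso_two (hL : Lev C S P) {B : VV K →ₗ[ℚ] VV K →ₗ[ℚ] ℚ}
    (hB : ∀ u ∈ Ub C S P, B (lg u) (lg u) = 0) {x x' : 𝓞 K} (hx : x ∈ Lrg C S (qn P))
    (hx' : x' ∈ Lrg C S (qn P)) :
    B (lg (x : K)) (lg (x' : K)) + B (lg (x' : K)) (lg (x : K)) = 0 := by
  obtain ⟨e, he, e', he', h⟩ := Iso_ratio hL (hL.lrg_not x hx) (hL.lrg_not x' hx')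
  have b1 : x * e * 1 ∈ Big C S (qn P) := Or.inr ⟨x, hx, e, he, 1, hL.one_sml, rfl⟩
  have b2 : x' * e' * 1 ∈ Big C S (qn P) := Or.inr ⟨x', hx', e', he', 1, hL.one_sml, rfl⟩
  rw [mul_one] at b1 b2
  have q := Iso_ub hB b1 b2 h
  rw [lgo_mul hx.1 he.1, lgo_mul hx'.1 he'.1] at q
  have hw : lg (e : K) - lg (e' : K) ∈ Submodule.span ℚ (DD P) :=
    Submodule.sub_mem _ (med_mem hL (hL.tin_med he)) (med_mem hL (hL.tin_med he'))
  have hs := Iso_self hL hB hw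
  have h1 := Iso_lrg_dd hL hB hx hw
  have h2 := Iso_lrg_dd hL hB hx' hw
  have h3 := Iso_lrg hL hB hx
  have h4 := Iso_lrg hL hB hx'
  have he1 : lg (x : K) + lg (e : K) - (lg (x' : K) + lg (e' : K)) =
      lg (x : K) - lg (x' : K) + (lg (e : K) - lg (e' : K)) := by abel
  rw [he1] at q
  generalize lg (e : K) - lg (e' : K) = w at q hs h1 h2
  simp only [map_add, map_sub, LinearMap.add_apply, LinearMap.sub_apply] at q
  linarith

/-- **3.2.** A form which vanishes on `(lg u, lg u)` for all `u` in `Ub` is isotropic on `VS S`. -/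
theorem isotropy (hL : Lev C S P) (B : VV K →ₗ[ℚ] VV K →ₗ[ℚ] ℚ)
    (hB : ∀ u ∈ Ub C S P, B (lg u) (lg u) = 0) : ∀ v ∈ VS S, B v v = 0 := by
  have h1 : ∀ x ∈ Lrg C S (qn P), ∀ w ∈ VS S, (B + B.flip) (lg (x : K)) w = 0 := by
    intro x hx w hw
    have h2 : VS S ≤ LinearMap.ker ((B + B.flip) (lg (x : K))) := by
      rw [hL.span_lrg, Submodule.span_le]
      rintro _ ⟨y, hy, rfl⟩
      exact Iso_two hL hB hx hy
    exact h2 hw
  intro v hv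
  have h3 : VS S ≤ LinearMap.ker ((B + B.flip).flip v) := by
    nth_rewrite 1 [hL.span_lrg]
    rw [Submodule.span_le]
    rintro _ ⟨y, hy, rfl⟩
    exact h1 y hy v hv
  have h4 : B v v + B v v = 0 := h3 hv
  linarith

end NFF
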