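import Pool.Agent.NFF.Defs
import Pool.Agent.NFF.Ord

set_option autoImplicit false

/-!
# NFF-Mon: monotonicity of the sets
-/

namespace NFF

open NumberField TensorProduct
open IsDedekindDomain (HeightOneSpectrum)

variable {K : Type} [Field K] [NumberField K]

variable {C : ℕ}

private theorem nffmon_med {q q' : ℕ} (hq : q' ≤ q) {x : 𝓞 K} (h : x ∈ Med K q') :
    x ∈ Med K q :=
  ⟨h.1, h.2.trans (Nat.mul_le_mul_left _ (Nat.pow_le_pow_left hq 2))⟩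

private theorem nffmon_tin {q q' : ℕ} (hq : q' ≤ q) {x : 𝓞 K} (h : x ∈ Tin K q') :
    x ∈ Tin K q :=
  ⟨h.1, h.2.trans hq⟩

private theorem nffmon_lrg {S S' : Set (Pr K)} {q q' : ℕ} (hS : S' ⊆ S) (hq : q' ≤ q) {x : 𝓞 K}
    (h : x ∈ Lrg C S' q') : x ∈ Lrg C S q :=
  ⟨h.1, h.2.1.trans (Nat.mul_le_mul_left _ hq),
    h.2.2.1, fun Q hQ => h.2.2.2 Q fun hQ' => hQ (hS hQ')⟩

/-- basic quotients of a lower level are of type `Ty` at every higher level -/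
theorem ty_mono {S S' : Set (Pr K)} {q q' : ℕ} (hS : S' ⊆ S) (hq : q' ≤ q) {M N : 𝓞 K}
    (h : Ty C S' q' M N) : Ty C S q M N := by
  rcases h with ⟨x, hx, y, hy, z, hz, w, hw, hM, hN⟩ | ⟨x, hx, e, he, hM, hN⟩
  · exact Or.inl ⟨x, nffmon_med hq hx, y, nffmon_med hq hy, z, nffmon_med hq hz,
      w, nffmon_med hq hw, hM, hN⟩
  · exact Or.inr ⟨x, nffmon_lrg hS hq hx, e, nffmon_tin hq he, hM, nffmon_tin hq hN⟩

/-- quotients of medium integers are of type `Ty` -/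
theorem ty_med (S : Set (Pr K)) (q : ℕ) (h1 : (1 : 𝓞 K) ∈ Med K q) {x y : 𝓞 K}
    (hx : x ∈ Med K q) (hy : y ∈ Med K q) : Ty C S q y x :=
  Or.inl ⟨y, hy, 1, h1, x, hx, 1, h1, (mul_one y).symm, (mul_one x).symm⟩

end NFF
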