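import Pool.Agent.NFF.Defs
import Pool.Agent.NFF.Ord

set_option autoImplicit false

/-!
# NFF-St2: the trilinear form T
-/

namespace NFF

open NumberField TensorProduct
open IsDedekindDomain (HeightOneSpectrum)

variable {K : Type} [Field K] [NumberField K]

private theorem st2_neg {M : VV K →ₗ[ℚ] VV K →ₗ[ℚ] ℚ} (hM : Alt M) (v w : VV K) :
    M v w = - M w v := by
  have h := hM (v + w)
  simp only [map_add, LinearMap.add_apply, hM v, hM w] at h
  linarith

theorem mk_T (M : VV K →ₗ[ℚ] VV K →ₗ[ℚ] ℚ) (hM : Alt M) (vl : VV K →ₗ[ℚ] ℚ) (p : VV K)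
    (hp : vl p = 1) :
    ∃ T : VV K →ₗ[ℚ] VV K →ₗ[ℚ] VV K →ₗ[ℚ] ℚ, Alt3 T ∧ ∀ a b c : VV K,
      T a b c = vl a * M (c - vl c • p) (b - vl b • p) + vl b * M (a - vl a • p) (c - vl c • p) +
        vl c * M (b - vl b • p) (a - vl a • p) := by
  obtain ⟨P, hP⟩ : ∃ P : VV K →ₗ[ℚ] VV K, ∀ v, P v = v - vl v • p :=
    ⟨LinearMap.id - vl.smulRight p, fun v => rfl⟩
  have hT : ∃ T : VV K →ₗ[ℚ] VV K →ₗ[ℚ] VV K →ₗ[ℚ] ℚ, ∀ a b c : VV K,
      T a b c = vl a * M (P c) (P b) + vl b * M (P a) (P c) + vl c * M (P b) (P a) := by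
    refine ⟨LinearMap.mk₂ ℚ (fun a b => vl a • ((M.flip (P b)).comp P) +
      vl b • ((M (P a)).comp P) + (M (P b) (P a)) • vl) ?_ ?_ ?_ ?_, fun a b c => ?_⟩
    · intro a a' b
      refine LinearMap.ext fun c => ?_
      simp only [LinearMap.add_apply, LinearMap.smul_apply, LinearMap.comp_apply,
        LinearMap.flip_apply, map_add, smul_eq_mul]
      ring
    · intro r a b
      refine LinearMap.ext fun c => ?_
      simp only [LinearMap.add_apply, LinearMap.smul_apply, LinearMap.comp_apply,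
        LinearMap.flip_apply, map_smul, smul_eq_mul]
      ring
    · intro a b b'
      refine LinearMap.ext fun c => ?_
      simp only [LinearMap.add_apply, LinearMap.smul_apply, LinearMap.comp_apply,
        LinearMap.flip_apply, map_add, smul_eq_mul]
      ring
    · intro r a b
      refine LinearMap.ext fun c => ?_
      simp only [LinearMap.add_apply, LinearMap.smul_apply, LinearMap.comp_apply,
        LinearMap.flip_apply, map_smul, smul_eq_mul]
      ring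
    · rw [LinearMap.mk₂_apply]
      simp only [LinearMap.add_apply, LinearMap.smul_apply, LinearMap.comp_apply,
        LinearMap.flip_apply, smul_eq_mul]
      ring
  obtain ⟨T, hT⟩ := hT
  refine ⟨T, ⟨fun a b => ?_, fun a b => ?_⟩, fun a b c => ?_⟩
  · rw [hT, st2_neg hM (P b) (P a), hM (P a)]
    ring
  · rw [hT, st2_neg hM (P a) (P b), hM (P b)]
    ring
  · rw [hT, hP, hP, hP]

/-- subtracting a trilinear alternating form -/
theorem fam_sub {F : Submodule ℚ (K → ℚ)} (hF : Fam F) (φ : VV K →ₗ[ℚ] (K → ℚ))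
    (h1 : ∀ v, φ v ∈ F) (h2 : ∀ x : K, x ≠ 0 → x ≠ 1 → φ (lg x) x = 0)
    (T : VV K →ₗ[ℚ] VV K →ₗ[ℚ] VV K →ₗ[ℚ] ℚ) (hT : Alt3 T) :
    ∃ φ' : VV K →ₗ[ℚ] (K → ℚ), (∀ v, φ' v ∈ F) ∧ (∀ x : K, x ≠ 0 → x ≠ 1 → φ' (lg x) x = 0) ∧
      ∀ v x, φ' v x = φ v x - T (lg (1 - x)) (lg x) v := by
  have hφ' : ∃ φ' : VV K →ₗ[ℚ] (K → ℚ), ∀ v x, φ' v x = φ v x - T (lg (1 - x)) (lg x) v :=
    ⟨LinearMap.pi fun x => (LinearMap.proj x).comp φ - T (lg (1 - x)) (lg x), fun v x => rfl⟩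
  obtain ⟨φ', hφ'⟩ := hφ'
  refine ⟨φ', fun v => ?_, fun x hx0 hx1 => ?_, hφ'⟩
  · have hA : ∃ A : VV K →ₗ[ℚ] VV K →ₗ[ℚ] ℚ, ∀ a b, A a b = T a b v :=
      ⟨LinearMap.mk₂ ℚ (fun a b => T a b v)
        (fun a a' b => by rw [map_add, LinearMap.add_apply, LinearMap.add_apply])
        (fun r a b => by rw [map_smul, LinearMap.smul_apply, LinearMap.smul_apply])
        (fun a b b' => by rw [map_add, LinearMap.add_apply])
        (fun r a b => by rw [map_smul, LinearMap.smul_apply]), fun a b => rfl⟩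
    obtain ⟨A, hA⟩ := hA
    have hAA : Alt A := fun a => by rw [hA, hT.1]
    have h3 : φ' v = φ v - dA A := by
      funext x
      rw [hφ' v x, Pi.sub_apply, dA, hA]
    rw [h3]
    exact F.sub_mem (h1 v) (hF.del A hAA)
  · rw [hφ', h2 x hx0 hx1, hT.2, sub_zero]

end NFF
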