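import Pool.Agent.NFF.Defs
import Pool.Agent.NFF.Ord
import Pool.Agent.NFF.UbP
import Pool.Agent.NFF.Span
import Pool.Agent.NFF.Iso

set_option autoImplicit false

/-!
# NFF-St1: the form M

For `v` in `VS S` the linear form `A_v (lg p)` on `VS S` is determined by `φ v`, since the
classes of the basic quotients span `VS S`; so it is linear in `v`, and isotropic by 3.2.
-/

namespace NFF

open NumberField TensorProduct
open IsDedekindDomain (HeightOneSpectrum)

variable {K : Type} [Field K] [NumberField K]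

variable {C : ℕ} {S : Set (Pr K)} {P : Pr K}

private theorem st1_dec {p : K} (hp : SU (insert P S) p) (hp1 : od P p = 1) {x : K}
    (hx : SU (insert P S) x) : lg x - (od P x : ℚ) • lg p ∈ VS S := by
  apply mem_VS_of_vl (P := P)
  · exact Submodule.sub_mem _ (lg_mem_VS hx) (Submodule.smul_mem _ _ (lg_mem_VS hp))
  · rw [map_sub, map_smul, vl_lg, vl_lg, hp1, Int.cast_one, smul_eq_mul, mul_one, sub_self]

private theorem st1_uniq (h : Lev C S P) (f g : VS S →ₗ[ℚ] ℚ)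
    (hfg : ∀ u ∈ Ba C S P, ∀ hu : lg u ∈ VS S, f ⟨lg u, hu⟩ = g ⟨lg u, hu⟩) : f = g := by
  have h1 : VS S ≤ (LinearMap.ker (f - g)).map (VS S).subtype := by
    nth_rewrite 1 [span_ba h]
    rw [Submodule.span_le]
    rintro _ ⟨u, hu, rfl⟩
    have hu' : lg u ∈ VS S := by
      rw [span_ba h]
      exact Submodule.subset_span ⟨u, hu, rfl⟩
    refine ⟨⟨lg u, hu'⟩, ?_, rfl⟩
    change (f - g) ⟨lg u, hu'⟩ = 0
    rw [LinearMap.sub_apply, hfg u hu hu', sub_self]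
  refine LinearMap.ext fun w => ?_
  obtain ⟨w', hw', hww⟩ := h1 w.2
  have h2 : w' = w := Subtype.ext hww
  rw [h2] at hw'
  have h3 : (f - g) w = 0 := hw'
  rw [LinearMap.sub_apply] at h3
  exact sub_eq_zero.1 h3

theorem exists_M (h : Lev C S P) (hA : Adm S P) (φ : VV K →ₗ[ℚ] (K → ℚ))
    (hφ : ∀ v ∈ VS S, ∃ A : VV K →ₗ[ℚ] VV K →ₗ[ℚ] ℚ, Alt A ∧
      (∀ x : K, x ≠ 0 → x ≠ 1 → φ v x = dA A x) ∧ ∀ u ∈ VS S, ∀ w ∈ VS S, A u w = 0)
    (hx : ∀ x : K, x ≠ 0 → x ≠ 1 → φ (lg x) x = 0) {p : K} (hp : SU (insert P S) p)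
    (hp1 : od P p = 1) :
    ∃ M : VV K →ₗ[ℚ] VV K →ₗ[ℚ] ℚ, Alt M ∧ ∀ v ∈ VS S, ∀ x : K, TS (insert P S) x →
      φ v x = (od P (1 - x) : ℚ) * M v (lg x - (od P x : ℚ) • lg p) -
        (od P x : ℚ) * M v (lg (1 - x) - (od P (1 - x) : ℚ) • lg p) := by
  have hA' : ∀ v : VS S, ∃ A : VV K →ₗ[ℚ] VV K →ₗ[ℚ] ℚ, Alt A ∧
      (∀ x : K, x ≠ 0 → x ≠ 1 → φ v x = dA A x) ∧ ∀ u ∈ VS S, ∀ w ∈ VS S, A u w = 0 :=
    fun v => hφ v v.2
  choose A hAlt hAφ hAiso using hA'
  have key : ∀ v : VS S, ∀ u ∈ Ub C S P, A v (lg p) (lg u) = φ v u := by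
    intro v u hu
    obtain ⟨h0, h1, h2, h3, h4⟩ := ub_props h hA hu
    have h5 := st1_dec hp hp1 h3
    rw [h4, Int.cast_one, one_smul] at h5
    have h6 := hAiso v _ h5 _ (lg_mem_VS h2)
    rw [map_sub, LinearMap.sub_apply] at h6
    rw [hAφ v u h0 h1, dA]
    linarith
  let M0 : VS S →ₗ[ℚ] VS S →ₗ[ℚ] ℚ :=
    { toFun := fun v => (A v (lg p)).comp (VS S).subtype
      map_add' := by
        intro v w
        apply st1_uniq h
        intro u hu hu'
        change A (v + w) (lg p) (lg u) = A v (lg p) (lg u) + A w (lg p) (lg u)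
        rw [key _ u (ba_sub h hu), key _ u (ba_sub h hu), key _ u (ba_sub h hu)]
        rw [Submodule.coe_add, map_add, Pi.add_apply]
      map_smul' := by
        intro a v
        apply st1_uniq h
        intro u hu hu'
        change A (a • v) (lg p) (lg u) = a * A v (lg p) (lg u)
        rw [key _ u (ba_sub h hu), key _ u (ba_sub h hu)]
        rw [Submodule.coe_smul, map_smul, Pi.smul_apply, smul_eq_mul] }
  have hM0 : ∀ v w : VS S, M0 v w = A v (lg p) (w : VV K) := fun v w => rfl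
  obtain ⟨pr, hpr⟩ := (VS S).subtype.exists_leftInverse_of_injective (VS S).ker_subtype
  have hpr' : ∀ v : VS S, pr (v : VV K) = v := fun v => LinearMap.congr_fun hpr v
  have hpr'' : ∀ v ∈ VS S, ((pr v : VS S) : VV K) = v := fun v hv =>
    congrArg Subtype.val (hpr' ⟨v, hv⟩)
  have hMap : ∀ v w : VV K, (M0.compl₁₂ pr pr) v w = M0 (pr v) (pr w) := fun v w => rfl
  have hiso : ∀ v ∈ VS S, (M0.compl₁₂ pr pr) v v = 0 := by
    apply isotropy h
    intro u hu
    obtain ⟨h0, h1, h2, -, -⟩ := ub_props h hA hu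
    rw [hMap, hM0, hpr'' _ (lg_mem_VS h2), key _ u hu, hpr'' _ (lg_mem_VS h2)]
    exact hx u h0 h1
  refine ⟨M0.compl₁₂ pr pr, fun v => ?_, ?_⟩
  · have h1 := hiso (pr v) (pr v).2
    rw [hMap, hpr'] at h1
    rw [hMap]
    exact h1
  · intro v hv x hxT
    have e1 := st1_dec hp hp1 hxT.1
    have e2 := st1_dec hp hp1 hxT.2
    rw [hMap, hMap, hM0, hM0, hpr'' _ e1, hpr'' _ e2, hpr' ⟨v, hv⟩]
    have h1 := hAφ ⟨v, hv⟩ x hxT.1.1 hxT.ne_one
    have h2 := hAiso ⟨v, hv⟩ _ e2 _ e1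
    have h3 := hAlt ⟨v, hv⟩
    change φ v x = _ at h1
    rw [h1, dA]
    generalize A ⟨v, hv⟩ = B at h2 h3
    have h4 := h3 (lg p)
    have h5 : B (lg p) (lg (1 - x)) + B (lg (1 - x)) (lg p) = 0 := by
      have h6 := h3 (lg p + lg (1 - x))
      have h7 := h3 (lg (1 - x))
      simp only [map_add, LinearMap.add_apply] at h6
      linarith
    simp only [map_sub, map_smul, LinearMap.sub_apply, LinearMap.smul_apply, smul_eq_mul] at h2 ⊢
    rw [h4] at h2 ⊢
    have h8 : B (lg (1 - x)) (lg p) = - B (lg p) (lg (1 - x)) := by linarith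
    rw [h8] at h2
    linarith

end NFF
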