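import Pool.Agent.NFF.Defs
import Pool.Agent.NFF.Ord
import Pool.Agent.NFF.UbP
import Pool.Agent.NFF.Bs
import Pool.Agent.NFF.Mon
import Pool.Agent.NFF.Cp3
import Pool.Agent.NFF.St1
import Pool.Agent.NFF.St2

set_option autoImplicit false

/-!
# NFF-St3: the prime step
-/

namespace NFF

open NumberField TensorProduct
open IsDedekindDomain (HeightOneSpectrum)

variable {K : Type} [Field K] [NumberField K]

variable {C : ℕ}

/-- functions of the family which vanish on a level -/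
theorem fam_level {q0 : ℕ} (hfin : ∀ n : ℕ, (Low K n).Finite)
    (hL : ∀ (S : Set (Pr K)) (P : Pr K), Adm S P → q0 ≤ qn P → Lev C S P)
    {F : Submodule ℚ (K → ℚ)} {X : Finset K}
    (hX : ∀ f ∈ F, (∀ x ∈ X, f x = 0) → ∃ A : VV K →ₗ[ℚ] VV K →ₗ[ℚ] ℚ, Alt A ∧
      (∀ x : K, x ≠ 0 → x ≠ 1 → f x = dA A x) ∧
        ∀ u ∈ VS (Low K q0), ∀ v ∈ VS (Low K q0), A u v = 0)
    {T : Set (Pr K)} (hT : IsLv q0 T) {f : K → ℚ} (hf : f ∈ F) (hfX : ∀ x ∈ X, f x = 0)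
    (hz : ∀ (S : Set (Pr K)) (P : Pr K), Adm S P → q0 ≤ qn P → insert P S ⊆ T →
      ∀ u ∈ Ba C S P, f u = 0) :
    ∃ A : VV K →ₗ[ℚ] VV K →ₗ[ℚ] ℚ, Alt A ∧ (∀ x : K, x ≠ 0 → x ≠ 1 → f x = dA A x) ∧
      ∀ u ∈ VS T, ∀ v ∈ VS T, A u v = 0 := by
  obtain ⟨A, hA1, hA2, hA3⟩ := hX f hf hfX
  refine ⟨A, hA1, hA2, bs_all hfin hL A hA1 hA3 hT ?_⟩
  intro S P hA hq hS u hu
  have h := hL S P hA hq
  have hub := ub_props h hA (ba_sub h hu)
  rw [← hA2 u hub.1 hub.2.1]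
  exact hz S P hA hq hS u hu

theorem prime_step {q0 : ℕ} (hfin : ∀ n : ℕ, (Low K n).Finite)
    (hL : ∀ (S : Set (Pr K)) (P : Pr K), Adm S P → q0 ≤ qn P → Lev C S P)
    {F : Submodule ℚ (K → ℚ)} (hF : Fam F) {X : Finset K}
    (hX : ∀ f ∈ F, (∀ x ∈ X, f x = 0) → ∃ A : VV K →ₗ[ℚ] VV K →ₗ[ℚ] ℚ, Alt A ∧
      (∀ x : K, x ≠ 0 → x ≠ 1 → f x = dA A x) ∧
        ∀ u ∈ VS (Low K q0), ∀ v ∈ VS (Low K q0), A u v = 0)
    {S : Set (Pr K)} {P : Pr K} (hA : Adm S P) (hq : q0 ≤ qn P)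
    (hXS : ∀ x ∈ X, TS S x ∧ ∃ y ∈ Med K (qn P), ∃ z ∈ Med K (qn P), x = (y : K) / (z : K))
    (φ : VV K →ₗ[ℚ] (K → ℚ)) (h1 : ∀ v, φ v ∈ F)
    (h2 : ∀ x : K, x ≠ 0 → x ≠ 1 → φ (lg x) x = 0)
    (h3 : ∀ x : K, TS S x → ∀ v ∈ VS S, φ v x = 0) :
    ∃ T : VV K →ₗ[ℚ] VV K →ₗ[ℚ] VV K →ₗ[ℚ] ℚ, Alt3 T ∧
      ∀ x : K, TS (insert P S) x → ∀ v ∈ VS (insert P S), φ v x = T (lg (1 - x)) (lg x) v := by
  have lev := hL S P hA hq
  have hLv := (isLv_insert hA hq).1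
  obtain ⟨p0, hp, hp1⟩ := lev.unif
  have hM1 : ∀ v ∈ VS S, ∃ A : VV K →ₗ[ℚ] VV K →ₗ[ℚ] ℚ, Alt A ∧
      (∀ x : K, x ≠ 0 → x ≠ 1 → φ v x = dA A x) ∧ ∀ u ∈ VS S, ∀ w ∈ VS S, A u w = 0 := by
    intro v hv
    refine fam_level hfin hL hX hLv (h1 v) (fun x hx => h3 x (hXS x hx).1 v hv) ?_
    intro S2 P2 hA2 hq2 hS2 u hu
    exact h3 u ((ub_ts (hL S2 P2 hA2 hq2) hA2 (ba_sub (hL S2 P2 hA2 hq2) hu)).mono hS2) v hv
  obtain ⟨M, hM, hMf⟩ := exists_M lev hA φ hM1 h2 hp hp1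
  have hvp : vl P (lg (p0 : K)) = 1 := by
    rw [vl_lg, hp1, Int.cast_one]
  obtain ⟨T, hT, hTf⟩ := mk_T M hM (vl P) (lg (p0 : K)) hvp
  obtain ⟨φ', h1', h2', hφ'⟩ := fam_sub hF φ h1 h2 T hT
  have hskew : ∀ a b : VV K, M a b = - M b a := by
    intro a b
    have e := hM (a + b)
    simp only [map_add, LinearMap.add_apply] at e
    have ea := hM a
    have eb := hM b
    linarith
  -- the new family vanishes for `v` in `VS S`
  have hz1 : ∀ x : K, TS (insert P S) x → ∀ v ∈ VS S, φ' v x = 0 := by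
    intro x hx v hv
    have hv0 : vl P v = 0 := vl_eq_zero hA.notMem hv
    rw [hφ', hTf, hMf v hv x hx, hv0, vl_lg, vl_lg, zero_smul, sub_zero, zero_mul, add_zero,
      hskew (lg (1 - x) - (od P (1 - x) : ℚ) • lg (p0 : K)) v]
    ring
  have hdec : ∀ v ∈ VS (insert P S), v - vl P v • lg (p0 : K) ∈ VS S := by
    intro v hv
    refine mem_VS_of_vl (P := P)
      (Submodule.sub_mem _ hv (Submodule.smul_mem _ _ (lg_mem_VS hp))) ?_
    rw [map_sub, map_smul, hvp, smul_eq_mul, mul_one, sub_self]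
  have hval : ∀ x : K, TS (insert P S) x → ∀ v ∈ VS (insert P S),
      φ' v x = vl P v * φ' (lg (p0 : K)) x := by
    intro x hx v hv
    have e : φ' v = φ' (v - vl P v • lg (p0 : K)) + vl P v • φ' (lg (p0 : K)) := by
      rw [← map_smul, ← map_add, sub_add_cancel]
    rw [e, Pi.add_apply, Pi.smul_apply, hz1 x hx _ (hdec v hv), zero_add, smul_eq_mul]
  have hψ : Psi S P (φ' (lg (p0 : K))) := by
    have h5 := hF.five _ (h1' (lg (p0 : K)))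
    have hv : ∀ x : K, TS (insert P S) x → od P x ≠ 0 → φ' (lg (p0 : K)) x = 0 := by
      intro x hx ho
      have e1 := h2' x hx.1.1 hx.ne_one
      rw [hval x hx _ (lg_mem_VS hx.1), vl_lg] at e1
      exact (mul_eq_zero.1 e1).resolve_left (Int.cast_ne_zero.2 ho)
    refine ⟨h5, ?_⟩
    intro x hx ho
    rcases ho with ho | ho
    · exact hv x hx ho
    · have e1 := hv (1 - x) hx.one_sub ho
      rw [h5.sub x hx.1.1 hx.ne_one] at e1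
      linarith
  have h1med : (1 : 𝓞 K) ∈ Med K (qn P) :=
    lev.me0_med (lev.tin_me0 (lev.sml_tin lev.one_sml))
  have hψX : ∀ x ∈ X, φ' (lg (p0 : K)) x = 0 := by
    intro x hx
    obtain ⟨hts, y, hy, z, hz, rfl⟩ := hXS x hx
    exact psi_ty lev hA.notMem hψ (ty_med S (qn P) h1med hz hy) hts
  obtain ⟨A, -, hA2, hA3⟩ := fam_level hfin hL hX hLv (h1' (lg (p0 : K))) hψX (by
    intro S2 P2 hAd hq2 hS2 u hu
    have hts : TS S u := (ub_ts (hL S2 P2 hAd hq2) hAd (ba_sub (hL S2 P2 hAd hq2) hu)).mono hS2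
    obtain ⟨M', N', hty, -, -, rfl⟩ := hu
    exact psi_ty lev hA.notMem hψ
      (ty_mono (fun Q hQ => hS2 (Set.mem_insert_of_mem _ hQ))
        (hA.le P2 (hS2 (Set.mem_insert _ _))) hty) hts)
  have hψ0 : ∀ x : K, TS (insert P S) x → φ' (lg (p0 : K)) x = 0 := by
    intro x hx
    by_cases ho : od P x ≠ 0 ∨ od P (1 - x) ≠ 0
    · exact hψ.van x hx ho
    · push Not at ho
      have hsu : ∀ z : K, SU (insert P S) z → od P z = 0 → SU S z := by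
        intro z hz h0
        refine ⟨hz.1, fun Q hQ => ?_⟩
        by_cases hQP : Q = P
        · rw [hQP]
          exact h0
        · exact hz.2 Q fun hQ' => (Set.mem_insert_iff.1 hQ').elim hQP hQ
      rw [hA2 x hx.1.1 hx.ne_one, dA]
      exact hA3 _ (lg_mem_VS (hsu _ hx.2 ho.2)) _ (lg_mem_VS (hsu _ hx.1 ho.1))
  refine ⟨T, hT, ?_⟩
  intro x hx v hv
  have e1 := hval x hx v hv
  rw [hψ0 x hx, mul_zero, hφ'] at e1
  linarith

end NFF
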