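import Pool.Agent.NFF.Defs
import Pool.Agent.NFF.Ord
import Pool.Agent.NFF.LvI
import Pool.Agent.NFF.Bs
import Pool.Agent.NFF.Mon
import Pool.Agent.NFF.St2
import Pool.Agent.NFF.St3
import Pool.Agent.NFF.Geo

set_option autoImplicit false

/-!
# NFF-Mn: main theorem
-/

namespace NFF

open NumberField TensorProduct
open IsDedekindDomain (HeightOneSpectrum)

variable {K : Type} [Field K] [NumberField K]

private theorem Mn_ev (Z : Finset K) (m : ℕ) : (∀ z ∈ Z, z ≠ 0) →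
    ∃ n, m ≤ n ∧ ∀ z ∈ Z, SU (Low K n) z ∧
      ∀ q : ℕ, n ≤ q → ∃ y ∈ Med K q, ∃ w ∈ Med K q, z = (y : K) / (w : K) := by
  classical
  induction Z using Finset.induction_on with
  | empty => exact fun _ => ⟨m, le_rfl, fun z hz => absurd hz (Finset.notMem_empty z)⟩
  | insert a Z _ ih =>
    intro hZ
    obtain ⟨n, hn, h1⟩ := ih fun z hz => hZ z (Finset.mem_insert_of_mem hz)
    obtain ⟨n', h2, h3⟩ := eventually_med a (hZ a (Finset.mem_insert_self a Z))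
    refine ⟨max n n', hn.trans (le_max_left _ _), fun z hz => ?_⟩
    rcases Finset.mem_insert.1 hz with rfl | hz
    · refine ⟨⟨h2.1, fun Q hQ => h2.2 Q fun hQ' => hQ ?_⟩, fun q hq =>
        h3 q ((le_max_right _ _).trans hq)⟩
      exact lt_of_lt_of_le (show qn Q < n' from hQ') (le_max_right _ _)
    · obtain ⟨h4, h5⟩ := h1 z hz
      refine ⟨⟨h4.1, fun Q hQ => h4.2 Q fun hQ' => hQ ?_⟩, fun q hq =>
        h5 q ((le_max_left _ _).trans hq)⟩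
      exact lt_of_lt_of_le (show qn Q < n from hQ') (le_max_left _ _)

private theorem Mn_vs {S : Set (Pr K)} {x : K} (h : SU S x) : lg x ∈ VS S := by
  unfold VS
  exact Submodule.subset_span ⟨x, h, rfl⟩

private theorem Mn_su {S S' : Set (Pr K)} (h : S ⊆ S') {x : K} (hx : SU S x) : SU S' x :=
  ⟨hx.1, fun Q hQ => hx.2 Q fun hQ' => hQ (h hQ')⟩

private theorem Mn_fd (n : ℕ) : FiniteDimensional ℚ (VS (Low K n)) := by
  obtain ⟨Y, -, hY⟩ := vs_low_fin (K := K) n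
  rw [hY]
  exact FiniteDimensional.span_of_finite ℚ (Y.finite_toSet.image _)

theorem main {F : Submodule ℚ (K → ℚ)} (hF : Fam F) :
    ∃ (X0 Y0 : Finset K), (∀ x ∈ X0, x ≠ 0 ∧ x ≠ 1) ∧ (∀ y ∈ Y0, y ≠ 0) ∧
      ∀ φ : VV K →ₗ[ℚ] (K → ℚ), (∀ v, φ v ∈ F) → (∀ x : K, x ≠ 0 → x ≠ 1 → φ (lg x) x = 0) →
        (∀ x ∈ X0, ∀ y ∈ Y0, φ (lg y) x = 0) →
        ∀ X Y : Finset K, (∀ x ∈ X, x ≠ 0 ∧ x ≠ 1) → (∀ y ∈ Y, y ≠ 0) →
          ∃ T : VV K →ₗ[ℚ] VV K →ₗ[ℚ] VV K →ₗ[ℚ] ℚ, Alt3 T ∧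
            ∀ x ∈ X, ∀ y ∈ Y, φ (lg y) x = T (lg (1 - x)) (lg x) (lg y) := by
  classical
  obtain ⟨C, q0, hL⟩ := exists_lev K
  obtain ⟨X, hX01, hX⟩ := hF.fin (VS (Low K q0)) (Mn_fd q0)
  obtain ⟨q1, hq01, hq1⟩ := Mn_ev (X ∪ X.image fun x => 1 - x) q0 (by
    intro z hz
    rcases Finset.mem_union.1 hz with hz | hz
    · exact (hX01 z hz).1
    · obtain ⟨x, hx, rfl⟩ := Finset.mem_image.1 hz
      exact sub_ne_zero.2 (hX01 x hx).2.symm)
  have hXq : ∀ x ∈ X, TS (Low K q1) x ∧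
      ∀ q : ℕ, q1 ≤ q → ∃ y ∈ Med K q, ∃ w ∈ Med K q, x = (y : K) / (w : K) := by
    intro x hx
    obtain ⟨h1, h2⟩ := hq1 x (Finset.mem_union_left _ hx)
    obtain ⟨h3, -⟩ := hq1 (1 - x) (Finset.mem_union_right _ (Finset.mem_image_of_mem _ hx))
    exact ⟨⟨h1, h3⟩, h2⟩
  obtain ⟨X0, hX0, hX0'⟩ := hF.fin (VS (Low K q1)) (Mn_fd q1)
  obtain ⟨Y0, hY0, hY0'⟩ := vs_low_fin (K := K) q1
  refine ⟨X0, Y0, hX0, fun y hy => (hY0 y hy).1, fun φ h1 h2 h3 X' Y' hX' hY' => ?_⟩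
  -- the functional vanishes on the first level
  have h4 : ∀ x : K, TS (Low K q1) x → ∀ v ∈ VS (Low K q1), φ v x = 0 := by
    intro x hx v hv
    have h5 : ∀ x ∈ X0, φ v x = 0 := by
      intro x hx
      rw [hY0'] at hv
      induction hv using Submodule.span_induction with
      | mem v hv =>
        obtain ⟨y, hy, rfl⟩ := hv
        exact h3 x hx y hy
      | zero => rw [map_zero]; rfl
      | add v w _ _ hv hw =>
        rw [map_add, Pi.add_apply, hv, hw, add_zero]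
      | smul r v _ hv => rw [map_smul, Pi.smul_apply, hv, smul_zero]
    obtain ⟨A, -, hA, hA0⟩ := hX0' (φ v) (h1 v) h5
    have h6 : x ≠ 1 := by
      rintro rfl
      exact hx.2.1 (sub_self 1)
    rw [hA x hx.1.1 h6]
    exact hA0 _ (Mn_vs hx.2) _ (Mn_vs hx.1)
  -- the induction
  have h5 : ∀ S : Set (Pr K), IsLv q1 S → ∃ T : VV K →ₗ[ℚ] VV K →ₗ[ℚ] VV K →ₗ[ℚ] ℚ, Alt3 T ∧
      ∀ x : K, TS S x → ∀ v ∈ VS S, φ v x = T (lg (1 - x)) (lg x) v := by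
    intro S hS
    refine lv_induct low_finite (n0 := q1) (fun S => ∃ T : VV K →ₗ[ℚ] VV K →ₗ[ℚ] VV K →ₗ[ℚ] ℚ,
      Alt3 T ∧ ∀ x : K, TS S x → ∀ v ∈ VS S, φ v x = T (lg (1 - x)) (lg x) v) ?_ ?_ hS
    · exact ⟨0, ⟨fun _ _ => rfl, fun _ _ => rfl⟩, fun x hx v hv => h4 x hx v hv⟩
    · rintro S P hA hq hS ⟨T, hT, hT'⟩
      obtain ⟨φ', h6, h7, h8⟩ := fam_sub hF φ h1 h2 T hT
      obtain ⟨T', hT1, hT2⟩ := prime_step low_finite hL hF hX hA (hq01.trans hq)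
        (fun x hx => ⟨⟨Mn_su hS.1 (hXq x hx).1.1, Mn_su hS.1 (hXq x hx).1.2⟩,
          (hXq x hx).2 (qn P) hq⟩) φ' h6 h7 (by
          intro x hx v hv
          rw [h8, hT' x hx v hv, sub_self])
      refine ⟨T + T', ⟨fun a b => ?_, fun a b => ?_⟩, fun x hx v hv => ?_⟩
      · simp only [LinearMap.add_apply]
        rw [hT.1, hT1.1, add_zero]
      · simp only [LinearMap.add_apply]
        rw [hT.2, hT1.2, add_zero]
      · simp only [LinearMap.add_apply]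
        rw [← hT2 x hx v hv, h8]
        ring
  obtain ⟨n, hn, hn'⟩ := Mn_ev (X' ∪ X'.image (fun x => 1 - x) ∪ Y') q1 (by
    intro z hz
    rcases Finset.mem_union.1 hz with hz | hz
    · rcases Finset.mem_union.1 hz with hz | hz
      · exact (hX' z hz).1
      · obtain ⟨x, hx, rfl⟩ := Finset.mem_image.1 hz
        exact sub_ne_zero.2 (hX' x hx).2.symm
    · exact hY' z hz)
  obtain ⟨T, hT, hT'⟩ := h5 (Low K n) (isLv_low q1 n hn)
  refine ⟨T, hT, fun x hx y hy => hT' x ⟨?_, ?_⟩ _ (Mn_vs ?_)⟩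
  · exact (hn' x (Finset.mem_union_left _ (Finset.mem_union_left _ hx))).1
  · exact (hn' (1 - x) (Finset.mem_union_left _ (Finset.mem_union_right _
      (Finset.mem_image_of_mem _ hx)))).1
  · exact (hn' y (Finset.mem_union_right _ hy)).1

end NFF
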