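import Pool.Agent.NFF.Defs

set_option autoImplicit false

/-!
# Project NFF, block G: properties of `lg` (helper13)
-/

namespace NFF

open NumberField TensorProduct
open IsDedekindDomain (HeightOneSpectrum)

section field

variable {K : Type} [Field K]

lemma lg_of_ne {x : K} (h : x ≠ 0) :
    lg x = (1 : ℚ) ⊗ₜ[ℤ] Additive.ofMul (Units.mk0 x h) := dif_neg h

lemma lg_zero : lg (0 : K) = 0 := dif_pos rfl

lemma lg_one : lg (1 : K) = 0 := by
  rw [lg_of_ne one_ne_zero]
  have h1 : Units.mk0 (1 : K) one_ne_zero = 1 := Units.ext rfl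
  rw [h1, ofMul_one, TensorProduct.tmul_zero]

lemma lg_mul {x y : K} (hx : x ≠ 0) (hy : y ≠ 0) : lg (x * y) = lg x + lg y := by
  rw [lg_of_ne hx, lg_of_ne hy, lg_of_ne (mul_ne_zero hx hy), ← TensorProduct.tmul_add,
    ← ofMul_mul]
  have h1 : Units.mk0 (x * y) (mul_ne_zero hx hy) = Units.mk0 x hx * Units.mk0 y hy :=
    Units.ext rfl
  rw [h1]

lemma lg_inv (x : K) : lg x⁻¹ = - lg x := by
  by_cases hx : x = 0
  · rw [hx, inv_zero, lg_zero, neg_zero]
  · have h1 := lg_mul hx (inv_ne_zero hx)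
    rw [mul_inv_cancel₀ hx, lg_one] at h1
    exact (neg_eq_of_add_eq_zero_right h1.symm).symm

lemma lg_div {x y : K} (hx : x ≠ 0) (hy : y ≠ 0) : lg (x / y) = lg x - lg y := by
  rw [div_eq_mul_inv, lg_mul hx (inv_ne_zero hy), lg_inv, sub_eq_add_neg]

lemma lg_neg_one : lg (-1 : K) = 0 := by
  have hne : (-1 : K) ≠ 0 := neg_ne_zero.mpr one_ne_zero
  have h1 := lg_mul hne hne
  rw [neg_one_mul, neg_neg, lg_one] at h1
  have h2 : (2 : ℚ) • lg (-1 : K) = 0 := by
    rw [two_smul]; exact h1.symm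
  exact (smul_eq_zero.mp h2).resolve_left two_ne_zero

lemma lg_neg (x : K) : lg (-x) = lg x := by
  by_cases hx : x = 0
  · rw [hx, neg_zero]
  · have hne : (-1 : K) ≠ 0 := neg_ne_zero.mpr one_ne_zero
    have h1 := lg_mul hne hx
    rw [neg_one_mul, lg_neg_one, zero_add] at h1
    exact h1

lemma lg_pow (x : K) (n : ℕ) : lg (x ^ n) = (n : ℚ) • lg x := by
  by_cases hx : x = 0
  · subst hx
    rcases Nat.eq_zero_or_pos n with hn | hn
    · rw [hn, pow_zero, lg_one, Nat.cast_zero, zero_smul]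
    · rw [zero_pow hn.ne', lg_zero, smul_zero]
  · induction n with
    | zero => rw [pow_zero, lg_one, Nat.cast_zero, zero_smul]
    | succ n ih =>
      rw [pow_succ, lg_mul (pow_ne_zero n hx) hx, ih, Nat.cast_succ, add_smul, one_smul]

lemma lg_zpow (x : K) (n : ℤ) : lg (x ^ n) = (n : ℚ) • lg x := by
  obtain ⟨m, hm | hm⟩ := n.eq_nat_or_neg
  · rw [hm, zpow_natCast, lg_pow, Int.cast_natCast]
  · rw [hm, zpow_neg, zpow_natCast, lg_inv, lg_pow, Int.cast_neg, Int.cast_natCast, neg_smul]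

lemma lg_prod {ι : Type*} (s : Finset ι) (f : ι → K) (h : ∀ i ∈ s, f i ≠ 0) :
    lg (∏ i ∈ s, f i) = ∑ i ∈ s, lg (f i) := by
  classical
  induction s using Finset.induction_on with
  | empty => rw [Finset.prod_empty, Finset.sum_empty, lg_one]
  | insert a s ha ih =>
    rw [Finset.prod_insert ha, Finset.sum_insert ha,
      lg_mul (h a (Finset.mem_insert_self a s))
        (Finset.prod_ne_zero_iff.mpr fun i hi => h i (Finset.mem_insert_of_mem hi)),
      ih fun i hi => h i (Finset.mem_insert_of_mem hi)]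

/-- every element of `V` is a rational multiple of some `lg x` -/
lemma exists_lg (v : VV K) : ∃ x : K, x ≠ 0 ∧ ∃ r : ℚ, v = r • lg x := by
  induction v using TensorProduct.induction_on with
  | zero => exact ⟨1, one_ne_zero, 0, by rw [zero_smul]⟩
  | tmul r u =>
    refine ⟨((Additive.toMul u : Kˣ) : K), Units.ne_zero _, r, ?_⟩
    rw [lg_of_ne (Units.ne_zero _)]
    have h1 : Units.mk0 ((Additive.toMul u : Kˣ) : K) (Units.ne_zero _) = Additive.toMul u :=
      Units.ext rfl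
    rw [h1, ofMul_toMul, TensorProduct.smul_tmul', smul_eq_mul, mul_one]
  | add v w hv hw =>
    obtain ⟨x, hx, r, hr⟩ := hv
    obtain ⟨y, hy, t, ht⟩ := hw
    refine ⟨x ^ (r.num * t.den) * y ^ (t.num * r.den),
      mul_ne_zero (zpow_ne_zero _ hx) (zpow_ne_zero _ hy), ((r.den : ℚ) * t.den)⁻¹, ?_⟩
    have hrd : (r.den : ℚ) ≠ 0 := Nat.cast_ne_zero.mpr r.den_ne_zero
    have htd : (t.den : ℚ) ≠ 0 := Nat.cast_ne_zero.mpr t.den_ne_zero
    have hr1 : (r.num : ℚ) = r * r.den := (Rat.mul_den_eq_num r).symm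
    have ht1 : (t.num : ℚ) = t * t.den := (Rat.mul_den_eq_num t).symm
    rw [lg_mul (zpow_ne_zero _ hx) (zpow_ne_zero _ hy), lg_zpow, lg_zpow, smul_add, smul_smul,
      smul_smul, hr, ht]
    congr 1
    · congr 1
      push_cast
      rw [hr1]
      field_simp
    · congr 1
      push_cast
      rw [ht1]
      field_simp

lemma span_lg : Submodule.span ℚ (lg '' {x : K | x ≠ 0}) = ⊤ := by
  rw [eq_top_iff]
  intro v _
  obtain ⟨x, hx, r, hr⟩ := exists_lg v
  rw [hr]
  exact Submodule.smul_mem _ _ (Submodule.subset_span ⟨x, hx, rfl⟩)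

lemma lin_ext {M : Type*} [AddCommGroup M] [Module ℚ M] {f g : VV K →ₗ[ℚ] M}
    (h : ∀ x : K, x ≠ 0 → f (lg x) = g (lg x)) : f = g := by
  refine LinearMap.ext fun v => ?_
  obtain ⟨x, hx, r, hr⟩ := exists_lg v
  rw [hr, map_smul, map_smul, h x hx]

end field

end NFF
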