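import Pool.Agent.NFF.St3

set_option autoImplicit false

/-!
# Functions of the family at one prime
-/

namespace NFF

open NumberField TensorProduct
open IsDedekindDomain (HeightOneSpectrum)

variable {K : Type} [Field K] [NumberField K]

variable {C : ℕ}

theorem psi_step {q0 : ℕ} (hfin : ∀ n : ℕ, (Low K n).Finite)
    (hL : ∀ (S : Set (Pr K)) (P : Pr K), Adm S P → q0 ≤ qn P → Lev C S P)
    {F : Submodule ℚ (K → ℚ)} (hF : Fam F) {X : Finset K}
    (hX : ∀ f ∈ F, (∀ x ∈ X, f x = 0) → ∃ A : VV K →ₗ[ℚ] VV K →ₗ[ℚ] ℚ, Alt A ∧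
      (∀ x : K, x ≠ 0 → x ≠ 1 → f x = dA A x) ∧
        ∀ u ∈ VS (Low K q0), ∀ v ∈ VS (Low K q0), A u v = 0)
    {S : Set (Pr K)} {P : Pr K} (hA : Adm S P) (hq : q0 ≤ qn P)
    (hXS : ∀ x ∈ X, TS S x ∧ ∃ y ∈ Med K (qn P), ∃ z ∈ Med K (qn P), x = (y : K) / (z : K))
    {f : K → ℚ} (hf : f ∈ F) (hv : ∀ x : K, TS (insert P S) x → od P x ≠ 0 → f x = 0) :
    ∀ x : K, TS (insert P S) x → f x = 0 := by
  have lev := hL S P hA hq
  have hLv := (isLv_insert hA hq).1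
  have hψ : Psi S P f := by
    have h5 := hF.five _ hf
    refine ⟨h5, ?_⟩
    intro x hx ho
    rcases ho with ho | ho
    · exact hv x hx ho
    · have e1 := hv (1 - x) hx.one_sub ho
      rw [h5.sub x hx.1.1 hx.ne_one] at e1
      linarith
  have h1med : (1 : 𝓞 K) ∈ Med K (qn P) :=
    lev.me0_med (lev.tin_me0 (lev.sml_tin lev.one_sml))
  have hψX : ∀ x ∈ X, f x = 0 := by
    intro x hx
    obtain ⟨hts, y, hy, z, hz, rfl⟩ := hXS x hx
    exact psi_ty lev hA.notMem hψ (ty_med S (qn P) h1med hz hy) hts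
  obtain ⟨A, -, hA2, hA3⟩ := fam_level hfin hL hX hLv hf hψX (by
    intro S2 P2 hAd hq2 hS2 u hu
    have hts : TS S u := (ub_ts (hL S2 P2 hAd hq2) hAd (ba_sub (hL S2 P2 hAd hq2) hu)).mono hS2
    obtain ⟨M', N', hty, -, -, rfl⟩ := hu
    exact psi_ty lev hA.notMem hψ
      (ty_mono (fun Q hQ => hS2 (Set.mem_insert_of_mem _ hQ))
        (hA.le P2 (hS2 (Set.mem_insert _ _))) hty) hts)
  intro x hx
  by_cases ho : od P x ≠ 0 ∨ od P (1 - x) ≠ 0
  · exact hψ.van x hx ho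
  · push Not at ho
    have hsu : ∀ z : K, SU (insert P S) z → od P z = 0 → SU S z := by
      intro z hz h0
      refine ⟨hz.1, fun Q hQ => ?_⟩
      by_cases hQP : Q = P
      · rw [hQP]
        exact h0
      · exact hz.2 Q fun hQ' => (Set.mem_insert_iff.1 hQ').elim hQP hQ
    rw [hA2 x hx.1.1 hx.ne_one, dA]
    exact hA3 _ (lg_mem_VS (hsu _ hx.2 ho.2)) _ (lg_mem_VS (hsu _ hx.1 ho.1))

end NFF
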